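import Pool.Agent.DB.Defs
import Pool.Agent.NOne.BFlow

/-!
# MP_74f563_an, n = 2 autonomous (D2), file DB/Bas: basic facts on `L` and on the flow

PROOFS.  `D = fderiv ℝ L` is analytic (`AnalyticOnNhd.fderiv`), `pm L z = (D z) ∘ inr`,
`lx L z = (D z) ∘ inl`, `en L z = D z (0, z.2) - L z`.
`smooth`, `fsmooth`: `AnalyticOnNhd.contDiffOn` on `univ`.
`pm_per`: `L (z + c) = L z` gives `fderiv ℝ L (z + c) = fderiv ℝ L z` (`fderiv_comp_add_right`).
`lvv_symm`: symmetry of the second derivative (`ContDiffAt.isSymmSndFDerivAt`).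
`pm_dv`: `fderiv ℝ (pm L) z u w = D² L z u (0, w)` (derivative of `z ↦ (D z) ∘ inr`, a continuous linear
map applied to `D`).
`en_dv`: derivative of `z ↦ D z (0, z.2) - L z` in the direction `(0, w)`:
`D² L z (0, w) (0, z.2) + D z (0, w) - D z (0, w)`.
`en_const`: `t ↦ pm L (Fl t z)` has the derivative `lx L (Fl t z)` (`el`); the right side and
`(Fl t z).2` are differentiable in `t` (`fana`); with `P t = pm L (Fl t z)`, `X = (Fl t z).1`,
`W = (Fl t z).2`, `X' = W` (`vel`):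
`(P W - L(X, W))' = P' W + P W' - lx W - pm W' = 0`.  `is_const_of_deriv_eq_zero`, `zero`.
`neg`: `add`, `zero`.  `dinj`: `Fl (-t) ∘ Fl t = id`, chain rule.
`fl_deriv`: `Fl (s + t) z = Fl s (Fl t z)` (`add`), derivative at `s = 0`.  `vf_fst`: `vel` at `t = 0`.
`dfl_vf`: `Fl (t + s) z = Fl t (Fl s z) = Fl s (Fl t z)` (`add`, `add_comm`), derivative at `s = 0`.
`vf_ana`: `vf Fl z = fderiv ℝ (fun q => Fl q.1 q.2) (0, z) (1, 0)`.
`dfl_ana`: `fderiv ℝ (Fl t) z u = fderiv ℝ (fun q => Fl q.1 q.2) (t, z) (0, u)`.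
`var_fst`: with `G q = (Fl q.1 q.2).1` analytic, `fderiv ℝ (Fl t) z u`, first component `= D G (t, z) (0, u)`;
its derivative in `t` is `D² G (t, z) (1, 0) (0, u) = D² G (t, z) (0, u) (1, 0)` (symmetry) and
`D G (t, y) (1, 0) = (Fl t y).2` (`vel`) for all `y`, whose derivative in the direction `u` at `z` is the
second component of `fderiv ℝ (Fl t) z u`.
`en_var`: differentiate `en L (Fl t y) = en L y` with respect to `y`.  `en_vf`: differentiate
`en L (Fl t z) = en L z` with respect to `t` at `0`.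
`vne`: `rest`.
-/

set_option autoImplicit false

namespace Pool.Agent.DB

open Set
open scoped ContDiff

variable {L : PP → ℝ} {Fl : ℝ → PP → PP}

private theorem Bas.hL (h : Dyn L Fl) : ContDiff ℝ ω L := h.ana.contDiff

private theorem Bas.hDL (h : Dyn L Fl) : ContDiff ℝ ω (fderiv ℝ L) :=
  (Bas.hL h).fderiv_right le_rfl

private theorem Bas.dDL (h : Dyn L Fl) (z : PP) :
    HasFDerivAt (fderiv ℝ L) (fderiv ℝ (fderiv ℝ L) z) z :=
  ((Bas.hDL h).differentiable (by simp) z).hasFDerivAt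

/-- composition with the injection of the velocities -/
private noncomputable def Bas.Lam : (PP →L[ℝ] ℝ) →L[ℝ] (R2 →L[ℝ] ℝ) :=
  (ContinuousLinearMap.compL ℝ R2 PP ℝ).flip (ContinuousLinearMap.inr ℝ R2 R2)

private noncomputable def Bas.Lam1 : (PP →L[ℝ] ℝ) →L[ℝ] (R2 →L[ℝ] ℝ) :=
  (ContinuousLinearMap.compL ℝ R2 PP ℝ).flip (ContinuousLinearMap.inl ℝ R2 R2)

private theorem Bas.pm_eq : pm L = fun z => Bas.Lam (fderiv ℝ L z) := rfl

private theorem Bas.lx_eq : lx L = fun z => Bas.Lam1 (fderiv ℝ L z) := rfl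

private theorem Bas.hpm (h : Dyn L Fl) : ContDiff ℝ ω (pm L) := by
  rw [Bas.pm_eq]
  exact Bas.Lam.contDiff.comp (Bas.hDL h)

private theorem Bas.hlx (h : Dyn L Fl) : ContDiff ℝ ω (lx L) := by
  rw [Bas.lx_eq]
  exact Bas.Lam1.contDiff.comp (Bas.hDL h)

private theorem Bas.hen (h : Dyn L Fl) : ContDiff ℝ ω (en L) :=
  ((Bas.hpm h).clm_apply contDiff_snd).sub (Bas.hL h)

private theorem Bas.dpm (h : Dyn L Fl) (z : PP) :
    HasFDerivAt (pm L) (Bas.Lam.comp (fderiv ℝ (fderiv ℝ L) z)) z := by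
  rw [Bas.pm_eq]
  exact Bas.Lam.hasFDerivAt.comp z (Bas.dDL h z)

private theorem Bas.den (h : Dyn L Fl) (z : PP) :
    HasFDerivAt (en L) (((pm L z).comp (ContinuousLinearMap.snd ℝ R2 R2) +
      (Bas.Lam.comp (fderiv ℝ (fderiv ℝ L) z)).flip z.2) - fderiv ℝ L z) z :=
  ((Bas.dpm h z).clm_apply hasFDerivAt_snd).sub
    ((Bas.hL h).differentiable (by simp) z).hasFDerivAt

private theorem Bas.fdL_per (h : Dyn L Fl) (k : ℤ × ℤ) (z : PP) :
    fderiv ℝ L (z + (zz k, 0)) = fderiv ℝ L z := by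
  have h1 : (fun x => L (x + (zz k, 0))) = L := funext fun x => h.per k x
  rw [← fderiv_comp_add_right, h1]

private theorem Bas.split (z d : PP) : fderiv ℝ L z d = lx L z d.1 + pm L z d.2 := by
  change fderiv ℝ L z d = fderiv ℝ L z (d.1, 0) + fderiv ℝ L z (0, d.2)
  rw [← map_add]
  congr 1
  ext <;> simp

private theorem Bas.hG (h : Dyn L Fl) : ContDiff ℝ ω (fun q : ℝ × PP => Fl q.1 q.2) :=
  h.fana.contDiff

private theorem Bas.dG (h : Dyn L Fl) (q : ℝ × PP) :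
    HasFDerivAt (fun q : ℝ × PP => Fl q.1 q.2) (fderiv ℝ (fun q : ℝ × PP => Fl q.1 q.2) q) q :=
  ((Bas.hG h).differentiable (by simp) q).hasFDerivAt

private theorem Bas.dt (h : Dyn L Fl) (t : ℝ) (z : PP) :
    HasDerivAt (fun t => Fl t z) (fderiv ℝ (fun q : ℝ × PP => Fl q.1 q.2) (t, z) (1, 0)) t := by
  have h1 : HasDerivAt (fun t : ℝ => ((t, z) : ℝ × PP)) (1, 0) t :=
    (hasDerivAt_id t).prodMk (hasDerivAt_const t z)
  exact HasFDerivAt.comp_hasDerivAt t (Bas.dG h (t, z)) h1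

private theorem Bas.dz (h : Dyn L Fl) (t : ℝ) (z : PP) :
    HasFDerivAt (Fl t) ((fderiv ℝ (fun q : ℝ × PP => Fl q.1 q.2) (t, z)).comp
      (ContinuousLinearMap.inr ℝ ℝ PP)) z := by
  have h1 : HasFDerivAt (fun z : PP => ((t, z) : ℝ × PP)) (ContinuousLinearMap.inr ℝ ℝ PP) z :=
    hasFDerivAt_prodMk_right t z
  exact HasFDerivAt.comp z (Bas.dG h (t, z)) h1

/-! ### The Lagrangian -/

theorem Dyn.smooth (h : Dyn L Fl) (n : WithTop ℕ∞) : ContDiff ℝ n L :=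
  h.ana.contDiff

theorem Dyn.pm_ana (h : Dyn L Fl) : AnalyticOnNhd ℝ (pm L) univ :=
  contDiff_omega_iff_analyticOnNhd.1 (Bas.hpm h)

theorem Dyn.lx_ana (h : Dyn L Fl) : AnalyticOnNhd ℝ (lx L) univ :=
  contDiff_omega_iff_analyticOnNhd.1 (Bas.hlx h)

theorem Dyn.en_ana (h : Dyn L Fl) : AnalyticOnNhd ℝ (en L) univ :=
  contDiff_omega_iff_analyticOnNhd.1 (Bas.hen h)

theorem Dyn.pm_per (h : Dyn L Fl) (k : ℤ × ℤ) (z : PP) : pm L (z + (zz k, 0)) = pm L z := by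
  rw [pm, pm, Bas.fdL_per h k z]

theorem Dyn.en_per (h : Dyn L Fl) (k : ℤ × ℤ) (z : PP) : en L (z + (zz k, 0)) = en L z := by
  rw [en, en, h.pm_per k z, h.per k z]
  simp

theorem Dyn.lvv_per (h : Dyn L Fl) (k : ℤ × ℤ) (z : PP) (u w : R2) :
    Lvv L (z + (zz k, 0)) u w = Lvv L z u w := by
  have h1 : (fun x => fderiv ℝ L (x + (zz k, 0))) = fderiv ℝ L :=
    funext fun x => Bas.fdL_per h k x
  rw [Lvv, Lvv, ← fderiv_comp_add_right, h1]

theorem Dyn.lvv_symm (h : Dyn L Fl) (z : PP) (u w : R2) : Lvv L z u w = Lvv L z w u :=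
  ((Bas.hL h).contDiffAt.isSymmSndFDerivAt (by simp)).eq (0, u) (0, w)

theorem lvv_lin (L : PP → ℝ) (z : PP) (u u' w : R2) (a b : ℝ) :
    Lvv L z (a • u + b • u') w = a * Lvv L z u w + b * Lvv L z u' w := by
  have h1 : ((0, a • u + b • u') : PP) = a • ((0, u) : PP) + b • ((0, u') : PP) := by
    ext <;> simp
  rw [Lvv, h1, map_add, map_smul, map_smul]
  rfl

theorem lvv_lin' (L : PP → ℝ) (z : PP) (u u' w : R2) (a b : ℝ) :
    Lvv L z w (a • u + b • u') = a * Lvv L z w u + b * Lvv L z w u' := by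
  have h1 : ((0, a • u + b • u') : PP) = a • ((0, u) : PP) + b • ((0, u') : PP) := by
    ext <;> simp
  rw [Lvv, h1, map_add, map_smul, map_smul]
  rfl

theorem Dyn.pm_dv (h : Dyn L Fl) (z : PP) (w u : R2) :
    fderiv ℝ (pm L) z (0, w) u = Lvv L z w u := by
  rw [(Bas.dpm h z).fderiv]
  rfl

theorem Dyn.en_dv (h : Dyn L Fl) (z : PP) (w : R2) :
    fderiv ℝ (en L) z (0, w) = Lvv L z z.2 w := by
  rw [(Bas.den h z).fderiv, h.lvv_symm z z.2 w]
  change (fderiv ℝ L z (0, w) + fderiv ℝ (fderiv ℝ L) z (0, w) (0, z.2)) - fderiv ℝ L z (0, w) =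
    fderiv ℝ (fderiv ℝ L) z (0, w) (0, z.2)
  ring

/-! ### The flow -/

/-- the vector field of the flow -/
noncomputable def vf (Fl : ℝ → PP → PP) (z : PP) : PP := deriv (fun t => Fl t z) 0

theorem Dyn.fsmooth (h : Dyn L Fl) (n : WithTop ℕ∞) :
    ContDiff ℝ n (fun q : ℝ × PP => Fl q.1 q.2) :=
  h.fana.contDiff

theorem Dyn.en_const (h : Dyn L Fl) (t : ℝ) (z : PP) : en L (Fl t z) = en L z := by
  have key : ∀ s : ℝ, HasDerivAt (fun s => en L (Fl s z)) 0 s := by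
    intro s
    have h1 := Bas.dt h s z
    set d := fderiv ℝ (fun q : ℝ × PP => Fl q.1 q.2) (s, z) (1, 0) with hd
    have h2 : HasDerivAt (fun t => (Fl t z).1) d.1 s := h1.fst
    have h3 : HasDerivAt (fun t => (Fl t z).2) d.2 s := h1.snd
    have h4 : d.1 = (Fl s z).2 := h2.unique (h.vel s z)
    have h5 : HasDerivAt (fun t => pm L (Fl t z) (Fl t z).2)
        (lx L (Fl s z) (Fl s z).2 + pm L (Fl s z) d.2) s := (h.el s z).clm_apply h3
    have h6 : HasDerivAt (fun t => L (Fl t z)) (fderiv ℝ L (Fl s z) d) s :=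
      HasFDerivAt.comp_hasDerivAt s
        ((Bas.hL h).differentiable (by simp) (Fl s z)).hasFDerivAt h1
    have h7 := h5.sub h6
    rw [Bas.split, h4, sub_self] at h7
    exact h7
  have h1 := is_const_of_deriv_eq_zero (fun s => (key s).differentiableAt)
    (fun s => (key s).deriv) t 0
  simp only [h.zero] at h1
  exact h1

theorem Dyn.neg (h : Dyn L Fl) (t : ℝ) (z : PP) : Fl (-t) (Fl t z) = z := by
  rw [← h.add, neg_add_cancel, h.zero]

theorem Dyn.fl_diff (h : Dyn L Fl) (t : ℝ) (z : PP) : DifferentiableAt ℝ (Fl t) z :=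
  (Bas.dz h t z).differentiableAt

theorem Dyn.dinj (h : Dyn L Fl) (t : ℝ) (z : PP) : Function.Injective (fderiv ℝ (Fl t) z) := by
  have h1 : HasFDerivAt (Fl (-t) ∘ Fl t) ((fderiv ℝ (Fl (-t)) (Fl t z)).comp
      (fderiv ℝ (Fl t) z)) z :=
    (h.fl_diff (-t) (Fl t z)).hasFDerivAt.comp z (h.fl_diff t z).hasFDerivAt
  have h2 : Fl (-t) ∘ Fl t = id := funext fun z => h.neg t z
  rw [h2] at h1
  have h3 := h1.unique (hasFDerivAt_id z)
  refine Function.LeftInverse.injective (g := fderiv ℝ (Fl (-t)) (Fl t z)) fun u => ?_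
  exact congrArg (fun f : PP →L[ℝ] PP => f u) h3

private theorem Bas.vf_eq (h : Dyn L Fl) (z : PP) :
    vf Fl z = fderiv ℝ (fun q : ℝ × PP => Fl q.1 q.2) (0, z) (1, 0) :=
  (Bas.dt h 0 z).deriv

private theorem Bas.vf_der (h : Dyn L Fl) (z : PP) : HasDerivAt (fun t => Fl t z) (vf Fl z) 0 := by
  rw [Bas.vf_eq h z]
  exact Bas.dt h 0 z

theorem Dyn.vf_ana (h : Dyn L Fl) : AnalyticOnNhd ℝ (vf Fl) univ := by
  refine contDiff_omega_iff_analyticOnNhd.1 ?_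
  have h0 : vf Fl = fun z => fderiv ℝ (fun q : ℝ × PP => Fl q.1 q.2) (0, z) (1, 0) :=
    funext (Bas.vf_eq h)
  rw [h0]
  have h1 : ContDiff ℝ ω (fderiv ℝ (fun q : ℝ × PP => Fl q.1 q.2)) :=
    (Bas.hG h).fderiv_right le_rfl
  have h2 : ContDiff ℝ ω (fun z : PP => ((0, z) : ℝ × PP)) := contDiff_const.prodMk contDiff_id
  have h3 : ContDiff ℝ ω (fun z : PP => fderiv ℝ (fun q : ℝ × PP => Fl q.1 q.2) (0, z)) :=
    h1.comp h2
  exact h3.clm_apply (contDiff_const (c := ((1, 0) : ℝ × PP)))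

theorem Dyn.fl_deriv (h : Dyn L Fl) (t : ℝ) (z : PP) :
    HasDerivAt (fun t => Fl t z) (vf Fl (Fl t z)) t := by
  have h1 : (fun τ => Fl τ z) = fun τ => (fun s => Fl s (Fl t z)) (τ - t) := by
    funext τ
    change Fl τ z = Fl (τ - t) (Fl t z)
    rw [← h.add, sub_add_cancel]
  have h2 : HasDerivAt (fun s => Fl s (Fl t z)) (vf Fl (Fl t z)) (t - t) := by
    rw [sub_self]
    exact Bas.vf_der h (Fl t z)
  rw [h1]
  exact h2.comp_sub_const t t

theorem Dyn.vf_fst (h : Dyn L Fl) (z : PP) : (vf Fl z).1 = z.2 := by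
  have h1 : HasDerivAt (fun t => (Fl t z).1) (vf Fl z).1 0 := (Bas.vf_der h z).fst
  have h2 := h1.unique (h.vel 0 z)
  rw [h.zero] at h2
  exact h2

theorem Dyn.dfl_vf (h : Dyn L Fl) (t : ℝ) (z : PP) :
    fderiv ℝ (Fl t) z (vf Fl z) = vf Fl (Fl t z) := by
  have h1 : HasFDerivAt (Fl t) (fderiv ℝ (Fl t) z) (Fl 0 z) := by
    rw [h.zero]
    exact (h.fl_diff t z).hasFDerivAt
  have h2 : HasDerivAt (Fl t ∘ fun s => Fl s z) (fderiv ℝ (Fl t) z (vf Fl z)) 0 :=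
    h1.comp_hasDerivAt 0 (Bas.vf_der h z)
  have h3 : (Fl t ∘ fun s => Fl s z) = fun s => Fl s (Fl t z) := by
    funext s
    change Fl t (Fl s z) = Fl s (Fl t z)
    rw [← h.add, ← h.add, add_comm]
  rw [h3] at h2
  exact h2.unique (Bas.vf_der h (Fl t z))

private theorem Bas.dfl_eq (h : Dyn L Fl) (t : ℝ) (z u : PP) :
    fderiv ℝ (Fl t) z u = fderiv ℝ (fun q : ℝ × PP => Fl q.1 q.2) (t, z) (0, u) := by
  rw [(Bas.dz h t z).fderiv]
  rfl

theorem Dyn.dfl_ana (h : Dyn L Fl) (u : PP) :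
    AnalyticOnNhd ℝ (fun q : ℝ × PP => fderiv ℝ (Fl q.1) q.2 u) univ := by
  refine contDiff_omega_iff_analyticOnNhd.1 ?_
  have h1 : ContDiff ℝ ω (fderiv ℝ (fun q : ℝ × PP => Fl q.1 q.2)) :=
    (Bas.hG h).fderiv_right le_rfl
  have h2 : (fun q : ℝ × PP => fderiv ℝ (Fl q.1) q.2 u) =
      fun q => fderiv ℝ (fun q : ℝ × PP => Fl q.1 q.2) q (0, u) :=
    funext fun q => Bas.dfl_eq h q.1 q.2 u
  rw [h2]
  exact h1.clm_apply contDiff_const

theorem Dyn.var_fst (h : Dyn L Fl) (t : ℝ) (z u : PP) :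
    HasDerivAt (fun t => (fderiv ℝ (Fl t) z u).1) (fderiv ℝ (Fl t) z u).2 t := by
  have h1 : ContDiff ℝ ω (fderiv ℝ (fun q : ℝ × PP => Fl q.1 q.2)) :=
    (Bas.hG h).fderiv_right le_rfl
  have h2 : HasFDerivAt (fderiv ℝ (fun q : ℝ × PP => Fl q.1 q.2))
      (fderiv ℝ (fderiv ℝ (fun q : ℝ × PP => Fl q.1 q.2)) (t, z)) (t, z) :=
    (h1.differentiable (by simp) (t, z)).hasFDerivAt
  have h3 : HasDerivAt (fun t : ℝ => ((t, z) : ℝ × PP)) (1, 0) t :=
    (hasDerivAt_id t).prodMk (hasDerivAt_const t z)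
  have h4 : HasDerivAt (fun t : ℝ => fderiv ℝ (fun q : ℝ × PP => Fl q.1 q.2) (t, z))
      (fderiv ℝ (fderiv ℝ (fun q : ℝ × PP => Fl q.1 q.2)) (t, z) (1, 0)) t :=
    h2.comp_hasDerivAt t h3
  have h5 : HasDerivAt (fun t : ℝ => fderiv ℝ (fun q : ℝ × PP => Fl q.1 q.2) (t, z) (0, u))
      (fderiv ℝ (fderiv ℝ (fun q : ℝ × PP => Fl q.1 q.2)) (t, z) (1, 0) (0, u)) t := by
    have h6 := h4.clm_apply (hasDerivAt_const t ((0, u) : ℝ × PP))
    simpa using h6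
  have hs : fderiv ℝ (fderiv ℝ (fun q : ℝ × PP => Fl q.1 q.2)) (t, z) (1, 0) (0, u) =
      fderiv ℝ (fderiv ℝ (fun q : ℝ × PP => Fl q.1 q.2)) (t, z) (0, u) (1, 0) :=
    ((Bas.hG h).contDiffAt.isSymmSndFDerivAt (by simp)).eq (1, 0) (0, u)
  have h6 : HasFDerivAt (fun y : PP => ((t, y) : ℝ × PP)) (ContinuousLinearMap.inr ℝ ℝ PP) z :=
    hasFDerivAt_prodMk_right t z
  have h7 : HasFDerivAt (fun y : PP => fderiv ℝ (fun q : ℝ × PP => Fl q.1 q.2) (t, y))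
      ((fderiv ℝ (fderiv ℝ (fun q : ℝ × PP => Fl q.1 q.2)) (t, z)).comp
        (ContinuousLinearMap.inr ℝ ℝ PP)) z := h2.comp z h6
  have h8 := (h7.clm_apply (hasFDerivAt_const ((1, 0) : ℝ × PP) z)).fst
  have h9 : (fun y : PP => (fderiv ℝ (fun q : ℝ × PP => Fl q.1 q.2) (t, y) (1, 0)).1) =
      fun y => (Fl t y).2 := by
    funext y
    have h10 : HasDerivAt (fun t => (Fl t y).1)
      (fderiv ℝ (fun q : ℝ × PP => Fl q.1 q.2) (t, y) (1, 0)).1 t := (Bas.dt h t y).fst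
    exact h10.unique (h.vel t y)
  rw [h9] at h8
  have h11 := h8.unique (h.fl_diff t z).hasFDerivAt.snd
  have h12 := congrArg (fun f : PP →L[ℝ] R2 => f u) h11
  have h13 : (fderiv ℝ (fderiv ℝ (fun q : ℝ × PP => Fl q.1 q.2)) (t, z) (0, u) (1, 0)).1 =
      (fderiv ℝ (Fl t) z u).2 := by
    simpa using h12
  rw [← h13, ← hs]
  have h14 : (fun t => (fderiv ℝ (Fl t) z u).1) =
      fun t => (fderiv ℝ (fun q : ℝ × PP => Fl q.1 q.2) (t, z) (0, u)).1 :=
    funext fun s => by rw [Bas.dfl_eq h s z u]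
  rw [h14]
  exact h5.fst

theorem Dyn.en_var (h : Dyn L Fl) (t : ℝ) (z u : PP) :
    fderiv ℝ (en L) (Fl t z) (fderiv ℝ (Fl t) z u) = fderiv ℝ (en L) z u := by
  have h1 : HasFDerivAt (en L ∘ Fl t) ((fderiv ℝ (en L) (Fl t z)).comp
      (fderiv ℝ (Fl t) z)) z :=
    ((Bas.hen h).differentiable (by simp) (Fl t z)).hasFDerivAt.comp z
      (h.fl_diff t z).hasFDerivAt
  have h2 : en L ∘ Fl t = en L := funext fun y => h.en_const t y
  rw [h2] at h1
  rw [h1.fderiv]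
  rfl

theorem Dyn.en_vf (h : Dyn L Fl) (z : PP) : fderiv ℝ (en L) z (vf Fl z) = 0 := by
  have h1 : HasFDerivAt (en L) (fderiv ℝ (en L) z) (Fl 0 z) := by
    rw [h.zero]
    exact ((Bas.hen h).differentiable (by simp) z).hasFDerivAt
  have h2 : HasDerivAt (en L ∘ fun s => Fl s z) (fderiv ℝ (en L) z (vf Fl z)) 0 :=
    h1.comp_hasDerivAt 0 (Bas.vf_der h z)
  have h3 : (en L ∘ fun s => Fl s z) = fun _ => en L z := funext fun s => h.en_const s z
  rw [h3] at h2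
  exact h2.unique (hasDerivAt_const 0 (en L z))

variable {E0 : ℝ} {V : ℝ → ℤ × ℤ → R2 → R2} {T m : ℝ → ℤ × ℤ → ℝ}

/-- points of energy `> E0` are not at rest -/
theorem C0.vne (hC : C0 L Fl E0 V T m) {z : PP} (h : E0 < en L z) : z.2 ≠ 0 := by
  intro h0
  have h1 := hC.rest z.1
  rw [← h0] at h1
  exact absurd h (not_lt.2 h1)

end Pool.Agent.DB
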