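import Mathlib

/-!
# MP_74f563_an, n = 2 autonomous (D2), local part B': definitions

Positions and velocities are in `R2 = ℝ × ℝ`, the phase space (position, velocity) is `PP`.
`Dyn L Fl`: an autonomous Lagrangian `L : PP → ℝ`, real-analytic, `ℤ²`-periodic in the position, convex
in the velocity, with its analytic flow `Fl`.
`C0 L Fl E0 V T m`: the interface (C1)-(C7) between the `C⁰` part and the local part (text
`/team-store/D2_KB.md`): for every energy `E > E0` and every primitive `h ∈ ℤ²` the torus is filled by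
closed minimal orbits of class `h`; `V E h x` is their velocity at `x`, `T E h` their period, `m E h`
their action (for `L + E`).
-/

set_option autoImplicit false

namespace Pool.Agent.DB

open Set

/-- positions and velocities -/
abbrev R2 : Type := ℝ × ℝ

/-- the phase space, pairs (position, velocity) -/
abbrev PP : Type := R2 × R2

/-- the integer vectors -/
def zz (k : ℤ × ℤ) : R2 := ((k.1 : ℝ), (k.2 : ℝ))

/-- primitive integer vectors -/
def Prm (k : ℤ × ℤ) : Prop := IsCoprime k.1 k.2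

/-- the determinant of two vectors -/
def dtm (u w : R2) : ℝ := u.1 * w.2 - u.2 * w.1

/-- the momentum `∂L/∂v` -/
noncomputable def pm (L : PP → ℝ) (z : PP) : R2 →L[ℝ] ℝ :=
  (fderiv ℝ L z).comp (ContinuousLinearMap.inr ℝ R2 R2)

/-- `∂L/∂x` -/
noncomputable def lx (L : PP → ℝ) (z : PP) : R2 →L[ℝ] ℝ :=
  (fderiv ℝ L z).comp (ContinuousLinearMap.inl ℝ R2 R2)

/-- the energy -/
noncomputable def en (L : PP → ℝ) (z : PP) : ℝ := pm L z z.2 - L z

/-- the second derivative in the velocity -/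
noncomputable def Lvv (L : PP → ℝ) (z : PP) (u w : R2) : ℝ := fderiv ℝ (fderiv ℝ L) z (0, u) (0, w)

/-- the action of the solution with initial data `z` on `[0, t]` -/
noncomputable def Ac (L : PP → ℝ) (Fl : ℝ → PP → PP) (t : ℝ) (z : PP) : ℝ :=
  ∫ τ in (0 : ℝ)..t, L (Fl τ z)

/-- An analytic autonomous Lagrangian and its flow. -/
structure Dyn (L : PP → ℝ) (Fl : ℝ → PP → PP) : Prop where
  ana : AnalyticOnNhd ℝ L univ
  per : ∀ (k : ℤ × ℤ) (z : PP), L (z + (zz k, 0)) = L z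
  pos : ∀ (z : PP) (u : R2), u ≠ 0 → 0 < Lvv L z u u
  fana : AnalyticOnNhd ℝ (fun q : ℝ × PP => Fl q.1 q.2) univ
  zero : ∀ z, Fl 0 z = z
  add : ∀ s t z, Fl (s + t) z = Fl s (Fl t z)
  vel : ∀ (t : ℝ) (z : PP), HasDerivAt (fun t => (Fl t z).1) (Fl t z).2 t
  el : ∀ (t : ℝ) (z : PP), HasDerivAt (fun t => pm L (Fl t z)) (lx L (Fl t z)) t
  fper : ∀ (t : ℝ) (k : ℤ × ℤ) (z : PP), Fl t (z + (zz k, 0)) = Fl t z + (zz k, 0)

/-- The interface between the `C⁰` part and the local part. -/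
structure C0 (L : PP → ℝ) (Fl : ℝ → PP → PP) (E0 : ℝ) (V : ℝ → ℤ × ℤ → R2 → R2)
    (T m : ℝ → ℤ × ℤ → ℝ) : Prop extends Dyn L Fl where
  /-- rest points have energy at most `E0` -/
  rest : ∀ x : R2, en L (x, 0) ≤ E0
  /-- (C1) -/
  enV : ∀ E > E0, ∀ h, Prm h → ∀ x, en L (x, V E h x) = E
  perV : ∀ E > E0, ∀ h, Prm h → ∀ x k, V E h (x + zz k) = V E h x
  contV : ∀ h, Prm h → ContinuousOn (fun q : ℝ × R2 => V q.1 h q.2) (Ioi E0 ×ˢ univ)
  /-- (C2) -/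
  orb : ∀ E > E0, ∀ h, Prm h → ∀ x, (Fl (T E h) (x, V E h x)).1 = x + zz h
  inv : ∀ E > E0, ∀ h, Prm h → ∀ x t, (Fl t (x, V E h x)).2 = V E h (Fl t (x, V E h x)).1
  Tpos : ∀ E > E0, ∀ h, Prm h → 0 < T E h
  contT : ∀ h, Prm h → ContinuousOn (fun E => T E h) (Ioi E0)
  /-- (C3) -/
  act : ∀ E > E0, ∀ h, Prm h → ∀ x, Ac L Fl (T E h) (x, V E h x) + E * T E h = m E h
  /-- (C4), for broken solutions: the pieces are `z i` on `[0, τ i]`, `i < N`, the class is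
  `n h` -/
  mini : ∀ E > E0, ∀ h, Prm h → ∀ (n N : ℕ) (z : ℕ → PP) (τ : ℕ → ℝ), 0 < n → 0 < N →
    (∀ i < N, 0 < τ i) → (∀ i < N, (Fl (τ i) (z i)).1 = (z (i + 1)).1) →
    (z N).1 = (z 0).1 + (n : ℝ) • zz h →
    n * m E h ≤ ∑ i ∈ Finset.range N, (Ac L Fl (τ i) (z i) + E * τ i)
  /-- (C5) -/
  once : ∀ E > E0, ∀ h h', Prm h → Prm h' → h ≠ h' → ∀ x t t', 0 < t → 0 < t' →
    (Fl t (x, V E h x)).1 ≠ (Fl t' (x, V E h' x)).1
  /-- (C6) -/
  dens : ∀ E > E0, ∀ (x v : R2), en L (x, v) = E → ∀ d > 0, ∃ h, Prm h ∧ ‖V E h x - v‖ < d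
  /-- (C7) -/
  conv : ∀ E1 > E0, ∀ h h' : ℤ × ℤ, h.1 * h'.2 - h.2 * h'.1 = 1 → ∀ d > 0, ∃ κ > 0, ∀ E,
    |E - E1| < κ → ∀ k m : ℕ, 0 < k → 0 < m → Nat.Coprime k m → (m : ℝ) < κ * k →
    ∀ x, ‖V E ((k : ℤ) • h + (m : ℤ) • h') x - V E1 h x‖ < d

end Pool.Agent.DB
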