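import Pool.Agent.DB.Bas

/-!
# MP_74f563_an, n = 2 autonomous (D2), file DB/Act: the action of the solutions, first variation

PROOFS.  `flow_int_ana`.  On `E × ℝ` the vector field `F (z, a) = (f z, G z)`, where
`f z = fderiv ℝ (fun q => Φ q.1 q.2) (0, z) (1, 0)` is the (analytic) vector field of the flow `Φ`
(`∂ₜ Φ t z = f (Φ t z)`: derivative of `Φ (s + t) z = Φ s (Φ t z)` at `s = 0`).  Its flow is
`Ψ t (z, a) = (Φ t z, a + ∫ r in 0..t, G (Φ r z))` (fundamental theorem of calculus).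
`NOne.flow_analytic` (file NOne/BFlow) shows that `(t, (z, a)) ↦ Ψ t (z, a)` is analytic; put `a = 0`.
(Model: `ana_fa` in NOne/BAct.lean.)
`ac_deriv`: FTC.  `ac_add`: additivity of the integral, substitution, `Dyn.add`.
`ac_per`: `fper`, `per`.
`fv`: let `A t = fderiv ℝ (Ac L Fl t) z u`, `J t = (fderiv ℝ (Fl t) z u).1`,
`K t = (fderiv ℝ (Fl t) z u).2`, `P t = pm L (Fl t z)`.  Then `J' = K` (`var_fst`), `P' = lx L (Fl t z)`
(`el`) and, by the symmetry of the second derivatives of the analytic function `(t, z) ↦ Ac L Fl t z`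
and `ac_deriv`, `A' t = fderiv ℝ L (Fl t z) (J t, K t) = lx (J) + pm (K)`.  So
`(A - P J)' = lx J + pm K - lx J - P K = 0`; at `t = 0`: `A 0 = 0` (`Ac L Fl 0 = 0`), `J 0 = u.1`
(`Fl 0 = id`).  (Model: `fa_dv`, `fa_dx` in NOne/BAct.lean.)
`fv_curve`: chain rule.  `d/du Ac (τ u) (z u) = L (Fl) τ' + pm (Fl) (D Fl z').1 - pm (z) z'.1` (`ac_deriv`,
`fv`), and `X' = τ' (Fl).2 + (D Fl z').1` (uniqueness of the derivative, `vel`), hence the sum is
`pm (Fl) X' - pm (z) z'.1 + τ' (L (Fl) - pm (Fl) (Fl).2) = pm (Fl) X' - pm (z) z'.1 - τ' en (Fl)`,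
`en L (Fl) = en L (z u) = E u` (`en_const`); add `(E τ)' = E' τ + E τ'`.
-/

set_option autoImplicit false

namespace Pool.Agent.DB

open Set
open scoped ContDiff

/-- the integral of an analytic function along an analytic flow -/
theorem flow_int_ana {E : Type} [NormedAddCommGroup E] [NormedSpace ℝ E] [FiniteDimensional ℝ E]
    {Φ : ℝ → E → E} (hana : AnalyticOnNhd ℝ (fun q : ℝ × E => Φ q.1 q.2) univ)
    (h0 : ∀ z, Φ 0 z = z) (hadd : ∀ s t z, Φ (s + t) z = Φ s (Φ t z)) {G : E → ℝ}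
    (hG : AnalyticOnNhd ℝ G univ) :
    AnalyticOnNhd ℝ (fun q : ℝ × E => ∫ r in (0 : ℝ)..q.1, G (Φ r q.2)) univ := by
  have : CompleteSpace E := FiniteDimensional.complete ℝ E
  set Fu : ℝ × E → E := fun q => Φ q.1 q.2 with hFu
  have hdF : AnalyticOnNhd ℝ (fderiv ℝ Fu) univ := hana.fderiv
  have hcG : Continuous G := continuous_iff_continuousAt.2 fun z => (hG z (mem_univ _)).continuousAt
  have hcF : Continuous Fu := continuous_iff_continuousAt.2
    fun z => (hana z (mem_univ _)).continuousAt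
  -- the vector field
  set f : E → E := fun z => fderiv ℝ Fu (0, z) (1, 0) with hf
  have hfa : AnalyticOnNhd ℝ f univ := by
    intro z _
    have h1 : AnalyticAt ℝ (fun z : E => ((0 : ℝ), z)) z := analyticAt_const.prod analyticAt_id
    have h2 : AnalyticAt ℝ (fun z : E => fderiv ℝ Fu (0, z)) z :=
      AnalyticAt.comp (g := fderiv ℝ Fu) (f := fun z : E => ((0 : ℝ), z))
        (hdF _ (mem_univ _)) h1
    exact ((ContinuousLinearMap.apply ℝ E ((1 : ℝ), (0 : E))).analyticAt _).comp h2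
  have hd0 : ∀ z : E, HasDerivAt (fun s : ℝ => Φ s z) (f z) 0 := by
    intro z
    have h1 : HasFDerivAt Fu (fderiv ℝ Fu (0, z)) (0, z) :=
      (hana (0, z) (mem_univ _)).differentiableAt.hasFDerivAt
    have h2 : HasDerivAt (fun s : ℝ => (s, z)) ((1 : ℝ), (0 : E)) 0 :=
      (hasDerivAt_id (0 : ℝ)).prodMk (hasDerivAt_const 0 z)
    exact HasFDerivAt.comp_hasDerivAt (f := fun s : ℝ => (s, z)) 0 h1 h2
  have hdt : ∀ (z : E) (t : ℝ), HasDerivAt (fun t => Φ t z) (f (Φ t z)) t := by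
    intro z t
    have h1 : HasDerivAt (fun s : ℝ => Φ (s - t) (Φ t z)) (f (Φ t z)) t := by
      have h2 : HasDerivAt (fun s : ℝ => Φ s (Φ t z)) (f (Φ t z)) (t - t) := by
        rw [sub_self]; exact hd0 _
      exact h2.comp_sub_const t t
    have h3 : (fun s : ℝ => Φ (s - t) (Φ t z)) = fun s => Φ s z := by
      funext s
      rw [← hadd, sub_add_cancel]
    rw [h3] at h1
    exact h1
  set Ψ : ℝ → E × ℝ → E × ℝ := fun t p => (Φ t p.1, p.2 + ∫ r in (0 : ℝ)..t, G (Φ r p.1)) with hΨ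
  have hcont : ∀ z : E, Continuous fun r : ℝ => G (Φ r z) := fun z =>
    hcG.comp (hcF.comp (Continuous.prodMk_left z))
  have hfl : AnalyticOnNhd ℝ (fun p : ℝ × (E × ℝ) => Ψ p.1 p.2) univ := by
    refine NOne.flow_analytic (fun p : E × ℝ => (f p.1, G p.1)) ?_ Ψ ?_ ?_
    · intro p _
      have h1 : AnalyticAt ℝ (fun p : E × ℝ => f p.1) p :=
        AnalyticAt.comp (g := f) (f := fun p : E × ℝ => p.1) (hfa _ (mem_univ _)) analyticAt_fst
      have h2 : AnalyticAt ℝ (fun p : E × ℝ => G p.1) p :=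
        AnalyticAt.comp (g := G) (f := fun p : E × ℝ => p.1) (hG _ (mem_univ _)) analyticAt_fst
      exact h1.prod h2
    · intro p
      simp [hΨ, h0]
    · intro p t
      have h1 : HasDerivAt (fun t : ℝ => ∫ r in (0 : ℝ)..t, G (Φ r p.1)) (G (Φ t p.1)) t :=
        ((hcont p.1).integral_hasStrictDerivAt 0 t).hasDerivAt
      exact (hdt p.1 t).prodMk (h1.const_add p.2)
  intro q _
  have h1 : AnalyticAt ℝ (fun q : ℝ × E => (q.1, (q.2, (0 : ℝ)))) q :=
    analyticAt_fst.prod (analyticAt_snd.prod analyticAt_const)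
  have h2 : AnalyticAt ℝ (fun q : ℝ × E => Ψ q.1 (q.2, (0 : ℝ))) q :=
    AnalyticAt.comp (g := fun p : ℝ × (E × ℝ) => Ψ p.1 p.2)
      (f := fun q : ℝ × E => (q.1, (q.2, (0 : ℝ)))) (hfl _ (mem_univ _)) h1
  have h3 : AnalyticAt ℝ (fun q : ℝ × E => (Ψ q.1 (q.2, (0 : ℝ))).2) q :=
    AnalyticAt.comp (g := fun p : E × ℝ => p.2)
      (f := fun q : ℝ × E => Ψ q.1 (q.2, (0 : ℝ))) analyticAt_snd h2
  have h4 : (fun q : ℝ × E => (Ψ q.1 (q.2, (0 : ℝ))).2) =
      fun q : ℝ × E => ∫ r in (0 : ℝ)..q.1, G (Φ r q.2) := by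
    funext q
    simp only [hΨ, zero_add]
  rw [h4] at h3
  exact h3

variable {L : PP → ℝ} {Fl : ℝ → PP → PP}

theorem Dyn.ac_ana (h : Dyn L Fl) : AnalyticOnNhd ℝ (fun q : ℝ × PP => Ac L Fl q.1 q.2) univ :=
  flow_int_ana h.fana h.zero h.add h.ana

private theorem lag_cont (h : Dyn L Fl) (z : PP) : Continuous fun τ : ℝ => L (Fl τ z) := by
  have h1 : Continuous L := continuous_iff_continuousAt.2
    fun z => (h.ana z (mem_univ _)).continuousAt
  have h2 : Continuous (fun q : ℝ × PP => Fl q.1 q.2) := continuous_iff_continuousAt.2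
    fun z => (h.fana z (mem_univ _)).continuousAt
  exact h1.comp (h2.comp (Continuous.prodMk_left z))

theorem Dyn.ac_deriv (h : Dyn L Fl) (t : ℝ) (z : PP) :
    HasDerivAt (fun t => Ac L Fl t z) (L (Fl t z)) t :=
  ((lag_cont h z).integral_hasStrictDerivAt 0 t).hasDerivAt

theorem Dyn.ac_add (h : Dyn L Fl) (s t : ℝ) (z : PP) :
    Ac L Fl (s + t) z = Ac L Fl t z + Ac L Fl s (Fl t z) := by
  have hc := lag_cont h z
  have h1 : ∫ τ in (0 : ℝ)..s, L (Fl τ (Fl t z)) = ∫ τ in t..(s + t), L (Fl τ z) := by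
    have h2 := intervalIntegral.integral_comp_add_right
      (f := fun τ => L (Fl τ z)) (a := 0) (b := s) t
    rw [zero_add] at h2
    rw [← h2]
    refine intervalIntegral.integral_congr fun τ _ => ?_
    simp only [h.add]
  unfold Ac
  rw [h1, intervalIntegral.integral_add_adjacent_intervals (hc.intervalIntegrable _ _)
    (hc.intervalIntegrable _ _)]

theorem Dyn.ac_per (h : Dyn L Fl) (t : ℝ) (k : ℤ × ℤ) (z : PP) :
    Ac L Fl t (z + (zz k, 0)) = Ac L Fl t z := by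
  unfold Ac
  simp only [h.fper, h.per]

/-- Derivative in the time of the derivative in the space variable. -/
private theorem mixed {G : ℝ → PP → ℝ} {H : ℝ → PP → ℝ}
    (hG : AnalyticOnNhd ℝ (fun q : ℝ × PP => G q.1 q.2) univ)
    (hH : ∀ t y, HasDerivAt (fun t => G t y) (H t y) t) (t : ℝ) (z u : PP) :
    HasDerivAt (fun t => fderiv ℝ (G t) z u) (fderiv ℝ (H t) z u) t := by
  set Gu : ℝ × PP → ℝ := fun q => G q.1 q.2 with hGu
  have hdG : AnalyticOnNhd ℝ (fderiv ℝ Gu) univ := hG.fderiv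
  have hd : ∀ q, HasFDerivAt Gu (fderiv ℝ Gu q) q := fun q =>
    (hG q (mem_univ _)).differentiableAt.hasFDerivAt
  have hdd : ∀ q, HasFDerivAt (fderiv ℝ Gu) (fderiv ℝ (fderiv ℝ Gu) q) q := fun q =>
    (hdG q (mem_univ _)).differentiableAt.hasFDerivAt
  have e1 : ∀ t, fderiv ℝ (G t) z u = fderiv ℝ Gu (t, z) (0, u) := by
    intro t
    have h1 : HasFDerivAt (fun y : PP => (t, y)) (ContinuousLinearMap.inr ℝ ℝ PP) z :=
      hasFDerivAt_prodMk_right t z
    have h2 : HasFDerivAt (G t) ((fderiv ℝ Gu (t, z)).comp (ContinuousLinearMap.inr ℝ ℝ PP)) z :=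
      HasFDerivAt.comp (g := Gu) (f := fun y : PP => (t, y)) z (hd (t, z)) h1
    rw [h2.fderiv]
    rfl
  have e2 : ∀ y, H t y = fderiv ℝ Gu (t, y) (1, 0) := by
    intro y
    have h2 : HasDerivAt (fun s : ℝ => (s, y)) ((1 : ℝ), (0 : PP)) t :=
      (hasDerivAt_id t).prodMk (hasDerivAt_const t y)
    have h3 : HasDerivAt (fun s : ℝ => G s y) (fderiv ℝ Gu (t, y) (1, 0)) t :=
      HasFDerivAt.comp_hasDerivAt (l := Gu) (f := fun s : ℝ => (s, y)) t (hd (t, y)) h2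
    exact (hH t y).unique h3
  have e3 : fderiv ℝ (H t) z u = fderiv ℝ (fderiv ℝ Gu) (t, z) (0, u) (1, 0) := by
    have h0 : H t = fun y => fderiv ℝ Gu (t, y) (1, 0) := funext e2
    have h1 : HasFDerivAt (fun y : PP => (t, y)) (ContinuousLinearMap.inr ℝ ℝ PP) z :=
      hasFDerivAt_prodMk_right t z
    have h2 : HasFDerivAt (fun y : PP => fderiv ℝ Gu (t, y))
        ((fderiv ℝ (fderiv ℝ Gu) (t, z)).comp (ContinuousLinearMap.inr ℝ ℝ PP)) z :=
      HasFDerivAt.comp (g := fderiv ℝ Gu) (f := fun y : PP => (t, y)) z (hdd (t, z)) h1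
    have h3 : HasFDerivAt (fun y : PP => fderiv ℝ Gu (t, y) (1, 0))
        ((ContinuousLinearMap.apply ℝ ℝ ((1 : ℝ), (0 : PP))).comp
          ((fderiv ℝ (fderiv ℝ Gu) (t, z)).comp (ContinuousLinearMap.inr ℝ ℝ PP))) z :=
      ((ContinuousLinearMap.apply ℝ ℝ ((1 : ℝ), (0 : PP))).hasFDerivAt).comp z h2
    rw [h0, h3.fderiv]
    rfl
  have hs : IsSymmSndFDerivAt ℝ Gu (t, z) := by
    have hc : ContDiffAt ℝ 2 Gu (t, z) := (hG (t, z) (mem_univ _)).contDiffAt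
    exact hc.isSymmSndFDerivAt (by simp)
  have e4 : fderiv ℝ (H t) z u = fderiv ℝ (fderiv ℝ Gu) (t, z) (1, 0) (0, u) := by
    rw [e3]; exact hs _ _
  have e5 : (fun t => fderiv ℝ (G t) z u) = fun t => fderiv ℝ Gu (t, z) (0, u) := funext e1
  rw [e4, e5]
  have h2 : HasDerivAt (fun s : ℝ => (s, z)) ((1 : ℝ), (0 : PP)) t :=
    (hasDerivAt_id t).prodMk (hasDerivAt_const t z)
  have h3 : HasDerivAt (fun s : ℝ => fderiv ℝ Gu (s, z))
      (fderiv ℝ (fderiv ℝ Gu) (t, z) (1, 0)) t :=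
    HasFDerivAt.comp_hasDerivAt (l := fderiv ℝ Gu) (f := fun s : ℝ => (s, z)) t (hdd (t, z)) h2
  have h4 := h3.clm_apply (hasDerivAt_const t ((0 : ℝ), u))
  simpa using h4

private theorem lag_fderiv (h : Dyn L Fl) (t : ℝ) (z u : PP) :
    fderiv ℝ (fun y => L (Fl t y)) z u = lx L (Fl t z) (fderiv ℝ (Fl t) z u).1 +
      pm L (Fl t z) (fderiv ℝ (Fl t) z u).2 := by
  have h1 : HasFDerivAt L (fderiv ℝ L (Fl t z)) (Fl t z) :=
    (h.ana _ (mem_univ _)).differentiableAt.hasFDerivAt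
  have h2 : HasFDerivAt (fun y => L (Fl t y)) ((fderiv ℝ L (Fl t z)).comp (fderiv ℝ (Fl t) z)) z :=
    HasFDerivAt.comp (g := L) (f := Fl t) z h1 (h.fl_diff t z).hasFDerivAt
  rw [h2.fderiv]
  have h3 : (fderiv ℝ (Fl t) z u : PP) = ((fderiv ℝ (Fl t) z u).1, (0 : R2)) +
      ((0 : R2), (fderiv ℝ (Fl t) z u).2) := by
    rw [Prod.mk_add_mk, add_zero, zero_add]
  show fderiv ℝ L (Fl t z) (fderiv ℝ (Fl t) z u) = _
  conv_lhs => rw [h3, map_add]
  rfl

/-- the first variation formula -/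
theorem Dyn.fv (h : Dyn L Fl) (t : ℝ) (z u : PP) :
    fderiv ℝ (Ac L Fl t) z u = pm L (Fl t z) (fderiv ℝ (Fl t) z u).1 - pm L z u.1 := by
  have hA : ∀ t, HasDerivAt (fun t => fderiv ℝ (Ac L Fl t) z u)
      (lx L (Fl t z) (fderiv ℝ (Fl t) z u).1 + pm L (Fl t z) (fderiv ℝ (Fl t) z u).2) t := by
    intro t
    rw [← lag_fderiv h]
    exact mixed (G := Ac L Fl) (H := fun t y => L (Fl t y)) h.ac_ana (fun t y => h.ac_deriv t y)
      t z u
  have hPJ : ∀ t, HasDerivAt (fun t => pm L (Fl t z) (fderiv ℝ (Fl t) z u).1)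
      (lx L (Fl t z) (fderiv ℝ (Fl t) z u).1 + pm L (Fl t z) (fderiv ℝ (Fl t) z u).2) t :=
    fun t => (h.el t z).clm_apply (h.var_fst t z u)
  have h1 : ∀ t, HasDerivAt (fun t => fderiv ℝ (Ac L Fl t) z u -
      pm L (Fl t z) (fderiv ℝ (Fl t) z u).1) 0 t := by
    intro t
    have h2 := (hA t).sub (hPJ t)
    rw [sub_self] at h2
    exact h2
  have h3 := is_const_of_deriv_eq_zero (f := fun t => fderiv ℝ (Ac L Fl t) z u -
      pm L (Fl t z) (fderiv ℝ (Fl t) z u).1)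
    (fun t => (h1 t).differentiableAt) (fun t => (h1 t).deriv) t 0
  have e1 : fderiv ℝ (Ac L Fl 0) z u = 0 := by
    have h4 : Ac L Fl 0 = fun _ => 0 := by
      funext y
      simp [Ac]
    rw [h4]
    simp
  have e2 : fderiv ℝ (Fl 0) z u = u := by
    have h4 : Fl 0 = id := funext h.zero
    rw [h4, fderiv_id]
    rfl
  simp only [e1, e2, h.zero, zero_sub] at h3
  linarith

/-- the first variation formula for a curve of solutions of energy `E u` -/
theorem Dyn.fv_curve (h : Dyn L Fl) {z : ℝ → PP} {τ E : ℝ → ℝ} {z' : PP} {τ' E' : ℝ} {X' : R2}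
    {u : ℝ} (hz : HasDerivAt z z' u) (hτ : HasDerivAt τ τ' u) (hE : HasDerivAt E E' u)
    (hX : HasDerivAt (fun u => (Fl (τ u) (z u)).1) X' u) (hen : en L (z u) = E u) :
    HasDerivAt (fun u => Ac L Fl (τ u) (z u) + E u * τ u)
      (pm L (Fl (τ u) (z u)) X' - pm L (z u) z'.1 + E' * τ u) u := by
  have hc : HasDerivAt (fun u => (τ u, z u)) (τ', z') u := hτ.prodMk hz
  have hsplit : ((τ', z') : ℝ × PP) = τ' • ((1 : ℝ), (0 : PP)) + ((0 : ℝ), z') := by
    rw [Prod.smul_mk, Prod.mk_add_mk, smul_eq_mul, mul_one, add_zero, smul_zero, zero_add]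
  -- the action
  set Gu : ℝ × PP → ℝ := fun q => Ac L Fl q.1 q.2 with hGu
  have hG : HasFDerivAt Gu (fderiv ℝ Gu (τ u, z u)) (τ u, z u) :=
    (h.ac_ana _ (mem_univ _)).differentiableAt.hasFDerivAt
  have hG1 : fderiv ℝ Gu (τ u, z u) (1, 0) = L (Fl (τ u) (z u)) := by
    have h2 : HasDerivAt (fun s : ℝ => (s, z u)) ((1 : ℝ), (0 : PP)) (τ u) :=
      (hasDerivAt_id (τ u)).prodMk (hasDerivAt_const (τ u) (z u))
    have h3 : HasDerivAt (fun s : ℝ => Ac L Fl s (z u)) (fderiv ℝ Gu (τ u, z u) (1, 0)) (τ u) :=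
      HasFDerivAt.comp_hasDerivAt (l := Gu) (f := fun s : ℝ => (s, z u)) (τ u) hG h2
    exact h3.unique (h.ac_deriv (τ u) (z u))
  have hG2 : fderiv ℝ Gu (τ u, z u) (0, z') = fderiv ℝ (Ac L Fl (τ u)) (z u) z' := by
    have h1 : HasFDerivAt (fun y : PP => (τ u, y)) (ContinuousLinearMap.inr ℝ ℝ PP) (z u) :=
      hasFDerivAt_prodMk_right (τ u) (z u)
    have h2 : HasFDerivAt (Ac L Fl (τ u))
        ((fderiv ℝ Gu (τ u, z u)).comp (ContinuousLinearMap.inr ℝ ℝ PP)) (z u) :=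
      HasFDerivAt.comp (g := Gu) (f := fun y : PP => (τ u, y)) (z u) hG h1
    rw [h2.fderiv]
    rfl
  have hAc : HasDerivAt (fun u => Ac L Fl (τ u) (z u))
      (τ' * L (Fl (τ u) (z u)) + fderiv ℝ (Ac L Fl (τ u)) (z u) z') u := by
    have h1 : HasDerivAt (fun u => Gu (τ u, z u)) (fderiv ℝ Gu (τ u, z u) (τ', z')) u :=
      HasFDerivAt.comp_hasDerivAt (l := Gu) (f := fun u => (τ u, z u)) u hG hc
    rw [hsplit, map_add, map_smul, hG1, hG2, smul_eq_mul] at h1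
    exact h1
  -- the end point
  set Fu : ℝ × PP → PP := fun q => Fl q.1 q.2 with hFu
  have hF : HasFDerivAt Fu (fderiv ℝ Fu (τ u, z u)) (τ u, z u) :=
    (h.fana _ (mem_univ _)).differentiableAt.hasFDerivAt
  have hF1 : (fderiv ℝ Fu (τ u, z u) (1, 0)).1 = (Fl (τ u) (z u)).2 := by
    have h2 : HasDerivAt (fun s : ℝ => (s, z u)) ((1 : ℝ), (0 : PP)) (τ u) :=
      (hasDerivAt_id (τ u)).prodMk (hasDerivAt_const (τ u) (z u))
    have h3 : HasDerivAt (fun s : ℝ => Fl s (z u)) (fderiv ℝ Fu (τ u, z u) (1, 0)) (τ u) :=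
      HasFDerivAt.comp_hasDerivAt (l := Fu) (f := fun s : ℝ => (s, z u)) (τ u) hF h2
    have h4 : HasDerivAt (fun s : ℝ => (Fl s (z u)).1) (fderiv ℝ Fu (τ u, z u) (1, 0)).1 (τ u) :=
      HasFDerivAt.comp_hasDerivAt (l := fun p : PP => p.1) (f := fun s : ℝ => Fl s (z u)) (τ u)
        (hasFDerivAt_fst (𝕜 := ℝ) (E := R2) (F := R2) (p := Fl (τ u) (z u))) h3
    exact h4.unique (h.vel (τ u) (z u))
  have hF2 : fderiv ℝ Fu (τ u, z u) (0, z') = fderiv ℝ (Fl (τ u)) (z u) z' := by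
    have h1 : HasFDerivAt (fun y : PP => (τ u, y)) (ContinuousLinearMap.inr ℝ ℝ PP) (z u) :=
      hasFDerivAt_prodMk_right (τ u) (z u)
    have h2 : HasFDerivAt (Fl (τ u))
        ((fderiv ℝ Fu (τ u, z u)).comp (ContinuousLinearMap.inr ℝ ℝ PP)) (z u) :=
      HasFDerivAt.comp (g := Fu) (f := fun y : PP => (τ u, y)) (z u) hF h1
    rw [h2.fderiv]
    rfl
  have hX2 : X' = τ' • (Fl (τ u) (z u)).2 + (fderiv ℝ (Fl (τ u)) (z u) z').1 := by
    have h1 : HasDerivAt (fun u => Fl (τ u) (z u)) (fderiv ℝ Fu (τ u, z u) (τ', z')) u :=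
      HasFDerivAt.comp_hasDerivAt (l := Fu) (f := fun u => (τ u, z u)) u hF hc
    have h4 : HasDerivAt (fun u => (Fl (τ u) (z u)).1) (fderiv ℝ Fu (τ u, z u) (τ', z')).1 u :=
      HasFDerivAt.comp_hasDerivAt (l := fun p : PP => p.1) (f := fun u => Fl (τ u) (z u)) u
        (hasFDerivAt_fst (𝕜 := ℝ) (E := R2) (F := R2) (p := Fl (τ u) (z u))) h1
    rw [hX.unique h4, hsplit, map_add, map_smul, hF2, Prod.fst_add, Prod.smul_fst, hF1]
  have hEn : pm L (Fl (τ u) (z u)) (Fl (τ u) (z u)).2 - L (Fl (τ u) (z u)) = E u := by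
    rw [← hen, ← h.en_const (τ u) (z u)]
    rfl
  have hfin := hAc.add (hE.mul hτ)
  have heq : τ' * L (Fl (τ u) (z u)) + fderiv ℝ (Ac L Fl (τ u)) (z u) z' +
      (E' * τ u + E u * τ') = pm L (Fl (τ u) (z u)) X' - pm L (z u) z'.1 + E' * τ u := by
    rw [h.fv, hX2, map_add, map_smul, smul_eq_mul, ← hEn]
    ring
  rw [heq] at hfin
  exact hfin

end Pool.Agent.DB
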