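import Pool.Agent.DB.Imp

/-!
# MP_74f563_an, n = 2 autonomous (D2), file DB/Uni: uniform implicit function theorem

PROOF of `unif_imp`.  Put `q_a = (E1, a, a)`.
(1) For `a ∈ [0, 1]` let `c₁(a)` be from `loc_imp` (file DB/Imp) at `(q_a, y0 a)`, and let `r(a)
> 0`, `Y_a` be
the number and the function which `loc_imp` gives for `ε = 1`.  Choose `ρ_a ∈ (0, r(a) / 2)` with
`‖y0 x - y0 a‖ < c₁(a) / 2` for `|x - a| < ρ_a`.  Finitely many intervals `|x - a_i| < ρ_{a_i}`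
cover
`[0, 1]`; `c₁ = min c₁(a_i) / 2`, `r = min r(a_i) / 2`.  UNIQUENESS: if `x ∈ [0, 1]`, `|E - E1| <
r`,
`|X - x| < r` then `F ((E, x, X), ·) = 0` has at most one solution with `‖y' - y0 x‖ < c₁` (for
`i` with
`|x - a_i| < ρ_{a_i}`: `‖(E, x, X) - q_{a_i}‖ < r(a_i)` (max norm), `‖y' - y0 a_i‖ < c₁(a_i)`, so
`y' = Y_{a_i} (E, x, X)`).
(2) Given `ε`, let `ε' = min (ε / 2) (c₁ / 2)`.  For `a ∈ [0, 1]` let `c(a)`, `Z_a` be from
`loc_imp` for `ε'`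
and `ρ'_a ∈ (0, c(a) / 2)` with `‖y0 x - y0 a‖ < ε'` for `|x - a| < ρ'_a`; finitely many intervals
`|x - b_j| < ρ'_{b_j}` cover `[0, 1]`; `c = min (r, min c(b_j) / 2)`.  For `x ∈ [0, 1]`, `|E -
E1| < c`,
`|X - x| < c` choose such a `j`; `z = Z_{b_j} (E, x, X)` satisfies `F = 0`, `‖z - y0 x‖ < 2 ε' ≤
min ε c₁`, the
injectivity of the partial derivative, and `Z_{b_j}` is analytic at `(E, x, X)`; by (1) `z` does
not depend
on `j`.
(3) For general `x` let `n = ⌊x⌋` and define `y E x X = Z_{b_j} (E, x - n, X - n)` (`j` chosen for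
`x - n ∈ [0, 1)`).  By `hper`, `hyp` (iterated) all the statements of (1), (2) hold for all real
`x`: the
uniqueness of (1) holds for all real `x`.  Analyticity at `(E, x, X)`: the function
`(E', x', X') ↦ Z_{b_j} (E', x' - n, X' - n)` is analytic at `(E, x, X)` (`j`, `n` for `x`), and
for
`(E', x', X')` near `(E, x, X)` it satisfies `F = 0` and is at distance `< c₁` from `y0 x'`
(continuity; at
`(E, x, X)` the distance is `< c₁`), so it equals `y E' x' X'` by the uniqueness.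
-/

set_option autoImplicit false

namespace Pool.Agent.DB

open Set Filter Topology

private theorem unif_aux {P : ℝ → ℝ → Prop}
    (hm : ∀ c c' x : ℝ, 0 < c → c ≤ c' → P c' x → P c x)
    (h : ∀ a : ℝ, ∃ c > (0 : ℝ), ∃ ρ > (0 : ℝ), ∀ x, |x - a| < ρ → P c x) :
    ∃ c > (0 : ℝ), ∀ x ∈ Icc (0 : ℝ) 1, P c x := by
  refine isCompact_Icc.induction_on (p := fun s : Set ℝ => ∃ c > (0 : ℝ), ∀ x ∈ s, P c x)
    ⟨1, one_pos, fun x hx => absurd hx (notMem_empty x)⟩ ?_ ?_ ?_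
  · rintro s t hst ⟨c, hc, hP⟩
    exact ⟨c, hc, fun x hx => hP x (hst hx)⟩
  · rintro s t ⟨c, hc, hP⟩ ⟨c', hc', hP'⟩
    refine ⟨min c c', lt_min hc hc', fun x hx => ?_⟩
    rcases hx with hx | hx
    · exact hm _ _ x (lt_min hc hc') (min_le_left _ _) (hP x hx)
    · exact hm _ _ x (lt_min hc hc') (min_le_right _ _) (hP' x hx)
  · intro a _
    obtain ⟨c, hc, ρ, hρ, hP⟩ := h a
    refine ⟨Metric.ball a ρ, mem_nhdsWithin_of_mem_nhds (Metric.ball_mem_nhds a hρ), c, hc,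
      fun x hx => hP x ?_⟩
    rwa [Metric.mem_ball, Real.dist_eq] at hx

private theorem unif_norm {E E1 x X a r : ℝ} (h1 : |E - E1| < r / 2) (h2 : |x - a| < r / 2)
    (h3 : |X - x| < r / 2) : ‖((E, x, X) : ℝ × ℝ × ℝ) - (E1, a, a)‖ < r := by
  have hr : 0 < r := by linarith [abs_nonneg (E - E1)]
  have h4 : |X - a| < r := by
    have h5 : X - a = (X - x) + (x - a) := by ring
    rw [h5]
    refine (abs_add_le _ _).trans_lt ?_
    linarith
  have h6 : ((E, x, X) : ℝ × ℝ × ℝ) - (E1, a, a) = (E - E1, x - a, X - a) := rfl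
  rw [h6, Prod.norm_def, Prod.norm_def]
  refine max_lt ?_ (max_lt ?_ h4)
  · show |E - E1| < r
    linarith
  · show |x - a| < r
    linarith

theorem unif_imp {Y : Type} [NormedAddCommGroup Y] [NormedSpace ℝ Y] [FiniteDimensional ℝ Y]
    {F : (ℝ × ℝ × ℝ) × Y → Y} {y0 : ℝ → Y} {E1 : ℝ} (hF : AnalyticOnNhd ℝ F univ)
    (hper : ∀ (E x X : ℝ) (y : Y), F ((E, x + 1, X + 1), y) = F ((E, x, X), y))
    (hy : Continuous y0) (hyp : ∀ x, y0 (x + 1) = y0 x) (h0 : ∀ x, F ((E1, x, x), y0 x) = 0)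
    (hi : ∀ x y, fderiv ℝ F ((E1, x, x), y0 x) (0, y) = 0 → y = 0) :
    ∃ c₁ > (0 : ℝ), ∀ ε > (0 : ℝ), ∃ c > (0 : ℝ), ∃ y : ℝ → ℝ → ℝ → Y, ∀ E x X : ℝ,
      |E - E1| < c → |X - x| < c → F ((E, x, X), y E x X) = 0 ∧ ‖y E x X - y0 x‖ < ε ∧
        AnalyticAt ℝ (fun q : ℝ × ℝ × ℝ => y q.1 q.2.1 q.2.2) (E, x, X) ∧
        (∀ y', ‖y' - y0 x‖ < c₁ → F ((E, x, X), y') = 0 → y' = y E x X) ∧
        ∀ y', fderiv ℝ F ((E, x, X), y E x X) (0, y') = 0 → y' = 0 := by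
  classical
  -- the local data
  choose d hd hloc using fun a : ℝ => loc_imp (hF ((E1, a, a), y0 a) (mem_univ _)) (hi a)
  -- periodicity
  set v : (ℝ × ℝ × ℝ) × Y := ((0, 1, 1), 0) with hv
  have hperF : Function.Periodic F v := by
    rintro ⟨⟨E, x, X⟩, y⟩
    have e1 : (((E, x, X), y) : (ℝ × ℝ × ℝ) × Y) + v = ((E, x + 1, X + 1), y) := by
      rw [hv]
      ext <;> simp
    rw [e1, hper]
  have hpery : Function.Periodic y0 1 := hyp
  have hshift : ∀ (n : ℤ) (E x X : ℝ) (y : Y),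
      F ((E, x - n, X - n), y) = F ((E, x, X), y) := by
    intro n E x X y
    have e1 : (((E, x, X), y) : (ℝ × ℝ × ℝ) × Y) = ((E, x - n, X - n), y) + n • v := by
      rw [hv]
      ext <;> simp
    rw [e1, hperF.zsmul n]
  have hshift' : ∀ (n : ℤ) (E x X : ℝ) (y : Y),
      fderiv ℝ F ((E, x - n, X - n), y) = fderiv ℝ F ((E, x, X), y) := by
    intro n E x X y
    have e1 : (((E, x, X), y) : (ℝ × ℝ × ℝ) × Y) = ((E, x - n, X - n), y) + n • v := by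
      rw [hv]
      ext <;> simp
    have e2 : F = fun p => F (p + n • v) := by
      funext p
      exact (hperF.zsmul n p).symm
    rw [e1, ← fderiv_comp_add_right, ← e2]
  have hyshift : ∀ (n : ℤ) (x : ℝ), y0 (x - n) = y0 x := by
    intro n x
    have h1 := hpery.zsmul n (x - n)
    rw [← h1]
    congr 1
    simp
  have hyc : ∀ (a e : ℝ), 0 < e → ∃ ρ > (0 : ℝ), ∀ x, |x - a| < ρ → ‖y0 x - y0 a‖ < e := by
    intro a e he
    obtain ⟨ρ, hρ, h⟩ := Metric.continuous_iff.1 hy a e he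
    refine ⟨ρ, hρ, fun x hx => ?_⟩
    have h1 := h x (by rwa [Real.dist_eq])
    rwa [dist_eq_norm] at h1
  -- (1) uniqueness
  obtain ⟨c₁, hc₁, hU⟩ : ∃ c > (0 : ℝ), ∀ x : ℝ, ∀ E X : ℝ, |E - E1| < c → |X - x| < c →
      ∀ y' y'' : Y, ‖y' - y0 x‖ < c → ‖y'' - y0 x‖ < c → F ((E, x, X), y') = 0 →
      F ((E, x, X), y'') = 0 → y' = y'' := by
    obtain ⟨c, hc, hP⟩ := unif_aux (P := fun c x => ∀ E X : ℝ, |E - E1| < c → |X - x| < c →
      ∀ y' y'' : Y, ‖y' - y0 x‖ < c → ‖y'' - y0 x‖ < c → F ((E, x, X), y') = 0 →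
      F ((E, x, X), y'') = 0 → y' = y'')
      (fun c c' x _ hcc hP E X h1 h2 y' y'' h3 h4 => hP E X (h1.trans_le hcc) (h2.trans_le hcc)
        y' y'' (h3.trans_le hcc) (h4.trans_le hcc)) (by
        intro a
        obtain ⟨r, hr, W, hW⟩ := hloc a 1 one_pos
        obtain ⟨ρ, hρ, hρ'⟩ := hyc a (d a / 2) (half_pos (hd a))
        refine ⟨min (d a / 2) (r / 2), lt_min (half_pos (hd a)) (half_pos hr),
          min ρ (r / 2), lt_min hρ (half_pos hr), fun x hx E X h1 h2 y' y'' h3 h4 h5 h6 => ?_⟩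
        have hx1 : |x - a| < ρ := hx.trans_le (min_le_left _ _)
        have hx2 : |x - a| < r / 2 := hx.trans_le (min_le_right _ _)
        have hn := unif_norm (h1.trans_le (min_le_right _ _)) hx2 (h2.trans_le (min_le_right _ _))
        obtain ⟨-, -, -, hu, -⟩ := hW _ hn
        rw [h0 a] at hu
        have hy1 : ∀ z : Y, ‖z - y0 x‖ < min (d a / 2) (r / 2) → ‖z - y0 a‖ < d a := by
          intro z hz
          have e1 : z - y0 a = (z - y0 x) + (y0 x - y0 a) := by abel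
          rw [e1]
          refine (norm_add_le _ _).trans_lt ?_
          have e2 := hz.trans_le (min_le_left _ _)
          have e3 := hρ' x hx1
          linarith
        rw [hu y' (hy1 y' h3) h5, hu y'' (hy1 y'' h4) h6])
    refine ⟨c, hc, fun x E X h1 h2 y' y'' h3 h4 h5 h6 => ?_⟩
    have hn : x - (⌊x⌋ : ℤ) ∈ Icc (0 : ℝ) 1 :=
      ⟨Int.fract_nonneg x, (Int.fract_lt_one x).le⟩
    refine hP (x - (⌊x⌋ : ℤ)) hn E (X - (⌊x⌋ : ℤ)) h1 ?_ y' y'' ?_ ?_ ?_ ?_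
    · rwa [sub_sub_sub_cancel_right]
    · rwa [hyshift]
    · rwa [hyshift]
    · rwa [hshift]
    · rwa [hshift]
  refine ⟨c₁, hc₁, fun ε hε => ?_⟩
  -- (2) existence
  obtain ⟨c₂, hc₂, hZ⟩ : ∃ c > (0 : ℝ), ∀ x : ℝ, ∀ E X : ℝ, |E - E1| < c → |X - x| < c →
      ∃ Z : ℝ × ℝ × ℝ → Y, AnalyticAt ℝ Z (E, x, X) ∧
        (∀ᶠ q in 𝓝 ((E, x, X) : ℝ × ℝ × ℝ), F (q, Z q) = 0) ∧
        ‖Z (E, x, X) - y0 x‖ < min ε c₁ ∧
        ∀ y', fderiv ℝ F ((E, x, X), Z (E, x, X)) (0, y') = 0 → y' = 0 := by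
    obtain ⟨c, hc, hP⟩ := unif_aux (P := fun c x => ∀ E X : ℝ, |E - E1| < c → |X - x| < c →
      ∃ Z : ℝ × ℝ × ℝ → Y, AnalyticAt ℝ Z (E, x, X) ∧
        (∀ᶠ q in 𝓝 ((E, x, X) : ℝ × ℝ × ℝ), F (q, Z q) = 0) ∧
        ‖Z (E, x, X) - y0 x‖ < min ε c₁ ∧
        ∀ y', fderiv ℝ F ((E, x, X), Z (E, x, X)) (0, y') = 0 → y' = 0)
      (fun c c' x _ hcc hP E X h1 h2 => hP E X (h1.trans_le hcc) (h2.trans_le hcc)) (by
        intro a
        have hm : 0 < min ε c₁ := lt_min hε hc₁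
        obtain ⟨r, hr, W, hW⟩ := hloc a (min ε c₁ / 2) (half_pos hm)
        obtain ⟨ρ, hρ, hρ'⟩ := hyc a (min ε c₁ / 2) (half_pos hm)
        refine ⟨r / 2, half_pos hr, min ρ (r / 2), lt_min hρ (half_pos hr),
          fun x hx E X h1 h2 => ?_⟩
        have hx1 : |x - a| < ρ := hx.trans_le (min_le_left _ _)
        have hx2 : |x - a| < r / 2 := hx.trans_le (min_le_right _ _)
        have hn := unif_norm h1 hx2 h2
        obtain ⟨-, k2, k3, -, k5⟩ := hW _ hn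
        refine ⟨W, k3, ?_, ?_, k5⟩
        · have ho : IsOpen {q : ℝ × ℝ × ℝ | ‖q - (E1, a, a)‖ < r} :=
            isOpen_lt (continuous_id.sub continuous_const).norm continuous_const
          filter_upwards [ho.mem_nhds hn] with q hq
          rw [(hW q hq).1, h0 a]
        · have e1 : W (E, x, X) - y0 x = (W (E, x, X) - y0 a) + -(y0 x - y0 a) := by abel
          rw [e1]
          refine (norm_add_le _ _).trans_lt ?_
          rw [norm_neg]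
          have e3 := hρ' x hx1
          linarith)
    refine ⟨c, hc, fun x E X h1 h2 => ?_⟩
    have hn : x - (⌊x⌋ : ℤ) ∈ Icc (0 : ℝ) 1 :=
      ⟨Int.fract_nonneg x, (Int.fract_lt_one x).le⟩
    obtain ⟨Z, k1, k2, k3, k4⟩ := hP (x - (⌊x⌋ : ℤ)) hn E (X - (⌊x⌋ : ℤ)) h1
      (by rwa [sub_sub_sub_cancel_right])
    have hsa : AnalyticAt ℝ (fun q : ℝ × ℝ × ℝ => q - (0, ((⌊x⌋ : ℤ) : ℝ), ((⌊x⌋ : ℤ) : ℝ)))
        (E, x, X) := analyticAt_id.sub analyticAt_const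
    have hsv : ∀ E x' X' : ℝ, ((E, x', X') : ℝ × ℝ × ℝ) -
        (0, ((⌊x⌋ : ℤ) : ℝ), ((⌊x⌋ : ℤ) : ℝ)) = (E, x' - (⌊x⌋ : ℤ), X' - (⌊x⌋ : ℤ)) := by
      intro E x' X'
      ext <;> simp
    have hse : (fun q : ℝ × ℝ × ℝ => q - (0, ((⌊x⌋ : ℤ) : ℝ), ((⌊x⌋ : ℤ) : ℝ))) (E, x, X) =
        (E, x - (⌊x⌋ : ℤ), X - (⌊x⌋ : ℤ)) := hsv E x X
    refine ⟨fun q => Z (q - (0, ((⌊x⌋ : ℤ) : ℝ), ((⌊x⌋ : ℤ) : ℝ))), ?_, ?_, ?_, ?_⟩
    · refine AnalyticAt.fun_comp (g := Z) ?_ hsa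
      rw [hsv]
      exact k1
    · have hten : Tendsto (fun q : ℝ × ℝ × ℝ => q - (0, ((⌊x⌋ : ℤ) : ℝ), ((⌊x⌋ : ℤ) : ℝ)))
          (𝓝 (E, x, X)) (𝓝 (E, x - (⌊x⌋ : ℤ), X - (⌊x⌋ : ℤ))) := by
        rw [← hse]
        exact hsa.continuousAt
      filter_upwards [hten.eventually k2] with q hq
      obtain ⟨E', x', X'⟩ := q
      rw [hsv] at hq ⊢
      rwa [hshift] at hq
    · show ‖Z ((E, x, X) - (0, ((⌊x⌋ : ℤ) : ℝ), ((⌊x⌋ : ℤ) : ℝ))) - y0 x‖ < min ε c₁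
      rw [hsv]
      rwa [hyshift] at k3
    · intro y' hy'
      refine k4 y' ?_
      have h3 : fderiv ℝ F ((E, x, X), Z ((E, x, X) - (0, ((⌊x⌋ : ℤ) : ℝ), ((⌊x⌋ : ℤ) : ℝ))))
        (0, y') = 0 := hy'
      rw [hsv] at h3
      rw [hshift']
      exact h3
  -- (3) the function
  choose Z hZ1 hZ2 hZ3 hZ4 using hZ
  set c : ℝ := min c₂ c₁ with hc
  have hcpos : 0 < c := lt_min hc₂ hc₁
  have hcl : ∀ s : ℝ, s < c → s < c₂ := fun s hs => hs.trans_le (min_le_left _ _)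
  have hcr : ∀ s : ℝ, s < c → s < c₁ := fun s hs => hs.trans_le (min_le_right _ _)
  set y : ℝ → ℝ → ℝ → Y := fun E x X =>
    if h : |E - E1| < c₂ ∧ |X - x| < c₂ then Z x E X h.1 h.2 (E, x, X) else 0 with hydef
  have hyv : ∀ E x X : ℝ, ∀ (h1 : |E - E1| < c₂) (h2 : |X - x| < c₂),
      y E x X = Z x E X h1 h2 (E, x, X) := by
    intro E x X h1 h2
    have h3 : |E - E1| < c₂ ∧ |X - x| < c₂ := ⟨h1, h2⟩
    rw [hydef]
    simp only [h3, and_self, dif_pos]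
  have hy0 : ∀ E x X : ℝ, |E - E1| < c → |X - x| < c → F ((E, x, X), y E x X) = 0 := by
    intro E x X h1 h2
    rw [hyv E x X (hcl _ h1) (hcl _ h2)]
    exact (hZ2 x E X (hcl _ h1) (hcl _ h2)).self_of_nhds
  have hyn : ∀ E x X : ℝ, |E - E1| < c → |X - x| < c → ‖y E x X - y0 x‖ < min ε c₁ := by
    intro E x X h1 h2
    rw [hyv E x X (hcl _ h1) (hcl _ h2)]
    exact hZ3 x E X (hcl _ h1) (hcl _ h2)
  have huni : ∀ E x X : ℝ, |E - E1| < c → |X - x| < c → ∀ y' : Y, ‖y' - y0 x‖ < c₁ →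
      F ((E, x, X), y') = 0 → y' = y E x X := by
    intro E x X h1 h2 y' h3 h4
    exact hU x E X (hcr _ h1) (hcr _ h2) y' _ h3 ((hyn E x X h1 h2).trans_le (min_le_right _ _))
      h4 (hy0 E x X h1 h2)
  refine ⟨c, hcpos, y, fun E x X h1 h2 => ⟨hy0 E x X h1 h2,
    (hyn E x X h1 h2).trans_le (min_le_left _ _), ?_, huni E x X h1 h2, ?_⟩⟩
  · have ha := hZ1 x E X (hcl _ h1) (hcl _ h2)
    refine ha.congr ?_
    have o1 : IsOpen {q : ℝ × ℝ × ℝ | |q.1 - E1| < c} :=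
      isOpen_lt (continuous_fst.sub continuous_const).abs continuous_const
    have o2 : IsOpen {q : ℝ × ℝ × ℝ | |q.2.2 - q.2.1| < c} :=
      isOpen_lt ((continuous_snd.comp continuous_snd).sub
        (continuous_fst.comp continuous_snd)).abs continuous_const
    have o3 : ContinuousAt (fun q : ℝ × ℝ × ℝ =>
        ‖Z x E X (hcl _ h1) (hcl _ h2) q - y0 q.2.1‖) (E, x, X) := by
      have e1 : Continuous (fun q : ℝ × ℝ × ℝ => y0 q.2.1) :=
        hy.comp (continuous_fst.comp continuous_snd)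
      exact (ha.continuousAt.sub e1.continuousAt).norm
    have o4 : ∀ᶠ q in 𝓝 ((E, x, X) : ℝ × ℝ × ℝ),
        ‖Z x E X (hcl _ h1) (hcl _ h2) q - y0 q.2.1‖ < c₁ := by
      refine o3.eventually (gt_mem_nhds ?_)
      exact (hZ3 x E X (hcl _ h1) (hcl _ h2)).trans_le (min_le_right _ _)
    filter_upwards [o1.mem_nhds (show |E - E1| < c from h1), o2.mem_nhds (show |X - x| < c from h2),
      o4, hZ2 x E X (hcl _ h1) (hcl _ h2)] with q q1 q2 q3 q4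
    obtain ⟨E', x', X'⟩ := q
    exact huni E' x' X' q1 q2 _ q3 q4
  · intro y' hy'
    rw [hyv E x X (hcl _ h1) (hcl _ h2)] at hy'
    exact hZ4 x E X (hcl _ h1) (hcl _ h2) y' hy'

end Pool.Agent.DB
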