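import Pool.Agent.DB.Arz
import Pool.Agent.DB.Uni

/-!
# MP_74f563_an, n = 2 autonomous (D2), file DB/Arc: arcs between the section and its translate

`Arc`: for `|E - E1| < c`, `|X - x| < c` the solution of energy `E` with initial data `(g x, ν E x X)` is at
`g X + (1, 0)` at the time `ϑ E x X`.

PROOF of `exists_arc`.  Let `F ((E, x, X), (v, θ)) = ((Fl θ (g x, v)).1 - g X - (1, 0), en L (g x, v) - E)`, a
function with values in `Y = R2 × ℝ`, analytic, `y0 x = (V1 (g x), T1)`.  `unif_imp` (file DB/Uni):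
`hper`: `g (x + 1) = g x + (0, 1)`, `fper` and `en_per` with `k = (0, 1)`.  `hy`: continuity of `V1` (`V_ana`)
and `g`.  `hyp`: `perV`.  `h0`: `orb`, `enV` (`zz (1, 0) = (1, 0)`).  `hi`: the partial derivative in `(v, θ)` at
`(g x, V1 (g x))`, `T1` in the direction `(dv, dθ)` is
`((fderiv ℝ (Fl T1) z (0, dv)).1 + dθ • (Fl T1 z).2, Lvv L z (V1 (g x)) dv)`, `z = (g x, V1 (g x))` (chain rule,
`vel`, `en_dv`); injective by `gam_inj`.  Let `c₁'` be the radius of `unif_imp` and `c1` the minimum of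
`c₁'`, the radii of `sec_ind`, `sec_uniq` (file DB/Arz) and `T1 / 2`.  Let `ε ≤ c1` be so small that
`end_near` holds with `η = c1 / 2`; `unif_imp` for this `ε` gives `c` and `y = (ν, ϑ)`.  Decrease `c` so that
`sec_near` holds with `η = c1 / 2` for `|X - x| < c` (so `nearf`: `c1 / 2 + c1 / 2`), that
`E > E0`, `‖V E (1, 0) x - V1 x‖ < c1`, `|T E (1, 0) - T1| < c1` for `|E - E1| < c` (`V_unif`, `T_unif`, file
DB/CSv).  `uniq`: the uniqueness of `unif_imp` (norm on `R2 × ℝ`: max).  `ν_diag`, `ϑ_diag`: by `uniq` for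
`v = V E (1, 0) (g x)`, `θ = T E (1, 0)` (`enV`, `orb`).  `ν_per`, `ϑ_per`: by `uniq` for `(x + 1, X + 1)`:
`v = ν E x X`, `θ = ϑ E x X` solve the equations at `(x + 1, X + 1)` (`hper`) and
`V1 (g (x + 1)) = V1 (g x)`.  `ϑ_pos`: `ϑ > T1 - c1 ≥ T1 / 2 > 0`.
-/

set_option autoImplicit false

namespace Pool.Agent.DB

open Set Filter Topology

/-- arcs of energy near `E1` between the section `g` and its translate `g + (1, 0)` -/
structure Arc (L : PP → ℝ) (Fl : ℝ → PP → PP) (E0 : ℝ) (V : ℝ → ℤ × ℤ → R2 → R2)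
    (T : ℝ → ℤ × ℤ → ℝ) (E1 : ℝ) (g : ℝ → R2) (c c1 : ℝ) (ν : ℝ → ℝ → ℝ → R2)
    (ϑ : ℝ → ℝ → ℝ → ℝ) : Prop where
  c_pos : 0 < c
  c1_pos : 0 < c1
  gt : ∀ E, |E - E1| < c → E0 < E
  ν_ana : ∀ E x X : ℝ, |E - E1| < c → |X - x| < c →
    AnalyticAt ℝ (fun q : ℝ × ℝ × ℝ => ν q.1 q.2.1 q.2.2) (E, x, X)
  ϑ_ana : ∀ E x X : ℝ, |E - E1| < c → |X - x| < c →
    AnalyticAt ℝ (fun q : ℝ × ℝ × ℝ => ϑ q.1 q.2.1 q.2.2) (E, x, X)
  en : ∀ E x X : ℝ, |E - E1| < c → |X - x| < c → en L (g x, ν E x X) = E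
  hit : ∀ E x X : ℝ, |E - E1| < c → |X - x| < c →
    (Fl (ϑ E x X) (g x, ν E x X)).1 = g X + (1, 0)
  near : ∀ E x X : ℝ, |E - E1| < c → |X - x| < c → ‖ν E x X - V E1 (1, 0) (g x)‖ < c1
  nearϑ : ∀ E x X : ℝ, |E - E1| < c → |X - x| < c → |ϑ E x X - T E1 (1, 0)| < c1
  ϑ_pos : ∀ E x X : ℝ, |E - E1| < c → |X - x| < c → 0 < ϑ E x X
  nearf : ∀ E x X : ℝ, |E - E1| < c → |X - x| < c →
    ‖(Fl (ϑ E x X) (g x, ν E x X)).2 - V E1 (1, 0) (g X)‖ < c1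
  uniq : ∀ (E x X : ℝ) (v : R2) (θ : ℝ), |E - E1| < c → |X - x| < c →
    ‖v - V E1 (1, 0) (g x)‖ < c1 → |θ - T E1 (1, 0)| < c1 → DB.en L (g x, v) = E →
    (Fl θ (g x, v)).1 = g X + (1, 0) → v = ν E x X ∧ θ = ϑ E x X
  ν_per : ∀ E x X : ℝ, |E - E1| < c → |X - x| < c → ν E (x + 1) (X + 1) = ν E x X
  ϑ_per : ∀ E x X : ℝ, |E - E1| < c → |X - x| < c → ϑ E (x + 1) (X + 1) = ϑ E x X
  ν_diag : ∀ E x : ℝ, |E - E1| < c → ν E x x = V E (1, 0) (g x)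
  ϑ_diag : ∀ E x : ℝ, |E - E1| < c → ϑ E x x = T E (1, 0)
  ind : ∀ (x : ℝ) (v : R2), ‖v - V E1 (1, 0) (g x)‖ < c1 → dtm v (deriv g x) ≠ 0
  uniq2 : ∀ (x : ℝ) (v v' : R2), ‖v - V E1 (1, 0) (g x)‖ < c1 →
    ‖v' - V E1 (1, 0) (g x)‖ < c1 → DB.en L (g x, v) = DB.en L (g x, v') →
    pm L (g x, v) (deriv g x) = pm L (g x, v') (deriv g x) → v = v'

variable {L : PP → ℝ} {Fl : ℝ → PP → PP} {E0 : ℝ} {V : ℝ → ℤ × ℤ → R2 → R2}
  {T m : ℝ → ℤ × ℤ → ℝ} {E1 : ℝ} {g : ℝ → R2} {τ s : R2 → ℝ} {c c1 : ℝ} {ν : ℝ → ℝ → ℝ → R2}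
  {ϑ : ℝ → ℝ → ℝ → ℝ}

private theorem arc_fu (hD : Dyn L Fl) (t : ℝ) (z u : PP) (s : ℝ) :
    (fderiv ℝ (fun q : ℝ × PP => Fl q.1 q.2) (t, z) (s, u)).1 =
      s • (Fl t z).2 + (fderiv ℝ (Fl t) z u).1 := by
  set Fu : ℝ × PP → PP := fun q => Fl q.1 q.2 with hFu
  have hF : HasFDerivAt Fu (fderiv ℝ Fu (t, z)) (t, z) :=
    (hD.fana _ (mem_univ _)).differentiableAt.hasFDerivAt
  have hF1 : (fderiv ℝ Fu (t, z) (1, 0)).1 = (Fl t z).2 := by
    have h2 : HasDerivAt (fun s : ℝ => (s, z)) ((1 : ℝ), (0 : PP)) t :=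
      (hasDerivAt_id t).prodMk (hasDerivAt_const t z)
    have h3 : HasDerivAt (fun s : ℝ => Fl s z) (fderiv ℝ Fu (t, z) (1, 0)) t :=
      HasFDerivAt.comp_hasDerivAt (l := Fu) (f := fun s : ℝ => (s, z)) t hF h2
    have h4 : HasDerivAt (fun s : ℝ => (Fl s z).1) (fderiv ℝ Fu (t, z) (1, 0)).1 t :=
      HasFDerivAt.comp_hasDerivAt (l := fun p : PP => p.1) (f := fun s : ℝ => Fl s z) t
        (hasFDerivAt_fst (𝕜 := ℝ) (E := R2) (F := R2) (p := Fl t z)) h3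
    exact h4.unique (hD.vel t z)
  have hF2 : fderiv ℝ Fu (t, z) (0, u) = fderiv ℝ (Fl t) z u := by
    have h1 : HasFDerivAt (fun y : PP => (t, y)) (ContinuousLinearMap.inr ℝ ℝ PP) z :=
      hasFDerivAt_prodMk_right t z
    have h2 : HasFDerivAt (Fl t)
        ((fderiv ℝ Fu (t, z)).comp (ContinuousLinearMap.inr ℝ ℝ PP)) z :=
      HasFDerivAt.comp (g := Fu) (f := fun y : PP => (t, y)) z hF h1
    rw [h2.fderiv]
    rfl
  have hsplit : ((s, u) : ℝ × PP) = s • ((1 : ℝ), (0 : PP)) + ((0 : ℝ), u) := by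
    rw [Prod.smul_mk, Prod.mk_add_mk, smul_eq_mul, mul_one, add_zero, smul_zero, zero_add]
  rw [hsplit, map_add, map_smul, hF2, Prod.fst_add, Prod.smul_fst, hF1]

/-- the equations of the arcs -/
private noncomputable def arcF (L : PP → ℝ) (Fl : ℝ → PP → PP) (g : ℝ → R2)
    (p : (ℝ × ℝ × ℝ) × (R2 × ℝ)) : R2 × ℝ :=
  ((Fl p.2.2 (g p.1.2.1, p.2.1)).1 - g p.1.2.2 - ((1, 0) : R2), en L (g p.1.2.1, p.2.1) - p.1.1)

private theorem arcF_ana (hD : Dyn L Fl) (hg : AnalyticOnNhd ℝ g univ) :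
    AnalyticOnNhd ℝ (arcF L Fl g) univ := by
  rintro p -
  have a0 : AnalyticAt ℝ (fun p : (ℝ × ℝ × ℝ) × (R2 × ℝ) => p.1.2) p :=
    AnalyticAt.fun_comp (g := fun q : ℝ × ℝ × ℝ => q.2)
      (f := fun p : (ℝ × ℝ × ℝ) × (R2 × ℝ) => p.1) analyticAt_snd analyticAt_fst
  have a1 : AnalyticAt ℝ (fun p : (ℝ × ℝ × ℝ) × (R2 × ℝ) => p.1.2.1) p :=
    AnalyticAt.fun_comp (g := fun q : ℝ × ℝ => q.1)
      (f := fun p : (ℝ × ℝ × ℝ) × (R2 × ℝ) => p.1.2) analyticAt_fst a0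
  have a1' : AnalyticAt ℝ (fun p : (ℝ × ℝ × ℝ) × (R2 × ℝ) => p.1.2.2) p :=
    AnalyticAt.fun_comp (g := fun q : ℝ × ℝ => q.2)
      (f := fun p : (ℝ × ℝ × ℝ) × (R2 × ℝ) => p.1.2) analyticAt_snd a0
  have a2 : AnalyticAt ℝ (fun p : (ℝ × ℝ × ℝ) × (R2 × ℝ) => p.1.1) p :=
    AnalyticAt.fun_comp (g := fun q : ℝ × ℝ × ℝ => q.1)
      (f := fun p : (ℝ × ℝ × ℝ) × (R2 × ℝ) => p.1) analyticAt_fst analyticAt_fst
  have a3 : AnalyticAt ℝ (fun p : (ℝ × ℝ × ℝ) × (R2 × ℝ) => p.2.1) p :=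
    AnalyticAt.fun_comp (g := fun q : R2 × ℝ => q.1)
      (f := fun p : (ℝ × ℝ × ℝ) × (R2 × ℝ) => p.2) analyticAt_fst analyticAt_snd
  have a4 : AnalyticAt ℝ (fun p : (ℝ × ℝ × ℝ) × (R2 × ℝ) => p.2.2) p :=
    AnalyticAt.fun_comp (g := fun q : R2 × ℝ => q.2)
      (f := fun p : (ℝ × ℝ × ℝ) × (R2 × ℝ) => p.2) analyticAt_snd analyticAt_snd
  have g1 : AnalyticAt ℝ (fun p : (ℝ × ℝ × ℝ) × (R2 × ℝ) => g p.1.2.1) p :=
    AnalyticAt.fun_comp (g := g) (f := fun p : (ℝ × ℝ × ℝ) × (R2 × ℝ) => p.1.2.1)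
      (hg _ (mem_univ _)) a1
  have g2 : AnalyticAt ℝ (fun p : (ℝ × ℝ × ℝ) × (R2 × ℝ) => g p.1.2.2) p :=
    AnalyticAt.fun_comp (g := g) (f := fun p : (ℝ × ℝ × ℝ) × (R2 × ℝ) => p.1.2.2)
      (hg _ (mem_univ _)) a1'
  have a5 : AnalyticAt ℝ (fun p : (ℝ × ℝ × ℝ) × (R2 × ℝ) => (g p.1.2.1, p.2.1)) p := g1.prod a3
  have a6 : AnalyticAt ℝ (fun p : (ℝ × ℝ × ℝ) × (R2 × ℝ) => (p.2.2, (g p.1.2.1, p.2.1))) p :=
    a4.prod a5
  have a7 : AnalyticAt ℝ (fun p : (ℝ × ℝ × ℝ) × (R2 × ℝ) => Fl p.2.2 (g p.1.2.1, p.2.1)) p :=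
    AnalyticAt.fun_comp (g := fun q : ℝ × PP => Fl q.1 q.2)
      (f := fun p : (ℝ × ℝ × ℝ) × (R2 × ℝ) => (p.2.2, (g p.1.2.1, p.2.1)))
      (hD.fana _ (mem_univ _)) a6
  have a8 : AnalyticAt ℝ (fun p : (ℝ × ℝ × ℝ) × (R2 × ℝ) =>
      (Fl p.2.2 (g p.1.2.1, p.2.1)).1) p :=
    AnalyticAt.fun_comp (g := fun q : PP => q.1)
      (f := fun p : (ℝ × ℝ × ℝ) × (R2 × ℝ) => Fl p.2.2 (g p.1.2.1, p.2.1)) analyticAt_fst a7
  have a9 : AnalyticAt ℝ (fun p : (ℝ × ℝ × ℝ) × (R2 × ℝ) => en L (g p.1.2.1, p.2.1)) p :=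
    AnalyticAt.fun_comp (g := en L)
      (f := fun p : (ℝ × ℝ × ℝ) × (R2 × ℝ) => (g p.1.2.1, p.2.1)) (hD.en_ana _ (mem_univ _)) a5
  exact ((a8.sub g2).sub analyticAt_const).prod (a9.sub a2)

private theorem arc_z10 : zz (1, 0) = ((1, 0) : R2) := by simp [zz]

private theorem arc_z01 : zz (0, 1) = ((0, 1) : R2) := by simp [zz]

private theorem arcF_per (hD : Dyn L Fl) (hg : ∀ u, g (u + 1) = g u + (0, 1)) (E x X : ℝ)
    (y : R2 × ℝ) : arcF L Fl g ((E, x + 1, X + 1), y) = arcF L Fl g ((E, x, X), y) := by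
  have h1 : ((g (x + 1), y.1) : PP) = (g x, y.1) + (zz (0, 1), 0) := by
    rw [hg, arc_z01]
    exact Prod.ext rfl (add_zero _).symm
  unfold arcF
  simp only
  rw [h1, hD.fper, hD.en_per, hg X, arc_z01]
  refine Prod.ext ?_ rfl
  simp only [Prod.fst_add]
  abel

private theorem arcF_inj (hC : C0 L Fl E0 V T m) (hE : E0 < E1)
    (hg : AnalyticOnNhd ℝ g univ) (x : ℝ) (y : R2 × ℝ)
    (hy : fderiv ℝ (arcF L Fl g) ((E1, x, x), (V E1 (1, 0) (g x), T E1 (1, 0))) (0, y) = 0) :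
    y = 0 := by
  have hD : Dyn L Fl := hC.toDyn
  have hh : Prm (1, 0) := prm_one
  obtain ⟨dv, dt⟩ := y
  set v : R2 := V E1 (1, 0) (g x) with hv
  set t₀ : ℝ := T E1 (1, 0) with ht₀
  have hFd : HasFDerivAt (arcF L Fl g) (fderiv ℝ (arcF L Fl g) ((E1, x, x), (v, t₀)))
      ((E1, x, x), (v, t₀)) :=
    (arcF_ana hD hg _ (mem_univ _)).differentiableAt.hasFDerivAt
  have hvd : HasDerivAt (fun s : ℝ => v + s • dv) dv 0 := by
    have := ((hasDerivAt_id (0 : ℝ)).smul_const dv).const_add v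
    simpa using this
  have htd : HasDerivAt (fun s : ℝ => t₀ + s * dt) dt 0 := by
    have := ((hasDerivAt_id (0 : ℝ)).mul_const dt).const_add t₀
    simpa using this
  set c : ℝ → (ℝ × ℝ × ℝ) × (R2 × ℝ) := fun s => ((E1, x, x), (v + s • dv, t₀ + s * dt)) with hc
  have hcd : HasDerivAt c ((0 : ℝ × ℝ × ℝ), (dv, dt)) 0 :=
    (hasDerivAt_const (0 : ℝ) ((E1, x, x) : ℝ × ℝ × ℝ)).prodMk (hvd.prodMk htd)
  have hc0 : c 0 = ((E1, x, x), (v, t₀)) := by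
    simp [hc]
  have hFc : HasDerivAt (fun s => arcF L Fl g (c s)) 0 0 := by
    have h1 : HasFDerivAt (arcF L Fl g) (fderiv ℝ (arcF L Fl g) ((E1, x, x), (v, t₀))) (c 0) := by
      rw [hc0]
      exact hFd
    have h2 := HasFDerivAt.comp_hasDerivAt (l := arcF L Fl g) (f := c) 0 h1 hcd
    rw [hy] at h2
    exact h2
  set Fu : ℝ × PP → PP := fun q => Fl q.1 q.2 with hFu
  have hzd : HasDerivAt (fun s : ℝ => ((g x, v + s • dv) : PP)) ((0 : R2), dv) 0 :=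
    (hasDerivAt_const (0 : ℝ) (g x)).prodMk hvd
  have hz0 : ((g x, v + (0 : ℝ) • dv) : PP) = (g x, v) := by simp
  have hA : HasDerivAt (fun s : ℝ => (Fl (t₀ + s * dt) (g x, v + s • dv)).1)
      ((fderiv ℝ Fu (t₀, (g x, v)) (dt, (0, dv))).1) 0 := by
    have h1 : HasDerivAt (fun s : ℝ => (t₀ + s * dt, ((g x, v + s • dv) : PP)))
        (dt, ((0 : R2), dv)) 0 := htd.prodMk hzd
    have h2 : HasFDerivAt Fu (fderiv ℝ Fu (t₀, (g x, v)))
        (t₀ + 0 * dt, ((g x, v + (0 : ℝ) • dv) : PP)) := by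
      have e : (t₀ + 0 * dt, ((g x, v + (0 : ℝ) • dv) : PP)) = (t₀, (g x, v)) := by simp
      rw [e]
      exact (hD.fana _ (mem_univ _)).differentiableAt.hasFDerivAt
    have h3 : HasDerivAt (fun s : ℝ => Fl (t₀ + s * dt) (g x, v + s • dv))
        (fderiv ℝ Fu (t₀, (g x, v)) (dt, (0, dv))) 0 :=
      HasFDerivAt.comp_hasDerivAt (l := Fu)
        (f := fun s : ℝ => (t₀ + s * dt, ((g x, v + s • dv) : PP))) 0 h2 h1
    exact HasFDerivAt.comp_hasDerivAt (l := fun p : PP => p.1)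
      (f := fun s : ℝ => Fl (t₀ + s * dt) (g x, v + s • dv)) 0
      (hasFDerivAt_fst (𝕜 := ℝ) (E := R2) (F := R2)) h3
  have hB : HasDerivAt (fun s : ℝ => en L (g x, v + s • dv))
      (fderiv ℝ (en L) (g x, v) (0, dv)) 0 := by
    have h2 : HasFDerivAt (en L) (fderiv ℝ (en L) (g x, v)) ((g x, v + (0 : ℝ) • dv) : PP) := by
      rw [hz0]
      exact (hD.en_ana _ (mem_univ _)).differentiableAt.hasFDerivAt
    exact HasFDerivAt.comp_hasDerivAt (l := en L) (f := fun s : ℝ => ((g x, v + s • dv) : PP)) 0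
      h2 hzd
  have k1 : HasDerivAt (fun s => (arcF L Fl g (c s)).1) (0 : R2) 0 :=
    HasFDerivAt.comp_hasDerivAt (l := fun p : R2 × ℝ => p.1)
      (f := fun s : ℝ => arcF L Fl g (c s)) 0 (hasFDerivAt_fst (𝕜 := ℝ) (E := R2) (F := ℝ)) hFc
  have k2 : HasDerivAt (fun s => (arcF L Fl g (c s)).2) (0 : ℝ) 0 :=
    HasFDerivAt.comp_hasDerivAt (l := fun p : R2 × ℝ => p.2)
      (f := fun s : ℝ => arcF L Fl g (c s)) 0 (hasFDerivAt_snd (𝕜 := ℝ) (E := R2) (F := ℝ)) hFc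
  have k3 : HasDerivAt (fun s => (arcF L Fl g (c s)).1)
      ((fderiv ℝ Fu (t₀, (g x, v)) (dt, (0, dv))).1) 0 :=
    (hA.sub_const (g x)).sub_const ((1, 0) : R2)
  have k4 : HasDerivAt (fun s => (arcF L Fl g (c s)).2) (fderiv ℝ (en L) (g x, v) (0, dv)) 0 :=
    hB.sub_const E1
  have e1 : (fderiv ℝ Fu (t₀, (g x, v)) (dt, (0, dv))).1 = 0 := k3.unique k1
  have e2 : fderiv ℝ (en L) (g x, v) (0, dv) = 0 := k4.unique k2
  rw [arc_fu hD] at e1
  rw [hD.en_dv] at e2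
  have := gam_inj hC hE hh (g x) (hC.Tpos E1 hE (1, 0) hh) (dv := dv) (dt := dt) e2
    (by rw [add_comm]; exact e1)
  exact Prod.ext this.1 this.2

private theorem arc_fst_le (y : R2 × ℝ) : ‖y.1‖ ≤ ‖y‖ := norm_fst_le y

private theorem arc_snd_le (y : R2 × ℝ) : |y.2| ≤ ‖y‖ := norm_snd_le y

theorem exists_arc (hC : C0 L Fl E0 V T m) (hE : E0 < E1)
    (hS : Sect (V E1 (1, 0)) (T E1 (1, 0)) g τ s) :
    ∃ (c c1 : ℝ) (ν : ℝ → ℝ → ℝ → R2) (ϑ : ℝ → ℝ → ℝ → ℝ), Arc L Fl E0 V T E1 g c c1 ν ϑ := by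
  have hD : Dyn L Fl := hC.toDyn
  have hh : Prm (1, 0) := prm_one
  have hT0 : 0 < T E1 (1, 0) := hC.Tpos E1 hE _ hh
  set y0 : ℝ → R2 × ℝ := fun x => (V E1 (1, 0) (g x), T E1 (1, 0)) with hy0
  have hgc : Continuous g := continuous_iff_continuousAt.2 fun x =>
    (hS.g_ana x (mem_univ _)).continuousAt
  have hVc : Continuous (V E1 (1, 0)) := continuous_iff_continuousAt.2 fun x => by
    have h1 := (V_ana hC hE hh x).continuousAt
    exact ContinuousAt.comp' (g := fun q : ℝ × R2 => V q.1 (1, 0) q.2)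
      (f := fun x : R2 => (E1, x)) h1 (by fun_prop)
  have hVp : ∀ x, V E1 (1, 0) (g (x + 1)) = V E1 (1, 0) (g x) := by
    intro x
    rw [hS.g_per, ← arc_z01, hC.perV E1 hE _ hh]
  obtain ⟨c₁', hc₁', hU⟩ := unif_imp (F := arcF L Fl g) (y0 := y0) (E1 := E1)
    (arcF_ana hD hS.g_ana) (arcF_per hD hS.g_per) ((hVc.comp hgc).prodMk continuous_const)
    (fun x => Prod.ext (hVp x) rfl)
    (fun x => by
      unfold arcF
      simp only [hy0]
      refine Prod.ext ?_ ?_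
      · change (Fl (T E1 (1, 0)) (g x, V E1 (1, 0) (g x))).1 - g x - ((1, 0) : R2) = 0
        rw [hC.orb E1 hE _ hh, arc_z10]
        abel
      · change en L (g x, V E1 (1, 0) (g x)) - E1 = 0
        rw [hC.enV E1 hE _ hh, sub_self])
    (fun x y h => arcF_inj hC hE hS.g_ana x y h)
  obtain ⟨r1, hr1, hind⟩ := sec_ind hC hE hS
  obtain ⟨r2, hr2, hunq⟩ := sec_uniq hC hE hS
  set c1 : ℝ := min (min c₁' r1) (min r2 (T E1 (1, 0) / 2)) with hc1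
  have hc1p : 0 < c1 := lt_min (lt_min hc₁' hr1) (lt_min hr2 (half_pos hT0))
  have l1 : c1 ≤ c₁' := (min_le_left _ _).trans (min_le_left _ _)
  have l2 : c1 ≤ r1 := (min_le_left _ _).trans (min_le_right _ _)
  have l3 : c1 ≤ r2 := (min_le_right _ _).trans (min_le_left _ _)
  have l4 : c1 ≤ T E1 (1, 0) / 2 := (min_le_right _ _).trans (min_le_right _ _)
  obtain ⟨ε0, hε0, hend⟩ := end_near hC hE hS (half_pos hc1p)
  obtain ⟨cb, hcb, hsec⟩ := sec_near hC hE hS (half_pos hc1p)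
  obtain ⟨κ1, hκ1, hV⟩ := V_unif hC hE hh hc1p
  obtain ⟨κ2, hκ2, hT⟩ := T_unif hC hE hh hc1p
  obtain ⟨ca, hca, y, hy⟩ := hU (min ε0 c1) (lt_min hε0 hc1p)
  set c : ℝ := min (min ca cb) (min κ1 κ2) with hc
  have hcp : 0 < c := lt_min (lt_min hca hcb) (lt_min hκ1 hκ2)
  have m1 : c ≤ ca := (min_le_left _ _).trans (min_le_left _ _)
  have m2 : c ≤ cb := (min_le_left _ _).trans (min_le_right _ _)
  have m3 : c ≤ κ1 := (min_le_right _ _).trans (min_le_left _ _)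
  have m4 : c ≤ κ2 := (min_le_right _ _).trans (min_le_right _ _)
  have hyF : ∀ E x X : ℝ, |E - E1| < c → |X - x| < c → arcF L Fl g ((E, x, X), y E x X) = 0 :=
    fun E x X h1 h2 => (hy E x X (h1.trans_le m1) (h2.trans_le m1)).1
  have hyN : ∀ E x X : ℝ, |E - E1| < c → |X - x| < c → ‖y E x X - y0 x‖ < min ε0 c1 :=
    fun E x X h1 h2 => (hy E x X (h1.trans_le m1) (h2.trans_le m1)).2.1
  have hN1 : ∀ E x X : ℝ, |E - E1| < c → |X - x| < c →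
      ‖(y E x X).1 - V E1 (1, 0) (g x)‖ < min ε0 c1 := fun E x X h1 h2 =>
    (arc_fst_le (y E x X - y0 x)).trans_lt (hyN E x X h1 h2)
  have hN2 : ∀ E x X : ℝ, |E - E1| < c → |X - x| < c →
      |(y E x X).2 - T E1 (1, 0)| < min ε0 c1 := fun E x X h1 h2 =>
    (arc_snd_le (y E x X - y0 x)).trans_lt (hyN E x X h1 h2)
  have hen : ∀ E x X : ℝ, |E - E1| < c → |X - x| < c → en L (g x, (y E x X).1) = E :=
    fun E x X h1 h2 => by
      have h3 : en L (g x, (y E x X).1) - E = 0 := congrArg Prod.snd (hyF E x X h1 h2)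
      linarith
  have hhit : ∀ E x X : ℝ, |E - E1| < c → |X - x| < c →
      (Fl (y E x X).2 (g x, (y E x X).1)).1 = g X + (1, 0) := fun E x X h1 h2 => by
    have h3 : (Fl (y E x X).2 (g x, (y E x X).1)).1 - g X - ((1, 0) : R2) = 0 :=
      congrArg Prod.fst (hyF E x X h1 h2)
    rw [sub_sub, sub_eq_zero] at h3
    exact h3
  have huniq : ∀ (E x X : ℝ) (v : R2) (θ : ℝ), |E - E1| < c → |X - x| < c →
      ‖v - V E1 (1, 0) (g x)‖ < c1 → |θ - T E1 (1, 0)| < c1 → en L (g x, v) = E →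
      (Fl θ (g x, v)).1 = g X + (1, 0) → v = (y E x X).1 ∧ θ = (y E x X).2 := by
    intro E x X v θ h1 h2 h3 h4 h5 h6
    have h7 := (hy E x X (h1.trans_le m1) (h2.trans_le m1)).2.2.2.1 (v, θ) ?_ ?_
    · exact ⟨congrArg Prod.fst h7, congrArg Prod.snd h7⟩
    · have h8 : ((v, θ) : R2 × ℝ) - y0 x = (v - V E1 (1, 0) (g x), θ - T E1 (1, 0)) := rfl
      rw [h8, Prod.norm_def]
      exact max_lt (h3.trans_le l1) (h4.trans_le l1)
    · unfold arcF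
      refine Prod.ext ?_ ?_
      · change (Fl θ (g x, v)).1 - g X - ((1, 0) : R2) = 0
        rw [h6]
        abel
      · change en L (g x, v) - E = 0
        rw [h5, sub_self]
  have hsh : ∀ x X : ℝ, |X - x| < c → |X + 1 - (x + 1)| < c := fun x X h => by
    rwa [add_sub_add_right_eq_sub]
  have hpr : ∀ E x X : ℝ, |E - E1| < c → |X - x| < c →
      (y E x X).1 = (y E (x + 1) (X + 1)).1 ∧ (y E x X).2 = (y E (x + 1) (X + 1)).2 := by
    intro E x X h1 h2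
    have hF := arcF_per hD hS.g_per E x X (y E x X)
    rw [hyF E x X h1 h2] at hF
    refine huniq E (x + 1) (X + 1) _ _ h1 (hsh x X h2) ?_ ?_ ?_ ?_
    · rw [hVp]
      exact (hN1 E x X h1 h2).trans_le (min_le_right _ _)
    · exact (hN2 E x X h1 h2).trans_le (min_le_right _ _)
    · have h3 : en L (g (x + 1), (y E x X).1) - E = 0 := congrArg Prod.snd hF
      linarith
    · have h3 : (Fl (y E x X).2 (g (x + 1), (y E x X).1)).1 - g (X + 1) - ((1, 0) : R2) = 0 :=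
        congrArg Prod.fst hF
      rw [sub_sub, sub_eq_zero] at h3
      exact h3
  have hdg : ∀ E x : ℝ, |E - E1| < c → V E (1, 0) (g x) = (y E x x).1 ∧
      T E (1, 0) = (y E x x).2 := by
    intro E x h1
    have h0 : |x - x| < c := by
      rw [sub_self, abs_zero]
      exact hcp
    have h2 := hV E (h1.trans_le m3)
    refine huniq E x x _ _ h1 h0 (h2.2 _) (hT E (h1.trans_le m4)) (hC.enV E h2.1 _ hh _) ?_
    rw [hC.orb E h2.1 _ hh, arc_z10]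
  refine ⟨c, c1, fun E x X => (y E x X).1, fun E x X => (y E x X).2, ?_⟩
  refine
    { c_pos := hcp
      c1_pos := hc1p
      gt := fun E h => (hV E (h.trans_le m3)).1
      ν_ana := ?_
      ϑ_ana := ?_
      en := hen
      hit := hhit
      near := fun E x X h1 h2 => (hN1 E x X h1 h2).trans_le (min_le_right _ _)
      nearϑ := fun E x X h1 h2 => (hN2 E x X h1 h2).trans_le (min_le_right _ _)
      ϑ_pos := ?_
      nearf := ?_
      uniq := huniq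
      ν_per := fun E x X h1 h2 => (hpr E x X h1 h2).1.symm
      ϑ_per := fun E x X h1 h2 => (hpr E x X h1 h2).2.symm
      ν_diag := fun E x h1 => (hdg E x h1).1.symm
      ϑ_diag := fun E x h1 => (hdg E x h1).2.symm
      ind := fun x v h => hind x v (h.trans_le l2)
      uniq2 := fun x v v' h h' => hunq x v v' (h.trans_le l3) (h'.trans_le l3) }
  · intro E x X h1 h2
    exact AnalyticAt.fun_comp (g := fun p : R2 × ℝ => p.1)
      (f := fun q : ℝ × ℝ × ℝ => y q.1 q.2.1 q.2.2) analyticAt_fst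
      (hy E x X (h1.trans_le m1) (h2.trans_le m1)).2.2.1
  · intro E x X h1 h2
    exact AnalyticAt.fun_comp (g := fun p : R2 × ℝ => p.2)
      (f := fun q : ℝ × ℝ × ℝ => y q.1 q.2.1 q.2.2) analyticAt_snd
      (hy E x X (h1.trans_le m1) (h2.trans_le m1)).2.2.1
  · intro E x X h1 h2
    have h3 := (abs_lt.1 ((hN2 E x X h1 h2).trans_le (min_le_right _ _))).1
    change 0 < (y E x X).2
    linarith
  · intro E x X h1 h2
    have h3 := hend x (y E x X).1 (y E x X).2 ((hN1 E x X h1 h2).trans_le (min_le_left _ _))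
      ((hN2 E x X h1 h2).trans_le (min_le_left _ _))
    have h4 := hsec x X (h2.trans_le m2)
    have h5 : (Fl (y E x X).2 (g x, (y E x X).1)).2 - V E1 (1, 0) (g X) =
        ((Fl (y E x X).2 (g x, (y E x X).1)).2 - V E1 (1, 0) (g x)) -
          (V E1 (1, 0) (g X) - V E1 (1, 0) (g x)) := by abel
    change ‖(Fl (y E x X).2 (g x, (y E x X).1)).2 - V E1 (1, 0) (g X)‖ < c1
    rw [h5]
    refine (norm_sub_le _ _).trans_lt ?_
    linarith

/-- the domain may be decreased -/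
theorem Arc.mono (hA : Arc L Fl E0 V T E1 g c c1 ν ϑ) {c' : ℝ} (h0 : 0 < c') (h : c' ≤ c) :
    Arc L Fl E0 V T E1 g c' c1 ν ϑ where
  c_pos := h0
  c1_pos := hA.c1_pos
  gt := fun E h1 => hA.gt E (h1.trans_le h)
  ν_ana := fun E x X h1 h2 => hA.ν_ana E x X (h1.trans_le h) (h2.trans_le h)
  ϑ_ana := fun E x X h1 h2 => hA.ϑ_ana E x X (h1.trans_le h) (h2.trans_le h)
  en := fun E x X h1 h2 => hA.en E x X (h1.trans_le h) (h2.trans_le h)
  hit := fun E x X h1 h2 => hA.hit E x X (h1.trans_le h) (h2.trans_le h)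
  near := fun E x X h1 h2 => hA.near E x X (h1.trans_le h) (h2.trans_le h)
  nearϑ := fun E x X h1 h2 => hA.nearϑ E x X (h1.trans_le h) (h2.trans_le h)
  ϑ_pos := fun E x X h1 h2 => hA.ϑ_pos E x X (h1.trans_le h) (h2.trans_le h)
  nearf := fun E x X h1 h2 => hA.nearf E x X (h1.trans_le h) (h2.trans_le h)
  uniq := fun E x X v θ h1 h2 => hA.uniq E x X v θ (h1.trans_le h) (h2.trans_le h)
  ν_per := fun E x X h1 h2 => hA.ν_per E x X (h1.trans_le h) (h2.trans_le h)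
  ϑ_per := fun E x X h1 h2 => hA.ϑ_per E x X (h1.trans_le h) (h2.trans_le h)
  ν_diag := fun E x h1 => hA.ν_diag E x (h1.trans_le h)
  ϑ_diag := fun E x h1 => hA.ϑ_diag E x (h1.trans_le h)
  ind := hA.ind
  uniq2 := hA.uniq2

end Pool.Agent.DB
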