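import Pool.Agent.DB.Defs

/-!
# MP_74f563_an, n = 2 autonomous (D2), file DB/CSv: uniform versions of (C1), (C7)

`V_unif`.  PROOF.  `(E, x) ↦ V E h x` is continuous on `{E > E0} × R2` (`contV`), periodic in `x` (`perV`); on
the compact set `[E1 - r, E1 + r] × [0, 1]²` (`r > 0`, `E1 - r > E0`) it is uniformly continuous; every
`x` is `y + zz k` with `y ∈ [0, 1]²` (`Int.floor`).
`conv_unif`.  PROOF.  For `E2 ∈ [a, b]` the field `conv` with `h = (1, 0)`, `h' = (0, 1)`, `d / 2` gives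
`κ(E2) > 0`, and `V_unif` gives `κ'(E2) > 0` for `d / 2`.  Finitely many intervals
`|E - E2| < min κ(E2) κ'(E2)` cover the compact set `[a, b]` (`IsCompact.elim_nhds_subcover` or
`IsCompact.induction_on`); `κ` is the minimum of the finitely many `κ(E2)`.
For `E` in the interval of `E2`: `‖V E (k, m) x - V E (1, 0) x‖ ≤ ‖V E (k, m) x - V E2 (1, 0) x‖ +
‖V E2 (1, 0) x - V E (1, 0) x‖ < d`.  `(k : ℤ) • (1, 0) + (m : ℤ) • (0, 1) = (k, m)`.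
`T_unif`: continuity of `T` at `E1`.
-/

set_option autoImplicit false

namespace Pool.Agent.DB

open Set Filter Topology

variable {L : PP → ℝ} {Fl : ℝ → PP → PP} {E0 : ℝ} {V : ℝ → ℤ × ℤ → R2 → R2}
  {T m : ℝ → ℤ × ℤ → ℝ}

theorem V_unif (hC : C0 L Fl E0 V T m) {E1 : ℝ} (hE : E0 < E1) {h : ℤ × ℤ} (hh : Prm h) {d : ℝ}
    (hd : 0 < d) : ∃ κ > 0, ∀ E, |E - E1| < κ → E0 < E ∧ ∀ x, ‖V E h x - V E1 h x‖ < d := by
  obtain ⟨r, hr0, hr⟩ : ∃ r : ℝ, 0 < r ∧ E0 < E1 - r := ⟨(E1 - E0) / 2, by linarith, by linarith⟩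
  have hK : IsCompact (Icc (E1 - r) (E1 + r) ×ˢ (Icc (0 : ℝ) 1 ×ˢ Icc (0 : ℝ) 1)) :=
    isCompact_Icc.prod (isCompact_Icc.prod isCompact_Icc)
  have hc : ContinuousOn (fun q : ℝ × R2 => V q.1 h q.2)
      (Icc (E1 - r) (E1 + r) ×ˢ (Icc (0 : ℝ) 1 ×ˢ Icc (0 : ℝ) 1)) :=
    (hC.contV h hh).mono fun q hq => ⟨hr.trans_le hq.1.1, mem_univ _⟩
  obtain ⟨δ, hδ, hu⟩ := Metric.uniformContinuousOn_iff.1
    (hK.uniformContinuousOn_of_continuous hc) d hd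
  refine ⟨min r δ, lt_min hr0 hδ, fun E hE' => ?_⟩
  have h1 : |E - E1| < r := hE'.trans_le (min_le_left _ _)
  have h2 : |E - E1| < δ := hE'.trans_le (min_le_right _ _)
  rw [abs_lt] at h1
  refine ⟨by linarith [h1.1], fun x => ?_⟩
  set y : R2 := (Int.fract x.1, Int.fract x.2) with hy
  have hx : x = y + zz (⌊x.1⌋, ⌊x.2⌋) := by
    refine Prod.ext ?_ ?_
    · exact (Int.fract_add_floor x.1).symm
    · exact (Int.fract_add_floor x.2).symm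
  have hy1 : y ∈ Icc (0 : ℝ) 1 ×ˢ Icc (0 : ℝ) 1 :=
    ⟨⟨Int.fract_nonneg _, (Int.fract_lt_one _).le⟩, ⟨Int.fract_nonneg _, (Int.fract_lt_one _).le⟩⟩
  rw [hx, hC.perV E (by linarith [h1.1]) h hh, hC.perV E1 hE h hh]
  have h3 := hu (E, y) ⟨⟨by linarith [h1.1], by linarith [h1.2]⟩, hy1⟩ (E1, y)
    ⟨⟨by linarith, by linarith⟩, hy1⟩ (by
      rw [Prod.dist_eq, dist_self]
      refine max_lt ?_ hδ
      rw [Real.dist_eq]
      exact h2)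
  rw [dist_eq_norm] at h3
  exact h3

theorem T_unif (hC : C0 L Fl E0 V T m) {E1 : ℝ} (hE : E0 < E1) {h : ℤ × ℤ} (hh : Prm h) {d : ℝ}
    (hd : 0 < d) : ∃ κ > 0, ∀ E, |E - E1| < κ → |T E h - T E1 h| < d := by
  have h1 : ContinuousAt (fun E => T E h) E1 := (hC.contT h hh).continuousAt (Ioi_mem_nhds hE)
  obtain ⟨κ, hκ, h2⟩ := Metric.continuousAt_iff.1 h1 d hd
  refine ⟨κ, hκ, fun E hE' => ?_⟩
  have h3 := h2 (x := E) (by rw [Real.dist_eq]; exact hE')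
  rw [Real.dist_eq] at h3
  exact h3

theorem conv_unif (hC : C0 L Fl E0 V T m) {a b : ℝ} (ha : E0 < a) {d : ℝ} (hd : 0 < d) :
    ∃ κ > 0, ∀ E ∈ Icc a b, ∀ k m : ℕ, 0 < k → 0 < m → Nat.Coprime k m → (m : ℝ) < κ * k →
      ∀ x, ‖V E ((k : ℤ), (m : ℤ)) x - V E (1, 0) x‖ < d := by
  have hcomp : IsCompact (Icc a b) := isCompact_Icc
  refine hcomp.induction_on (p := fun S => ∃ κ > 0, ∀ E ∈ S, ∀ k m : ℕ, 0 < k → 0 < m →
    Nat.Coprime k m → (m : ℝ) < κ * k → ∀ x, ‖V E ((k : ℤ), (m : ℤ)) x - V E (1, 0) x‖ < d)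
    ?_ ?_ ?_ ?_
  · exact ⟨1, one_pos, fun E hE => absurd hE (notMem_empty E)⟩
  · rintro S S' hS ⟨κ, hκ, h1⟩
    exact ⟨κ, hκ, fun E hE => h1 E (hS hE)⟩
  · rintro S S' ⟨κ, hκ, h1⟩ ⟨κ', hκ', h2⟩
    refine ⟨min κ κ', lt_min hκ hκ', ?_⟩
    rintro E (hE | hE) k m hk hm hc hlt x
    · refine h1 E hE k m hk hm hc (hlt.trans_le ?_) x
      exact mul_le_mul_of_nonneg_right (min_le_left _ _) (Nat.cast_nonneg k)
    · refine h2 E hE k m hk hm hc (hlt.trans_le ?_) x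
      exact mul_le_mul_of_nonneg_right (min_le_right _ _) (Nat.cast_nonneg k)
  · intro E2 hE2
    have hE2' : E0 < E2 := ha.trans_le hE2.1
    obtain ⟨κ, hκ, h1⟩ := hC.conv E2 hE2' (1, 0) (0, 1) (by norm_num) (d / 2) (half_pos hd)
    obtain ⟨κ', hκ', h2⟩ := V_unif hC hE2' (h := (1, 0)) isCoprime_one_left (half_pos hd)
    refine ⟨Metric.ball E2 (min κ κ'),
      mem_nhdsWithin_of_mem_nhds (Metric.ball_mem_nhds E2 (lt_min hκ hκ')), κ, hκ, ?_⟩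
    intro E hE k m hk hm hc hlt x
    rw [Metric.mem_ball, Real.dist_eq] at hE
    have h3 := h1 E (hE.trans_le (min_le_left _ _)) k m hk hm hc hlt x
    have h4 := (h2 E (hE.trans_le (min_le_right _ _))).2 x
    have h5 : ((k : ℤ) • ((1, 0) : ℤ × ℤ) + (m : ℤ) • ((0, 1) : ℤ × ℤ)) = ((k : ℤ), (m : ℤ)) := by
      ext <;> simp
    rw [h5] at h3
    have h6 : V E ((k : ℤ), (m : ℤ)) x - V E (1, 0) x =
        (V E ((k : ℤ), (m : ℤ)) x - V E2 (1, 0) x) - (V E (1, 0) x - V E2 (1, 0) x) := by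
      abel
    rw [h6]
    refine (norm_sub_le _ _).trans_lt ?_
    linarith

theorem prm_one : Prm (1, 0) := isCoprime_one_left

theorem prm_km {k m : ℕ} (h : Nat.Coprime k m) : Prm ((k : ℤ), (m : ℤ)) :=
  Nat.isCoprime_iff_coprime.2 h

end Pool.Agent.DB
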