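import Mathlib

/-!
# MP_74f563_an, n = 2 autonomous (D2), file DB/Imp: analytic implicit function theorem, local form

`ana_imp`.  PROOF.  `Φ (q, y) = (q, F (q, y))` on `Q × Y` is analytic at `p₀ = (q₀, g q₀)` and its
derivative `(q', y') ↦ (q', D F (q', y'))` is injective (if it vanishes then `q' = 0` and
`D F (0, y') = 0`, so `y' = 0`), hence an isomorphism (finite dimension:
`LinearMap.injective_iff_surjective`/`ContinuousLinearEquiv.ofBijective`, as in `inv_smooth` of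
Pool/Agent/DF/Leg.lean).  The inverse function theorem for `n = ω` (`ContDiffAt.to_localInverse`,
and
`AnalyticAt.contDiffAt`, `ContDiffAt.analyticAt`) gives an analytic local inverse `Ψ` at
`Φ p₀ = (q₀, c)` with `Ψ (Φ p) = p` for `p` near `p₀`
(`HasStrictFDerivAt.eventually_left_inverse`).  For `q` near `q₀`: `(q, g q)` is near `p₀`
(continuity of
`g`), `Φ (q, g q) = (q, c)`, hence `(q, g q) = Ψ (q, c)`, and `g q = (Ψ (q, c)).2` is analytic at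
`q₀`
(`AnalyticAt.congr`).

`loc_imp`.  PROOF.  Let `Φ`, `Ψ`, `p₀ = (q₀, y₀)` as above.  `Φ` is injective near `p₀`:
there is `c₁ > 0` with `Ψ (Φ (q, y)) = (q, y)` for `‖q - q₀‖ < c₁`, `‖y - y₀‖ < c₁`; choose it
also so small
that `F` is analytic at these points (`AnalyticAt.eventually_analyticAt`) and that the
`y`-derivative `y' ↦ fderiv ℝ F (q, y) (0, y')` is injective (the derivative of `Φ` is invertible
near `p₀`,
because it is continuous and the invertible maps are open: `ContinuousLinearEquiv.nhds`).  For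
`ε ≤ c₁` put `y q = (Ψ (q, c)).2` where `c = F (q₀, y₀)`: for `q` near `q₀` this is analytic,
`‖y q - y₀‖ < ε` (continuity), `Φ (Ψ (q, c)) = (q, c)` (`eventually_right_inverse`), so
`Ψ (q, c) = (q, y q)` and `F (q, y q) = c`.  If `‖y' - y₀‖ < c₁`, `F (q, y') = c` then
`(q, y') = Ψ (Φ (q, y')) = Ψ (q, c) = (q, y q)`.
-/

set_option autoImplicit false

namespace Pool.Agent.DB

open Set Filter Topology
open scoped ContDiff

variable {Q Y : Type} [NormedAddCommGroup Q] [NormedSpace ℝ Q] [FiniteDimensional ℝ Q]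
  [NormedAddCommGroup Y] [NormedSpace ℝ Y] [FiniteDimensional ℝ Y]

private theorem imp_core {F : Q × Y → Y} {p₀ : Q × Y} (hF : AnalyticAt ℝ F p₀)
    (hi : ∀ y : Y, fderiv ℝ F p₀ (0, y) = 0 → y = 0) :
    ∃ Ψ : Q × Y → Q × Y, AnalyticAt ℝ Ψ (p₀.1, F p₀) ∧ Ψ (p₀.1, F p₀) = p₀ ∧
      (∀ᶠ p in 𝓝 p₀, Ψ (p.1, F p) = p) ∧
      (∀ᶠ w in 𝓝 (p₀.1, F p₀), ((Ψ w).1, F (Ψ w)) = w) ∧
      ∀ᶠ p in 𝓝 p₀, ∀ y : Y, fderiv ℝ F p (0, y) = 0 → y = 0 := by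
  have hcQ : CompleteSpace Q := FiniteDimensional.complete ℝ Q
  have hcY : CompleteSpace Y := FiniteDimensional.complete ℝ Y
  set Φ : Q × Y → Q × Y := fun p => (p.1, F p) with hΦ
  have hn : (ω : WithTop ℕ∞) ≠ 0 := by simp
  have hΦa : AnalyticAt ℝ Φ p₀ := analyticAt_fst.prod hF
  have hder : ∀ p : Q × Y, AnalyticAt ℝ F p →
      HasFDerivAt Φ ((ContinuousLinearMap.fst ℝ Q Y).prod (fderiv ℝ F p)) p := fun p hp =>
    hasFDerivAt_fst.prodMk hp.differentiableAt.hasFDerivAt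
  set D : Q × Y →L[ℝ] Q × Y := (ContinuousLinearMap.fst ℝ Q Y).prod (fderiv ℝ F p₀) with hD
  have hDi : Function.Injective D := by
    rw [injective_iff_map_eq_zero]
    intro z hz
    have h1 : z.1 = 0 := congrArg Prod.fst hz
    have h2 : fderiv ℝ F p₀ z = 0 := congrArg Prod.snd hz
    have h3 : z = (0, z.2) := Prod.ext h1 rfl
    rw [h3] at h2
    rw [h3, hi z.2 h2]
    rfl
  obtain ⟨L, hL⟩ : ∃ L : (Q × Y) ≃L[ℝ] (Q × Y), (L : Q × Y →L[ℝ] Q × Y) = D := by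
    have hs : Function.Surjective D :=
      LinearMap.surjective_of_injective (f := (D : Q × Y →ₗ[ℝ] Q × Y)) hDi
    refine ⟨ContinuousLinearEquiv.ofBijective _ (LinearMap.ker_eq_bot.2 hDi)
      (LinearMap.range_eq_top.2 hs), ?_⟩
    exact ContinuousLinearEquiv.coe_ofBijective _ _ _
  have hz : ContDiffAt ℝ ω Φ p₀ := hΦa.contDiffAt
  have hD' : HasFDerivAt Φ (L : Q × Y →L[ℝ] Q × Y) p₀ := by
    rw [hL]
    exact hder p₀ hF
  have hst := hz.hasStrictFDerivAt' hD' hn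
  have h1 : ContDiffAt ℝ ω (hz.localInverse hD' hn) (Φ p₀) := hz.to_localInverse hD' hn
  have h2 : ∀ᶠ p in 𝓝 p₀, hz.localInverse hD' hn (Φ p) = p := hst.eventually_left_inverse
  have h3 : ∀ᶠ w in 𝓝 (Φ p₀), Φ (hz.localInverse hD' hn w) = w := hst.eventually_right_inverse
  refine ⟨hz.localInverse hD' hn, h1.analyticAt, h2.self_of_nhds, h2, h3, ?_⟩
  have h4 : ContinuousAt (fderiv ℝ Φ) p₀ := hΦa.fderiv.continuousAt
  have h5 : fderiv ℝ Φ p₀ = (L : Q × Y →L[ℝ] Q × Y) := hD'.fderiv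
  have h6 : ∀ᶠ p in 𝓝 p₀, fderiv ℝ Φ p ∈
      range ((↑) : ((Q × Y) ≃L[ℝ] (Q × Y)) → (Q × Y →L[ℝ] Q × Y)) := by
    apply h4.eventually
    rw [h5]
    exact ContinuousLinearEquiv.nhds L
  filter_upwards [h6, hF.eventually_analyticAt] with p hp hpa y hy
  obtain ⟨L', hL'⟩ := hp
  rw [(hder p hpa).fderiv] at hL'
  have h7 : L' (0, y) = 0 := by
    have h8 : (L' : Q × Y →L[ℝ] Q × Y) (0, y) =
        ((ContinuousLinearMap.fst ℝ Q Y).prod (fderiv ℝ F p)) (0, y) := by rw [hL']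
    refine h8.trans ?_
    show ((0 : Q), fderiv ℝ F p (0, y)) = 0
    rw [hy]
    rfl
  have h9 : ((0 : Q), y) = 0 := by
    rw [← L'.map_eq_zero_iff]
    exact h7
  exact congrArg Prod.snd h9

/-- a continuous solution of an analytic equation is analytic -/
theorem ana_imp {F : Q × Y → Y} {g : Q → Y} {q₀ : Q} {c : Y} (hF : AnalyticAt ℝ F (q₀, g q₀))
    (hg : ContinuousAt g q₀) (h : ∀ᶠ q in 𝓝 q₀, F (q, g q) = c)
    (hi : ∀ y : Y, fderiv ℝ F (q₀, g q₀) (0, y) = 0 → y = 0) : AnalyticAt ℝ g q₀ := by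
  obtain ⟨Ψ, h1, -, h3, -, -⟩ := imp_core hF hi
  have hc : F (q₀, g q₀) = c := h.self_of_nhds
  rw [hc] at h1
  have h4 : AnalyticAt ℝ (fun q : Q => (q, c)) q₀ := analyticAt_id.prod analyticAt_const
  have h5 : AnalyticAt ℝ (fun q : Q => (Ψ (q, c)).2) q₀ := by
    have h6 : AnalyticAt ℝ (fun q : Q => Ψ (q, c)) q₀ := AnalyticAt.fun_comp (g := Ψ) h1 h4
    exact AnalyticAt.fun_comp (g := Prod.snd) analyticAt_snd h6
  refine h5.congr ?_
  have h7 : Tendsto (fun q => (q, g q)) (𝓝 q₀) (𝓝 (q₀, g q₀)) :=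
    (continuousAt_id.prodMk hg : ContinuousAt (fun q => (q, g q)) q₀)
  filter_upwards [h7.eventually h3, h] with q hq1 hq2
  have h8 : Ψ (q, F (q, g q)) = (q, g q) := hq1
  rw [hq2] at h8
  show (Ψ (q, c)).2 = g q
  rw [h8]

/-- existence and uniqueness of the solution near a point -/
theorem loc_imp {F : Q × Y → Y} {q₀ : Q} {y₀ : Y} (hF : AnalyticAt ℝ F (q₀, y₀))
    (hi : ∀ y : Y, fderiv ℝ F (q₀, y₀) (0, y) = 0 → y = 0) :
    ∃ c₁ > (0 : ℝ), ∀ ε > (0 : ℝ), ∃ c > (0 : ℝ), ∃ y : Q → Y, ∀ q, ‖q - q₀‖ < c →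
      F (q, y q) = F (q₀, y₀) ∧ ‖y q - y₀‖ < ε ∧ AnalyticAt ℝ y q ∧
      (∀ y', ‖y' - y₀‖ < c₁ → F (q, y') = F (q₀, y₀) → y' = y q) ∧
      ∀ y', fderiv ℝ F (q, y q) (0, y') = 0 → y' = 0 := by
  obtain ⟨Ψ, h1, h2, h3, h4, h5⟩ := imp_core hF hi
  set c₀ : Y := F (q₀, y₀) with hc₀
  have h1' : AnalyticAt ℝ Ψ (q₀, c₀) := h1
  have h2' : Ψ (q₀, c₀) = (q₀, y₀) := h2
  have h4' : ∀ᶠ w in 𝓝 (q₀, c₀), ((Ψ w).1, F (Ψ w)) = w := h4
  obtain ⟨δ, hδ, hδ'⟩ := Metric.eventually_nhds_iff.1 (h3.and h5)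
  refine ⟨δ, hδ, fun ε hε => ?_⟩
  have hcont : ContinuousAt (fun q : Q => (q, c₀)) q₀ := continuousAt_id.prodMk continuousAt_const
  have hΨc : ContinuousAt (fun q : Q => (Ψ (q, c₀)).2) q₀ := by
    have h6 : ContinuousAt (fun q : Q => Ψ (q, c₀)) q₀ :=
      ContinuousAt.comp' (g := Ψ) h1'.continuousAt hcont
    exact h6.snd
  have e1 : ∀ᶠ q in 𝓝 q₀, AnalyticAt ℝ Ψ (q, c₀) := hcont.eventually h1'.eventually_analyticAt
  have e2 : ∀ᶠ q in 𝓝 q₀, ((Ψ (q, c₀)).1, F (Ψ (q, c₀))) = (q, c₀) := hcont.eventually h4'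
  have e3 : ∀ᶠ q in 𝓝 q₀, dist (Ψ (q, c₀)).2 y₀ < min ε δ := by
    have h7 : Tendsto (fun q : Q => (Ψ (q, c₀)).2) (𝓝 q₀) (𝓝 y₀) := by
      have h8 : (Ψ (q₀, c₀)).2 = y₀ := by rw [h2']
      have h9 : Tendsto (fun q : Q => (Ψ (q, c₀)).2) (𝓝 q₀) (𝓝 (Ψ (q₀, c₀)).2) := hΨc
      rwa [h8] at h9
    exact h7.eventually (Metric.ball_mem_nhds y₀ (lt_min hε hδ))
  have e4 : ∀ᶠ q in 𝓝 q₀, dist q q₀ < δ := Metric.ball_mem_nhds q₀ hδ
  obtain ⟨c, hc, hcc⟩ := Metric.eventually_nhds_iff.1 (((e1.and e2).and e3).and e4)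
  refine ⟨c, hc, fun q => (Ψ (q, c₀)).2, fun q hq => ?_⟩
  have hq' : dist q q₀ < c := by rwa [dist_eq_norm]
  obtain ⟨⟨⟨k1, k2⟩, k3⟩, k4⟩ := hcc hq'
  have k50 : (Ψ (q, c₀)).1 = q := congrArg Prod.fst k2
  have k5 : Ψ (q, c₀) = (q, (Ψ (q, c₀)).2) := Prod.ext k50 rfl
  have k6 : F (q, (Ψ (q, c₀)).2) = c₀ := by
    rw [← k5]
    exact congrArg Prod.snd k2
  have k7 : ∀ y' : Y, ‖y' - y₀‖ < δ → dist ((q, y') : Q × Y) (q₀, y₀) < δ := by
    intro y' hy'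
    rw [Prod.dist_eq]
    exact max_lt k4 (by rwa [dist_eq_norm])
  have k8 : ‖(Ψ (q, c₀)).2 - y₀‖ < min ε δ := by rwa [← dist_eq_norm]
  refine ⟨k6, lt_of_lt_of_le k8 (min_le_left _ _), ?_, ?_, ?_⟩
  · have h4 : AnalyticAt ℝ (fun q : Q => (q, c₀)) q := analyticAt_id.prod analyticAt_const
    have h6 : AnalyticAt ℝ (fun q : Q => Ψ (q, c₀)) q := AnalyticAt.fun_comp (g := Ψ) k1 h4
    exact AnalyticAt.fun_comp (g := Prod.snd) analyticAt_snd h6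
  · intro y' hy' hF'
    have h7 : Ψ (q, F (q, y')) = (q, y') := (hδ' (k7 y' hy')).1
    rw [hF'] at h7
    show y' = (Ψ (q, c₀)).2
    rw [h7]
  · intro y' hy'
    exact (hδ' (k7 _ (lt_of_lt_of_le k8 (min_le_right _ _)))).2 y' hy'

end Pool.Agent.DB
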