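import Pool.Agent.DB.Sct
import Pool.Agent.DB.CSv
import Pool.Agent.DB.Bas
import Pool.Agent.DB.Imp

/-!
# MP_74f563_an, n = 2 autonomous (D2), file DB/Arz: uniform radii near the section

Notation: `V1 = V E1 (1, 0)`, `T1 = T E1 (1, 0)`, `g` the section (`Sect`, file DB/Sct).
All statements are invariant under `x ↦ x + 1` (`g (x + 1) = g x + (0, 1)`, `deriv g (x + 1) = deriv g x`,
`perV`, `pm_per`, `en_per`, `fper` with `zz (0, 1) = (0, 1)`), so it is enough to prove them for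
`x ∈ [0, 1]` (uniformly), by compactness.

PROOFS.  `sec_ind`: `x ↦ |dtm (V1 (g x)) (deriv g x)|` is continuous, periodic and positive (`ind`), so it
is `≥ η > 0`; `‖deriv g x‖ ≤ G`; `|dtm v w - dtm v' w| ≤ 2 ‖v - v'‖ ‖w‖`.
`sec_uniq`: for `a ∈ [0, 1]` apply `loc_imp` (file DB/Imp) with `Q = ℝ × ℝ × ℝ ∋ (x, α, β)`, `Y = R2 ∋ v`,
`F ((x, α, β), v) = (en L (g x, v) - α, pm L (g x, v) (deriv g x) - β)` at
`q_a = (a, en L (g a, V1 (g a)), pm L (g a, V1 (g a)) (deriv g a))`, `y_a = V1 (g a)`.  The partial derivative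
in `v` is `w ↦ (Lvv (V1, w), Lvv (w, deriv g a))` (`en_dv`, `pm_dv`, at the point `(g a, V1 (g a))`), injective:
if `w` is in the kernel then `Lvv (w, V1) = Lvv (w, deriv g a) = 0` and `V1 (g a)`, `deriv g a` span the
plane (`ind`), so `Lvv (w, w) = 0`, `w = 0` (`pos`).  So there are `c₁(a)`, `c(a) > 0` such that for
`‖q - q_a‖ < c(a)` there is at most one `v` with `‖v - y_a‖ < c₁(a)`, `F (q, v) = 0`.  Choose `r(a) > 0` so
small that for `|x - a| < r(a)`, `‖v - V1 (g x)‖ < r(a)`: `‖v - y_a‖ < c₁(a)` and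
`q = (x, en L (g x, v), pm L (g x, v) (deriv g x))` satisfies `‖q - q_a‖ < c(a)` (continuity).  If `v, v'` are
two such vectors with the same values then they are two solutions for the same `q`: `v = v'`.  Finitely
many intervals `|x - a| < r(a)` cover `[0, 1]`; `c₁` is the minimum of these `r(a)`.
`end_near`: the function `(x, v, θ) ↦ ‖(Fl θ (g x, V1 (g x) + v)).2 - V1 (g x)‖` is continuous and vanishes at
`(x, 0, T1)`: `(Fl T1 (g x, V1 (g x))).2 = V1 (g x + (1, 0)) = V1 (g x)` (`inv`, `orb`, `perV`); uniform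
continuity on `[0, 1] × {‖v‖ ≤ 1} × {|θ - T1| ≤ 1}`.
`sec_near`: uniform continuity of `V1 ∘ g`, which is periodic.
-/

set_option autoImplicit false

namespace Pool.Agent.DB

open Set Filter Topology
open scoped ContDiff

variable {L : PP → ℝ} {Fl : ℝ → PP → PP} {E0 : ℝ} {V : ℝ → ℤ × ℤ → R2 → R2}
  {T m : ℝ → ℤ × ℤ → ℝ} {E1 : ℝ} {g : ℝ → R2} {τ s : R2 → ℝ}

theorem dg_per {T1 : ℝ} {U : R2 → R2} (hS : Sect U T1 g τ s) (x : ℝ) :
    deriv g (x + 1) = deriv g x := by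
  have h1 : (fun x => g (x + 1)) = fun x => g x + (0, 1) := funext hS.g_per
  rw [← deriv_comp_add_const, h1, deriv_add_const]

private theorem arz_aux {P : ℝ → ℝ → Prop}
    (hm : ∀ c c' x : ℝ, 0 < c → c ≤ c' → P c' x → P c x)
    (hp : ∀ c x : ℝ, P c (x + 1) ↔ P c x)
    (h : ∀ a : ℝ, ∃ c > (0 : ℝ), ∃ ρ > (0 : ℝ), ∀ x, |x - a| < ρ → P c x) :
    ∃ c > (0 : ℝ), ∀ x, P c x := by
  obtain ⟨c, hc, h1⟩ : ∃ c > (0 : ℝ), ∀ x ∈ Icc (0 : ℝ) 1, P c x := by
    refine isCompact_Icc.induction_on (p := fun s : Set ℝ => ∃ c > (0 : ℝ), ∀ x ∈ s, P c x)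
      ⟨1, one_pos, fun x hx => absurd hx (notMem_empty x)⟩ ?_ ?_ ?_
    · rintro s t hst ⟨c, hc, hP⟩
      exact ⟨c, hc, fun x hx => hP x (hst hx)⟩
    · rintro s t ⟨c, hc, hP⟩ ⟨c', hc', hP'⟩
      refine ⟨min c c', lt_min hc hc', fun x hx => ?_⟩
      rcases hx with hx | hx
      · exact hm _ _ x (lt_min hc hc') (min_le_left _ _) (hP x hx)
      · exact hm _ _ x (lt_min hc hc') (min_le_right _ _) (hP' x hx)
    · intro a _
      obtain ⟨c, hc, ρ, hρ, hP⟩ := h a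
      refine ⟨Metric.ball a ρ, mem_nhdsWithin_of_mem_nhds (Metric.ball_mem_nhds a hρ), c, hc,
        fun x hx => hP x ?_⟩
      rwa [Metric.mem_ball, Real.dist_eq] at hx
  refine ⟨c, hc, fun x => ?_⟩
  have h2 : ∀ (n : ℤ) (y : ℝ), P c (y + n) ↔ P c y := by
    intro n
    induction n using Int.induction_on with
    | zero =>
      intro y
      simp
    | succ k ih =>
      intro y
      have h3 : y + ((k + 1 : ℤ) : ℝ) = (y + (k : ℤ)) + 1 := by
        push_cast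
        ring
      rw [h3, hp, ih]
    | pred k ih =>
      intro y
      have h3 : y + ((-(k : ℤ) : ℤ) : ℝ) = (y + ((-(k : ℤ) - 1 : ℤ) : ℝ)) + 1 := by
        push_cast
        ring
      have h4 := hp c (y + ((-(k : ℤ) - 1 : ℤ) : ℝ))
      rw [← h3] at h4
      exact h4.symm.trans (ih y)
  have h3 : x = Int.fract x + (⌊x⌋ : ℤ) := (Int.fract_add_floor x).symm
  rw [h3, h2]
  exact h1 _ ⟨Int.fract_nonneg x, (Int.fract_lt_one x).le⟩

private theorem arz_V (hC : C0 L Fl E0 V T m) (hE : E0 < E1) : Continuous (V E1 (1, 0)) := by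
  have h1 := hC.contV (1, 0) prm_one
  rw [← continuousOn_univ]
  exact h1.comp (f := fun x : R2 => (E1, x)) (by fun_prop) fun x _ => ⟨hE, mem_univ _⟩

private theorem arz_g (hS : Sect (V E1 (1, 0)) (T E1 (1, 0)) g τ s) : Continuous g :=
  continuous_iff_continuousAt.2 fun x => (hS.g_ana x trivial).continuousAt

private theorem arz_dg (hS : Sect (V E1 (1, 0)) (T E1 (1, 0)) g τ s) : Continuous (deriv g) :=
  continuous_iff_continuousAt.2 fun x => (hS.g_ana.deriv x trivial).continuousAt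

private theorem arz_g1 (hS : Sect (V E1 (1, 0)) (T E1 (1, 0)) g τ s) (x : ℝ) :
    g (x + 1) = g x + zz (0, 1) := by
  rw [hS.g_per]
  simp [zz]

private theorem arz_vg1 (hC : C0 L Fl E0 V T m) (hE : E0 < E1)
    (hS : Sect (V E1 (1, 0)) (T E1 (1, 0)) g τ s) (x : ℝ) :
    V E1 (1, 0) (g (x + 1)) = V E1 (1, 0) (g x) := by
  rw [arz_g1 hS, hC.perV E1 hE (1, 0) prm_one]

private theorem arz_pair (x : R2) (v : R2) (k : ℤ × ℤ) :
    ((x + zz k, v) : PP) = (x, v) + (zz k, 0) := by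
  ext <;> simp

/-- an open set of pairs contains a product of balls -/
private theorem arz_ball {W : Type*} [NormedAddCommGroup W] {S : Set (ℝ × W)} (hS : IsOpen S)
    {a : ℝ} {w : W} (h : (a, w) ∈ S) :
    ∃ δ > (0 : ℝ), ∀ x v, |x - a| < δ → ‖v - w‖ < δ → (x, v) ∈ S := by
  obtain ⟨δ, hδ, h1⟩ := Metric.isOpen_iff.1 hS _ h
  refine ⟨δ, hδ, fun x v hx hv => h1 ?_⟩
  rw [Metric.mem_ball, Prod.dist_eq, Real.dist_eq, dist_eq_norm]
  exact max_lt hx hv

theorem sec_ind (hC : C0 L Fl E0 V T m) (hE : E0 < E1)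
    (hS : Sect (V E1 (1, 0)) (T E1 (1, 0)) g τ s) :
    ∃ c₁ > 0, ∀ (x : ℝ) (v : R2), ‖v - V E1 (1, 0) (g x)‖ < c₁ → dtm v (deriv g x) ≠ 0 := by
  have hV := arz_V hC hE
  have hg := arz_g hS
  have hdg := arz_dg hS
  refine arz_aux (P := fun c x => ∀ v : R2, ‖v - V E1 (1, 0) (g x)‖ < c →
    dtm v (deriv g x) ≠ 0) (fun c c' x _ hcc h v hv => h v (hv.trans_le hcc)) ?_ ?_
  · intro c x
    rw [dg_per hS, arz_vg1 hC hE hS]
  · intro a
    have ho : IsOpen {p : ℝ × R2 | dtm (V E1 (1, 0) (g p.1) + p.2) (deriv g p.1) ≠ 0} := by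
      refine isOpen_ne_fun ?_ continuous_const
      unfold dtm
      fun_prop
    obtain ⟨δ, hδ, h1⟩ := arz_ball ho (a := a) (w := 0) (by
      show dtm (V E1 (1, 0) (g a) + 0) (deriv g a) ≠ 0
      rw [add_zero]
      exact hS.ind a)
    refine ⟨δ, hδ, δ, hδ, fun x hx v hv => ?_⟩
    have h2 := h1 x (v - V E1 (1, 0) (g x)) hx (by rwa [sub_zero])
    have h3 : dtm (V E1 (1, 0) (g x) + (v - V E1 (1, 0) (g x))) (deriv g x) ≠ 0 := h2
    rwa [add_sub_cancel] at h3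

/-- the map of `sec_uniq` -/
private noncomputable def arzF (L : PP → ℝ) (g : ℝ → R2) (p : (ℝ × ℝ × ℝ) × R2) : R2 :=
  (en L (g p.1.1, p.2) - p.1.2.1, pm L (g p.1.1, p.2) (deriv g p.1.1) - p.1.2.2)

private theorem arzF_ana (hC : C0 L Fl E0 V T m)
    (hS : Sect (V E1 (1, 0)) (T E1 (1, 0)) g τ s) (p : (ℝ × ℝ × ℝ) × R2) :
    AnalyticAt ℝ (arzF L g) p := by
  have h1 : AnalyticAt ℝ (fun p : (ℝ × ℝ × ℝ) × R2 => p.1.1) p :=
    analyticAt_fst.fun_comp analyticAt_fst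
  have h2 : AnalyticAt ℝ (fun p : (ℝ × ℝ × ℝ) × R2 => g p.1.1) p :=
    (hS.g_ana _ trivial).fun_comp h1
  have h3 : AnalyticAt ℝ (fun p : (ℝ × ℝ × ℝ) × R2 => deriv g p.1.1) p :=
    (hS.g_ana.deriv _ trivial).fun_comp h1
  have h4 : AnalyticAt ℝ (fun p : (ℝ × ℝ × ℝ) × R2 => ((g p.1.1, p.2) : PP)) p :=
    h2.prod analyticAt_snd
  have h5 : AnalyticAt ℝ (fun p : (ℝ × ℝ × ℝ) × R2 => en L (g p.1.1, p.2)) p :=
    (hC.toDyn.en_ana _ trivial).fun_comp h4
  have h6 : AnalyticAt ℝ (fun p : (ℝ × ℝ × ℝ) × R2 => pm L (g p.1.1, p.2)) p :=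
    (hC.toDyn.pm_ana _ trivial).fun_comp h4
  have h7 : AnalyticAt ℝ (fun p : (ℝ × ℝ × ℝ) × R2 => p.1.2) p :=
    analyticAt_snd.fun_comp analyticAt_fst
  have h8 : AnalyticAt ℝ (fun p : (ℝ × ℝ × ℝ) × R2 => p.1.2.1) p :=
    analyticAt_fst.fun_comp h7
  have h9 : AnalyticAt ℝ (fun p : (ℝ × ℝ × ℝ) × R2 => p.1.2.2) p :=
    analyticAt_snd.fun_comp h7
  have h10 : AnalyticAt ℝ (fun p : (ℝ × ℝ × ℝ) × R2 =>
      pm L (g p.1.1, p.2) (deriv g p.1.1)) p :=
    ((h6.contDiffAt (n := ω)).clm_apply (h3.contDiffAt (n := ω))).analyticAt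
  exact (h5.sub h8).prod (h10.sub h9)

private theorem arzF_deriv (hC : C0 L Fl E0 V T m)
    (hS : Sect (V E1 (1, 0)) (T E1 (1, 0)) g τ s) (q : ℝ × ℝ × ℝ) (v w : R2) :
    fderiv ℝ (arzF L g) (q, v) (0, w) =
      (Lvv L (g q.1, v) v w, Lvv L (g q.1, v) w (deriv g q.1)) := by
  have h1 := (arzF_ana hC hS (q, v)).differentiableAt.hasFDerivAt
  have h2 : HasFDerivAt (fun v : R2 => arzF L g (q, v))
      ((fderiv ℝ (arzF L g) (q, v)).comp (ContinuousLinearMap.inr ℝ (ℝ × ℝ × ℝ) R2)) v :=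
    h1.comp v (hasFDerivAt_prodMk_right q v)
  have h3 : HasFDerivAt (fun v : R2 => en L (g q.1, v))
      ((fderiv ℝ (en L) (g q.1, v)).comp (ContinuousLinearMap.inr ℝ R2 R2)) v :=
    ((hC.toDyn.en_ana (g q.1, v) trivial).differentiableAt.hasFDerivAt).comp v
      (hasFDerivAt_prodMk_right (g q.1) v)
  have h4 : HasFDerivAt (fun v : R2 => pm L (g q.1, v))
      ((fderiv ℝ (pm L) (g q.1, v)).comp (ContinuousLinearMap.inr ℝ R2 R2)) v :=
    ((hC.toDyn.pm_ana (g q.1, v) trivial).differentiableAt.hasFDerivAt).comp v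
      (hasFDerivAt_prodMk_right (g q.1) v)
  have h5 := (h3.sub_const q.2.1).prodMk
    ((h4.clm_apply (hasFDerivAt_const (deriv g q.1) v)).sub_const q.2.2)
  have h6 := h2.unique h5
  have h7 := congrArg (fun f : R2 →L[ℝ] R2 => f w) h6
  have h8 : fderiv ℝ (arzF L g) (q, v) (0, w) =
      ((fderiv ℝ (arzF L g) (q, v)).comp (ContinuousLinearMap.inr ℝ (ℝ × ℝ × ℝ) R2)) w := rfl
  rw [h8, h7]
  refine Prod.ext ?_ ?_
  · exact hC.toDyn.en_dv (g q.1, v) w
  · have h9 := hC.toDyn.pm_dv (g q.1, v) w (deriv g q.1)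
    rw [← h9]
    simp

theorem sec_uniq (hC : C0 L Fl E0 V T m) (hE : E0 < E1)
    (hS : Sect (V E1 (1, 0)) (T E1 (1, 0)) g τ s) :
    ∃ c₁ > 0, ∀ (x : ℝ) (v v' : R2), ‖v - V E1 (1, 0) (g x)‖ < c₁ →
      ‖v' - V E1 (1, 0) (g x)‖ < c₁ → en L (g x, v) = en L (g x, v') →
      pm L (g x, v) (deriv g x) = pm L (g x, v') (deriv g x) → v = v' := by
  have hV := arz_V hC hE
  have hg := arz_g hS
  have hdg := arz_dg hS
  refine arz_aux (P := fun c x => ∀ v v' : R2, ‖v - V E1 (1, 0) (g x)‖ < c →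
      ‖v' - V E1 (1, 0) (g x)‖ < c → en L (g x, v) = en L (g x, v') →
      pm L (g x, v) (deriv g x) = pm L (g x, v') (deriv g x) → v = v')
    (fun c c' x _ hcc h v v' hv hv' => h v v' (hv.trans_le hcc) (hv'.trans_le hcc)) ?_ ?_
  · intro c x
    rw [dg_per hS, arz_vg1 hC hE hS, arz_g1 hS]
    simp only [arz_pair, hC.toDyn.en_per, hC.toDyn.pm_per]
  · intro a
    set y₀ : R2 := V E1 (1, 0) (g a) with hy₀
    set q₀ : ℝ × ℝ × ℝ := (a, en L (g a, y₀), pm L (g a, y₀) (deriv g a)) with hq₀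
    have h0 : arzF L g (q₀, y₀) = 0 := by
      show (en L (g a, y₀) - en L (g a, y₀),
        pm L (g a, y₀) (deriv g a) - pm L (g a, y₀) (deriv g a)) = (0 : R2)
      rw [sub_self, sub_self]
      rfl
    have hi : ∀ w : R2, fderiv ℝ (arzF L g) (q₀, y₀) (0, w) = 0 → w = 0 := by
      intro w hw
      rw [arzF_deriv hC hS] at hw
      have h1 : Lvv L (g a, y₀) y₀ w = 0 := congrArg Prod.fst hw
      have h2 : Lvv L (g a, y₀) w (deriv g a) = 0 := congrArg Prod.snd hw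
      by_contra hne
      have h3 := hC.pos (g a, y₀) w hne
      have hd : dtm y₀ (deriv g a) ≠ 0 := hS.ind a
      set D : ℝ := dtm y₀ (deriv g a) with hD
      have h4 : w = (dtm w (deriv g a) / D) • y₀ + (dtm y₀ w / D) • deriv g a := by
        refine Prod.ext ?_ ?_
        · simp only [Prod.fst_add, Prod.smul_fst, smul_eq_mul]
          field_simp
          rw [hD]
          unfold dtm
          ring
        · simp only [Prod.snd_add, Prod.smul_snd, smul_eq_mul]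
          field_simp
          rw [hD]
          unfold dtm
          ring
      have h5 : Lvv L (g a, y₀) w w = 0 := by
        have h6 := lvv_lin' L (g a, y₀) y₀ (deriv g a) w (dtm w (deriv g a) / D)
          (dtm y₀ w / D)
        rw [← h4, h2, hC.toDyn.lvv_symm (g a, y₀) w y₀, h1] at h6
        rw [h6]
        ring
      linarith
    obtain ⟨c₁, hc₁, h1⟩ := loc_imp (arzF_ana hC hS (q₀, y₀)) hi
    obtain ⟨c, hc, y, h2⟩ := h1 1 one_pos
    rw [h0] at h2
    have hec : Continuous (en L) :=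
      continuous_iff_continuousAt.2 fun z => (hC.toDyn.en_ana z trivial).continuousAt
    have hpc : Continuous (pm L) :=
      continuous_iff_continuousAt.2 fun z => (hC.toDyn.pm_ana z trivial).continuousAt
    have hw : Continuous fun p : ℝ × R2 => V E1 (1, 0) (g p.1) + p.2 := by fun_prop
    have ho : IsOpen {p : ℝ × R2 | ‖V E1 (1, 0) (g p.1) + p.2 - y₀‖ < c₁ ∧
        ‖(p.1, en L (g p.1, V E1 (1, 0) (g p.1) + p.2),
          pm L (g p.1, V E1 (1, 0) (g p.1) + p.2) (deriv g p.1)) - q₀‖ < c} := by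
      refine IsOpen.and (isOpen_lt (hw.sub continuous_const).norm continuous_const)
        (isOpen_lt ?_ continuous_const)
      have hz : Continuous fun p : ℝ × R2 => ((g p.1, V E1 (1, 0) (g p.1) + p.2) : PP) :=
        (hg.comp continuous_fst).prodMk hw
      exact ((continuous_fst.prodMk ((hec.comp hz).prodMk
        ((hpc.comp hz).clm_apply (hdg.comp continuous_fst)))).sub continuous_const).norm
    obtain ⟨δ, hδ, h3⟩ := arz_ball ho (a := a) (w := 0) (by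
      constructor
      · show ‖V E1 (1, 0) (g a) + 0 - y₀‖ < c₁
        rw [add_zero, ← hy₀, sub_self, norm_zero]
        exact hc₁
      · show ‖(a, en L (g a, V E1 (1, 0) (g a) + 0),
          pm L (g a, V E1 (1, 0) (g a) + 0) (deriv g a)) - q₀‖ < c
        rw [add_zero, ← hy₀, ← hq₀, sub_self, norm_zero]
        exact hc)
    refine ⟨δ, hδ, δ, hδ, fun x hx v v' hv hv' he hp => ?_⟩
    have h4 : ∀ u : R2, ‖u - V E1 (1, 0) (g x)‖ < δ → ‖u - y₀‖ < c₁ ∧
        ‖(x, en L (g x, u), pm L (g x, u) (deriv g x)) - q₀‖ < c := by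
      intro u hu
      have h5 := h3 x (u - V E1 (1, 0) (g x)) hx (by rwa [sub_zero])
      have h6 : ‖V E1 (1, 0) (g x) + (u - V E1 (1, 0) (g x)) - y₀‖ < c₁ ∧
        ‖(x, en L (g x, V E1 (1, 0) (g x) + (u - V E1 (1, 0) (g x))),
          pm L (g x, V E1 (1, 0) (g x) + (u - V E1 (1, 0) (g x))) (deriv g x)) - q₀‖ < c := h5
      rwa [add_sub_cancel] at h6
    obtain ⟨h5, h6⟩ := h4 v hv
    obtain ⟨h7, -⟩ := h4 v' hv'
    obtain ⟨-, -, -, h8, -⟩ := h2 _ h6
    have h9 : v = y (x, en L (g x, v), pm L (g x, v) (deriv g x)) := by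
      refine h8 v h5 ?_
      show (en L (g x, v) - en L (g x, v),
        pm L (g x, v) (deriv g x) - pm L (g x, v) (deriv g x)) = (0 : R2)
      rw [sub_self, sub_self]
      rfl
    have h10 : v' = y (x, en L (g x, v), pm L (g x, v) (deriv g x)) := by
      refine h8 v' h7 ?_
      show (en L (g x, v') - en L (g x, v),
        pm L (g x, v') (deriv g x) - pm L (g x, v) (deriv g x)) = (0 : R2)
      rw [he, hp, sub_self, sub_self]
      rfl
    rw [h9, h10]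

theorem end_near (hC : C0 L Fl E0 V T m) (hE : E0 < E1)
    (hS : Sect (V E1 (1, 0)) (T E1 (1, 0)) g τ s) {η : ℝ} (hη : 0 < η) :
    ∃ ε > 0, ∀ (x : ℝ) (v : R2) (θ : ℝ), ‖v - V E1 (1, 0) (g x)‖ < ε → |θ - T E1 (1, 0)| < ε →
      ‖(Fl θ (g x, v)).2 - V E1 (1, 0) (g x)‖ < η := by
  have hV := arz_V hC hE
  have hg := arz_g hS
  have hF : Continuous fun q : ℝ × PP => Fl q.1 q.2 :=
    continuous_iff_continuousAt.2 fun z => (hC.fana z trivial).continuousAt
  refine arz_aux (P := fun c x => ∀ (v : R2) (θ : ℝ), ‖v - V E1 (1, 0) (g x)‖ < c →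
      |θ - T E1 (1, 0)| < c → ‖(Fl θ (g x, v)).2 - V E1 (1, 0) (g x)‖ < η)
    (fun c c' x _ hcc h v θ hv hθ => h v θ (hv.trans_le hcc) (hθ.trans_le hcc)) ?_ ?_
  · intro c x
    rw [arz_vg1 hC hE hS, arz_g1 hS]
    have h1 : ∀ (θ : ℝ) (v : R2), (Fl θ (g x + zz (0, 1), v)).2 = (Fl θ (g x, v)).2 := by
      intro θ v
      rw [arz_pair, hC.fper]
      simp
    simp only [h1]
  · intro a
    have hz : Continuous fun p : ℝ × R2 × ℝ =>
        ((p.2.2, (g p.1, V E1 (1, 0) (g p.1) + p.2.1)) : ℝ × PP) := by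
      fun_prop
    have ho : IsOpen {p : ℝ × R2 × ℝ |
        ‖(Fl p.2.2 (g p.1, V E1 (1, 0) (g p.1) + p.2.1)).2 - V E1 (1, 0) (g p.1)‖ < η} := by
      refine isOpen_lt ?_ continuous_const
      exact ((continuous_snd.comp (hF.comp hz)).sub
        (hV.comp (hg.comp continuous_fst))).norm
    obtain ⟨δ, hδ, h1⟩ := arz_ball ho (a := a) (w := ((0 : R2), T E1 (1, 0))) (by
      show ‖(Fl (T E1 (1, 0)) (g a, V E1 (1, 0) (g a) + 0)).2 - V E1 (1, 0) (g a)‖ < η
      rw [add_zero, hC.inv E1 hE (1, 0) prm_one, hC.orb E1 hE (1, 0) prm_one,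
        hC.perV E1 hE (1, 0) prm_one, sub_self, norm_zero]
      exact hη)
    refine ⟨δ, hδ, δ, hδ, fun x hx v θ hv hθ => ?_⟩
    have h2 := h1 x (v - V E1 (1, 0) (g x), θ) hx (by
      rw [Prod.mk_sub_mk, Prod.norm_mk, sub_zero]
      exact max_lt hv hθ)
    have h3 : ‖(Fl θ (g x, V E1 (1, 0) (g x) + (v - V E1 (1, 0) (g x)))).2 -
      V E1 (1, 0) (g x)‖ < η := h2
    rwa [add_sub_cancel] at h3

theorem sec_near (hC : C0 L Fl E0 V T m) (hE : E0 < E1)
    (hS : Sect (V E1 (1, 0)) (T E1 (1, 0)) g τ s) {η : ℝ} (hη : 0 < η) :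
    ∃ ε > 0, ∀ x X : ℝ, |X - x| < ε → ‖V E1 (1, 0) (g X) - V E1 (1, 0) (g x)‖ < η := by
  have hV := arz_V hC hE
  have hg := arz_g hS
  refine arz_aux (P := fun c x => ∀ X : ℝ, |X - x| < c →
      ‖V E1 (1, 0) (g X) - V E1 (1, 0) (g x)‖ < η)
    (fun c c' x _ hcc h X hX => h X (hX.trans_le hcc)) ?_ ?_
  · intro c x
    rw [arz_vg1 hC hE hS]
    constructor
    · intro h X hX
      have h1 := h (X + 1) (by rwa [add_sub_add_right_eq_sub])
      rwa [arz_vg1 hC hE hS] at h1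
    · intro h X hX
      have h1 := h (X - 1) (by
        have h2 : X - 1 - x = X - (x + 1) := by ring
        rwa [h2])
      have h2 := arz_vg1 hC hE hS (X - 1)
      rw [sub_add_cancel] at h2
      rwa [h2]
  · intro a
    have hc : Continuous fun x => V E1 (1, 0) (g x) := hV.comp hg
    obtain ⟨δ, hδ, h1⟩ := Metric.continuous_iff.1 hc a (η / 2) (half_pos hη)
    refine ⟨δ / 2, half_pos hδ, δ / 2, half_pos hδ, fun x hx X hX => ?_⟩
    have h2 := h1 x (by
      rw [Real.dist_eq]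
      linarith)
    have h3 := h1 X (by
      rw [Real.dist_eq]
      have h4 : X - a = (X - x) + (x - a) := by ring
      rw [h4]
      exact (abs_add_le _ _).trans_lt (by linarith))
    have h4 := dist_triangle_right (V E1 (1, 0) (g X)) (V E1 (1, 0) (g x)) (V E1 (1, 0) (g a))
    rw [← dist_eq_norm]
    linarith

end Pool.Agent.DB
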