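import Pool.Agent.DB.Act

/-!
# MP_74f563_an, n = 2 autonomous (D2), file DB/PIn: primitives of analytic functions with a parameter

PROOF of `param_int_ana`.  Let `φ u = E1 + c * ((Real.exp u - 1) / (Real.exp u + 1))`, an analytic
bijection from `ℝ` onto `(E1 - c, E1 + c)`; its inverse is `E ↦ Real.log ((1 + w) / (1 - w))` with
`w = (E - E1) / c`, analytic at every point with `|w| < 1` (`1 + w > 0`, `1 - w > 0`; `AnalyticAt.log` or
`analyticAt_log`).  The function `k (u, x) = f (φ u) x` is analytic on `ℝ × ℝ`.  On `E' = ℝ × ℝ` the flow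
`Φ t (u, x) = (u, x + t)` is analytic, `Φ 0 = id`, `Φ (s + t) = Φ s ∘ Φ t`; by `flow_int_ana` (file DB/Act)
with `G = k`: `(t, (u, x)) ↦ ∫ r in 0..t, f (φ u) (x + r)` is analytic; put `x = 0`, `t = x'`, `u = φ⁻¹ E`.
The result agrees with `∫ r in 0..x', f E r` for `|E - E1| < c` (`AnalyticAt.congr`).
-/

set_option autoImplicit false

namespace Pool.Agent.DB

open Set Filter Topology

/-- the chart of the interval `(E1 - c, E1 + c)` -/
private noncomputable def pinPhi (E1 c u : ℝ) : ℝ :=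
  E1 + c * ((Real.exp u - 1) / (Real.exp u + 1))

/-- its inverse -/
private noncomputable def pinPsi (E1 c E : ℝ) : ℝ :=
  Real.log ((1 + (E - E1) / c) / (1 - (E - E1) / c))

private theorem pinPhi_mem {E1 c : ℝ} (hc : 0 < c) (u : ℝ) : |pinPhi E1 c u - E1| < c := by
  have h1 := Real.exp_pos u
  have h2 : |(Real.exp u - 1) / (Real.exp u + 1)| < 1 := by
    rw [abs_div, abs_of_pos (by linarith : 0 < Real.exp u + 1), div_lt_one (by linarith), abs_lt]
    constructor <;> linarith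
  have h3 : pinPhi E1 c u - E1 = c * ((Real.exp u - 1) / (Real.exp u + 1)) := by
    rw [pinPhi]
    ring
  rw [h3, abs_mul, abs_of_pos hc]
  nlinarith

private theorem pinPhi_psi {E1 c E : ℝ} (hc : 0 < c) (hE : |E - E1| < c) :
    pinPhi E1 c (pinPsi E1 c E) = E := by
  have hE' := abs_lt.1 hE
  have hw1 : 0 < 1 + (E - E1) / c := by
    have h1 : (-c) / c < (E - E1) / c := div_lt_div_of_pos_right hE'.1 hc
    rw [neg_div, div_self hc.ne'] at h1
    linarith
  have hw2 : 0 < 1 - (E - E1) / c := by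
    have h1 : (E - E1) / c < c / c := div_lt_div_of_pos_right hE'.2 hc
    rw [div_self hc.ne'] at h1
    linarith
  have hcw : c * ((E - E1) / c) = E - E1 := mul_div_cancel₀ _ hc.ne'
  rw [pinPhi, pinPsi, Real.exp_log (div_pos hw1 hw2)]
  generalize (E - E1) / c = w at hw1 hw2 hcw
  have h1 : ((1 + w) / (1 - w) - 1) / ((1 + w) / (1 - w) + 1) = w := by
    have h2 : (1 + w) / (1 - w) + 1 ≠ 0 := by positivity
    rw [div_eq_iff h2]
    field_simp
    ring
  rw [h1, hcw]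
  ring

theorem param_int_ana {f : ℝ → ℝ → ℝ} {E1 c : ℝ} (hc : 0 < c)
    (hf : ∀ E x : ℝ, |E - E1| < c → AnalyticAt ℝ (fun q : ℝ × ℝ => f q.1 q.2) (E, x)) (E x : ℝ)
    (hE : |E - E1| < c) :
    AnalyticAt ℝ (fun q : ℝ × ℝ => ∫ r in (0 : ℝ)..q.2, f q.1 r) (E, x) := by
  have hφana : ∀ u, AnalyticAt ℝ (pinPhi E1 c) u := by
    intro u
    have h1 : AnalyticAt ℝ Real.exp u := analyticAt_rexp
    have h2 : Real.exp u + 1 ≠ 0 := by positivity
    exact analyticAt_const.add (analyticAt_const.mul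
      ((h1.sub analyticAt_const).div (h1.add analyticAt_const) h2))
  have hG : AnalyticOnNhd ℝ (fun z : ℝ × ℝ => f (pinPhi E1 c z.1) z.2) univ := by
    rintro ⟨u, y⟩ -
    have h1 := hf (pinPhi E1 c u) y (pinPhi_mem hc u)
    have h2 : AnalyticAt ℝ (fun z : ℝ × ℝ => (pinPhi E1 c z.1, z.2)) (u, y) := by
      refine AnalyticAt.prod ?_ analyticAt_snd
      exact AnalyticAt.fun_comp (f := fun z : ℝ × ℝ => z.1) (hφana u) analyticAt_fst
    exact AnalyticAt.fun_comp (f := fun z : ℝ × ℝ => (pinPhi E1 c z.1, z.2))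
      (g := fun q : ℝ × ℝ => f q.1 q.2) h1 h2
  have hΦ : AnalyticOnNhd ℝ (fun q : ℝ × (ℝ × ℝ) => ((q.2.1, q.2.2 + q.1) : ℝ × ℝ)) univ := by
    intro q _
    have h1 : AnalyticAt ℝ (fun q : ℝ × (ℝ × ℝ) => q.2.1) q :=
      AnalyticAt.fun_comp (g := fun z : ℝ × ℝ => z.1) analyticAt_fst analyticAt_snd
    have h2 : AnalyticAt ℝ (fun q : ℝ × (ℝ × ℝ) => q.2.2) q :=
      AnalyticAt.fun_comp (g := fun z : ℝ × ℝ => z.2) analyticAt_snd analyticAt_snd
    exact h1.prod (h2.add analyticAt_fst)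
  have hI := flow_int_ana (Φ := fun t z => ((z.1, z.2 + t) : ℝ × ℝ)) hΦ
    (fun z => by simp) (fun s t z => by simp only [Prod.mk.injEq, true_and]; ring) hG
  have hE' := abs_lt.1 hE
  have hw1 : 0 < 1 + (E - E1) / c := by
    have h1 : (-c) / c < (E - E1) / c := div_lt_div_of_pos_right hE'.1 hc
    rw [neg_div, div_self hc.ne'] at h1
    linarith
  have hw2 : 0 < 1 - (E - E1) / c := by
    have h1 : (E - E1) / c < c / c := div_lt_div_of_pos_right hE'.2 hc
    rw [div_self hc.ne'] at h1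
    linarith
  have hψ : AnalyticAt ℝ (fun q : ℝ × ℝ => pinPsi E1 c q.1) (E, x) := by
    have h0 : AnalyticAt ℝ (fun q : ℝ × ℝ => (q.1 - E1) / c) (E, x) :=
      (analyticAt_fst.sub analyticAt_const).div analyticAt_const hc.ne'
    have h1 : AnalyticAt ℝ (fun q : ℝ × ℝ => (1 + (q.1 - E1) / c) / (1 - (q.1 - E1) / c))
        (E, x) :=
      (analyticAt_const.add h0).div (analyticAt_const.sub h0) hw2.ne'
    have h2 : 0 < (1 + (E - E1) / c) / (1 - (E - E1) / c) := div_pos hw1 hw2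
    exact AnalyticAt.fun_comp (g := Real.log)
      (f := fun q : ℝ × ℝ => (1 + (q.1 - E1) / c) / (1 - (q.1 - E1) / c)) (analyticAt_log h2) h1
  have hm : AnalyticAt ℝ (fun q : ℝ × ℝ => ((q.2, (pinPsi E1 c q.1, 0)) : ℝ × (ℝ × ℝ))) (E, x) :=
    AnalyticAt.prod analyticAt_snd (AnalyticAt.prod hψ analyticAt_const)
  have hc' := AnalyticAt.fun_comp
    (f := fun q : ℝ × ℝ => ((q.2, (pinPsi E1 c q.1, 0)) : ℝ × (ℝ × ℝ))) (hI _ (mem_univ _)) hm
  refine hc'.congr ?_
  have hev : ∀ᶠ q : ℝ × ℝ in 𝓝 (E, x), |q.1 - E1| < c := by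
    have h1 : ContinuousAt (fun q : ℝ × ℝ => |q.1 - E1|) (E, x) := by fun_prop
    exact h1.eventually (gt_mem_nhds hE)
  filter_upwards [hev] with q hq
  simp only [zero_add, pinPhi_psi hc hq]

end Pool.Agent.DB
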