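import Pool.Agent.DB.Imp
import Pool.Agent.DB.PIn

/-!
# MP_74f563_an, n = 2 autonomous (D2), file DB/Coo: coordinates in which the second derivative is
constant, with the energy as a parameter (compare NOne/BCoo.lean, the case without parameter)

PROOF of `exists_coord`.  `b E x = deriv (deriv fun X => S E x X) x / 2 > 0` is analytic in `(E, x)` for
`|E - E1| < c` (partial derivatives of the analytic function `(E, x, X) ↦ S E x X`, restricted to
`X = x`; only the values with `|X - x| < c` matter) and `b E (x + 1) = b E x` (`hper` for `X` near `x`).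
`f = √b` is analytic (`b > 0`; e.g. `Real.sqrt y = exp (log y / 2)`, or `AnalyticAt` of `Real.sqrt` at
positive points through `Real.rpow`) and positive.  `β E = ∫_0^1 f E r dr > 0`, analytic in `E`
(`param_int_ana`, file DB/PIn, composed with `E ↦ (E, 1)`).
`G E x = (∫_0^x f E r dr) / β E`: analytic in `(E, x)`, `∂_x G = f / β > 0`, `G E (x + 1) = G E x + 1`, so
`G E` is a strictly increasing bijection of `ℝ`; let `ξ E` be its inverse (`Classical.choose` or
`Function.invFun`; arbitrary for `|E - E1| ≥ c`).  `ξ E (a + 1) = ξ E a + 1`.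
Analyticity of `(E, a) ↦ ξ E a` at `(E, a)`: `loc_imp` (file DB/Imp) with `Q = ℝ × ℝ`, `Y = ℝ`,
`F ((E, a), x) = G E x - a` gives an analytic solution `x = y (E, a)`, which equals `ξ E a` because `G E` is
injective.  `deriv (ξ E) a = β E / f E (ξ E a) > 0`.
`d1`: chain rule, `deriv (fun X => S E x X) x = 0`.
`d2`: with `x = ξ E a`: the second derivative of `b ↦ S E x (ξ E b)` at `b = a` is
`S_XX (x, x) ξ'(a)² + S_X (x, x) ξ''(a) = 2 b E x (β E / f E x)² = 2 (β E)²`; divide by `(β E)²`.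

PROOF of `coord_lip`.  The function `(E, a) ↦ deriv (ξ E) a` is continuous (analytic) and positive on
`{|E - E1| < c} × ℝ` and 1-periodic in `a`; on the compact set `{|E - E1| ≤ c'} × [0, 1]` it has a positive
minimum `μ` and a maximum `M`, which are bounds for all `a`.  Mean value theorem.
`coord_mono`: `deriv (ξ E) > 0`.  `coord_surj`: continuous, `ξ E (a + n) = ξ E a + n`.
-/

set_option autoImplicit false

namespace Pool.Agent.DB

open Set Filter Topology MeasureTheory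
open scoped ContDiff

/-- coordinates `x = ξ E a` in which the second derivative of `S / β²` is `2` on the diagonal -/
structure Coord (S : ℝ → ℝ → ℝ → ℝ) (E1 c : ℝ) (ξ : ℝ → ℝ → ℝ) (β : ℝ → ℝ) : Prop where
  β_pos : ∀ E, |E - E1| < c → 0 < β E
  β_ana : ∀ E, |E - E1| < c → AnalyticAt ℝ β E
  ξ_ana : ∀ E a, |E - E1| < c → AnalyticAt ℝ (fun q : ℝ × ℝ => ξ q.1 q.2) (E, a)
  ξ_per : ∀ E a, |E - E1| < c → ξ E (a + 1) = ξ E a + 1
  ξ_der : ∀ E a, |E - E1| < c → 0 < deriv (ξ E) a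
  d1 : ∀ E a, |E - E1| < c → deriv (fun b => S E (ξ E a) (ξ E b) / β E ^ 2) a = 0
  d2 : ∀ E a, |E - E1| < c → deriv (deriv fun b => S E (ξ E a) (ξ E b) / β E ^ 2) a = 2

/-- the partial derivative with respect to the last variable -/
private noncomputable def cooD (F : ℝ → ℝ → ℝ → ℝ) : ℝ → ℝ → ℝ → ℝ :=
  fun E x X => deriv (fun X => F E x X) X

private theorem coo_slice {F : ℝ → ℝ → ℝ → ℝ} {E x X : ℝ}
    (hF : AnalyticAt ℝ (fun q : ℝ × ℝ × ℝ => F q.1 q.2.1 q.2.2) (E, x, X)) :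
    HasDerivAt (fun X => F E x X) (cooD F E x X) X := by
  have h1 : AnalyticAt ℝ (fun X : ℝ => ((E, x, X) : ℝ × ℝ × ℝ)) X :=
    analyticAt_const.prod (analyticAt_const.prod analyticAt_id)
  exact (AnalyticAt.comp_of_eq (g := fun q : ℝ × ℝ × ℝ => F q.1 q.2.1 q.2.2)
    (f := fun X : ℝ => (E, x, X)) hF h1 rfl).differentiableAt.hasDerivAt

private theorem coo_D {F : ℝ → ℝ → ℝ → ℝ} {E x X : ℝ}
    (hF : AnalyticAt ℝ (fun q : ℝ × ℝ × ℝ => F q.1 q.2.1 q.2.2) (E, x, X)) :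
    AnalyticAt ℝ (fun q : ℝ × ℝ × ℝ => cooD F q.1 q.2.1 q.2.2) (E, x, X) := by
  have h0 : AnalyticAt ℝ (fun q : ℝ × ℝ × ℝ =>
      (fderiv ℝ (fun q : ℝ × ℝ × ℝ => F q.1 q.2.1 q.2.2) q) ((0 : ℝ), (0 : ℝ), (1 : ℝ)))
      (E, x, X) :=
    (ContinuousLinearMap.analyticAt
      (ContinuousLinearMap.apply ℝ ℝ ((0 : ℝ), (0 : ℝ), (1 : ℝ))) _).comp hF.fderiv
  refine h0.congr ?_
  filter_upwards [hF.eventually_analyticAt] with q hq
  have h1 := hq.differentiableAt.hasFDerivAt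
  have h2 : HasDerivAt (fun X => F q.1 q.2.1 X)
      ((fderiv ℝ (fun q : ℝ × ℝ × ℝ => F q.1 q.2.1 q.2.2) q) (0, 0, 1)) q.2.2 :=
    HasFDerivAt.comp_hasDerivAt (f := fun X : ℝ => (q.1, q.2.1, X)) q.2.2 h1
      ((hasDerivAt_const q.2.2 q.1).prodMk
        ((hasDerivAt_const q.2.2 q.2.1).prodMk (hasDerivAt_id q.2.2)))
  exact h2.deriv.symm

private theorem coo_per {F : ℝ → ℝ → ℝ → ℝ} {E c : ℝ}
    (hF : ∀ x X, |X - x| < c → F E (x + 1) (X + 1) = F E x X) (x X : ℝ) (hX : |X - x| < c) :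
    cooD F E (x + 1) (X + 1) = cooD F E x X := by
  unfold cooD
  rw [← deriv_comp_add_const (fun Y => F E (x + 1) Y) 1 X]
  refine Filter.EventuallyEq.deriv_eq ?_
  have h1 : ContinuousAt (fun Y : ℝ => |Y - x|) X := by fun_prop
  filter_upwards [h1.eventually (gt_mem_nhds hX)] with Y hY
  exact hF x Y hY

private theorem coo_nat {f : ℝ → ℝ} (hf : ∀ a, f (a + 1) = f a + 1) (a : ℝ) (n : ℕ) :
    f (a + n) = f a + n := by
  induction n with
  | zero => simp
  | succ n ih =>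
    push_cast
    rw [← add_assoc, hf, ih]
    ring

private theorem coo_surj {f : ℝ → ℝ} (hf : ∀ a, f (a + 1) = f a + 1) (hc : Continuous f)
    (y : ℝ) : ∃ x, f x = y := by
  obtain ⟨n, hn⟩ := exists_nat_ge (|y - f 0|)
  have h3 := abs_le.1 hn
  have h4 : f n = f 0 + n := by
    have := coo_nat hf 0 n
    rwa [zero_add] at this
  have h5 : f (-n) = f 0 - n := by
    have := coo_nat hf (-n) n
    rw [neg_add_cancel] at this
    linarith
  have h6 : y ∈ Icc (f (-n)) (f n) := ⟨by rw [h5]; linarith, by rw [h4]; linarith⟩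
  obtain ⟨x, -, hx⟩ := intermediate_value_Icc (f := f)
    (by have : (0 : ℝ) ≤ n := Nat.cast_nonneg n; linarith) hc.continuousOn h6
  exact ⟨x, hx⟩

/-- a slice of an analytic function of two variables -/
private theorem coo_snd {F : ℝ → ℝ → ℝ} {E a : ℝ}
    (hF : AnalyticAt ℝ (fun q : ℝ × ℝ => F q.1 q.2) (E, a)) : AnalyticAt ℝ (F E) a :=
  AnalyticAt.comp_of_eq (g := fun q : ℝ × ℝ => F q.1 q.2) (f := fun a : ℝ => (E, a)) hF
    (analyticAt_const.prod analyticAt_id) rfl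

/-- the partial derivative of an analytic function of two variables -/
private theorem coo_D2 {F : ℝ → ℝ → ℝ} {E a : ℝ}
    (hF : AnalyticAt ℝ (fun q : ℝ × ℝ => F q.1 q.2) (E, a)) :
    AnalyticAt ℝ (fun q : ℝ × ℝ => deriv (F q.1) q.2) (E, a) := by
  have h0 : AnalyticAt ℝ (fun q : ℝ × ℝ =>
      (fderiv ℝ (fun q : ℝ × ℝ => F q.1 q.2) q) ((0 : ℝ), (1 : ℝ))) (E, a) :=
    (ContinuousLinearMap.analyticAt
      (ContinuousLinearMap.apply ℝ ℝ ((0 : ℝ), (1 : ℝ))) _).comp hF.fderiv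
  refine h0.congr ?_
  filter_upwards [hF.eventually_analyticAt] with q hq
  have h1 := hq.differentiableAt.hasFDerivAt
  have h2 : HasDerivAt (fun X => F q.1 X)
      ((fderiv ℝ (fun q : ℝ × ℝ => F q.1 q.2) q) (0, 1)) q.2 :=
    HasFDerivAt.comp_hasDerivAt (f := fun X : ℝ => (q.1, X)) q.2 h1
      ((hasDerivAt_const q.2 q.1).prodMk (hasDerivAt_id q.2))
  exact h2.deriv.symm

theorem exists_coord {S : ℝ → ℝ → ℝ → ℝ} {E1 c : ℝ} (hc : 0 < c)
    (hana : ∀ E x X : ℝ, |E - E1| < c → |X - x| < c →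
      AnalyticAt ℝ (fun q : ℝ × ℝ × ℝ => S q.1 q.2.1 q.2.2) (E, x, X))
    (hper : ∀ E x X : ℝ, |E - E1| < c → |X - x| < c → S E (x + 1) (X + 1) = S E x X)
    (h1 : ∀ E x : ℝ, |E - E1| < c → deriv (fun X => S E x X) x = 0)
    (h2 : ∀ E x : ℝ, |E - E1| < c → 0 < deriv (deriv fun X => S E x X) x) :
    ∃ (ξ : ℝ → ℝ → ℝ) (β : ℝ → ℝ), Coord S E1 c ξ β := by
  classical
  have hdom : ∀ {E : ℝ}, |E - E1| < c → ∀ᶠ E' in 𝓝 E, |E' - E1| < c := by
    intro E hE
    have h1 : ContinuousAt (fun E' : ℝ => |E' - E1|) E := by fun_prop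
    exact h1.eventually (gt_mem_nhds hE)
  have d1 : ∀ E x X : ℝ, |E - E1| < c → |X - x| < c →
      AnalyticAt ℝ (fun q : ℝ × ℝ × ℝ => cooD S q.1 q.2.1 q.2.2) (E, x, X) :=
    fun E x X hE hX => coo_D (hana E x X hE hX)
  have d2 : ∀ E x X : ℝ, |E - E1| < c → |X - x| < c →
      AnalyticAt ℝ (fun q : ℝ × ℝ × ℝ => cooD (cooD S) q.1 q.2.1 q.2.2) (E, x, X) :=
    fun E x X hE hX => coo_D (d1 E x X hE hX)
  have hxx : ∀ x : ℝ, |x - x| < c := fun x => by rw [sub_self, abs_zero]; exact hc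
  have e1 : ∀ E x, |E - E1| < c → cooD S E x x = 0 := h1
  have e2 : ∀ E x, |E - E1| < c → 0 < cooD (cooD S) E x x := h2
  set b : ℝ → ℝ → ℝ := fun E x => cooD (cooD S) E x x / 2 with hb
  have hb0 : ∀ E x, |E - E1| < c → 0 < b E x := fun E x hE => by
    have := e2 E x hE
    simp only [hb]
    linarith
  have hbper : ∀ E x, |E - E1| < c → b E (x + 1) = b E x := by
    intro E x hE
    simp only [hb]
    rw [coo_per (fun x X hX => coo_per (fun x X hX => hper E x X hE hX) x X hX) x x (hxx x)]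
  have hbana : ∀ E x, |E - E1| < c → AnalyticAt ℝ (fun q : ℝ × ℝ => b q.1 q.2) (E, x) := by
    intro E x hE
    have h3 : AnalyticAt ℝ (fun q : ℝ × ℝ => cooD (cooD S) q.1 q.2 q.2) (E, x) :=
      AnalyticAt.comp_of_eq (g := fun q : ℝ × ℝ × ℝ => cooD (cooD S) q.1 q.2.1 q.2.2)
        (f := fun q : ℝ × ℝ => (q.1, q.2, q.2)) (d2 E x x hE (hxx x))
        (analyticAt_fst.prod (analyticAt_snd.prod analyticAt_snd)) rfl
    exact h3.div analyticAt_const two_ne_zero
  set g : ℝ → ℝ → ℝ := fun E x => √(b E x) with hg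
  have hg0 : ∀ E x, |E - E1| < c → 0 < g E x := fun E x hE => Real.sqrt_pos.2 (hb0 E x hE)
  have hgper : ∀ E, |E - E1| < c → Function.Periodic (g E) 1 := fun E hE x => by
    simp only [hg, hbper E x hE]
  have hgana : ∀ E x, |E - E1| < c → AnalyticAt ℝ (fun q : ℝ × ℝ => g q.1 q.2) (E, x) := by
    intro E x hE
    have h3 := (hbana E x hE).contDiffAt (n := ω)
    have h4 : ContDiffAt ℝ ω (fun q : ℝ × ℝ => √(b q.1 q.2)) (E, x) :=
      h3.sqrt (hb0 E x hE).ne'
    exact h4.analyticAt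
  have hgcont : ∀ E, |E - E1| < c → Continuous (g E) := fun E hE =>
    continuous_iff_continuousAt.2 fun x => (coo_snd (hgana E x hE)).continuousAt
  have hgint : ∀ E, |E - E1| < c → ∀ x y : ℝ, IntervalIntegrable (g E) volume x y :=
    fun E hE x y => (hgcont E hE).intervalIntegrable x y
  set β : ℝ → ℝ := fun E => ∫ r in (0 : ℝ)..1, g E r with hβ
  have hβ0 : ∀ E, |E - E1| < c → 0 < β E := fun E hE =>
    intervalIntegral.intervalIntegral_pos_of_pos (hgint E hE 0 1) (fun x => hg0 E x hE) one_pos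
  have hIana := fun E x hE => param_int_ana hc (f := g) hgana E x hE
  have hβana : ∀ E, |E - E1| < c → AnalyticAt ℝ β E := by
    intro E hE
    exact AnalyticAt.comp_of_eq (g := fun q : ℝ × ℝ => ∫ r in (0 : ℝ)..q.2, g q.1 r)
      (f := fun E : ℝ => (E, (1 : ℝ))) (hIana E 1 hE) (analyticAt_id.prod analyticAt_const) rfl
  set G : ℝ → ℝ → ℝ := fun E x => (∫ τ in (0 : ℝ)..x, g E τ) / β E with hG
  have hGana : ∀ E x, |E - E1| < c → AnalyticAt ℝ (fun q : ℝ × ℝ => G q.1 q.2) (E, x) := by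
    intro E x hE
    have h3 : AnalyticAt ℝ (fun q : ℝ × ℝ => β q.1) (E, x) :=
      AnalyticAt.comp_of_eq (g := β) (f := fun q : ℝ × ℝ => q.1) (hβana E hE) analyticAt_fst rfl
    exact (hIana E x hE).div h3 (hβ0 E hE).ne'
  have hGd : ∀ E x, |E - E1| < c → HasDerivAt (G E) (g E x / β E) x := fun E x hE =>
    ((hgcont E hE).integral_hasStrictDerivAt 0 x).hasDerivAt.div_const (β E)
  have hGper : ∀ E, |E - E1| < c → ∀ x, G E (x + 1) = G E x + 1 := by
    intro E hE x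
    have h3 : ∫ τ in (0 : ℝ)..(x + 1), g E τ = (∫ τ in (0 : ℝ)..x, g E τ) + β E := by
      rw [← intervalIntegral.integral_add_adjacent_intervals (hgint E hE 0 x)
        (hgint E hE x (x + 1)), (hgper E hE).intervalIntegral_add_eq x 0, zero_add]
    simp only [hG]
    rw [h3, add_div, div_self (hβ0 E hE).ne']
  have hGmono : ∀ E, |E - E1| < c → StrictMono (G E) := by
    intro E hE
    refine strictMono_of_deriv_pos fun x => ?_
    rw [(hGd E x hE).deriv]
    exact div_pos (hg0 E x hE) (hβ0 E hE)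
  have hGcont : ∀ E, |E - E1| < c → Continuous (G E) := fun E hE =>
    continuous_iff_continuousAt.2 fun x => (coo_snd (hGana E x hE)).continuousAt
  set ξ : ℝ → ℝ → ℝ := fun E => Function.invFun (G E) with hξ
  have hGξ : ∀ E a, |E - E1| < c → G E (ξ E a) = a := fun E a hE =>
    Function.invFun_eq (coo_surj (hGper E hE) (hGcont E hE) a)
  have hξana : ∀ E a, |E - E1| < c → AnalyticAt ℝ (fun q : ℝ × ℝ => ξ q.1 q.2) (E, a) := by
    intro E a hE
    have hFan : AnalyticAt ℝ (fun p : (ℝ × ℝ) × ℝ => G p.1.1 p.2 - p.1.2) ((E, a), ξ E a) := by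
      have m1 : AnalyticAt ℝ (fun p : (ℝ × ℝ) × ℝ => ((p.1.1, p.2) : ℝ × ℝ))
          ((E, a), ξ E a) := by
        refine AnalyticAt.prod ?_ analyticAt_snd
        exact AnalyticAt.fun_comp (g := fun z : ℝ × ℝ => z.1) analyticAt_fst analyticAt_fst
      have m2 : AnalyticAt ℝ (fun p : (ℝ × ℝ) × ℝ => p.1.2) ((E, a), ξ E a) :=
        AnalyticAt.fun_comp (g := fun z : ℝ × ℝ => z.2) analyticAt_snd analyticAt_fst
      exact (AnalyticAt.comp_of_eq (g := fun q : ℝ × ℝ => G q.1 q.2)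
        (f := fun p : (ℝ × ℝ) × ℝ => (p.1.1, p.2)) (hGana E (ξ E a) hE) m1 rfl).sub m2
    have hi : ∀ y : ℝ, fderiv ℝ (fun p : (ℝ × ℝ) × ℝ => G p.1.1 p.2 - p.1.2)
        ((E, a), ξ E a) (0, y) = 0 → y = 0 := by
      intro y hy
      have k1 := hFan.differentiableAt.hasFDerivAt
      have k2 : HasDerivAt (fun t : ℝ => (((E, a), ξ E a + t * y) : (ℝ × ℝ) × ℝ))
          ((0 : ℝ × ℝ), y) 0 := by
        have : HasDerivAt (fun t : ℝ => ξ E a + t * y) y 0 := by
          simpa using ((hasDerivAt_id (0 : ℝ)).mul_const y).const_add (ξ E a)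
        exact (hasDerivAt_const (0 : ℝ) ((E, a) : ℝ × ℝ)).prodMk this
      have k3 : HasDerivAt (fun t : ℝ => G E (ξ E a + t * y) - a)
          (fderiv ℝ (fun p : (ℝ × ℝ) × ℝ => G p.1.1 p.2 - p.1.2) ((E, a), ξ E a) (0, y)) 0 := by
        have k1' : HasFDerivAt (fun p : (ℝ × ℝ) × ℝ => G p.1.1 p.2 - p.1.2)
            (fderiv ℝ (fun p : (ℝ × ℝ) × ℝ => G p.1.1 p.2 - p.1.2) ((E, a), ξ E a))
            ((E, a), ξ E a + 0 * y) := by
          rw [zero_mul, add_zero]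
          exact k1
        exact HasFDerivAt.comp_hasDerivAt
          (f := fun t : ℝ => (((E, a), ξ E a + t * y) : (ℝ × ℝ) × ℝ)) 0 k1' k2
      have k4 : HasDerivAt (fun t : ℝ => G E (ξ E a + t * y) - a)
          (g E (ξ E a) / β E * y) 0 := by
        have k5 : HasDerivAt (G E) (g E (ξ E a) / β E) (ξ E a + 0 * y) := by
          rw [zero_mul, add_zero]
          exact hGd E (ξ E a) hE
        have k6 : HasDerivAt (fun t : ℝ => ξ E a + t * y) y 0 := by
          simpa using ((hasDerivAt_id (0 : ℝ)).mul_const y).const_add (ξ E a)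
        exact (k5.comp (0 : ℝ) k6).sub_const a
      have k7 := k3.unique k4
      rw [hy] at k7
      have k8 : g E (ξ E a) / β E ≠ 0 := (div_pos (hg0 E _ hE) (hβ0 E hE)).ne'
      exact (mul_eq_zero.1 k7.symm).resolve_left k8
    obtain ⟨c₁, -, hc₁⟩ := loc_imp hFan hi
    obtain ⟨c₂, hc₂, y, hy⟩ := hc₁ 1 one_pos
    have hy0 := (hy (E, a) (by rw [sub_self, norm_zero]; exact hc₂)).2.2.1
    refine hy0.congr ?_
    have hev : ∀ᶠ q : ℝ × ℝ in 𝓝 (E, a), |q.1 - E1| < c := by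
      have h1 : ContinuousAt (fun q : ℝ × ℝ => |q.1 - E1|) (E, a) := by fun_prop
      exact h1.eventually (gt_mem_nhds hE)
    filter_upwards [hev, Metric.ball_mem_nhds (E, a) hc₂] with q hq hqb
    have h5 := (hy q (by rwa [← dist_eq_norm])).1
    simp only [hGξ E a hE, sub_self] at h5
    have h6 : G q.1 (y q) = q.2 := by linarith
    exact (hGmono q.1 hq).injective (h6.trans (hGξ q.1 q.2 hq).symm)
  have hξd : ∀ E a, |E - E1| < c → HasDerivAt (ξ E) (β E / g E (ξ E a)) a := by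
    intro E a hE
    have h3 := HasDerivAt.of_local_left_inverse (f := G E) (g := ξ E) (a := a)
      (coo_snd (hξana E a hE)).continuousAt (hGd E (ξ E a) hE)
      (div_pos (hg0 E _ hE) (hβ0 E hE)).ne'
      (Filter.Eventually.of_forall fun a => hGξ E a hE)
    rwa [inv_div] at h3
  have hξd' : ∀ E, |E - E1| < c → deriv (ξ E) = fun a => β E / g E (ξ E a) :=
    fun E hE => funext fun a => (hξd E a hE).deriv
  have hS1 : ∀ E a b, |E - E1| < c → |ξ E b - ξ E a| < c →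
      HasDerivAt (fun b => S E (ξ E a) (ξ E b) / β E ^ 2)
      (cooD S E (ξ E a) (ξ E b) * deriv (ξ E) b / β E ^ 2) b := by
    intro E a b hE hab
    have h3 : HasDerivAt (ξ E) (deriv (ξ E) b) b :=
      (coo_snd (hξana E b hE)).differentiableAt.hasDerivAt
    exact ((coo_slice (hana E (ξ E a) (ξ E b) hE hab)).comp b h3).div_const _
  refine ⟨ξ, β, hβ0, hβana, hξana, ?_, ?_, ?_, ?_⟩
  · intro E a hE
    apply (hGmono E hE).injective
    rw [hGξ E _ hE, hGper E hE, hGξ E _ hE]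
  · intro E a hE
    rw [hξd' E hE]
    exact div_pos (hβ0 E hE) (hg0 E _ hE)
  · intro E a hE
    rw [(hS1 E a a hE (hxx _)).deriv, e1 E _ hE]
    simp
  · intro E a hE
    have h3 : deriv (fun b => S E (ξ E a) (ξ E b) / β E ^ 2) =ᶠ[𝓝 a]
        fun b => cooD S E (ξ E a) (ξ E b) * deriv (ξ E) b / β E ^ 2 := by
      have h0 : ContinuousAt (fun b => |ξ E b - ξ E a|) a := by
        have := (coo_snd (hξana E a hE)).continuousAt
        exact (this.sub continuousAt_const).abs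
      filter_upwards [h0.eventually (gt_mem_nhds (hxx (ξ E a)))] with b hb'
      exact (hS1 E a b hE hb').deriv
    have h4 : HasDerivAt (ξ E) (deriv (ξ E) a) a :=
      (coo_snd (hξana E a hE)).differentiableAt.hasDerivAt
    have h5 : HasDerivAt (deriv (ξ E)) (deriv (deriv (ξ E)) a) a :=
      (coo_snd (hξana E a hE)).deriv.differentiableAt.hasDerivAt
    have h6 : HasDerivAt (fun b => cooD S E (ξ E a) (ξ E b))
        (cooD (cooD S) E (ξ E a) (ξ E a) * deriv (ξ E) a) a :=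
      (coo_slice (d1 E (ξ E a) (ξ E a) hE (hxx _))).comp a h4
    have h7 := ((h6.mul h5).div_const (β E ^ 2)).deriv
    rw [h3.deriv_eq]
    refine h7.trans ?_
    rw [e1 E _ hE, hξd' E hE]
    have h8 : g E (ξ E a) * g E (ξ E a) = cooD (cooD S) E (ξ E a) (ξ E a) / 2 :=
      Real.mul_self_sqrt (hb0 E (ξ E a) hE).le
    have h9 := (hg0 E (ξ E a) hE).ne'
    have h10 := (hβ0 E hE).ne'
    have h11 : cooD (cooD S) E (ξ E a) (ξ E a) = 2 * (g E (ξ E a) * g E (ξ E a)) := by linarith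
    rw [h11]
    field_simp
    ring

variable {S : ℝ → ℝ → ℝ → ℝ} {E1 c : ℝ} {ξ : ℝ → ℝ → ℝ} {β : ℝ → ℝ}

theorem coord_lip (h : Coord S E1 c ξ β) {c' : ℝ} (hc : c' < c) :
    ∃ μ M : ℝ, 0 < μ ∧ 0 < M ∧ ∀ E a b : ℝ, |E - E1| ≤ c' →
      μ * |b - a| ≤ |ξ E b - ξ E a| ∧ |ξ E b - ξ E a| ≤ M * |b - a| := by
  rcases lt_or_ge c' 0 with hneg | hc'
  · exact ⟨1, 1, one_pos, one_pos, fun E a b hE => absurd (abs_nonneg (E - E1)) (by linarith)⟩
  set K : Set (ℝ × ℝ) := Icc (E1 - c') (E1 + c') ×ˢ Icc (0 : ℝ) 1 with hK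
  have hKc : IsCompact K := isCompact_Icc.prod isCompact_Icc
  have hKne : K.Nonempty := ⟨(E1, 0), ⟨⟨by linarith, by linarith⟩, ⟨le_refl _, zero_le_one⟩⟩⟩
  have hdom : ∀ E, |E - E1| ≤ c' → |E - E1| < c := fun E hE => lt_of_le_of_lt hE hc
  have hKd : ∀ q ∈ K, |q.1 - E1| < c := by
    rintro q ⟨⟨h1, h2⟩, -⟩
    exact hdom _ (abs_le.2 ⟨by linarith, by linarith⟩)
  have hcont : ContinuousOn (fun q : ℝ × ℝ => deriv (ξ q.1) q.2) K := fun q hq =>
    (coo_D2 (h.ξ_ana q.1 q.2 (hKd q hq))).continuousAt.continuousWithinAt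
  obtain ⟨q₁, hq₁, hmin⟩ := hKc.exists_isMinOn hKne hcont
  obtain ⟨q₂, hq₂, hmax⟩ := hKc.exists_isMaxOn hKne hcont
  have hpos := h.ξ_der q₁.1 q₁.2 (hKd q₁ hq₁)
  have hpos2 := h.ξ_der q₂.1 q₂.2 (hKd q₂ hq₂)
  have hbd : ∀ E a, |E - E1| ≤ c' → deriv (ξ q₁.1) q₁.2 ≤ deriv (ξ E) a ∧
      deriv (ξ E) a ≤ deriv (ξ q₂.1) q₂.2 := by
    intro E a hE
    have hper : Function.Periodic (deriv (ξ E)) 1 := by
      intro x
      rw [← deriv_comp_add_const (ξ E) 1 x]
      have : (fun y => ξ E (y + 1)) = fun y => ξ E y + 1 :=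
        funext fun y => h.ξ_per E y (hdom E hE)
      rw [this, deriv_add_const]
    have h1 : deriv (ξ E) a = deriv (ξ E) (Int.fract a) := by
      have := hper.sub_int_mul_eq (x := a) ⌊a⌋
      rw [mul_one] at this
      exact this.symm
    have h2 : ((E, Int.fract a) : ℝ × ℝ) ∈ K := by
      have h3 := abs_le.1 hE
      exact ⟨⟨by linarith [h3.1], by linarith [h3.2]⟩,
        ⟨Int.fract_nonneg a, (Int.fract_lt_one a).le⟩⟩
    rw [h1]
    exact ⟨hmin h2, hmax h2⟩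
  refine ⟨deriv (ξ q₁.1) q₁.2, deriv (ξ q₂.1) q₂.2, hpos, hpos2, ?_⟩
  have key : ∀ E a b, |E - E1| ≤ c' → a ≤ b →
      deriv (ξ q₁.1) q₁.2 * |b - a| ≤ |ξ E b - ξ E a| ∧
      |ξ E b - ξ E a| ≤ deriv (ξ q₂.1) q₂.2 * |b - a| := by
    intro E a b hE hab
    have hd : Differentiable ℝ (ξ E) := fun x =>
      (coo_snd (h.ξ_ana E x (hdom E hE))).differentiableAt
    have h1 := mul_sub_le_image_sub_of_le_deriv hd (fun x => (hbd E x hE).1) hab
    have h2 := image_sub_le_mul_sub_of_deriv_le hd (fun x => (hbd E x hE).2) hab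
    have h3 : 0 ≤ b - a := sub_nonneg.2 hab
    have h4 : 0 ≤ ξ E b - ξ E a := le_trans (mul_nonneg hpos.le h3) h1
    rw [abs_of_nonneg h3, abs_of_nonneg h4]
    exact ⟨h1, h2⟩
  intro E a b hE
  rcases le_total a b with hab | hab
  · exact key E a b hE hab
  · have := key E b a hE hab
    rwa [abs_sub_comm a b, abs_sub_comm (ξ E a) (ξ E b)] at this

theorem coord_mono (h : Coord S E1 c ξ β) {E : ℝ} (hE : |E - E1| < c) : StrictMono (ξ E) :=
  strictMono_of_deriv_pos fun a => h.ξ_der E a hE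

theorem coord_surj (h : Coord S E1 c ξ β) {E : ℝ} (hE : |E - E1| < c) (x : ℝ) :
    ∃ a, ξ E a = x := by
  refine coo_surj (f := ξ E) (fun a => h.ξ_per E a hE) ?_ x
  exact continuous_iff_continuousAt.2 fun a => (coo_snd (h.ξ_ana E a hE)).continuousAt

theorem coord_nat (h : Coord S E1 c ξ β) {E : ℝ} (hE : |E - E1| < c) (a : ℝ) (n : ℕ) :
    ξ E (a + n) = ξ E a + n :=
  coo_nat (f := ξ E) (fun a => h.ξ_per E a hE) a n

end Pool.Agent.DB
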