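import Pool.Agent.DB.Gen
import Pool.Agent.DB.Coo
import Pool.Agent.DC.CFam
import Pool.Agent.NOne.KSeq
import Pool.Agent.DF.Label

/-!
# MP_74f563_an, n = 2 autonomous (D2), file DB/Ban: the band, all the fields except `jac`

`w = (e, θ, t)`, energy `E = E1 + c2 * e`, `x = x e θ t` the leaf function.  `yy w = ξ E (x e θ t)` and
`yp w = ξ E (x e (θ + r (1 + t)) t)` are the position on the section and the next one;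
`Zb w = (g (yy w), ν E (yy w) (yp w))`, `Tb w = ϑ E (yy w) (yp w)`.

`LF`: the hypotheses.  For `w ∈ Dom`: `0 < x e (θ + r (1 + t)) t - x e θ t < ρ` (`LeafC.inc`), hence
`|yp w - yy w| < c` (`xc`), and `|E - E1| < c`.

PROOFS.  `yy_smooth`, `yp_smooth`: composition of `xs` with the affine map
`(e, θ, t) ↦ (e, θ + r (1 + t), t)`, which maps `Dom` to `Dom`, and the analytic function `ξ` (`Coord.ξ_ana`).
`zb_smooth`, `tb_cont`: `ν_ana`, `ϑ_ana`, `g_ana`.  `zb_en`: `Arc.en`.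
`zb_per`, `tb_per`: `LeafC.per` (for `θ` and `θ + r (1 + t)`), `Coord.ξ_per`, `ν_per`, `ϑ_per`, `g_per`.
`el_match`: `Pfn E (yy w) (yp w) = Pin E (yp w) (yp w')` where `w' = (e, θ + r (1 + t), t)`, `yy w' = yp w`.
For `|e| < 1/4` and `|b - a| < ρ`: `gS (B e) a b = S1 E (ξ E a) (ξ E b) / β²` (`sb`); differentiate in `b`, resp.
in `a` (the identity holds in a neighbourhood): with `S1_dX`, `S1_dx`
`∂_b gS = (Pfn E (ξ a) (ξ b) - pE E (ξ b)) ξ'(b) / β²`, `∂_a gS = (pE E (ξ a) - Pin E (ξ a) (ξ b)) ξ'(a) / β²`.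
`LeafC.el` at `θ + r (1 + t)`: `∂_b gS (x θ, x θ⁺) + ∂_a gS (x θ⁺, x θ⁺⁺) = 0`, i.e.
`(Pfn E (yy w) (yp w) - Pin E (yp w) (yp w')) ξ'(x θ⁺) / β² = 0` and `ξ' > 0`, `β > 0`.
`zb_ret`: position: `hit`.  Velocity: `W = (Fl (Tb w) (Zb w)).2` and `ν E (yp w) (yp w')` are in the ball
of radius `c1` around `V1 (g (yp w))` (`nearf`, `near`), have energy `E` at the point `g (yp w)`
(`en_const`, `Fl (Tb w) (Zb w) = (g (yp w), W) + (zz (1, 0), 0)`, `en_per`; `Arc.en`), and the same momentum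
along the section (`Pfn_eq`, `el_match`), so they agree (`Arc.uniq2`).
(Model: NOne/BLeaf.lean.)
-/

set_option autoImplicit false

namespace Pool.Agent.DB

open Set Filter Topology MeasureTheory Pool.Agent.NOne
open scoped ContDiff

noncomputable def yy (E1 c2 : ℝ) (ξ : ℝ → ℝ → ℝ) (x : ℝ → ℝ → ℝ → ℝ) (w : ℝ × ℝ × ℝ) : ℝ :=
  ξ (E1 + c2 * w.1) (x w.1 w.2.1 w.2.2)

noncomputable def yp (E1 c2 r : ℝ) (ξ : ℝ → ℝ → ℝ) (x : ℝ → ℝ → ℝ → ℝ) (w : ℝ × ℝ × ℝ) : ℝ :=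
  ξ (E1 + c2 * w.1) (x w.1 (w.2.1 + r * (1 + w.2.2)) w.2.2)

noncomputable def Zb (E1 c2 r : ℝ) (g : ℝ → R2) (ν : ℝ → ℝ → ℝ → R2) (ξ : ℝ → ℝ → ℝ)
    (x : ℝ → ℝ → ℝ → ℝ) (w : ℝ × ℝ × ℝ) : PP :=
  (g (yy E1 c2 ξ x w), ν (E1 + c2 * w.1) (yy E1 c2 ξ x w) (yp E1 c2 r ξ x w))

noncomputable def Tb (E1 c2 r : ℝ) (ϑ : ℝ → ℝ → ℝ → ℝ) (ξ : ℝ → ℝ → ℝ) (x : ℝ → ℝ → ℝ → ℝ)
    (w : ℝ × ℝ × ℝ) : ℝ := ϑ (E1 + c2 * w.1) (yy E1 c2 ξ x w) (yp E1 c2 r ξ x w)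

/-- the hypotheses on the leaves -/
structure LF (L : PP → ℝ) (Fl : ℝ → PP → PP) (V : ℝ → ℤ × ℤ → R2 → R2) (m : ℝ → ℤ × ℤ → ℝ)
    (g : ℝ → R2) (ν : ℝ → ℝ → ℝ → R2) (ϑ : ℝ → ℝ → ℝ → ℝ) (ξ : ℝ → ℝ → ℝ) (β : ℝ → ℝ)
    (E1 c c2 ρ r : ℝ) (B : ℂ → ℂ → ℂ → ℂ) (x : ℝ → ℝ → ℝ → ℝ) : Prop where
  c2_pos : 0 < c2
  c2_lt : c2 < c
  r_pos : 0 < r
  xs : ContDiffOn ℝ ∞ (fun z : ℝ × ℝ × ℝ => x z.1 z.2.1 z.2.2) {z | |z.1| < 1 / 4 ∧ |z.2.2| < 1 / 4}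
  leaf : ∀ e : ℝ, |e| < 1 / 4 → LeafC (B e) ρ r (x e)
  xc : ∀ E a b : ℝ, |E - E1| < c2 → |b - a| < ρ → |ξ E b - ξ E a| < c
  sb : ∀ e a b : ℝ, |e| < 3 / 8 → |b - a| < ρ →
    S1 L Fl V m g ν ϑ (E1 + c2 * e) (ξ (E1 + c2 * e) a) (ξ (E1 + c2 * e) b) /
      β (E1 + c2 * e) ^ 2 = gS (B e) a b

variable {L : PP → ℝ} {Fl : ℝ → PP → PP} {E0 : ℝ} {V : ℝ → ℤ × ℤ → R2 → R2}
  {T m : ℝ → ℤ × ℤ → ℝ} {E1 : ℝ} {g : ℝ → R2} {τ s : R2 → ℝ} {c c1 c2 ρ r : ℝ}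
  {ν : ℝ → ℝ → ℝ → R2} {ϑ : ℝ → ℝ → ℝ → ℝ} {ξ : ℝ → ℝ → ℝ} {β : ℝ → ℝ} {B : ℂ → ℂ → ℂ → ℂ}
  {x : ℝ → ℝ → ℝ → ℝ} {w : ℝ × ℝ × ℝ}

theorem LF.dom (hA : Arc L Fl E0 V T E1 g c c1 ν ϑ)
    (hL : LF L Fl V m g ν ϑ ξ β E1 c c2 ρ r B x) (hw : w ∈ DF.Dom) :
    |E1 + c2 * w.1 - E1| < c ∧ |yp E1 c2 r ξ x w - yy E1 c2 ξ x w| < c := by
  have _ := hA
  have h0 : |w.1| < 1 / 4 := hw.1
  have h1 : |E1 + c2 * w.1 - E1| < c2 := by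
    rw [add_sub_cancel_left, abs_mul, abs_of_pos hL.c2_pos]
    nlinarith [hL.c2_pos, h0]
  refine ⟨h1.trans hL.c2_lt, ?_⟩
  have h2 := (hL.leaf w.1 hw.1).inc w.2.1 w.2.2 hw.2
  exact hL.xc _ _ _ h1 (by rw [abs_of_pos h2.1]; exact h2.2)

/-- a slice of an analytic function of two variables -/
private theorem ban_slice {E a : ℝ}
    (hF : AnalyticAt ℝ (fun q : ℝ × ℝ => ξ q.1 q.2) (E, a)) :
    HasDerivAt (ξ E) (deriv (ξ E) a) a := by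
  have h1 : AnalyticAt ℝ (ξ E) a :=
    AnalyticAt.comp_of_eq (g := fun q : ℝ × ℝ => ξ q.1 q.2) (f := fun a : ℝ => (E, a)) hF
      (analyticAt_const.prod analyticAt_id) rfl
  exact h1.differentiableAt.hasDerivAt

/-- the shift of the domain -/
private theorem ban_shift (hw : w ∈ DF.Dom) :
    (w.1, w.2.1 + r * (1 + w.2.2), w.2.2) ∈ DF.Dom := ⟨hw.1, hw.2⟩

theorem yy_smooth (hX : Coord (S1 L Fl V m g ν ϑ) E1 c ξ β)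
    (hL : LF L Fl V m g ν ϑ ξ β E1 c c2 ρ r B x) : ContDiffOn ℝ ∞ (yy E1 c2 ξ x) DF.Dom := by
  intro w hw
  have h0 : |w.1| < 1 / 4 := hw.1
  have h1 : |E1 + c2 * w.1 - E1| < c := by
    rw [add_sub_cancel_left, abs_mul, abs_of_pos hL.c2_pos]
    nlinarith [hL.c2_pos, h0, hL.c2_lt]
  have h2 : ContDiffAt ℝ ∞ (fun q : ℝ × ℝ => ξ q.1 q.2)
      (E1 + c2 * w.1, x w.1 w.2.1 w.2.2) := (hX.ξ_ana _ _ h1).contDiffAt
  have h3 : ContDiffWithinAt ℝ ∞ (fun w : ℝ × ℝ × ℝ => (E1 + c2 * w.1, x w.1 w.2.1 w.2.2))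
      DF.Dom w := by
    refine ContDiffWithinAt.prodMk ?_ (hL.xs w hw)
    exact (by fun_prop : ContDiff ℝ ∞ fun w : ℝ × ℝ × ℝ => E1 + c2 * w.1).contDiffWithinAt
  exact h2.comp_contDiffWithinAt (f := fun w : ℝ × ℝ × ℝ => (E1 + c2 * w.1, x w.1 w.2.1 w.2.2))
    w h3

theorem yp_smooth (hX : Coord (S1 L Fl V m g ν ϑ) E1 c ξ β)
    (hL : LF L Fl V m g ν ϑ ξ β E1 c c2 ρ r B x) : ContDiffOn ℝ ∞ (yp E1 c2 r ξ x) DF.Dom := by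
  have h1 : ContDiff ℝ ∞ fun w : ℝ × ℝ × ℝ => (w.1, w.2.1 + r * (1 + w.2.2), w.2.2) := by
    fun_prop
  exact (yy_smooth hX hL).comp h1.contDiffOn (fun w hw => ban_shift hw)

theorem zb_smooth (hS : Sect (V E1 (1, 0)) (T E1 (1, 0)) g τ s)
    (hA : Arc L Fl E0 V T E1 g c c1 ν ϑ) (hX : Coord (S1 L Fl V m g ν ϑ) E1 c ξ β)
    (hL : LF L Fl V m g ν ϑ ξ β E1 c c2 ρ r B x) :
    ContDiffOn ℝ ∞ (Zb E1 c2 r g ν ξ x) DF.Dom := by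
  intro w hw
  have h1 := hL.dom hA hw
  have hy := yy_smooth hX hL w hw
  have hp := yp_smooth hX hL w hw
  have hg : ContDiffAt ℝ ∞ g (yy E1 c2 ξ x w) := (hS.g_ana _ (mem_univ _)).contDiffAt
  have hν : ContDiffAt ℝ ∞ (fun q : ℝ × ℝ × ℝ => ν q.1 q.2.1 q.2.2)
      (E1 + c2 * w.1, yy E1 c2 ξ x w, yp E1 c2 r ξ x w) :=
    (hA.ν_ana _ _ _ h1.1 h1.2).contDiffAt
  have hE : ContDiffWithinAt ℝ ∞ (fun w : ℝ × ℝ × ℝ => E1 + c2 * w.1) DF.Dom w :=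
    (by fun_prop : ContDiff ℝ ∞ fun w : ℝ × ℝ × ℝ => E1 + c2 * w.1).contDiffWithinAt
  exact (hg.comp_contDiffWithinAt (f := yy E1 c2 ξ x) w hy).prodMk
    (hν.comp_contDiffWithinAt
      (f := fun w => (E1 + c2 * w.1, yy E1 c2 ξ x w, yp E1 c2 r ξ x w)) w
      (hE.prodMk (hy.prodMk hp)))

theorem tb_cont (hA : Arc L Fl E0 V T E1 g c c1 ν ϑ)
    (hX : Coord (S1 L Fl V m g ν ϑ) E1 c ξ β) (hL : LF L Fl V m g ν ϑ ξ β E1 c c2 ρ r B x) :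
    ContinuousOn (Tb E1 c2 r ϑ ξ x) DF.Dom := by
  intro w hw
  have h1 := hL.dom hA hw
  have hy := (yy_smooth hX hL w hw).continuousWithinAt
  have hp := (yp_smooth hX hL w hw).continuousWithinAt
  have hϑ : ContinuousAt (fun q : ℝ × ℝ × ℝ => ϑ q.1 q.2.1 q.2.2)
      (E1 + c2 * w.1, yy E1 c2 ξ x w, yp E1 c2 r ξ x w) :=
    (hA.ϑ_ana _ _ _ h1.1 h1.2).continuousAt
  have hE : ContinuousWithinAt (fun w : ℝ × ℝ × ℝ => E1 + c2 * w.1) DF.Dom w :=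
    (by fun_prop : Continuous fun w : ℝ × ℝ × ℝ => E1 + c2 * w.1).continuousWithinAt
  exact hϑ.comp_continuousWithinAt
    (f := fun w => (E1 + c2 * w.1, yy E1 c2 ξ x w, yp E1 c2 r ξ x w))
    (hE.prodMk (hy.prodMk hp))

theorem tb_pos (hA : Arc L Fl E0 V T E1 g c c1 ν ϑ)
    (hL : LF L Fl V m g ν ϑ ξ β E1 c c2 ρ r B x) (hw : w ∈ DF.Dom) :
    0 < Tb E1 c2 r ϑ ξ x w :=
  hA.ϑ_pos _ _ _ (hL.dom hA hw).1 (hL.dom hA hw).2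

theorem zb_en (hA : Arc L Fl E0 V T E1 g c c1 ν ϑ)
    (hL : LF L Fl V m g ν ϑ ξ β E1 c c2 ρ r B x) (hw : w ∈ DF.Dom) :
    en L (Zb E1 c2 r g ν ξ x w) = E1 + c2 * w.1 :=
  hA.en _ _ _ (hL.dom hA hw).1 (hL.dom hA hw).2

theorem zb_per (hS : Sect (V E1 (1, 0)) (T E1 (1, 0)) g τ s)
    (hA : Arc L Fl E0 V T E1 g c c1 ν ϑ) (hX : Coord (S1 L Fl V m g ν ϑ) E1 c ξ β)
    (hL : LF L Fl V m g ν ϑ ξ β E1 c c2 ρ r B x) {a θ t : ℝ} (hw : (a, θ, t) ∈ DF.Dom) :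
    Zb E1 c2 r g ν ξ x (a, θ + 1, t) = Zb E1 c2 r g ν ξ x (a, θ, t) + ((0, 1), 0) ∧
      Tb E1 c2 r ϑ ξ x (a, θ + 1, t) = Tb E1 c2 r ϑ ξ x (a, θ, t) := by
  have h1 := hL.dom hA hw
  have ha : |a| < 1 / 4 := hw.1
  have ht : |t| < 1 / 4 := hw.2
  have e1 : yy E1 c2 ξ x (a, θ + 1, t) = yy E1 c2 ξ x (a, θ, t) + 1 := by
    unfold yy
    simp only
    rw [(hL.leaf a ha).per θ t ht, hX.ξ_per _ _ h1.1]
  have e2 : yp E1 c2 r ξ x (a, θ + 1, t) = yp E1 c2 r ξ x (a, θ, t) + 1 := by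
    unfold yp
    simp only
    rw [add_right_comm, (hL.leaf a ha).per _ t ht, hX.ξ_per _ _ h1.1]
  constructor
  · unfold Zb
    rw [e1, e2, hS.g_per, hA.ν_per _ _ _ h1.1 h1.2]
    simp
  · unfold Tb
    rw [e1, e2, hA.ϑ_per _ _ _ h1.1 h1.2]

theorem el_match (hC : C0 L Fl E0 V T m) (hS : Sect (V E1 (1, 0)) (T E1 (1, 0)) g τ s)
    (hA : Arc L Fl E0 V T E1 g c c1 ν ϑ) (hX : Coord (S1 L Fl V m g ν ϑ) E1 c ξ β)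
    (hL : LF L Fl V m g ν ϑ ξ β E1 c c2 ρ r B x) {a θ t : ℝ} (hw : (a, θ, t) ∈ DF.Dom) :
    Pfn L Fl g ν ϑ (E1 + c2 * a) (yy E1 c2 ξ x (a, θ, t)) (yp E1 c2 r ξ x (a, θ, t)) =
      Pin L g ν (E1 + c2 * a) (yp E1 c2 r ξ x (a, θ, t))
        (yp E1 c2 r ξ x (a, θ + r * (1 + t), t)) := by
  have ha : |a| < 1 / 4 := hw.1
  have ht : |t| < 1 / 4 := hw.2
  have ha' : |a| < 3 / 8 := by linarith
  have hw' : (a, θ + r * (1 + t), t) ∈ DF.Dom := ban_shift hw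
  have h1 := hL.dom hA hw
  have h2 := hL.dom hA hw'
  have i1 := (hL.leaf a ha).inc θ t ht
  have i2 := (hL.leaf a ha).inc (θ + r * (1 + t)) t ht
  have hel := (hL.leaf a ha).el (θ + r * (1 + t)) t ht
  rw [add_sub_cancel_right] at hel
  obtain ⟨E, hEd⟩ : ∃ E, E = E1 + c2 * a := ⟨_, rfl⟩
  have hE : |E - E1| < c := by
    rw [hEd]
    exact h1.1
  obtain ⟨x0, hx0⟩ : ∃ x0, x0 = x a θ t := ⟨_, rfl⟩
  obtain ⟨x1, hx1⟩ : ∃ x1, x1 = x a (θ + r * (1 + t)) t := ⟨_, rfl⟩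
  obtain ⟨x2, hx2⟩ : ∃ x2, x2 = x a (θ + r * (1 + t) + r * (1 + t)) t := ⟨_, rfl⟩
  have hb1 : |ξ E x1 - ξ E x0| < c := by
    rw [hEd, hx0, hx1]
    exact h1.2
  have hb2 : |ξ E x2 - ξ E x1| < c := by
    rw [hEd, hx1, hx2]
    exact h2.2
  rw [← hx0, ← hx1, ← hx2] at hel
  rw [← hx0, ← hx1] at i1
  rw [← hx1, ← hx2] at i2
  change Pfn L Fl g ν ϑ (E1 + c2 * a) (ξ (E1 + c2 * a) (x a θ t))
      (ξ (E1 + c2 * a) (x a (θ + r * (1 + t)) t)) =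
    Pin L g ν (E1 + c2 * a) (ξ (E1 + c2 * a) (x a (θ + r * (1 + t)) t))
      (ξ (E1 + c2 * a) (x a (θ + r * (1 + t) + r * (1 + t)) t))
  rw [← hx0, ← hx1, ← hx2, ← hEd]
  have hβ : 0 < β E := hX.β_pos E hE
  have hξ' := ban_slice (hX.ξ_ana E x1 hE)
  have hξp : 0 < deriv (ξ E) x1 := hX.ξ_der E x1 hE
  have d1 : deriv (fun Y => gS (B a) x0 Y) x1 =
      (Pfn L Fl g ν ϑ E (ξ E x0) (ξ E x1) - pE L V g E (ξ E x1)) * deriv (ξ E) x1 /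
        β E ^ 2 := by
    have g1 : HasDerivAt (fun Y => S1 L Fl V m g ν ϑ E (ξ E x0) (ξ E Y) / β E ^ 2)
        ((Pfn L Fl g ν ϑ E (ξ E x0) (ξ E x1) - pE L V g E (ξ E x1)) * deriv (ξ E) x1 /
          β E ^ 2) x1 :=
      (HasDerivAt.comp (h₂ := fun X => S1 L Fl V m g ν ϑ E (ξ E x0) X) (h := ξ E) x1
        (S1_dX hC hS hA hE hb1) hξ').div_const _
    rw [← g1.deriv]
    refine Filter.EventuallyEq.deriv_eq ?_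
    have hc : ContinuousAt (fun Y : ℝ => |Y - x0|) x1 := by fun_prop
    have hlt : |x1 - x0| < ρ := by
      rw [abs_of_pos i1.1]
      exact i1.2
    filter_upwards [hc.eventually (gt_mem_nhds hlt)] with Y hY
    rw [hEd]
    exact (hL.sb a x0 Y ha' hY).symm
  have d2 : deriv (fun y => gS (B a) y x2) x1 =
      (pE L V g E (ξ E x1) - Pin L g ν E (ξ E x1) (ξ E x2)) * deriv (ξ E) x1 /
        β E ^ 2 := by
    have g1 : HasDerivAt (fun y => S1 L Fl V m g ν ϑ E (ξ E y) (ξ E x2) / β E ^ 2)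
        ((pE L V g E (ξ E x1) - Pin L g ν E (ξ E x1) (ξ E x2)) * deriv (ξ E) x1 /
          β E ^ 2) x1 :=
      (HasDerivAt.comp (h₂ := fun y => S1 L Fl V m g ν ϑ E y (ξ E x2)) (h := ξ E) x1
        (S1_dx hC hS hA hE hb2) hξ').div_const _
    rw [← g1.deriv]
    refine Filter.EventuallyEq.deriv_eq ?_
    have hc : ContinuousAt (fun y : ℝ => |x2 - y|) x1 := by fun_prop
    have hlt : |x2 - x1| < ρ := by
      rw [abs_of_pos i2.1]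
      exact i2.2
    filter_upwards [hc.eventually (gt_mem_nhds hlt)] with y hy
    rw [hEd]
    exact (hL.sb a y x2 ha' hy).symm
  rw [d1, d2, ← add_div, ← add_mul] at hel
  rcases div_eq_zero_iff.1 hel with h3 | h3
  · rcases mul_eq_zero.1 h3 with h4 | h4
    · linarith
    · exact absurd h4 hξp.ne'
  · exact absurd h3 (by positivity)

theorem zb_ret (hC : C0 L Fl E0 V T m) (hS : Sect (V E1 (1, 0)) (T E1 (1, 0)) g τ s)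
    (hA : Arc L Fl E0 V T E1 g c c1 ν ϑ) (hX : Coord (S1 L Fl V m g ν ϑ) E1 c ξ β)
    (hL : LF L Fl V m g ν ϑ ξ β E1 c c2 ρ r B x) {a θ t : ℝ} (hw : (a, θ, t) ∈ DF.Dom) :
    Fl (Tb E1 c2 r ϑ ξ x (a, θ, t)) (Zb E1 c2 r g ν ξ x (a, θ, t)) =
      Zb E1 c2 r g ν ξ x (a, θ + r * (1 + t), t) + ((1, 0), 0) := by
  have hw' : (a, θ + r * (1 + t), t) ∈ DF.Dom := ban_shift hw
  have h1 := hL.dom hA hw
  have h2 := hL.dom hA hw'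
  have hm := el_match hC hS hA hX hL hw
  have hyy : yy E1 c2 ξ x (a, θ + r * (1 + t), t) = yp E1 c2 r ξ x (a, θ, t) := rfl
  rw [hyy] at h2
  obtain ⟨E, hEd⟩ : ∃ E, E = E1 + c2 * a := ⟨_, rfl⟩
  obtain ⟨y0, hy0⟩ : ∃ y0, y0 = yy E1 c2 ξ x (a, θ, t) := ⟨_, rfl⟩
  obtain ⟨y1, hy1⟩ : ∃ y1, y1 = yp E1 c2 r ξ x (a, θ, t) := ⟨_, rfl⟩
  obtain ⟨y2, hy2⟩ : ∃ y2, y2 = yp E1 c2 r ξ x (a, θ + r * (1 + t), t) := ⟨_, rfl⟩
  have hE : |E - E1| < c := by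
    rw [hEd]
    exact h1.1
  have hb1 : |y1 - y0| < c := by
    rw [hy0, hy1]
    exact h1.2
  have hb2 : |y2 - y1| < c := by
    rw [hy1, hy2]
    exact h2.2
  rw [← hy0, ← hy1, ← hy2, ← hEd, Pfn_eq hC hA hE hb1] at hm
  have e1 : Tb E1 c2 r ϑ ξ x (a, θ, t) = ϑ E y0 y1 := by
    rw [hEd, hy0, hy1]
    rfl
  have e2 : Zb E1 c2 r g ν ξ x (a, θ, t) = (g y0, ν E y0 y1) := by
    rw [hEd, hy0, hy1]
    rfl
  have e3 : Zb E1 c2 r g ν ξ x (a, θ + r * (1 + t), t) = (g y1, ν E y1 y2) := by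
    rw [hEd, hy1, hy2]
    rfl
  rw [e1, e2, e3]
  have hhit := hA.hit E y0 y1 hE hb1
  have hz : (zz (1, 0) : R2) = (1, 0) := by simp [zz]
  have hFl : Fl (ϑ E y0 y1) (g y0, ν E y0 y1) =
      (g y1, (Fl (ϑ E y0 y1) (g y0, ν E y0 y1)).2) + (zz (1, 0), 0) := by
    refine Prod.ext ?_ (add_zero _).symm
    change _ = g y1 + zz (1, 0)
    rw [hhit, hz]
  have hD : Dyn L Fl := hC.toDyn
  have hen : en L (g y1, (Fl (ϑ E y0 y1) (g y0, ν E y0 y1)).2) =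
      en L (g y1, ν E y1 y2) := by
    rw [← hD.en_per (1, 0) (g y1, (Fl (ϑ E y0 y1) (g y0, ν E y0 y1)).2), ← hFl, hD.en_const,
      hA.en E y0 y1 hE hb1, hA.en E y1 y2 hE hb2]
  have hW := hA.uniq2 y1 _ _ (hA.nearf E y0 y1 hE hb1) (hA.near E y1 y2 hE hb2) hen hm
  refine Prod.ext hhit ?_
  change _ = ν E y1 y2 + 0
  rw [hW, add_zero]

end Pool.Agent.DB
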