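import Pool.Agent.DB.Bas
import Pool.Agent.DF.Label

/-!
# MP_74f563_an, n = 2 autonomous (D2), file DB/Base: change of the basis of the lattice

For `h, h' ∈ ℤ²` with determinant `1`: `bas h h' k = k.1 h + k.2 h'` on the lattice and
`NN h h' (a, b) = a • zz h + b • zz h'` on the plane.

PROOFS.  `nn_inv`: `ni h h' x = (dtm x (zz h'), dtm (zz h) x)` is the inverse of `NN h h'` because the
determinant is `1` (`ring` after expanding; `norm_num` with casts).  `nn_zz`: by definition.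
`bas_prm`: `k.1 h + k.2 h'`: if `u k.1 + w k.2 = 1` then the inverse matrix (integer entries) gives the
coefficients: with `p = (bas k).1`, `q = (bas k).2`: `k.1 = p h'.2 - q h'.1`, `k.2 = h.1 q - h.2 p`, so
`1 = u k.1 + w k.2` is an integer combination of `p`, `q`.  `bas_surj`, `bas_inj`, `bas_det`: the same
formulas.  `prm_ext`: Bezout.
`base_C0`.  PROOF.  Let `N = NN h h'`, `N₂ z = (N z.1, N z.2)` (a linear isomorphism of `PP`),
`L' = L ∘ N₂`, `Fl' t = N₂⁻¹ ∘ Fl t ∘ N₂`.  `fderiv ℝ L' z = (fderiv ℝ L (N₂ z)) ∘ N₂`, so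
`pm L' z = (pm L (N₂ z)) ∘ N`, `lx L' z = (lx L (N₂ z)) ∘ N`, `en L' z = en L (N₂ z)`,
`Lvv L' z u w = Lvv L (N₂ z) (N u) (N w)`, `Ac L' Fl' t z = Ac L Fl t (N₂ z)`.  With
`N (zz k) = zz (bas h h' k)` and linearity all the fields of `Dyn` and `C0` for `L'` at `k` are those for `L` at
`bas h h' k`.  `dens`: given `(x, v)`, `d`: choose `k` for `(N x, N v)` and `d / (C + 1)`, `C` a bound of the norm
of `N⁻¹`, and write `k = bas h h' k'` (`bas_surj`, `k'` primitive by `bas_prm`: the inverse matrix).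
`conv`: `(k • h₁ + m • h₁')` is mapped to `k • bas h₁ + m • bas h₁'`, determinant `1` (`bas_det`); the
constant as for `dens`.
`base_Bnd`: `Z w = N₂ (Z' w)`; every field by transport: `Fl t (N₂ z) = N₂ (Fl' t z)`;
`N₂ ((1, 0), 0) = (zz h, 0)`, `N₂ ((0, 1), 0) = (zz h', 0)`; `jac`: the derivative of
`q ↦ Fl q.1 (N₂ (Z' q.2)) = N₂ (Fl' q.1 (Z' q.2))` is `N₂` composed with the old one.
`dyn_flw`: `smooth`: `fsmooth`; `tr1`, `tr2`: `fper`; `en`: `en_const`; `es`: `en_ana`; `e1`, `e2`: `en_per`;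
`pp z = ni h h' z.1`.
-/

set_option autoImplicit false

namespace Pool.Agent.DB

open Set
open scoped ContDiff

/-- the change of basis on the lattice -/
def bas (h h' : ℤ × ℤ) (k : ℤ × ℤ) : ℤ × ℤ := k.1 • h + k.2 • h'

/-- the change of basis on the plane -/
noncomputable def NN (h h' : ℤ × ℤ) : R2 →L[ℝ] R2 :=
  (ContinuousLinearMap.fst ℝ ℝ ℝ).smulRight (zz h) + (ContinuousLinearMap.snd ℝ ℝ ℝ).smulRight (zz h')

/-- its inverse (for determinant `1`) -/
noncomputable def NI (h h' : ℤ × ℤ) : R2 →L[ℝ] R2 :=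
  ((h'.2 : ℝ) • ContinuousLinearMap.fst ℝ ℝ ℝ - (h'.1 : ℝ) • ContinuousLinearMap.snd ℝ ℝ ℝ).prod
    ((h.1 : ℝ) • ContinuousLinearMap.snd ℝ ℝ ℝ - (h.2 : ℝ) • ContinuousLinearMap.fst ℝ ℝ ℝ)

/-- the maps on the phase space -/
noncomputable def N2 (h h' : ℤ × ℤ) (z : PP) : PP := (NN h h' z.1, NN h h' z.2)

noncomputable def I2 (h h' : ℤ × ℤ) (z : PP) : PP := (NI h h' z.1, NI h h' z.2)

variable {h h' : ℤ × ℤ}

private theorem nn_ap (x : R2) :
    NN h h' x = (x.1 * h.1 + x.2 * h'.1, x.1 * h.2 + x.2 * h'.2) := by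
  simp [NN, zz]

private theorem ni_ap (x : R2) :
    NI h h' x = ((h'.2 : ℝ) * x.1 - h'.1 * x.2, (h.1 : ℝ) * x.2 - h.2 * x.1) := by
  simp [NI]

private theorem hdR (hd : h.1 * h'.2 - h.2 * h'.1 = 1) :
    (h.1 : ℝ) * h'.2 - h.2 * h'.1 = 1 := by
  exact_mod_cast hd

theorem nn_inv (hd : h.1 * h'.2 - h.2 * h'.1 = 1) (x : R2) :
    NN h h' (NI h h' x) = x ∧ NI h h' (NN h h' x) = x := by
  have hr := hdR hd
  constructor
  · rw [nn_ap, ni_ap]
    ext
    · simp only
      linear_combination x.1 * hr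
    · simp only
      linear_combination x.2 * hr
  · rw [nn_ap, ni_ap]
    ext
    · simp only
      linear_combination x.1 * hr
    · simp only
      linear_combination x.2 * hr

theorem nn_zz (k : ℤ × ℤ) : NN h h' (zz k) = zz (bas h h' k) := by
  rw [nn_ap]
  simp [zz, bas]

private theorem bas_ap (k : ℤ × ℤ) :
    bas h h' k = (k.1 * h.1 + k.2 * h'.1, k.1 * h.2 + k.2 * h'.2) := by
  simp [bas, Prod.ext_iff]

theorem bas_prm (hd : h.1 * h'.2 - h.2 * h'.1 = 1) (k : ℤ × ℤ) : Prm (bas h h' k) ↔ Prm k := by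
  rw [bas_ap]
  unfold Prm IsCoprime
  constructor
  · rintro ⟨a, b, hab⟩
    exact ⟨a * h.1 + b * h.2, a * h'.1 + b * h'.2, by linear_combination hab⟩
  · rintro ⟨a, b, hab⟩
    exact ⟨a * h'.2 - b * h.2, b * h.1 - a * h'.1, by
      linear_combination hab + (a * k.1 + b * k.2) * hd⟩

theorem bas_bij (hd : h.1 * h'.2 - h.2 * h'.1 = 1) : Function.Bijective (bas h h') := by
  refine Function.bijective_iff_has_inverse.2
    ⟨fun k => (h'.2 * k.1 - h'.1 * k.2, h.1 * k.2 - h.2 * k.1), fun k => ?_, fun k => ?_⟩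
  · rw [bas_ap]
    ext
    · simp only
      linear_combination k.1 * hd
    · simp only
      linear_combination k.2 * hd
  · rw [bas_ap]
    ext
    · simp only
      linear_combination k.1 * hd
    · simp only
      linear_combination k.2 * hd

/-- every primitive vector is the first vector of a basis -/
theorem prm_ext (hh : Prm h) : ∃ h' : ℤ × ℤ, h.1 * h'.2 - h.2 * h'.1 = 1 := by
  obtain ⟨a, b, hab⟩ := hh
  exact ⟨(-b, a), by linear_combination hab⟩

variable {L : PP → ℝ} {Fl : ℝ → PP → PP} {E0 : ℝ} {V : ℝ → ℤ × ℤ → R2 → R2}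
  {T m : ℝ → ℤ × ℤ → ℝ}

/-- the change of basis on the phase space as a continuous linear map -/
private noncomputable def NP (h h' : ℤ × ℤ) : PP →L[ℝ] PP := (NN h h').prodMap (NN h h')

private noncomputable def IP (h h' : ℤ × ℤ) : PP →L[ℝ] PP := (NI h h').prodMap (NI h h')

private theorem n2_eq (z : PP) : N2 h h' z = NP h h' z := rfl

private theorem i2_eq (z : PP) : I2 h h' z = IP h h' z := rfl

private theorem ni (hd : h.1 * h'.2 - h.2 * h'.1 = 1) (z : PP) : N2 h h' (I2 h h' z) = z := by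
  ext1
  · exact (nn_inv hd z.1).1
  · exact (nn_inv hd z.2).1

private theorem inn (hd : h.1 * h'.2 - h.2 * h'.1 = 1) (z : PP) : I2 h h' (N2 h h' z) = z := by
  ext1
  · exact (nn_inv hd z.1).2
  · exact (nn_inv hd z.2).2

private theorem n2_zz (z : PP) (k : ℤ × ℤ) :
    N2 h h' (z + (zz k, 0)) = N2 h h' z + (zz (bas h h' k), 0) := by
  rw [n2_eq, map_add, n2_eq]
  congr 1
  ext1
  · exact nn_zz k
  · exact map_zero (NN h h')

private theorem i2_zz (hd : h.1 * h'.2 - h.2 * h'.1 = 1) (z : PP) (k : ℤ × ℤ) :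
    I2 h h' (z + (zz (bas h h' k), 0)) = I2 h h' z + (zz k, 0) := by
  rw [i2_eq, map_add, i2_eq]
  congr 1
  ext1
  · change NI h h' (zz (bas h h' k)) = zz k
    rw [← nn_zz, (nn_inv hd _).2]
  · exact map_zero (NI h h')

private theorem fd_eq (hD : Dyn L Fl) (z : PP) :
    fderiv ℝ (fun z => L (N2 h h' z)) z = (fderiv ℝ L (N2 h h' z)).comp (NP h h') := by
  have h1 : HasFDerivAt L (fderiv ℝ L (N2 h h' z)) (NP h h' z) :=
    ((hD.smooth 1).differentiable one_ne_zero _).hasFDerivAt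
  exact (h1.comp z (NP h h').hasFDerivAt).fderiv

private theorem pm_eq (hD : Dyn L Fl) (z : PP) :
    pm (fun z => L (N2 h h' z)) z = (pm L (N2 h h' z)).comp (NN h h') := by
  refine ContinuousLinearMap.ext fun u => ?_
  unfold pm
  rw [fd_eq hD]
  change fderiv ℝ L (N2 h h' z) (NP h h' ((0 : R2), u)) =
    fderiv ℝ L (N2 h h' z) ((0 : R2), NN h h' u)
  congr 1
  ext1
  · exact map_zero (NN h h')
  · rfl

private theorem lx_eq (hD : Dyn L Fl) (z : PP) :
    lx (fun z => L (N2 h h' z)) z = (lx L (N2 h h' z)).comp (NN h h') := by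
  refine ContinuousLinearMap.ext fun u => ?_
  unfold lx
  rw [fd_eq hD]
  change fderiv ℝ L (N2 h h' z) (NP h h' (u, (0 : R2))) =
    fderiv ℝ L (N2 h h' z) (NN h h' u, (0 : R2))
  congr 1
  ext1
  · rfl
  · exact map_zero (NN h h')

private theorem en_eq (hD : Dyn L Fl) (z : PP) :
    en (fun z => L (N2 h h' z)) z = en L (N2 h h' z) := by
  unfold en
  rw [pm_eq hD]
  rfl

private theorem lvv_eq (hD : Dyn L Fl) (z : PP) (u w : R2) :
    Lvv (fun z => L (N2 h h' z)) z u w = Lvv L (N2 h h' z) (NN h h' u) (NN h h' w) := by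
  unfold Lvv
  have e1 : fderiv ℝ (fun z => L (N2 h h' z)) =
      fun z => (ContinuousLinearMap.compL ℝ PP PP ℝ).flip (NP h h') (fderiv ℝ L (NP h h' z)) :=
    funext fun z => fd_eq hD z
  have h2 : HasFDerivAt (fderiv ℝ L) (fderiv ℝ (fderiv ℝ L) (N2 h h' z)) (NP h h' z) := by
    have h3 : ContDiff ℝ 1 (fderiv ℝ L) := (hD.smooth 2).fderiv_right (by norm_num)
    exact (h3.differentiable one_ne_zero _).hasFDerivAt
  have h4 := ((ContinuousLinearMap.compL ℝ PP PP ℝ).flip (NP h h')).hasFDerivAt.comp z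
    (h2.comp z (NP h h').hasFDerivAt)
  rw [e1]
  have h5 : fderiv ℝ (fun z => (ContinuousLinearMap.compL ℝ PP PP ℝ).flip (NP h h')
      (fderiv ℝ L (NP h h' z))) z = _ := h4.fderiv
  rw [h5]
  change fderiv ℝ (fderiv ℝ L) (N2 h h' z) (NP h h' ((0 : R2), u)) (NP h h' ((0 : R2), w)) = _
  have e2 : ∀ u : R2, NP h h' ((0 : R2), u) = ((0 : R2), NN h h' u) := fun u => by
    ext1
    · exact map_zero (NN h h')
    · rfl
  rw [e2, e2]

theorem base_Dyn (hD : Dyn L Fl) (hd : h.1 * h'.2 - h.2 * h'.1 = 1) :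
    Dyn (fun z => L (N2 h h' z)) (fun t z => I2 h h' (Fl t (N2 h h' z))) where
  ana := fun z _ => (hD.ana _ (mem_univ _)).comp ((NP h h').analyticAt z)
  per := fun k z => by
    rw [n2_zz, hD.per]
  pos := fun z u hu => by
    rw [lvv_eq hD]
    refine hD.pos _ _ fun h0 => hu ?_
    rw [← (nn_inv hd u).2, h0, map_zero]
  fana := fun q _ => by
    have h1 : AnalyticAt ℝ (fun q : ℝ × PP => (q.1, NP h h' q.2)) q :=
      analyticAt_fst.prod (((NP h h').analyticAt _).comp analyticAt_snd)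
    have h2 : AnalyticAt ℝ (fun q : ℝ × PP => Fl q.1 q.2) (q.1, NP h h' q.2) :=
      hD.fana _ (mem_univ _)
    exact ((IP h h').analyticAt _).comp (AnalyticAt.comp (f := fun q : ℝ × PP =>
      (q.1, NP h h' q.2)) h2 h1)
  zero := fun z => by
    rw [hD.zero, inn hd]
  add := fun s t z => by
    rw [ni hd, hD.add]
  vel := fun t z => by
    have h1 := (NI h h').hasFDerivAt.comp_hasDerivAt t (hD.vel t (N2 h h' z))
    exact h1
  el := fun t z => by
    have e1 : (fun t => pm (fun z => L (N2 h h' z)) (I2 h h' (Fl t (N2 h h' z)))) =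
        fun t => (ContinuousLinearMap.compL ℝ R2 R2 ℝ).flip (NN h h')
          (pm L (Fl t (N2 h h' z))) := by
      funext t
      rw [pm_eq hD, ni hd]
      rfl
    have e2 : lx (fun z => L (N2 h h' z)) (I2 h h' (Fl t (N2 h h' z))) =
        (ContinuousLinearMap.compL ℝ R2 R2 ℝ).flip (NN h h') (lx L (Fl t (N2 h h' z))) := by
      rw [lx_eq hD, ni hd]
      rfl
    have h1 := ((ContinuousLinearMap.compL ℝ R2 R2 ℝ).flip (NN h h')).hasFDerivAt.comp_hasDerivAt t
      (hD.el t (N2 h h' z))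
    have h2 : HasDerivAt (fun t => pm (fun z => L (N2 h h' z)) (I2 h h' (Fl t (N2 h h' z))))
        (lx (fun z => L (N2 h h' z)) (I2 h h' (Fl t (N2 h h' z)))) t := by
      rw [e1, e2]
      exact h1
    exact h2
  fper := fun t k z => by
    rw [n2_zz, hD.fper, i2_zz hd]

theorem base_en (hD : Dyn L Fl) (hd : h.1 * h'.2 - h.2 * h'.1 = 1) (z : PP) :
    en (fun z => L (N2 h h' z)) z = en L (N2 h h' z) := by
  have _ := hd
  exact en_eq hD z

private theorem ac_eq (hd : h.1 * h'.2 - h.2 * h'.1 = 1) (t : ℝ) (z : PP) :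
    Ac (fun z => L (N2 h h' z)) (fun t z => I2 h h' (Fl t (N2 h h' z))) t z =
      Ac L Fl t (N2 h h' z) := by
  unfold Ac
  refine intervalIntegral.integral_congr fun τ _ => ?_
  change L (N2 h h' (I2 h h' (Fl τ (N2 h h' z)))) = L (Fl τ (N2 h h' z))
  rw [ni hd]

private theorem n2_v (hd : h.1 * h'.2 - h.2 * h'.1 = 1) (x v : R2) :
    N2 h h' (x, NI h h' v) = (NN h h' x, v) := by
  ext1
  · rfl
  · exact (nn_inv hd v).1

private theorem ni_le (w : R2) {d : ℝ} (hd : 0 < d)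
    (hw : ‖w‖ < d / (‖NI h h'‖ + 1)) : ‖NI h h' w‖ < d := by
  have h0 : 0 < ‖NI h h'‖ + 1 := by positivity
  rw [lt_div_iff₀ h0] at hw
  have h1 := (NI h h').le_opNorm w
  have h2 := norm_nonneg w
  nlinarith

theorem base_C0 (hC : C0 L Fl E0 V T m) (hd : h.1 * h'.2 - h.2 * h'.1 = 1) :
    C0 (fun z => L (N2 h h' z)) (fun t z => I2 h h' (Fl t (N2 h h' z))) E0
      (fun E k x => NI h h' (V E (bas h h' k) (NN h h' x))) (fun E k => T E (bas h h' k))
      (fun E k => m E (bas h h' k)) := by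
  have hD : Dyn L Fl := hC.toDyn
  refine { base_Dyn hD hd with
    rest := ?_
    enV := ?_
    perV := ?_
    contV := ?_
    orb := ?_
    inv := ?_
    Tpos := ?_
    contT := ?_
    act := ?_
    mini := ?_
    once := ?_
    dens := ?_
    conv := ?_ }
  · intro x
    rw [en_eq hD]
    have e1 : N2 h h' (x, (0 : R2)) = (NN h h' x, 0) := by
      ext1
      · rfl
      · exact map_zero (NN h h')
    rw [e1]
    exact hC.rest _
  · intro E hE k hk x
    rw [en_eq hD, n2_v hd]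
    exact hC.enV E hE _ ((bas_prm hd k).2 hk) _
  · intro E hE k hk x j
    rw [map_add, nn_zz, hC.perV E hE _ ((bas_prm hd k).2 hk)]
  · intro k hk
    have h1 := hC.contV (bas h h' k) ((bas_prm hd k).2 hk)
    have h2 : ContinuousOn (fun q : ℝ × R2 => (q.1, NN h h' q.2)) (Ioi E0 ×ˢ univ) := by
      fun_prop
    have h3 := h1.comp h2 fun q hq => ⟨hq.1, mem_univ _⟩
    exact (NI h h').continuous.comp_continuousOn h3
  · intro E hE k hk x
    change NI h h' (Fl (T E (bas h h' k))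
      (N2 h h' (x, NI h h' (V E (bas h h' k) (NN h h' x))))).1 = x + zz k
    rw [n2_v hd, hC.orb E hE _ ((bas_prm hd k).2 hk), map_add, (nn_inv hd _).2, ← nn_zz,
      (nn_inv hd _).2]
  · intro E hE k hk x t
    change NI h h' (Fl t (N2 h h' (x, NI h h' (V E (bas h h' k) (NN h h' x))))).2 =
      NI h h' (V E (bas h h' k) (NN h h' (NI h h' (Fl t (N2 h h' (x,
        NI h h' (V E (bas h h' k) (NN h h' x))))).1)))
    rw [n2_v hd, (nn_inv hd _).1, hC.inv E hE _ ((bas_prm hd k).2 hk)]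
  · intro E hE k hk
    exact hC.Tpos E hE _ ((bas_prm hd k).2 hk)
  · intro k hk
    exact hC.contT _ ((bas_prm hd k).2 hk)
  · intro E hE k hk x
    rw [ac_eq hd, n2_v hd]
    exact hC.act E hE _ ((bas_prm hd k).2 hk) _
  · intro E hE k hk n N z τ hn hN hτ hz hzN
    have h1 := hC.mini E hE _ ((bas_prm hd k).2 hk) n N (fun i => N2 h h' (z i)) τ hn hN hτ
      (fun i hi => by
        have h2 : NI h h' (Fl (τ i) (N2 h h' (z i))).1 = (z (i + 1)).1 := hz i hi
        change (Fl (τ i) (N2 h h' (z i))).1 = NN h h' (z (i + 1)).1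
        rw [← h2, (nn_inv hd _).1])
      (by
        change NN h h' (z N).1 = NN h h' (z 0).1 + (n : ℝ) • zz (bas h h' k)
        rw [hzN, map_add, map_smul, nn_zz])
    refine h1.trans (le_of_eq (Finset.sum_congr rfl fun i _ => ?_))
    rw [ac_eq hd]
  · intro E hE k k' hk hk' hkk x t t' ht ht' heq
    have h1 := congrArg (NN h h') heq
    change NN h h' (NI h h' (Fl t (N2 h h' (x, NI h h' (V E (bas h h' k) (NN h h' x))))).1) =
      NN h h' (NI h h' (Fl t' (N2 h h' (x, NI h h' (V E (bas h h' k') (NN h h' x))))).1) at h1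
    rw [(nn_inv hd _).1, (nn_inv hd _).1, n2_v hd, n2_v hd] at h1
    exact hC.once E hE _ _ ((bas_prm hd k).2 hk) ((bas_prm hd k').2 hk')
      (fun h0 => hkk ((bas_bij hd).1 h0)) _ t t' ht ht' h1
  · intro E hE x v hv d hd0
    rw [en_eq hD] at hv
    obtain ⟨j, hj, hlt⟩ := hC.dens E hE (NN h h' x) (NN h h' v) hv (d / (‖NI h h'‖ + 1))
      (by positivity)
    obtain ⟨k, rfl⟩ := (bas_bij hd).2 j
    refine ⟨k, (bas_prm hd k).1 hj, ?_⟩
    have h1 := ni_le _ hd0 hlt
    rw [map_sub, (nn_inv hd v).2] at h1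
    exact h1
  · intro E1 hE1 k k' hkk d hd0
    have hdet : (bas h h' k).1 * (bas h h' k').2 - (bas h h' k).2 * (bas h h' k').1 = 1 := by
      rw [bas_ap, bas_ap]
      linear_combination hkk + (k.1 * k'.2 - k.2 * k'.1) * hd
    obtain ⟨κ, hκ, H⟩ := hC.conv E1 hE1 _ _ hdet (d / (‖NI h h'‖ + 1)) (by positivity)
    refine ⟨κ, hκ, fun E hE i j hi hj hij hlt x => ?_⟩
    have h1 := H E hE i j hi hj hij hlt (NN h h' x)
    have e1 : bas h h' ((i : ℤ) • k + (j : ℤ) • k') =
        (i : ℤ) • bas h h' k + (j : ℤ) • bas h h' k' := by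
      rw [bas_ap, bas_ap, bas_ap]
      ext
      · simp only [Prod.fst_add, Prod.smul_fst, Prod.snd_add, Prod.smul_snd, smul_eq_mul]
        ring
      · simp only [Prod.fst_add, Prod.smul_fst, Prod.snd_add, Prod.smul_snd, smul_eq_mul]
        ring
    have h2 := ni_le _ hd0 h1
    rw [map_sub] at h2
    change ‖NI h h' (V E (bas h h' ((i : ℤ) • k + (j : ℤ) • k')) (NN h h' x)) -
      NI h h' (V E1 (bas h h' k) (NN h h' x))‖ < d
    rw [e1]
    exact h2

theorem base_Bnd (hD : Dyn L Fl) (hd : h.1 * h'.2 - h.2 * h'.1 = 1) {E1 c2 r : ℝ}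
    {Z : ℝ × ℝ × ℝ → PP} {T' : ℝ × ℝ × ℝ → ℝ}
    (hB : DF.Bnd (fun t z => I2 h h' (Fl t (N2 h h' z))) (en fun z => L (N2 h h' z))
      (((1 : ℝ), (0 : ℝ)), (0 : R2)) (((0 : ℝ), (1 : ℝ)), (0 : R2)) E1 c2 r Z T') :
    DF.Bnd Fl (en L) (zz h, 0) (zz h', 0) E1 c2 r (fun w => N2 h h' (Z w)) T' := by
  have g1 : ∀ z : PP, N2 h h' (z + (((1 : ℝ), (0 : ℝ)), (0 : R2))) = N2 h h' z + (zz h, 0) := by
    intro z
    have h1 := n2_zz (h := h) (h' := h') z (1, 0)
    have e1 : bas h h' (1, 0) = h := by simp [bas]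
    have e2 : zz (1, 0) = ((1 : ℝ), (0 : ℝ)) := by simp [zz]
    rw [e1, e2] at h1
    exact h1
  have g2 : ∀ z : PP, N2 h h' (z + (((0 : ℝ), (1 : ℝ)), (0 : R2))) = N2 h h' z + (zz h', 0) := by
    intro z
    have h1 := n2_zz (h := h) (h' := h') z (0, 1)
    have e1 : bas h h' (0, 1) = h' := by simp [bas]
    have e2 : zz (0, 1) = ((0 : ℝ), (1 : ℝ)) := by simp [zz]
    rw [e1, e2] at h1
    exact h1
  refine
    { r0 := hB.r0
      c0 := hB.c0
      smooth := ?_
      tc := hB.tc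
      tp := hB.tp
      en := ?_
      per := ?_
      tper := hB.tper
      ret := ?_
      jac := ?_ }
  · exact (NP h h').contDiff.comp_contDiffOn hB.smooth
  · intro w hw
    rw [← en_eq hD]
    exact hB.en w hw
  · intro a θ t hw
    change N2 h h' (Z (a, θ + 1, t)) = N2 h h' (Z (a, θ, t)) + (zz h', 0)
    rw [hB.per a θ t hw, g2]
  · intro a θ t hw
    change Fl (T' (a, θ, t)) (N2 h h' (Z (a, θ, t))) =
      N2 h h' (Z (a, θ + r * (1 + t), t)) + (zz h, 0)
    rw [← g1, ← hB.ret a θ t hw]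
    exact (ni hd _).symm
  · intro w hw
    let e : PP ≃L[ℝ] PP := ContinuousLinearEquiv.equivOfInverse (NP h h') (IP h h')
      (fun z => inn hd z) (fun z => ni hd z)
    have e1 : (fun q : ℝ × ℝ × ℝ × ℝ => Fl q.1 (N2 h h' (Z q.2))) =
        e ∘ fun q : ℝ × ℝ × ℝ × ℝ => I2 h h' (Fl q.1 (N2 h h' (Z q.2))) := by
      funext q
      exact (ni hd _).symm
    have h1 : Function.Bijective (fderiv ℝ (fun q : ℝ × ℝ × ℝ × ℝ =>
      I2 h h' (Fl q.1 (N2 h h' (Z q.2)))) (0, w)) := hB.jac w hw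
    change Function.Bijective (fderiv ℝ (fun q : ℝ × ℝ × ℝ × ℝ =>
      Fl q.1 (N2 h h' (Z q.2))) (0, w))
    rw [e1, e.comp_fderiv]
    exact e.bijective.comp h1

theorem dyn_flw (hD : Dyn L Fl) (hd : h.1 * h'.2 - h.2 * h'.1 = 1) :
    DF.Flw Fl (en L) ((NI h h').comp (ContinuousLinearMap.fst ℝ R2 R2)) (zz h, 0) (zz h', 0) where
  smooth := hD.fsmooth ∞
  zero := hD.zero
  add := hD.add
  tr1 := fun s z => hD.fper s h z
  tr2 := fun s z => hD.fper s h' z
  en := fun s z => hD.en_const s z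
  es := contDiffOn_univ.1 (hD.en_ana.contDiffOn uniqueDiffOn_univ)
  e1 := fun z => hD.en_per h z
  e2 := fun z => hD.en_per h' z
  p1 := by
    have hr := hdR hd
    change NI h h' (zz h) = (1, 0)
    rw [ni_ap]
    ext
    · simp only [zz]
      linear_combination hr
    · simp only [zz]
      ring
  p2 := by
    have hr := hdR hd
    change NI h h' (zz h') = (0, 1)
    rw [ni_ap]
    ext
    · simp only [zz]
      ring
    · simp only [zz]
      linear_combination hr

end Pool.Agent.DB
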