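import Mathlib

/-!
# MP_74f563_an, n = 2 autonomous (D2), file DB/Bra: zeros which branch off from a surface of zeros

PROOF of `branch`.  Norms: `max` norm on products.  Let `y = (t, σ)`, `y₀ = (t₀, l₀)`,
`k (t, σ, u) = fderiv ℝ K (t, σ, u) (0, 0, 1)` (`= ∂_u K`), `M (a, b) = fderiv ℝ k (t₀, l₀, 0) (a, b, 0)`, an
injective linear map `ℝ² → ℝ²` by `h2`, hence an isomorphism.  `K` is `C²` near the point.  Since
`K (y, 0) = 0` for `y` near `y₀`, the partial derivative `D_y K (y, 0) = 0` for `y` near `y₀`.  By the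
symmetry of the second derivatives `∂_u D_y K = D_y k`, which is continuous and equals `M` at
`(y₀, 0)`.  Given `η > 0` there is `ρ > 0` with `‖D_y k (y, u) - M‖ ≤ η` for `‖y - y₀‖ ≤ ρ`, `|u| ≤ ρ`; by
the mean value inequality in `u` (on `[0, u]`),
`‖D_y K (y, u) - u M‖ ≤ η |u|` for these `(y, u)`.  So for `0 < |u| ≤ ρ` the map `f y = u⁻¹ K (y, u)`
satisfies `‖D f (y) - M‖ ≤ η` on the closed ball of radius `ρ` around `y₀` (convex): `f` is approximated by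
`M` with constant `η` (`ApproximatesLinearOn`, mean value inequality
`Convex.norm_image_sub_le_of_norm_hasFDerivWithin_le'`), and for `η < ‖M⁻¹‖⁻¹ / 2` and every `ε ≤ ρ` the
image of the closed ball of radius `ε / 2` around `y₀` contains the closed ball of radius
`‖M⁻¹‖⁻¹ ε / 4` around `f y₀`
(`ApproximatesLinearOn.surjOn_closedBall_of_nonlinearRightInverse`).
Finally `f y₀ = u⁻¹ K (y₀, u) → ∂_u K (y₀, 0) = 0` as `u → 0` (`K (y₀, 0) = 0` and `h1`).  So for small `u ≠ 0`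
there is `y` with `‖y - y₀‖ ≤ ε / 2`, `f y = 0`.  For `u = 0` take `y = y₀`.
-/

set_option autoImplicit false

namespace Pool.Agent.DB

open Set Filter Topology
open scoped ContDiff

/-- the embedding `(a, b) ↦ (a, b, 0)` -/
private def jj : ℝ × ℝ →L[ℝ] ℝ × ℝ × ℝ :=
  (ContinuousLinearMap.fst ℝ ℝ ℝ).prod ((ContinuousLinearMap.snd ℝ ℝ ℝ).prod 0)

theorem branch {K : ℝ × ℝ × ℝ → ℝ × ℝ} {t₀ l₀ : ℝ} (hK : AnalyticAt ℝ K (t₀, l₀, 0))
    (h0 : ∀ᶠ q : ℝ × ℝ in 𝓝 (t₀, l₀), K (q.1, q.2, 0) = 0)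
    (h1 : fderiv ℝ K (t₀, l₀, 0) (0, 0, 1) = 0)
    (h2 : ∀ a b : ℝ, fderiv ℝ (fun q => fderiv ℝ K q (0, 0, 1)) (t₀, l₀, 0) (a, b, 0) = 0 →
      a = 0 ∧ b = 0) {ε : ℝ} (hε : 0 < ε) :
    ∃ δ > (0 : ℝ), ∀ u : ℝ, |u| < δ → ∃ t σ : ℝ, |t - t₀| < ε ∧ |σ - l₀| < ε ∧
      K (t, σ, u) = 0 := by
  let p₀ : ℝ × ℝ × ℝ := (t₀, l₀, 0)
  let y₀ : ℝ × ℝ := (t₀, l₀)
  let k : ℝ × ℝ × ℝ → ℝ × ℝ := fun q => fderiv ℝ K q (0, 0, 1)
  have hkan : AnalyticAt ℝ k p₀ :=
    ((ContinuousLinearMap.apply ℝ (ℝ × ℝ) ((0, 0, 1) : ℝ × ℝ × ℝ)).analyticAt _).comp hK.fderiv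
  have hst : HasStrictFDerivAt k (fderiv ℝ k p₀) p₀ := hkan.hasStrictFDerivAt
  let M : ℝ × ℝ →L[ℝ] ℝ × ℝ := (fderiv ℝ k p₀).comp jj
  have hMi : Function.Injective M := by
    rw [injective_iff_map_eq_zero]
    intro y hy
    obtain ⟨e1, e2⟩ := h2 y.1 y.2 hy
    exact Prod.ext e1 e2
  obtain ⟨Me, hMe⟩ : ∃ Me : (ℝ × ℝ) ≃L[ℝ] (ℝ × ℝ), (Me : ℝ × ℝ →L[ℝ] ℝ × ℝ) = M := by
    have hs : Function.Surjective M :=
      LinearMap.surjective_of_injective (f := (M : ℝ × ℝ →ₗ[ℝ] ℝ × ℝ)) hMi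
    refine ⟨ContinuousLinearEquiv.ofBijective _ (LinearMap.ker_eq_bot.2 hMi)
      (LinearMap.range_eq_top.2 hs), ?_⟩
    exact ContinuousLinearEquiv.coe_ofBijective _ _ _
  -- constants
  let N : NNReal := ‖(Me.symm : ℝ × ℝ →L[ℝ] ℝ × ℝ)‖₊
  have hN : 0 < N := Me.nnnorm_symm_pos
  let η : NNReal := N⁻¹ / 2
  have hη : 0 < η := by positivity
  obtain ⟨s, hs, hap⟩ := hst.approximates_deriv_on_nhds (c := η) (Or.inr hη)
  -- a good ball
  have hev : ∀ᶠ p in 𝓝 p₀, p ∈ s ∧ AnalyticAt ℝ K p := (eventually_mem_set.2 hs).and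
    hK.eventually_analyticAt
  obtain ⟨ρ₁, hρ₁, hb₁⟩ := Metric.eventually_nhds_iff_ball.1 hev
  obtain ⟨ρ₂, hρ₂, hb₂⟩ := Metric.eventually_nhds_iff_ball.1 h0
  let r : ℝ := min (min (ρ₁ / 2) (ρ₂ / 2)) (ε / 2)
  have hr : 0 < r := by positivity
  have hr1 : r < ρ₁ := ((min_le_left _ _).trans (min_le_left _ _)).trans_lt (by linarith)
  have hr2 : r < ρ₂ := ((min_le_left _ _).trans (min_le_right _ _)).trans_lt (by linarith)
  have hr3 : r < ε := (min_le_right _ _).trans_lt (by linarith)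
  have hin : ∀ (y : ℝ × ℝ) (u : ℝ), y ∈ Metric.closedBall y₀ r → |u| ≤ r →
      (y.1, y.2, u) ∈ Metric.ball p₀ ρ₁ := by
    intro y u hy hu
    rw [Metric.mem_closedBall, Prod.dist_eq] at hy
    rw [Metric.mem_ball, Prod.dist_eq, Prod.dist_eq]
    refine (max_le ((le_max_left _ _).trans hy) (max_le ((le_max_right _ _).trans hy) ?_)).trans_lt
      hr1
    change dist u 0 ≤ r
    rw [Real.dist_0_eq_abs]
    exact hu
  -- the mean of `k`
  let f : ℝ → ℝ × ℝ → ℝ × ℝ := fun u y => ∫ x in (0 : ℝ)..1, k (y.1, y.2, x * u)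
  have hxu : ∀ x ∈ Icc (0 : ℝ) 1, ∀ u : ℝ, |u| ≤ r → |x * u| ≤ r := by
    intro x hx u hu
    rw [abs_mul, abs_of_nonneg hx.1]
    calc x * |u| ≤ 1 * |u| := mul_le_mul_of_nonneg_right hx.2 (abs_nonneg _)
      _ ≤ r := by rw [one_mul]; exact hu
  have hkc : ∀ (y : ℝ × ℝ) (u : ℝ), y ∈ Metric.closedBall y₀ r → |u| ≤ r →
      ContinuousOn (fun x : ℝ => k (y.1, y.2, x * u)) (Icc 0 1) := by
    intro y u hy hu x hx
    have h3 := (hb₁ _ (hin y (x * u) hy (hxu x hx u hu))).2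
    have h4 : AnalyticAt ℝ k (y.1, y.2, x * u) :=
      ((ContinuousLinearMap.apply ℝ (ℝ × ℝ) ((0, 0, 1) : ℝ × ℝ × ℝ)).analyticAt _).comp h3.fderiv
    have h5 : ContinuousAt (fun x : ℝ => ((y.1, y.2, x * u) : ℝ × ℝ × ℝ)) x := by fun_prop
    exact (ContinuousAt.comp_of_eq (g := k) (f := fun x : ℝ => ((y.1, y.2, x * u) : ℝ × ℝ × ℝ))
      h4.continuousAt h5 rfl).continuousWithinAt
  have hki : ∀ (y : ℝ × ℝ) (u : ℝ), y ∈ Metric.closedBall y₀ r → |u| ≤ r →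
      IntervalIntegrable (fun x : ℝ => k (y.1, y.2, x * u)) MeasureTheory.volume 0 1 := by
    intro y u hy hu
    have h3 := hkc y u hy hu
    rw [← uIcc_of_le (zero_le_one (α := ℝ))] at h3
    exact h3.intervalIntegrable
  have hKf : ∀ (y : ℝ × ℝ) (u : ℝ), y ∈ Metric.closedBall y₀ r → |u| ≤ r →
      K (y.1, y.2, u) = u • f u y := by
    intro y u hy hu
    have h3 : ∀ x ∈ uIcc (0 : ℝ) 1, HasDerivAt (fun x : ℝ => K (y.1, y.2, x * u))
        (u • k (y.1, y.2, x * u)) x := by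
      intro x hx
      rw [uIcc_of_le zero_le_one] at hx
      have h4 := (hb₁ _ (hin y (x * u) hy (hxu x hx u hu))).2.differentiableAt.hasFDerivAt
      have h5 : HasDerivAt (fun x : ℝ => ((y.1, y.2, x * u) : ℝ × ℝ × ℝ)) (0, 0, u) x := by
        have h6 : HasDerivAt (fun x : ℝ => x * u) u x := by
          have := (hasDerivAt_id x).mul_const u
          rwa [one_mul] at this
        exact (hasDerivAt_const x y.1).prodMk ((hasDerivAt_const x y.2).prodMk h6)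
      have h6 := h4.comp_hasDerivAt x h5
      have e : ((0, 0, u) : ℝ × ℝ × ℝ) = u • (0, 0, 1) := by
        ext <;> simp
      rw [e, map_smul] at h6
      exact h6
    have h4 := intervalIntegral.integral_eq_sub_of_hasDerivAt h3 ((hki y u hy hu).smul u)
    rw [intervalIntegral.integral_smul, one_mul, zero_mul] at h4
    have h5 : K (y.1, y.2, 0) = 0 := by
      refine hb₂ y ?_
      exact (Metric.mem_closedBall.1 hy).trans_lt hr2
    rw [h5, sub_zero] at h4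
    exact h4.symm
  have hfa : ∀ u : ℝ, |u| ≤ r → ApproximatesLinearOn (f u) (Me : ℝ × ℝ →L[ℝ] ℝ × ℝ)
      (Metric.closedBall y₀ r) η := by
    intro u hu y hy y' hy'
    have h3 : f u y - f u y' - (Me : ℝ × ℝ →L[ℝ] ℝ × ℝ) (y - y') = ∫ x in (0 : ℝ)..1,
        (k (y.1, y.2, x * u) - k (y'.1, y'.2, x * u) - M (y - y')) := by
      rw [intervalIntegral.integral_sub ((hki y u hy hu).sub (hki y' u hy' hu))
        intervalIntegrable_const, intervalIntegral.integral_sub (hki y u hy hu)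
        (hki y' u hy' hu), intervalIntegral.integral_const, sub_zero, one_smul, hMe]
    rw [h3]
    have h4 := intervalIntegral.norm_integral_le_of_norm_le_const (a := (0 : ℝ)) (b := 1)
      (C := η * ‖y - y'‖)
      (f := fun x => k (y.1, y.2, x * u) - k (y'.1, y'.2, x * u) - M (y - y')) ?_
    · rw [sub_zero, abs_one, mul_one] at h4
      exact h4
    · intro x hx
      rw [uIoc_of_le zero_le_one] at hx
      have hx' : x ∈ Icc (0 : ℝ) 1 := ⟨hx.1.le, hx.2⟩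
      have m1 := (hb₁ _ (hin y (x * u) hy (hxu x hx' u hu))).1
      have m2 := (hb₁ _ (hin y' (x * u) hy' (hxu x hx' u hu))).1
      have h5 := hap _ m1 _ m2
      have e : ((y.1, y.2, x * u) : ℝ × ℝ × ℝ) - (y'.1, y'.2, x * u) = jj (y - y') := by
        refine Prod.ext rfl (Prod.ext rfl ?_)
        change x * u - x * u = 0
        rw [sub_self]
      rw [e] at h5
      have e2 : ‖jj (y - y')‖ = ‖y - y'‖ := by
        change max ‖(y - y').1‖ (max ‖(y - y').2‖ ‖(0 : ℝ)‖) = max ‖(y - y').1‖ ‖(y - y').2‖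
        rw [norm_zero, max_eq_left (norm_nonneg (y - y').2)]
      rw [e2] at h5
      exact h5
  -- `f u y₀ → 0`
  have hk0 : k p₀ = 0 := h1
  have hcr : 0 < ((N : ℝ)⁻¹ - η) * r := by
    have h3 : (0 : ℝ) < (N : ℝ)⁻¹ := by positivity
    have h4 : (η : ℝ) = (N : ℝ)⁻¹ / 2 := by
      change ((N⁻¹ / 2 : NNReal) : ℝ) = _
      push_cast
      rfl
    rw [h4]
    have : (N : ℝ)⁻¹ - (N : ℝ)⁻¹ / 2 = (N : ℝ)⁻¹ / 2 := by ring
    rw [this]
    positivity
  obtain ⟨ρ₃, hρ₃, hb₃⟩ := Metric.continuousAt_iff.1 hkan.continuousAt _ hcr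
  refine ⟨min r ρ₃, by positivity, fun u hu => ?_⟩
  have hur : |u| ≤ r := (hu.trans_le (min_le_left _ _)).le
  have hu3 : |u| < ρ₃ := hu.trans_le (min_le_right _ _)
  have hy₀ : y₀ ∈ Metric.closedBall y₀ r := Metric.mem_closedBall_self hr.le
  have hf0 : ‖f u y₀‖ ≤ ((N : ℝ)⁻¹ - η) * r := by
    have h4 := intervalIntegral.norm_integral_le_of_norm_le_const (a := (0 : ℝ)) (b := 1)
      (C := ((N : ℝ)⁻¹ - η) * r) (f := fun x => k (y₀.1, y₀.2, x * u)) ?_
    · rw [sub_zero, abs_one, mul_one] at h4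
      exact h4
    · intro x hx
      rw [uIoc_of_le zero_le_one] at hx
      have h5 : dist ((y₀.1, y₀.2, x * u) : ℝ × ℝ × ℝ) p₀ < ρ₃ := by
        rw [Prod.dist_eq, Prod.dist_eq]
        change max (dist t₀ t₀) (max (dist l₀ l₀) (dist (x * u) 0)) < ρ₃
        rw [dist_self, dist_self, Real.dist_0_eq_abs, max_eq_right (abs_nonneg (x * u)),
          max_eq_right (abs_nonneg (x * u)), abs_mul, abs_of_nonneg hx.1.le]
        calc x * |u| ≤ 1 * |u| := mul_le_mul_of_nonneg_right hx.2 (abs_nonneg _)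
          _ < ρ₃ := by rw [one_mul]; exact hu3
      have h6 := hb₃ h5
      rw [hk0, dist_zero_right] at h6
      exact h6.le
  have hsurj := (hfa u hur).surjOn_closedBall_of_nonlinearRightInverse
    Me.toNonlinearRightInverse hr.le subset_rfl
  have hmem : (0 : ℝ × ℝ) ∈ Metric.closedBall (f u y₀)
      (((Me.toNonlinearRightInverse.nnnorm : ℝ)⁻¹ - η) * r) := by
    rw [Metric.mem_closedBall, dist_comm, dist_zero_right]
    exact hf0
  obtain ⟨y, hy, hfy⟩ := hsurj hmem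
  refine ⟨y.1, y.2, ?_, ?_, ?_⟩
  · rw [Metric.mem_closedBall, Prod.dist_eq] at hy
    have h3 := ((le_max_left _ _).trans hy).trans_lt hr3
    rwa [Real.dist_eq] at h3
  · rw [Metric.mem_closedBall, Prod.dist_eq] at hy
    have h3 := ((le_max_right _ _).trans hy).trans_lt hr3
    rwa [Real.dist_eq] at h3
  · rw [hKf y u hy hur, hfy, smul_zero]

end Pool.Agent.DB
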