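import Mathlib

/-!
# MP_74f563_an, n = 2 autonomous (D2), file DB/Exa: local holomorphic extension of a real-analytic
function of three variables

PROOF.  As Pool/Agent/NOne/BExa.lean (two variables), with `ℝ × ℝ × ℝ` and `ℂ × ℂ × ℂ`.  Let `p` be the power
series at `(a, b, c)`.  Let `e₀ = (1, 0, 0)`, `e₁ = (0, 1, 0)`, `e₂ = (0, 0, 1)`; for `j : Fin n → Fin 3` put
`e_j i = e_{j i}`.  Define the continuous `ℂ`-multilinear maps
`P n (v₁, ..., v_n) = ∑_{j : Fin n → Fin 3} p n (e_j) ∏_i π_{j i} (v_i)` (`π₀, π₁, π₂` the projections of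
`ℂ × ℂ × ℂ`; `ContinuousMultilinearMap.mkPiAlgebra` composed with the projections), `‖P n‖ ≤ 3^n ‖p n‖`.
So the formal series `P` over `ℂ` has a positive radius, its sum is complex differentiable on a ball,
and `P n (v, ..., v) = p n (v, ..., v)` for real `v` (multilinearity: `v = v.1 e₀ + v.2.1 e₁ + v.2.2 e₂`,
`MultilinearMap.map_sum`).
(Alternative: with `T ⊆ Fin n` as in BExa, first for the pair `(ℝ, ℝ × ℝ)`; or any other proof.)
-/

set_option autoImplicit false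

namespace Pool.Agent.DB

open Set
open scoped ENNReal NNReal

/-- the real basis vectors -/
private def exa_e : Fin 3 → ℝ × ℝ × ℝ := ![(1, 0, 0), (0, 1, 0), (0, 0, 1)]

/-- the complex coordinate projections -/
private noncomputable def exa_p : Fin 3 → (ℂ × ℂ × ℂ →L[ℂ] ℂ) :=
  ![ContinuousLinearMap.fst ℂ ℂ (ℂ × ℂ),
    (ContinuousLinearMap.fst ℂ ℂ ℂ).comp (ContinuousLinearMap.snd ℂ ℂ (ℂ × ℂ)),
    (ContinuousLinearMap.snd ℂ ℂ ℂ).comp (ContinuousLinearMap.snd ℂ ℂ (ℂ × ℂ))]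

private theorem exa_e_norm (k : Fin 3) : ‖exa_e k‖ ≤ 1 := by
  fin_cases k
  · show ‖((1 : ℝ), (0 : ℝ), (0 : ℝ))‖ ≤ 1
    simp [Prod.norm_mk]
  · show ‖((0 : ℝ), (1 : ℝ), (0 : ℝ))‖ ≤ 1
    simp [Prod.norm_mk]
  · show ‖((0 : ℝ), (0 : ℝ), (1 : ℝ))‖ ≤ 1
    simp [Prod.norm_mk]

private theorem exa_p_norm (k : Fin 3) (v : ℂ × ℂ × ℂ) : ‖exa_p k v‖ ≤ ‖v‖ := by
  fin_cases k
  · exact norm_fst_le v
  · exact (norm_fst_le v.2).trans (norm_snd_le v)
  · exact (norm_snd_le v.2).trans (norm_snd_le v)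

private theorem exa_p_real (k : Fin 3) (x y z : ℝ) :
    exa_p k ((x : ℂ), (y : ℂ), (z : ℂ)) = ((![x, y, z] k : ℝ) : ℂ) := by
  fin_cases k <;> rfl

private theorem exa_sum (x y z : ℝ) : (x, y, z) = ∑ k : Fin 3, ![x, y, z] k • exa_e k := by
  rw [Fin.sum_univ_three]
  show (x, y, z) = x • ((1 : ℝ), (0 : ℝ), (0 : ℝ)) + y • ((0 : ℝ), (1 : ℝ), (0 : ℝ)) +
    z • ((0 : ℝ), (0 : ℝ), (1 : ℝ))
  simp

/-- the complexification of a power series in three real variables -/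
private noncomputable def exa_cx (p : FormalMultilinearSeries ℝ (ℝ × ℝ × ℝ) ℝ) :
    FormalMultilinearSeries ℂ (ℂ × ℂ × ℂ) ℂ := fun n =>
  ∑ j : Fin n → Fin 3, ((p n (fun i => exa_e (j i)) : ℝ) : ℂ) •
    (ContinuousMultilinearMap.mkPiAlgebra ℂ (Fin n) ℂ).compContinuousLinearMap
      (fun i => exa_p (j i))

private theorem exa_apply (p : FormalMultilinearSeries ℝ (ℝ × ℝ × ℝ) ℝ) (n : ℕ)
    (v : Fin n → ℂ × ℂ × ℂ) : exa_cx p n v =
      ∑ j : Fin n → Fin 3, ((p n (fun i => exa_e (j i)) : ℝ) : ℂ) *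
        ∏ i, exa_p (j i) (v i) := by
  unfold exa_cx
  rw [ContinuousMultilinearMap.sum_apply]
  refine Finset.sum_congr rfl fun j _ => ?_
  rw [ContinuousMultilinearMap.smul_apply, smul_eq_mul,
    ContinuousMultilinearMap.compContinuousLinearMap_apply,
    ContinuousMultilinearMap.mkPiAlgebra_apply]

private theorem exa_norm (p : FormalMultilinearSeries ℝ (ℝ × ℝ × ℝ) ℝ) (n : ℕ) :
    ‖exa_cx p n‖ ≤ 3 ^ n * ‖p n‖ := by
  refine ContinuousMultilinearMap.opNorm_le_bound (by positivity) fun v => ?_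
  rw [exa_apply]
  have h1 : ∀ j : Fin n → Fin 3, ‖((p n (fun i => exa_e (j i)) : ℝ) : ℂ) *
        ∏ i, exa_p (j i) (v i)‖ ≤ ‖p n‖ * ∏ i, ‖v i‖ := by
    intro j
    rw [norm_mul, Complex.norm_real, norm_prod]
    refine mul_le_mul ?_ ?_ (by positivity) (norm_nonneg _)
    · refine ((p n).le_opNorm _).trans ?_
      refine mul_le_of_le_one_right (norm_nonneg _) ?_
      exact Finset.prod_le_one (fun i _ => norm_nonneg _) fun i _ => exa_e_norm _
    · exact Finset.prod_le_prod (fun i _ => norm_nonneg _) fun i _ => exa_p_norm _ _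
  calc ‖∑ j : Fin n → Fin 3, ((p n (fun i => exa_e (j i)) : ℝ) : ℂ) *
        ∏ i, exa_p (j i) (v i)‖
      ≤ ∑ _j : Fin n → Fin 3, ‖p n‖ * ∏ i, ‖v i‖ :=
        (norm_sum_le _ _).trans (Finset.sum_le_sum fun j _ => h1 j)
    _ = 3 ^ n * ‖p n‖ * ∏ i, ‖v i‖ := by
        rw [Finset.sum_const, Finset.card_univ, Fintype.card_fun, Fintype.card_fin,
          Fintype.card_fin, nsmul_eq_mul]
        push_cast
        ring

private theorem exa_real (p : FormalMultilinearSeries ℝ (ℝ × ℝ × ℝ) ℝ) (n : ℕ)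
    (x y z : ℝ) : exa_cx p n (fun _ => ((x : ℂ), (y : ℂ), (z : ℂ))) =
      ((p n fun _ => (x, y, z) : ℝ) : ℂ) := by
  rw [exa_apply]
  have h1 : (p n fun _ => (x, y, z)) =
      p n fun _ : Fin n => ∑ k : Fin 3, ![x, y, z] k • exa_e k := by
    congr 1
    funext i
    exact exa_sum x y z
  rw [h1, ContinuousMultilinearMap.map_sum]
  push_cast
  refine Finset.sum_congr rfl fun j _ => ?_
  rw [ContinuousMultilinearMap.map_smul_univ, smul_eq_mul]
  push_cast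
  rw [mul_comm]
  congr 1
  exact Finset.prod_congr rfl fun i _ => exa_p_real _ _ _ _

theorem local_ext3 {G : ℝ → ℝ → ℝ → ℝ} {a b c : ℝ}
    (hG : AnalyticAt ℝ (fun z : ℝ × ℝ × ℝ => G z.1 z.2.1 z.2.2) (a, b, c)) :
    ∃ s > (0 : ℝ), ∃ H : ℂ → ℂ → ℂ → ℂ,
      DifferentiableOn ℂ (fun q : ℂ × ℂ × ℂ => H q.1 q.2.1 q.2.2)
        {q | ‖q.1 - a‖ < s ∧ ‖q.2.1 - b‖ < s ∧ ‖q.2.2 - c‖ < s} ∧
      ∀ x y z : ℝ, |x - a| < s → |y - b| < s → |z - c| < s → H x y z = ((G x y z : ℝ) : ℂ) := by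
  obtain ⟨p, r, hp⟩ := hG
  obtain ⟨r', hr'0, hr'⟩ := ENNReal.lt_iff_exists_nnreal_btwn.1 (hp.r_pos)
  have hr'0' : 0 < r' := by exact_mod_cast hr'0
  have hr'p : (r' : ℝ≥0∞) < p.radius := hr'.trans_le hp.r_le
  obtain ⟨C, -, hC⟩ := p.norm_mul_pow_le_of_lt_radius hr'p
  have hrad : ((r' / 3 : ℝ≥0) : ℝ≥0∞) ≤ (exa_cx p).radius := by
    refine (exa_cx p).le_radius_of_bound C fun n => ?_
    refine le_trans ?_ (hC n)
    have h1 := exa_norm p n
    have h2 : ((r' / 3 : ℝ≥0) : ℝ) ^ n = (r' : ℝ) ^ n / 3 ^ n := by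
      push_cast
      rw [div_pow]
    rw [h2]
    calc ‖exa_cx p n‖ * ((r' : ℝ) ^ n / 3 ^ n)
        ≤ 3 ^ n * ‖p n‖ * ((r' : ℝ) ^ n / 3 ^ n) :=
          mul_le_mul_of_nonneg_right h1 (by positivity)
      _ = ‖p n‖ * (r' : ℝ) ^ n := by
          field_simp
  have hr2 : 0 < r' / 3 := by positivity
  have hpos : 0 < (exa_cx p).radius :=
    lt_of_lt_of_le (by exact_mod_cast hr2) hrad
  have hP := (exa_cx p).hasFPowerSeriesOnBall hpos
  refine ⟨((r' / 3 : ℝ≥0) : ℝ), by exact_mod_cast hr2,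
    fun x y z => (exa_cx p).sum (x - a, y - b, z - c), ?_, ?_⟩
  · have h1 := hP.differentiableOn
    have h2 : DifferentiableOn ℂ
        (fun q : ℂ × ℂ × ℂ => (q.1 - (a : ℂ), q.2.1 - (b : ℂ), q.2.2 - (c : ℂ)))
        {q | ‖q.1 - a‖ < ((r' / 3 : ℝ≥0) : ℝ) ∧ ‖q.2.1 - b‖ < ((r' / 3 : ℝ≥0) : ℝ) ∧
          ‖q.2.2 - c‖ < ((r' / 3 : ℝ≥0) : ℝ)} := by
      apply Differentiable.differentiableOn
      fun_prop
    refine h1.comp h2 ?_
    intro q hq
    rw [Metric.mem_eball, edist_zero_right]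
    refine lt_of_lt_of_le ?_ hrad
    rw [enorm_eq_nnnorm]
    have h3 : ‖(q.1 - (a : ℂ), q.2.1 - (b : ℂ), q.2.2 - (c : ℂ))‖ <
        ((r' / 3 : ℝ≥0) : ℝ) := by
      rw [Prod.norm_mk, Prod.norm_mk]
      exact max_lt hq.1 (max_lt hq.2.1 hq.2.2)
    exact_mod_cast h3
  · intro x y z hx hy hz
    have h1 : (((x - a : ℝ) : ℂ), ((y - b : ℝ) : ℂ), ((z - c : ℝ) : ℂ)) ∈
        Metric.eball (0 : ℂ × ℂ × ℂ) (exa_cx p).radius := by
      rw [Metric.mem_eball, edist_zero_right]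
      refine lt_of_lt_of_le ?_ hrad
      rw [enorm_eq_nnnorm]
      have h3 : ‖(((x - a : ℝ) : ℂ), ((y - b : ℝ) : ℂ), ((z - c : ℝ) : ℂ))‖ <
          ((r' / 3 : ℝ≥0) : ℝ) := by
        rw [Prod.norm_mk, Prod.norm_mk, Complex.norm_real, Complex.norm_real,
          Complex.norm_real]
        exact max_lt hx (max_lt hy hz)
      exact_mod_cast h3
    have h2 : (x - a, y - b, z - c) ∈ Metric.eball (0 : ℝ × ℝ × ℝ) r := by
      rw [Metric.mem_eball, edist_zero_right]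
      refine lt_trans ?_ hr'
      rw [enorm_eq_nnnorm]
      have h3 : ‖(x - a, y - b, z - c)‖ < (r' : ℝ) := by
        rw [Prod.norm_mk, Prod.norm_mk]
        have h4 : ((r' / 3 : ℝ≥0) : ℝ) ≤ r' := by
          push_cast
          linarith [r'.2]
        exact max_lt (lt_of_lt_of_le hx h4)
          (max_lt (lt_of_lt_of_le hy h4) (lt_of_lt_of_le hz h4))
      exact_mod_cast h3
    have h3 := hP.hasSum h1
    have h4 := hp.hasSum h2
    have h5 : HasSum (fun n : ℕ => ((p n fun _ => (x - a, y - b, z - c) : ℝ) : ℂ))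
        ((G x y z : ℝ) : ℂ) := by
      have h6 := (Complex.hasSum_ofReal
        (f := fun n : ℕ => p n fun _ => (x - a, y - b, z - c))).2 h4
      simpa using h6
    rw [zero_add] at h3
    have h6 : (fun n : ℕ => exa_cx p n fun _ =>
        (((x - a : ℝ) : ℂ), ((y - b : ℝ) : ℂ), ((z - c : ℝ) : ℂ))) =
        fun n : ℕ => ((p n fun _ => (x - a, y - b, z - c) : ℝ) : ℂ) := by
      funext n
      exact exa_real p n (x - a) (y - b) (z - c)
    rw [h6] at h3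
    have h7 := h3.unique h5
    have h8 : (((x : ℂ) - a), ((y : ℂ) - b), ((z : ℂ) - c)) =
        (((x - a : ℝ) : ℂ), ((y - b : ℝ) : ℂ), ((z - c : ℝ) : ℂ)) := by
      push_cast
      rfl
    change (exa_cx p).sum (((x : ℂ) - a), ((y : ℂ) - b), ((z : ℂ) - c)) = _
    rw [h8]
    exact h7

end Pool.Agent.DB
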