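import Pool.Agent.DB.Exa

/-!
# MP_74f563_an, n = 2 autonomous (D2), file DB/Exb: holomorphic extension to a strip, with the energy
as a parameter

PROOF of `strip_ext3`.  As Pool/Agent/NOne/BExb.lean, with the additional variable `E` in a disc around
`E1` (it plays the same role as `w`).
(1) Uniqueness: if `D (E, x, w)` is holomorphic on `U₀ × U₁ × U₂`, where each `U_i` is open, connected and
symmetric (a disc with real centre, or the intersection of two discs with real centres), and `D = 0`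
at the real points, then `D = 0` (one variable after the other:
`AnalyticOnNhd.eqOn_zero_of_preconnected_of_frequently_eq_zero`; the real points of `U_i`
accumulate).
(2) `local_ext3` (file DB/Exa) at all points `(E1, a, 0)`, `a ∈ [0, 1]`; compactness: there are `s > 0`
(`s < c`) and `M` such that for every `a ∈ [0, 1]` there is a holomorphic extension `H_a` on
`{‖E - E1‖ < s, ‖x - a‖ < s, ‖w‖ < s}`, bounded by `M`; for the other real `a` by translation (`hper`).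
(3) `H E x w = H_{Re x} E x w` if `‖E - E1‖ < s / 2`, `|Im x| < s / 2`, `‖w‖ < s / 2`, and `0` otherwise;
near a point `(E₀, x₀, w₀)` it equals `H_{Re x₀}` by (1).  Bound `M`.  Periodicity and reality by (1) on
the domain, and trivially outside (the domain is invariant under `x ↦ x + 1` and under complex
conjugation).
The statement has the domain with radius `s` (rename `s / 2`).
-/

set_option autoImplicit false

namespace Pool.Agent.DB

open Set Complex Metric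
open scoped ComplexConjugate Topology

/-- zeros at the real points accumulate -/
private theorem exb_freq {f : ℂ → ℂ} {x₀ : ℝ} (h : ∀ᶠ x : ℝ in 𝓝 x₀, f x = 0) :
    ∃ᶠ z in 𝓝[≠] (x₀ : ℂ), f z = 0 := by
  have h1 : Filter.Tendsto (fun x : ℝ => (x : ℂ)) (𝓝[≠] x₀) (𝓝[≠] (x₀ : ℂ)) := by
    refine tendsto_nhdsWithin_of_tendsto_nhds_of_eventually_within _
      (Complex.continuous_ofReal.continuousAt.tendsto.mono_left nhdsWithin_le_nhds) ?_
    filter_upwards [self_mem_nhdsWithin] with x hx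
    intro h2
    exact hx (Complex.ofReal_injective h2)
  exact h1.frequently (h.filter_mono nhdsWithin_le_nhds).frequently

private theorem exb_norm {x a : ℝ} : ‖(x : ℂ) - a‖ = |x - a| := by
  rw [← Complex.ofReal_sub, Complex.norm_real, Real.norm_eq_abs]

/-- one variable on a disc with real centre -/
private theorem exb_one {f : ℂ → ℂ} {a s : ℝ} (hf : DifferentiableOn ℂ f (ball (a : ℂ) s))
    (h0 : ∀ x : ℝ, |x - a| < s → f x = 0) {z : ℂ} (hz : ‖z - a‖ < s) : f z = 0 := by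
  have hs : 0 < s := (norm_nonneg _).trans_lt hz
  have h4 : AnalyticOnNhd ℂ f (ball (a : ℂ) s) := hf.analyticOnNhd isOpen_ball
  refine h4.eqOn_zero_of_preconnected_of_frequently_eq_zero
    (convex_ball (a : ℂ) s).isPreconnected (mem_ball_self hs) (exb_freq ?_)
    (by rwa [mem_ball, dist_eq_norm])
  filter_upwards [ball_mem_nhds a hs] with y hy
  exact h0 y (by rwa [mem_ball, Real.dist_eq] at hy)

/-- uniqueness, for separately holomorphic functions -/
private theorem exb_sep {D : ℂ → ℂ → ℂ → ℂ} {U : Set ℂ} (hU : IsOpen U) (hUc : IsPreconnected U)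
    {E1 x₀ s : ℝ} (hx₀ : (x₀ : ℂ) ∈ U)
    (h1 : ∀ E w : ℝ, |E - E1| < s → |w| < s → DifferentiableOn ℂ (fun x => D E x w) U)
    (h2 : ∀ E : ℝ, |E - E1| < s → ∀ x ∈ U,
      DifferentiableOn ℂ (fun w => D E x w) (ball ((0 : ℝ) : ℂ) s))
    (h3 : ∀ x ∈ U, ∀ w : ℂ, ‖w‖ < s →
      DifferentiableOn ℂ (fun E => D E x w) (ball (E1 : ℂ) s))
    (h0 : ∀ E x w : ℝ, |E - E1| < s → (x : ℂ) ∈ U → |w| < s → D E x w = 0) :
    ∀ E : ℂ, ‖E - E1‖ < s → ∀ x ∈ U, ∀ w : ℂ, ‖w‖ < s → D E x w = 0 := by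
  intro E hE x hx w hw
  have h4 : ∀ E w : ℝ, |E - E1| < s → |w| < s → ∀ x ∈ U, D E x w = 0 := by
    intro E w hE hw x hx
    have h5 : AnalyticOnNhd ℂ (fun x => D E x w) U := (h1 E w hE hw).analyticOnNhd hU
    refine h5.eqOn_zero_of_preconnected_of_frequently_eq_zero hUc hx₀ (exb_freq ?_) hx
    have h6 : ∀ᶠ x : ℝ in 𝓝 x₀, (x : ℂ) ∈ U :=
      Complex.continuous_ofReal.continuousAt.eventually (hU.mem_nhds hx₀)
    filter_upwards [h6] with y hy
    exact h0 E y w hE hy hw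
  have h5 : ∀ E : ℝ, |E - E1| < s → D E x w = 0 := by
    intro E hE
    refine exb_one (f := fun w => D E x w) (a := 0) (s := s) (h2 E hE x hx) (fun v hv => ?_) ?_
    · rw [sub_zero] at hv
      exact h4 E v hE hv x hx
    · rw [Complex.ofReal_zero, sub_zero]
      exact hw
  exact exb_one (f := fun E => D E x w) (h3 x hx w hw) h5 hE

private theorem exb_s1 {H : ℂ → ℂ → ℂ → ℂ} {S : Set (ℂ × ℂ × ℂ)}
    (hH : DifferentiableOn ℂ (fun q : ℂ × ℂ × ℂ => H q.1 q.2.1 q.2.2) S) {V : Set ℂ} {x w : ℂ}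
    (hV : ∀ E ∈ V, (E, x, w) ∈ S) : DifferentiableOn ℂ (fun E => H E x w) V :=
  hH.comp (f := fun E : ℂ => (E, x, w)) (by fun_prop) hV

private theorem exb_s2 {H : ℂ → ℂ → ℂ → ℂ} {S : Set (ℂ × ℂ × ℂ)}
    (hH : DifferentiableOn ℂ (fun q : ℂ × ℂ × ℂ => H q.1 q.2.1 q.2.2) S) {V : Set ℂ} {E w : ℂ}
    (hV : ∀ x ∈ V, (E, x, w) ∈ S) : DifferentiableOn ℂ (fun x => H E x w) V :=
  hH.comp (f := fun x : ℂ => (E, x, w)) (by fun_prop) hV

private theorem exb_s3 {H : ℂ → ℂ → ℂ → ℂ} {S : Set (ℂ × ℂ × ℂ)}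
    (hH : DifferentiableOn ℂ (fun q : ℂ × ℂ × ℂ => H q.1 q.2.1 q.2.2) S) {V : Set ℂ} {E x : ℂ}
    (hV : ∀ w ∈ V, (E, x, w) ∈ S) : DifferentiableOn ℂ (fun w => H E x w) V :=
  hH.comp (f := fun w : ℂ => (E, x, w)) (by fun_prop) hV

private theorem exb_re {x : ℂ} {a s : ℝ} (h : ‖x - a‖ < s) : |x.re - a| < s := by
  have h1 := Complex.abs_re_le_norm (x - a)
  rw [Complex.sub_re, Complex.ofReal_re] at h1
  exact h1.trans_lt h

/-- the domain of the local extensions -/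
private def exb_S (E1 a s : ℝ) : Set (ℂ × ℂ × ℂ) :=
  {q | ‖q.1 - E1‖ < s ∧ ‖q.2.1 - a‖ < s ∧ ‖q.2.2‖ < s}

private theorem exb_unique {H H' : ℂ → ℂ → ℂ → ℂ} {E1 a a' s : ℝ}
    (hH : DifferentiableOn ℂ (fun q : ℂ × ℂ × ℂ => H q.1 q.2.1 q.2.2) (exb_S E1 a s))
    (hH' : DifferentiableOn ℂ (fun q : ℂ × ℂ × ℂ => H' q.1 q.2.1 q.2.2) (exb_S E1 a' s))
    (h : ∀ E x w : ℝ, |E - E1| < s → |x - a| < s → |x - a'| < s → |w| < s →
      H E x w = H' E x w) {E x w : ℂ}
    (hE : ‖E - E1‖ < s) (hx : ‖x - a‖ < s) (hx' : ‖x - a'‖ < s) (hw : ‖w‖ < s) :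
    H E x w = H' E x w := by
  have hUo : IsOpen (ball (a : ℂ) s ∩ ball (a' : ℂ) s) := isOpen_ball.inter isOpen_ball
  have hUc : IsPreconnected (ball (a : ℂ) s ∩ ball (a' : ℂ) s) :=
    ((convex_ball _ _).inter (convex_ball _ _)).isPreconnected
  have hx₀ : ((x.re : ℝ) : ℂ) ∈ ball (a : ℂ) s ∩ ball (a' : ℂ) s := by
    refine ⟨?_, ?_⟩
    · rw [mem_ball, dist_eq_norm, exb_norm]
      exact exb_re hx
    · rw [mem_ball, dist_eq_norm, exb_norm]
      exact exb_re hx'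
  have hb1 : ∀ y ∈ ball (a : ℂ) s ∩ ball (a' : ℂ) s, ‖y - a‖ < s := fun y hy => by
    simpa [dist_eq_norm] using hy.1
  have hb2 : ∀ y ∈ ball (a : ℂ) s ∩ ball (a' : ℂ) s, ‖y - a'‖ < s := fun y hy => by
    simpa [dist_eq_norm] using hy.2
  have hrE : ∀ E : ℝ, |E - E1| < s → ‖(E : ℂ) - E1‖ < s := fun E hE => by rwa [exb_norm]
  have hrw : ∀ w : ℝ, |w| < s → ‖(w : ℂ)‖ < s := fun w hw => by
    rwa [Complex.norm_real, Real.norm_eq_abs]
  have hbE : ∀ E ∈ ball (E1 : ℂ) s, ‖E - E1‖ < s := fun E hE => by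
    rwa [mem_ball, dist_eq_norm] at hE
  have hbw : ∀ w ∈ ball ((0 : ℝ) : ℂ) s, ‖w‖ < s := fun w hw => by
    rwa [Complex.ofReal_zero, mem_ball, dist_zero_right] at hw
  have key := exb_sep (D := fun E x w => H E x w - H' E x w) hUo hUc (E1 := E1) (s := s) hx₀
    (fun E w hE hw => (exb_s2 hH fun y hy => ⟨hrE E hE, hb1 y hy, hrw w hw⟩).sub
      (exb_s2 hH' fun y hy => ⟨hrE E hE, hb2 y hy, hrw w hw⟩))
    (fun E hE y hy => (exb_s3 hH fun v hv => ⟨hrE E hE, hb1 y hy, hbw v hv⟩).sub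
      (exb_s3 hH' fun v hv => ⟨hrE E hE, hb2 y hy, hbw v hv⟩))
    (fun y hy v hv => (exb_s1 hH fun E hE => ⟨hbE E hE, hb1 y hy, hv⟩).sub
      (exb_s1 hH' fun E hE => ⟨hbE E hE, hb2 y hy, hv⟩))
    (fun E y v hE hy hv => by
      have e1 := hb1 _ hy
      have e2 := hb2 _ hy
      rw [exb_norm] at e1 e2
      exact sub_eq_zero.2 (h E y v hE e1 e2 hv))
    E hE x ⟨by simpa [dist_eq_norm] using hx, by simpa [dist_eq_norm] using hx'⟩ w hw
  exact sub_eq_zero.1 key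

/-- there is an extension near `a` with radius `s` and bound `M` -/
private def exb_EX (G : ℝ → ℝ → ℝ → ℝ) (E1 s M a : ℝ) : Prop :=
  ∃ H : ℂ → ℂ → ℂ → ℂ,
      DifferentiableOn ℂ (fun q : ℂ × ℂ × ℂ => H q.1 q.2.1 q.2.2) (exb_S E1 a s) ∧
      (∀ E x w : ℂ, ‖E - E1‖ < s → ‖x - a‖ < s → ‖w‖ < s → ‖H E x w‖ ≤ M) ∧
      ∀ E x w : ℝ, |E - E1| < s → |x - a| < s → |w| < s → H E x w = ((G E x w : ℝ) : ℂ)

private theorem exb_mono {G : ℝ → ℝ → ℝ → ℝ} {E1 s s' M M' a : ℝ} (h : exb_EX G E1 s M a)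
    (hs : s' ≤ s) (hM : M ≤ M') : exb_EX G E1 s' M' a := by
  obtain ⟨H, h1, h2, h3⟩ := h
  refine ⟨H, h1.mono fun q hq => ⟨hq.1.trans_le hs, hq.2.1.trans_le hs, hq.2.2.trans_le hs⟩,
    fun E x w hE hx hw => (h2 E x w (hE.trans_le hs) (hx.trans_le hs) (hw.trans_le hs)).trans hM,
    fun E x w hE hx hw => h3 E x w (hE.trans_le hs) (hx.trans_le hs) (hw.trans_le hs)⟩

private theorem exb_local {G : ℝ → ℝ → ℝ → ℝ} {E1 : ℝ}
    (hG : ∀ x : ℝ, AnalyticAt ℝ (fun q : ℝ × ℝ × ℝ => G q.1 q.2.1 q.2.2) (E1, x, 0)) (a : ℝ) :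
    ∃ s > (0 : ℝ), ∃ M : ℝ, ∀ x : ℝ, |x - a| < s → exb_EX G E1 s M x := by
  obtain ⟨r, hr, H, h1, h2⟩ := local_ext3 (hG a)
  simp only [Complex.ofReal_zero, sub_zero] at h1 h2
  have hcomp : IsCompact (closedBall (E1 : ℂ) (r / 2) ×ˢ
      (closedBall (a : ℂ) (r / 2) ×ˢ closedBall (0 : ℂ) (r / 2))) :=
    (isCompact_closedBall _ _).prod ((isCompact_closedBall _ _).prod (isCompact_closedBall _ _))
  have hsub : (closedBall (E1 : ℂ) (r / 2) ×ˢ
      (closedBall (a : ℂ) (r / 2) ×ˢ closedBall (0 : ℂ) (r / 2))) ⊆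
      {q : ℂ × ℂ × ℂ | ‖q.1 - E1‖ < r ∧ ‖q.2.1 - a‖ < r ∧ ‖q.2.2‖ < r} := by
    rintro q ⟨hq0, hq1, hq2⟩
    rw [mem_closedBall, dist_eq_norm] at hq0 hq1 hq2
    rw [sub_zero] at hq2
    exact ⟨by linarith, by linarith, by linarith⟩
  obtain ⟨M, hM⟩ := hcomp.exists_bound_of_continuousOn (h1.continuousOn.mono hsub)
  refine ⟨r / 4, by positivity, M, fun x hx => ⟨H, ?_, ?_, ?_⟩⟩
  · refine h1.mono ?_
    rintro q ⟨hq0, hq1, hq2⟩
    refine ⟨by linarith, ?_, by linarith⟩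
    have h3 : ‖q.2.1 - a‖ ≤ ‖q.2.1 - x‖ + ‖(x : ℂ) - a‖ := norm_sub_le_norm_sub_add_norm_sub _ _ _
    rw [exb_norm] at h3
    linarith
  · intro E y w hE hy hw
    have h3 : ‖y - a‖ ≤ ‖y - x‖ + ‖(x : ℂ) - a‖ := norm_sub_le_norm_sub_add_norm_sub _ _ _
    rw [exb_norm] at h3
    refine hM (E, y, w) ⟨?_, ?_, ?_⟩
    · rw [mem_closedBall, dist_eq_norm]
      linarith
    · rw [mem_closedBall, dist_eq_norm]
      linarith
    · rw [mem_closedBall, dist_zero_right]
      linarith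
  · intro E y w hE hy hw
    refine h2 E y w (by linarith) ?_ (by linarith)
    have h3 : |y - a| ≤ |y - x| + |x - a| := abs_sub_le _ _ _
    linarith

private theorem exb_uniform {G : ℝ → ℝ → ℝ → ℝ} {E1 c : ℝ} (hc : 0 < c)
    (hG : ∀ x : ℝ, AnalyticAt ℝ (fun q : ℝ × ℝ × ℝ => G q.1 q.2.1 q.2.2) (E1, x, 0))
    (hper : ∀ E x w : ℝ, |E - E1| < c → |w| < c → G E (x + 1) w = G E x w) :
    ∃ s > (0 : ℝ), s < c ∧ ∃ M : ℝ, ∀ a : ℝ, exb_EX G E1 s M a := by
  have key : ∃ s > (0 : ℝ), ∃ M : ℝ, ∀ a ∈ Icc (0 : ℝ) 1, exb_EX G E1 s M a := by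
    refine isCompact_Icc.induction_on (p := fun S => ∃ s > (0 : ℝ), ∃ M : ℝ, ∀ a ∈ S,
      exb_EX G E1 s M a) ⟨1, one_pos, 0, fun a ha => ha.elim⟩ ?_ ?_ ?_
    · rintro S T hST ⟨s, hs, M, h⟩
      exact ⟨s, hs, M, fun a ha => h a (hST ha)⟩
    · rintro S T ⟨s, hs, M, h⟩ ⟨s', hs', M', h'⟩
      refine ⟨min s s', lt_min hs hs', max M M', ?_⟩
      rintro a (ha | ha)
      · exact exb_mono (h a ha) (min_le_left _ _) (le_max_left _ _)
      · exact exb_mono (h' a ha) (min_le_right _ _) (le_max_right _ _)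
    · intro a _
      obtain ⟨s, hs, M, h⟩ := exb_local hG a
      refine ⟨ball a s, mem_nhdsWithin_of_mem_nhds (ball_mem_nhds a hs), s, hs, M, ?_⟩
      intro x hx
      refine h x ?_
      rwa [mem_ball, Real.dist_eq] at hx
  obtain ⟨s', hs', M, h'⟩ := key
  set s : ℝ := min s' (c / 2) with hsdef
  have hs : 0 < s := lt_min hs' (by positivity)
  have hsc : s < c := (min_le_right _ _).trans_lt (by linarith)
  have h : ∀ a ∈ Icc (0 : ℝ) 1, exb_EX G E1 s M a := fun a ha =>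
    exb_mono (h' a ha) (min_le_left _ _) le_rfl
  refine ⟨s, hs, hsc, M, fun a => ?_⟩
  obtain ⟨H, h1, h2, h3⟩ := h (Int.fract a) ⟨Int.fract_nonneg a, (Int.fract_lt_one a).le⟩
  have hn : ∀ x : ℂ, ‖x - (⌊a⌋ : ℂ) - ((Int.fract a : ℝ) : ℂ)‖ = ‖x - a‖ := by
    intro x
    congr 1
    have : (a : ℂ) = (⌊a⌋ : ℂ) + ((Int.fract a : ℝ) : ℂ) := by
      have h4 := Int.floor_add_fract a
      calc (a : ℂ) = (((⌊a⌋ : ℝ) + Int.fract a : ℝ) : ℂ) := by rw [h4]
        _ = (⌊a⌋ : ℂ) + ((Int.fract a : ℝ) : ℂ) := by push_cast; rfl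
    rw [this]
    ring
  refine ⟨fun E x w => H E (x - (⌊a⌋ : ℂ)) w, ?_, ?_, ?_⟩
  · refine h1.comp (f := fun q : ℂ × ℂ × ℂ => (q.1, q.2.1 - (⌊a⌋ : ℂ), q.2.2)) (by fun_prop) ?_
    rintro q ⟨hq0, hq1, hq2⟩
    refine ⟨hq0, ?_, hq2⟩
    change ‖q.2.1 - (⌊a⌋ : ℂ) - ((Int.fract a : ℝ) : ℂ)‖ < s
    rw [hn]
    exact hq1
  · intro E x w hE hx hw
    refine h2 _ _ w hE ?_ hw
    rw [hn]
    exact hx
  · intro E x w hE hx hw
    have h4 : (x : ℂ) - (⌊a⌋ : ℂ) = ((x - ⌊a⌋ : ℝ) : ℂ) := by push_cast; rfl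
    change H E ((x : ℂ) - (⌊a⌋ : ℂ)) w = _
    rw [h4, h3 E (x - ⌊a⌋) w hE ?_ hw]
    · congr 1
      have h5 : Function.Periodic (fun x => G E x w) 1 := fun x =>
        hper E x w (hE.trans hsc) (hw.trans hsc)
      have h6 := h5.sub_zsmul_eq (x := x) ⌊a⌋
      simpa using h6
    · have h7 : x - (⌊a⌋ : ℝ) - Int.fract a = x - a := by
        have := Int.floor_add_fract a
        linarith
      rw [h7]
      exact hx

theorem strip_ext3 {G : ℝ → ℝ → ℝ → ℝ} {E1 c : ℝ} (hc : 0 < c)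
    (hG : ∀ x : ℝ, AnalyticAt ℝ (fun q : ℝ × ℝ × ℝ => G q.1 q.2.1 q.2.2) (E1, x, 0))
    (hper : ∀ E x w : ℝ, |E - E1| < c → |w| < c → G E (x + 1) w = G E x w) :
    ∃ s > (0 : ℝ), s < c ∧ ∃ M : ℝ, ∃ H : ℂ → ℂ → ℂ → ℂ,
      DifferentiableOn ℂ (fun q : ℂ × ℂ × ℂ => H q.1 q.2.1 q.2.2)
        {q | ‖q.1 - E1‖ < s ∧ |q.2.1.im| < s ∧ ‖q.2.2‖ < s} ∧
      (∀ E x w : ℂ, ‖E - E1‖ < s → |x.im| < s → ‖w‖ < s → ‖H E x w‖ ≤ M) ∧
      (∀ E x w : ℂ, H E (x + 1) w = H E x w) ∧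
      (∀ E x w : ℂ, H (conj E) (conj x) (conj w) = conj (H E x w)) ∧
      ∀ E x w : ℝ, |E - E1| < s → |w| < s → H E x w = ((G E x w : ℝ) : ℂ) := by
  classical
  obtain ⟨s, hs, hsc, M, h⟩ := exb_uniform hc hG hper
  choose K hK1 hK2 hK3 using h
  have him : ∀ x : ℂ, ‖x - (x.re : ℂ)‖ = |x.im| := by
    intro x
    have : x - (x.re : ℂ) = (x.im : ℂ) * Complex.I := by
      apply Complex.ext <;> simp
    rw [this, norm_mul, Complex.norm_I, mul_one, Complex.norm_real, Real.norm_eq_abs]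
  set H : ℂ → ℂ → ℂ → ℂ := fun E x w =>
    if ‖E - E1‖ < s / 2 ∧ |x.im| < s / 2 ∧ ‖w‖ < s / 2 then K x.re E x w else 0 with hH
  have hin : ∀ E x w : ℂ, ‖E - E1‖ < s / 2 → |x.im| < s / 2 → ‖w‖ < s / 2 →
      H E x w = K x.re E x w := by
    intro E x w hE hx hw
    simp only [hH]
    rw [if_pos ⟨hE, hx, hw⟩]
  have hout : ∀ E x w : ℂ, ¬ (‖E - E1‖ < s / 2 ∧ |x.im| < s / 2 ∧ ‖w‖ < s / 2) →
      H E x w = 0 := by
    intro E x w hx
    simp only [hH]
    rw [if_neg hx]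
  refine ⟨s / 2, by positivity, by linarith, M, H, ?_, ?_, ?_, ?_, ?_⟩
  · rintro ⟨E₀, x₀, w₀⟩ ⟨hE₀, hx₀, hw₀⟩
    simp only at hE₀ hx₀ hw₀
    have c0 : Continuous fun q : ℂ × ℂ × ℂ => ‖q.1 - (E1 : ℂ)‖ := by fun_prop
    have c1 : Continuous fun q : ℂ × ℂ × ℂ => ‖q.2.1 - (x₀.re : ℂ)‖ := by fun_prop
    have c2 : Continuous fun q : ℂ × ℂ × ℂ => ‖q.2.2‖ := by fun_prop
    have c3 : Continuous fun q : ℂ × ℂ × ℂ => |q.2.1.im| :=
      (Complex.continuous_im.comp (continuous_fst.comp continuous_snd)).abs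
    have hS : IsOpen (exb_S E1 x₀.re s) :=
      (isOpen_lt c0 continuous_const).inter
        ((isOpen_lt c1 continuous_const).inter (isOpen_lt c2 continuous_const))
    have hmem : ((E₀, x₀, w₀) : ℂ × ℂ × ℂ) ∈ exb_S E1 x₀.re s := by
      refine ⟨?_, ?_, ?_⟩
      · change ‖E₀ - (E1 : ℂ)‖ < s
        linarith
      · change ‖x₀ - (x₀.re : ℂ)‖ < s
        rw [him]
        linarith
      · change ‖w₀‖ < s
        linarith
    have hd : DifferentiableAt ℂ (fun q : ℂ × ℂ × ℂ => K x₀.re q.1 q.2.1 q.2.2) (E₀, x₀, w₀) :=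
      (hK1 x₀.re).differentiableAt (hS.mem_nhds hmem)
    refine DifferentiableAt.differentiableWithinAt (hd.congr_of_eventuallyEq ?_)
    have hT : IsOpen ({q : ℂ × ℂ × ℂ | ‖q.1 - (E1 : ℂ)‖ < s / 2} ∩
        ({q : ℂ × ℂ × ℂ | |q.2.1.im| < s / 2} ∩ ({q : ℂ × ℂ × ℂ | ‖q.2.2‖ < s / 2} ∩
          {q : ℂ × ℂ × ℂ | ‖q.2.1 - (x₀.re : ℂ)‖ < s}))) :=
      (isOpen_lt c0 continuous_const).inter ((isOpen_lt c3 continuous_const).inter
        ((isOpen_lt c2 continuous_const).inter (isOpen_lt c1 continuous_const)))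
    filter_upwards [hT.mem_nhds (x := (E₀, x₀, w₀)) ⟨hE₀, hx₀, hw₀, hmem.2.1⟩] with q hq
    obtain ⟨hq0, hq1, hq2, hq3⟩ := hq
    have hq0' : ‖q.1 - (E1 : ℂ)‖ < s / 2 := hq0
    have hq1' : |q.2.1.im| < s / 2 := hq1
    have hq2' : ‖q.2.2‖ < s / 2 := hq2
    rw [hin q.1 q.2.1 q.2.2 hq0' hq1' hq2']
    refine exb_unique (hK1 q.2.1.re) (hK1 x₀.re) (fun E x w e0 e1 e2 e3 => ?_) (by linarith) ?_
      hq3 (by linarith)
    · rw [hK3 _ E x w e0 e1 e3, hK3 _ E x w e0 e2 e3]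
    · rw [him]
      linarith
  · intro E x w hE hx hw
    rw [hin E x w hE hx hw]
    refine hK2 _ E x w (by linarith) ?_ (by linarith)
    rw [him]
    linarith
  · intro E x w
    by_cases hc : ‖E - E1‖ < s / 2 ∧ |x.im| < s / 2 ∧ ‖w‖ < s / 2
    · have hc' : |(x + 1).im| < s / 2 := by
        rw [Complex.add_im, Complex.one_im, add_zero]
        exact hc.2.1
      rw [hin _ _ _ hc.1 hc' hc.2.2, hin _ _ _ hc.1 hc.2.1 hc.2.2]
      have hre : (x + 1).re = x.re + 1 := by rw [Complex.add_re, Complex.one_re]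
      have hd : DifferentiableOn ℂ
          (fun q : ℂ × ℂ × ℂ => K (x.re + 1) q.1 (q.2.1 + 1) q.2.2) (exb_S E1 x.re s) := by
        refine (hK1 (x.re + 1)).comp (f := fun q : ℂ × ℂ × ℂ => (q.1, q.2.1 + 1, q.2.2))
          (by fun_prop) ?_
        rintro q ⟨hq0, hq1, hq2⟩
        refine ⟨hq0, ?_, hq2⟩
        change ‖q.2.1 + 1 - ((x.re + 1 : ℝ) : ℂ)‖ < s
        have : q.2.1 + 1 - ((x.re + 1 : ℝ) : ℂ) = q.2.1 - (x.re : ℂ) := by push_cast; ring
        rw [this]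
        exact hq1
      rw [hre]
      have hx1 : ‖x - (x.re : ℂ)‖ < s := by
        rw [him]
        linarith [hc.2.1]
      set b : ℝ := x.re with hb
      refine exb_unique (H := fun E x w => K (b + 1) E (x + 1) w) hd (hK1 b)
        (fun F y v e0 e1 e2 e3 => ?_) (by linarith [hc.1]) hx1 hx1 (by linarith [hc.2.2])
      have e4 : ((y : ℂ) + 1) = ((y + 1 : ℝ) : ℂ) := by push_cast; rfl
      change K (b + 1) F ((y : ℂ) + 1) v = K b F y v
      rw [e4, hK3 (b + 1) F (y + 1) v e0 (by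
        have : y + 1 - (b + 1) = y - b := by ring
        rw [this]
        exact e1) e3, hK3 b F y v e0 e1 e3, hper F y v (e0.trans hsc) (e3.trans hsc)]
    · have hc' : ¬ (‖E - E1‖ < s / 2 ∧ |(x + 1).im| < s / 2 ∧ ‖w‖ < s / 2) := by
        rw [Complex.add_im, Complex.one_im, add_zero]
        exact hc
      rw [hout _ _ _ hc', hout _ _ _ hc]
  · intro E x w
    have hcE : ∀ (z : ℂ) (b : ℝ), ‖conj z - (b : ℂ)‖ = ‖z - b‖ := by
      intro z b
      have : conj z - (b : ℂ) = conj (z - (b : ℂ)) := by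
        rw [map_sub, Complex.conj_ofReal]
      rw [this, Complex.norm_conj]
    by_cases hc : ‖E - E1‖ < s / 2 ∧ |x.im| < s / 2 ∧ ‖w‖ < s / 2
    · have hc0 : ‖conj E - E1‖ < s / 2 := by
        rw [hcE]
        exact hc.1
      have hc1 : |(conj x).im| < s / 2 := by
        rw [Complex.conj_im, abs_neg]
        exact hc.2.1
      have hc2 : ‖conj w‖ < s / 2 := by
        rw [Complex.norm_conj]
        exact hc.2.2
      rw [hin _ _ _ hc0 hc1 hc2, hin _ _ _ hc.1 hc.2.1 hc.2.2, Complex.conj_re]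
      set a : ℝ := x.re with ha
      have hUc : IsPreconnected (ball (a : ℂ) s) := (convex_ball _ _).isPreconnected
      have hrE : ∀ E : ℝ, |E - E1| < s → ‖(E : ℂ) - E1‖ < s := fun E hE => by rwa [exb_norm]
      have hrw : ∀ w : ℝ, |w| < s → ‖(w : ℂ)‖ < s := fun w hw => by
        rwa [Complex.norm_real, Real.norm_eq_abs]
      have hba : ∀ y ∈ ball (a : ℂ) s, ‖y - a‖ < s := fun y hy => by
        rwa [mem_ball, dist_eq_norm] at hy
      have hbE : ∀ E ∈ ball (E1 : ℂ) s, ‖E - E1‖ < s := fun E hE => by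
        rwa [mem_ball, dist_eq_norm] at hE
      have hbw : ∀ w ∈ ball ((0 : ℝ) : ℂ) s, ‖w‖ < s := fun w hw => by
        rwa [Complex.ofReal_zero, mem_ball, dist_zero_right] at hw
      have hmc : ∀ (b : ℝ), ∀ y ∈ ball (b : ℂ) s, conj y ∈ ball (b : ℂ) s := by
        intro b y hy
        rw [mem_ball, dist_eq_norm] at hy ⊢
        rw [hcE]
        exact hy
      have key := exb_sep (D := fun E x w => K a E x w - conj (K a (conj E) (conj x) (conj w)))
        (U := ball (a : ℂ) s) (x₀ := a) (s := s) (E1 := E1) isOpen_ball hUc (mem_ball_self hs)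
        (fun F v hF hv => by
          have hj : DifferentiableOn ℂ (fun x => K a F x v) (ball (a : ℂ) s) :=
            exb_s2 (hK1 a) fun y hy => ⟨hrE F hF, hba y hy, hrw v hv⟩
          refine hj.sub ?_
          intro y hy
          refine DifferentiableAt.differentiableWithinAt ?_
          have h1 : DifferentiableAt ℂ (fun x => K a F x v) (conj y) :=
            hj.differentiableAt (isOpen_ball.mem_nhds (hmc a y hy))
          have h2 := h1.conj_conj
          rw [Complex.conj_conj] at h2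
          have h3 : (fun x => conj (K a (conj (F : ℂ)) (conj x) (conj (v : ℂ)))) =
              conj ∘ (fun x => K a F x v) ∘ conj := by
            funext x
            rw [Complex.conj_ofReal, Complex.conj_ofReal]
            rfl
          rw [h3]
          exact h2)
        (fun F hF y hy => by
          have hj : ∀ y ∈ ball (a : ℂ) s, DifferentiableOn ℂ (fun w => K a F y w)
              (ball ((0 : ℝ) : ℂ) s) := fun y hy =>
            exb_s3 (hK1 a) fun v hv => ⟨hrE F hF, hba y hy, hbw v hv⟩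
          refine (hj y hy).sub ?_
          intro v hv
          refine DifferentiableAt.differentiableWithinAt ?_
          have h1 : DifferentiableAt ℂ (fun w => K a F (conj y) w) (conj v) :=
            (hj _ (hmc a y hy)).differentiableAt (isOpen_ball.mem_nhds (hmc 0 v hv))
          have h2 := h1.conj_conj
          rw [Complex.conj_conj] at h2
          have h3 : (fun w => conj (K a (conj (F : ℂ)) (conj y) (conj w))) =
              conj ∘ (fun w => K a F (conj y) w) ∘ conj := by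
            funext x
            rw [Complex.conj_ofReal]
            rfl
          rw [h3]
          exact h2)
        (fun y hy v hv => by
          have hj : ∀ y ∈ ball (a : ℂ) s, ∀ v : ℂ, ‖v‖ < s →
              DifferentiableOn ℂ (fun E => K a E y v) (ball (E1 : ℂ) s) := fun y hy v hv =>
            exb_s1 (hK1 a) fun F hF => ⟨hbE F hF, hba y hy, hv⟩
          refine (hj y hy v hv).sub ?_
          intro F hF
          refine DifferentiableAt.differentiableWithinAt ?_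
          have h1 : DifferentiableAt ℂ (fun E => K a E (conj y) (conj v)) (conj F) :=
            (hj _ (hmc a y hy) _ (by rwa [Complex.norm_conj])).differentiableAt
              (isOpen_ball.mem_nhds (hmc E1 F hF))
          have h2 := h1.conj_conj
          rw [Complex.conj_conj] at h2
          exact h2)
        (fun F y v hF hy hv => by
          have e1 := hba _ hy
          rw [exb_norm] at e1
          simp only [Complex.conj_ofReal]
          rw [hK3 a F y v hF e1 hv, Complex.conj_ofReal, sub_self])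
        (conj E) (by linarith) (conj x) (by
          apply hmc
          rw [mem_ball, dist_eq_norm, him]
          linarith [hc.2.1]) (conj w) (by linarith)
      simp only [Complex.conj_conj] at key
      exact sub_eq_zero.1 key
    · have hc' : ¬ (‖conj E - E1‖ < s / 2 ∧ |(conj x).im| < s / 2 ∧ ‖conj w‖ < s / 2) := by
        rw [Complex.conj_im, abs_neg, Complex.norm_conj, hcE]
        exact hc
      rw [hout _ _ _ hc', hout _ _ _ hc, map_zero]
  · intro E x w hE hw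
    have h1 : |((x : ℂ)).im| < s / 2 := by
      rw [Complex.ofReal_im, abs_zero]
      positivity
    have h2 : ‖(w : ℂ)‖ < s / 2 := by
      rw [Complex.norm_real]
      exact hw
    have h0 : ‖(E : ℂ) - E1‖ < s / 2 := by
      rw [exb_norm]
      exact hE
    rw [hin _ _ _ h0 h1 h2, Complex.ofReal_re]
    refine hK3 x E x w (by linarith) ?_ (by linarith)
    rw [sub_self, abs_zero]
    exact hs

end Pool.Agent.DB
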