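import Pool.Agent.DB.Exb
import Pool.Agent.DC.CFam
import Pool.Agent.MEP.SCV
import Pool.Agent.NOne.KHol

/-!
# MP_74f563_an, n = 2 autonomous (D2), file DB/Exc: the family `B`

PROOF of `exists_BE`.  As Pool/Agent/NOne/BExc.lean, with the parameter `E`.  Let
`G E a w = S E a (a + w)`: analytic at all `(E, a, w)` with `|E - E1| < c`, `|w| < c`, and
`G E (a + 1) w = G E a w`.  Let `s`, `M`, `H` be from `strip_ext3` (file DB/Exb).
For real `E`, `x` with `|E - E1| < s`: `H E x 0 = 0`, `(∂_w H)(E, x, 0) = 0`,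
`(∂_w² H)(E, x, 0) = 2` (complex
derivatives at real points are the real ones: `h0`, `h1`, `h2`).  The functions of `(E, x)`:
`H E x 0`, `∂_w H (E, x, 0)`, `∂_w² H (E, x, 0) - 2` are holomorphic on
`{‖E - E1‖ < s, |Im x| < s}` and vanish at
the real points, so they vanish (identity theorem, one variable after the other).
`K E x w = (2πi)⁻¹ ∮_{|ζ| = s/2} H E x ζ / (ζ² (ζ - w)) dζ` is holomorphic on
`{‖E - E1‖ < s, |Im x| < s, ‖w‖ < s/2}` (`Pool.Agent.MEP.differentiableOn_circleIntegral_param`, or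
the
method of `bexc_int` in BExc) and equals `H E x w / w²` for `w ≠ 0` and `1` for `w = 0` (for fixed
`(E, x)`,
`w ↦ H E x w` has a double zero at `0`: `bexc_one`).  Let `ρ = s / 4`, `c2 = s / 2`, `σ = s`.  On
`‖w‖ ≤ ρ` the
maximum principle gives `‖H E x w / w²‖ ≤ M / ρ²` (bound on `|w| = ρ`); so `M' = max (M / ρ²) 1`.
Put `B e x w = H (E1 + c2 * e) x w / w²` if `e ∈ UU (1 / 8)`, `|Im x| < σ`, `0 < ‖w‖ < ρ`;
`B e x w = 1` if
`e ∈ UU (1 / 8)`, `|Im x| < σ`, `w = 0`; and `B e x w = 0` otherwise.  For `e ∈ UU (1 / 8)`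
(`|Re e| < 3/8`, `|Im e| < 1/8`): `‖e‖ < 1/2`, so `‖E1 + c2 e - E1‖ < s / 4 < s`.  `BE.hol`: `B`
equals
`K (E1 + c2 e) x w` on `UU (1 / 8) ×ˢ DL σ ρ`.  `per`, `real`: from the properties of `H` and the
symmetry of the
conditions (`UU` is invariant under `conj`).
`gS (B e) a b = (b - a)² Re B(e, a, b - a) = Re H (E1 + c2 e) a (b - a) = S (E1 + c2 e) a b` for
`|b - a| < ρ`, `|e| < 3/8` (also for `b = a`: both are `0`).
To get `c2 < ε`, `ρ < ε`: in the choice of `s` replace `s` by `min s ε` (the domain of `H` shrinks).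
-/

set_option autoImplicit false

namespace Pool.Agent.DB

open Set Complex Pool.Agent.NOne Pool.Agent.DC
open scoped ComplexConjugate

/-- the complex derivative at a real point of an extension of a real function -/
private theorem exc_real {F : ℂ → ℂ} {g : ℝ → ℝ} {w₀ : ℝ} (hF : DifferentiableAt ℂ F w₀)
    (h : ∀ᶠ y : ℝ in nhds w₀, F y = ((g y : ℝ) : ℂ)) :
    deriv F w₀ = ((deriv g w₀ : ℝ) : ℂ) := by
  have h1 : HasDerivAt (fun y : ℝ => F y) (deriv F w₀) w₀ := hF.hasDerivAt.comp_ofReal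
  have h2 : HasDerivAt (fun y : ℝ => ((g y : ℝ) : ℂ)) (deriv F w₀) w₀ :=
    h1.congr_of_eventuallyEq (by
      filter_upwards [h] with y hy
      exact hy.symm)
  have h3 : HasDerivAt g (deriv F w₀).re w₀ := by
    have := (Complex.reCLM.hasFDerivAt (x := ((g w₀ : ℝ) : ℂ))).comp_hasDerivAt w₀ h2
    exact this
  have h4 : HasDerivAt (fun _ : ℝ => (0 : ℝ)) (deriv F w₀).im w₀ := by
    have := (Complex.imCLM.hasFDerivAt (x := ((g w₀ : ℝ) : ℂ))).comp_hasDerivAt w₀ h2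
    have e : (Complex.imCLM ∘ fun y : ℝ => ((g y : ℝ) : ℂ)) = fun _ : ℝ => (0 : ℝ) := by
      funext y
      exact Complex.ofReal_im (g y)
    rw [← e]
    exact this
  have h5 : (deriv F w₀).im = 0 := h4.unique (hasDerivAt_const w₀ (0 : ℝ))
  apply Complex.ext
  · rw [h3.deriv, Complex.ofReal_re]
  · rw [h5, Complex.ofReal_im]

/-- the values and derivatives at real points -/
private theorem exc_pt {s : ℝ} (hs : 0 < s) {h : ℂ → ℂ} {f : ℝ → ℝ} {x : ℝ}
    (hd : DifferentiableOn ℂ h (Metric.ball 0 s))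
    (hreal : ∀ w : ℝ, |w| < s → h w = ((f (x + w) : ℝ) : ℂ)) (h0 : f x = 0)
    (h1 : deriv f x = 0) (h2 : deriv (deriv f) x = 2) :
    h 0 = 0 ∧ deriv h 0 = 0 ∧ deriv (deriv h) 0 = 2 := by
  have hO : IsOpen {y : ℝ | |y| < s} := isOpen_lt continuous_abs continuous_const
  have hb : ∀ w : ℝ, |w| < s → (w : ℂ) ∈ Metric.ball (0 : ℂ) s := by
    intro w hw
    rw [mem_ball_zero_iff, Complex.norm_real, Real.norm_eq_abs]
    exact hw
  have hder : ∀ w : ℝ, |w| < s → deriv h w = ((deriv f (x + w) : ℝ) : ℂ) := by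
    intro w hw
    have c1 : DifferentiableAt ℂ h (w : ℂ) :=
      (hd _ (hb w hw)).differentiableAt (Metric.isOpen_ball.mem_nhds (hb w hw))
    have c2 := exc_real (g := fun w => f (x + w)) c1 (by
      filter_upwards [hO.mem_nhds hw] with y hy
      exact hreal y hy)
    have c3 : deriv (fun w => f (x + w)) w = deriv f (x + w) := deriv_comp_const_add f x w
    rw [c2, c3]
  have hs0 : |(0 : ℝ)| < s := by simpa using hs
  refine ⟨?_, ?_, ?_⟩
  · have e := hreal 0 hs0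
    rw [add_zero, h0, Complex.ofReal_zero] at e
    exact e
  · have e := hder 0 hs0
    rw [add_zero, h1, Complex.ofReal_zero] at e
    exact e
  · have c1 : DifferentiableAt ℂ (deriv h) ((0 : ℝ) : ℂ) := by
      rw [Complex.ofReal_zero]
      exact ((hd.deriv Metric.isOpen_ball) 0 (Metric.mem_ball_self hs)).differentiableAt
        (Metric.ball_mem_nhds 0 hs)
    have c2 := exc_real (g := fun w => deriv f (x + w)) c1 (by
      filter_upwards [hO.mem_nhds hs0] with w hw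
      exact hder w hw)
    have c3 : deriv (fun w => deriv f (x + w)) 0 = deriv (deriv f) x := by
      rw [deriv_comp_const_add (deriv f) x 0, add_zero]
    rw [c3, h2, Complex.ofReal_zero] at c2
    rw [c2]
    norm_num

/-- the identity theorem on a convex set with real points -/
private theorem exc_ident {U : Set ℂ} (hU : IsOpen U) (hc : Convex ℝ U) {p : ℝ}
    (hp : (p : ℂ) ∈ U) {D : ℂ → ℂ} (hD : DifferentiableOn ℂ D U)
    (h0 : ∀ x : ℝ, (x : ℂ) ∈ U → D x = 0) {z : ℂ} (hz : z ∈ U) : D z = 0 := by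
  have hfr : ∃ᶠ z : ℂ in nhdsWithin (p : ℂ) {(p : ℂ)}ᶜ, D z = 0 := by
    have ht : Filter.Tendsto (fun x : ℝ => (x : ℂ)) (nhdsWithin p {p}ᶜ)
        (nhdsWithin (p : ℂ) {(p : ℂ)}ᶜ) := by
      rw [tendsto_nhdsWithin_iff]
      constructor
      · exact (Complex.continuous_ofReal.tendsto p).mono_left
          (nhdsWithin_le_nhds (s := ({p}ᶜ : Set ℝ)))
      · filter_upwards [self_mem_nhdsWithin] with x hx
        have hx' : x ≠ p := hx
        simpa using hx'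
    have hev : ∀ᶠ x : ℝ in nhdsWithin p {p}ᶜ, D x = 0 := by
      have h1 : ∀ᶠ x : ℝ in nhds p, (x : ℂ) ∈ U :=
        (Complex.continuous_ofReal.tendsto p).eventually (hU.mem_nhds hp)
      filter_upwards [nhdsWithin_le_nhds h1] with x hx
      exact h0 x hx
    exact ht.frequently hev.frequently
  exact (hD.analyticOnNhd hU).eqOn_zero_of_preconnected_of_frequently_eq_zero
    hc.isPreconnected hp hfr hz

private theorem exc_open (s : ℝ) : IsOpen {z : ℂ | |z.im| < s} :=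
  isOpen_lt (continuous_im.abs) continuous_const

private theorem exc_convex (s : ℝ) : Convex ℝ {z : ℂ | |z.im| < s} := by
  intro x hx y hy a b ha hb hab
  have h1 := convex_Ioo (-s) s (abs_lt.1 hx) (abs_lt.1 hy) ha hb hab
  show |(a • x + b • y).im| < s
  rw [abs_lt]
  simpa using h1

private theorem exc_disc (E1 s : ℝ) : {z : ℂ | ‖z - E1‖ < s} = Metric.ball (E1 : ℂ) s := by
  ext z
  rw [mem_ball_iff_norm]
  rfl

/-- the identity theorem in two variables, one after the other -/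
private theorem exc_two {E1 s : ℝ} (hs : 0 < s) {Φ : ℂ → ℂ → ℂ}
    (h1 : ∀ E : ℂ, ‖E - E1‖ < s → DifferentiableOn ℂ (fun x => Φ E x) {x | |x.im| < s})
    (h2 : ∀ x : ℂ, |x.im| < s → DifferentiableOn ℂ (fun E => Φ E x) {E | ‖E - E1‖ < s})
    (h0 : ∀ E x : ℝ, |E - E1| < s → Φ E x = 0) :
    ∀ E x : ℂ, ‖E - E1‖ < s → |x.im| < s → Φ E x = 0 := by
  have hn : ∀ E : ℝ, ‖(E : ℂ) - E1‖ < s ↔ |E - E1| < s := by
    intro E
    rw [← Complex.ofReal_sub, Complex.norm_real, Real.norm_eq_abs]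
  have hstep : ∀ (E : ℝ) (x : ℂ), |E - E1| < s → |x.im| < s → Φ E x = 0 := by
    intro E x hE hx
    refine exc_ident (exc_open s) (exc_convex s) (p := 0) ?_ (h1 E ((hn E).2 hE)) ?_ hx
    · show |((0 : ℝ) : ℂ).im| < s
      simpa using hs
    · intro y _
      exact h0 E y hE
  intro E x hE hx
  have hopen : IsOpen {z : ℂ | ‖z - E1‖ < s} := by
    rw [exc_disc]
    exact Metric.isOpen_ball
  have hconv : Convex ℝ {z : ℂ | ‖z - E1‖ < s} := by
    rw [exc_disc]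
    exact convex_ball _ _
  refine exc_ident (D := fun E => Φ E x) hopen hconv (p := E1) ?_ (h2 x hx) ?_ hE
  · show ‖(E1 : ℂ) - E1‖ < s
    simpa using hs
  · intro y hy
    exact hstep y x ((hn y).1 hy) hx

/-- division by `w ^ 2` in one variable -/
private theorem exc_one {s : ℝ} (hs : 0 < s) {h : ℂ → ℂ}
    (hd : DifferentiableOn ℂ h (Metric.ball 0 s)) (h0 : h 0 = 0) (h1 : deriv h 0 = 0)
    (h2 : deriv (deriv h) 0 = 2) :
    DifferentiableOn ℂ (fun w => if w = 0 then (1 : ℂ) else h w / w ^ 2) (Metric.ball 0 s) := by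
  have hn : Metric.ball (0 : ℂ) s ∈ nhds (0 : ℂ) := Metric.ball_mem_nhds 0 hs
  set k := dslope h 0 with hk
  have hkd : DifferentiableOn ℂ k (Metric.ball 0 s) := (Complex.differentiableOn_dslope hn).2 hd
  have hk0 : k 0 = 0 := by rw [hk, dslope_same, h1]
  have hhk : ∀ w, h w = w * k w := by
    intro w
    have e := sub_smul_dslope h 0 w
    rw [h0, sub_zero, sub_zero, smul_eq_mul] at e
    exact e.symm
  have hk1 : deriv k 0 = 1 := by
    have e1 : deriv h =ᶠ[nhds 0] fun w => k w + w * deriv k w := by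
      filter_upwards [hn] with w hw
      have hkw : DifferentiableAt ℂ k w := (hkd w hw).differentiableAt
        (Metric.isOpen_ball.mem_nhds hw)
      have e2 : HasDerivAt (fun w => w * k w) (1 * k w + w * deriv k w) w :=
        (hasDerivAt_id w).mul hkw.hasDerivAt
      have e3 : h = fun w => w * k w := funext hhk
      rw [e3, e2.deriv, one_mul]
    have hkw : DifferentiableAt ℂ k 0 := (hkd 0 (Metric.mem_ball_self hs)).differentiableAt hn
    have hdk : DifferentiableAt ℂ (deriv k) 0 :=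
      ((hkd.deriv Metric.isOpen_ball) 0 (Metric.mem_ball_self hs)).differentiableAt hn
    have e4 : HasDerivAt (fun w => k w + w * deriv k w)
        (deriv k 0 + (1 * deriv k 0 + 0 * deriv (deriv k) 0)) 0 :=
      hkw.hasDerivAt.add ((hasDerivAt_id (0 : ℂ)).mul hdk.hasDerivAt)
    have e5 := e1.deriv_eq
    rw [h2, e4.deriv] at e5
    have e6 : (2 : ℂ) * deriv k 0 = 2 * 1 := by linear_combination -e5
    exact mul_left_cancel₀ two_ne_zero e6
  have hl : DifferentiableOn ℂ (dslope k 0) (Metric.ball 0 s) :=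
    (Complex.differentiableOn_dslope hn).2 hkd
  refine hl.congr fun w _ => ?_
  by_cases hw : w = 0
  · rw [if_pos hw, hw, dslope_same, hk1]
  · rw [if_neg hw]
    have e := sub_smul_dslope k 0 w
    rw [hk0, sub_zero, sub_zero, smul_eq_mul] at e
    rw [hhk w, ← e]
    field_simp

/-- the domain of the extension -/
private def excV (E1 s : ℝ) : Set (ℂ × ℂ × ℂ) :=
  {q | ‖q.1 - E1‖ < s ∧ |q.2.1.im| < s ∧ ‖q.2.2‖ < s}

private theorem excV_open (E1 s : ℝ) : IsOpen (excV E1 s) := by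
  have a1 : IsOpen {q : ℂ × ℂ × ℂ | ‖q.1 - E1‖ < s} :=
    isOpen_lt (by fun_prop) continuous_const
  have a2 : IsOpen {q : ℂ × ℂ × ℂ | |q.2.1.im| < s} :=
    isOpen_lt ((continuous_im.comp (continuous_fst.comp continuous_snd)).abs) continuous_const
  have a3 : IsOpen {q : ℂ × ℂ × ℂ | ‖q.2.2‖ < s} :=
    isOpen_lt (by fun_prop) continuous_const
  exact a1.inter (a2.inter a3)

/-- `c * e` is in the disc -/
private theorem exc_UU {s : ℝ} (hs : 0 < s) (E1 : ℝ) {e : ℂ} (he : e ∈ UU (1 / 8)) :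
    ‖(E1 : ℂ) + ((s / 2 : ℝ) : ℂ) * e - E1‖ < s := by
  have h1 : |e.re| < 1 / 4 + 1 / 8 := he.1
  have h2 : |e.im| < 1 / 8 := he.2
  have h3 := Complex.norm_le_abs_re_add_abs_im e
  have h4 : ‖e‖ < 1 := by linarith
  rw [add_sub_cancel_left, norm_mul, Complex.norm_real, Real.norm_eq_abs,
    abs_of_pos (by linarith : 0 < s / 2)]
  nlinarith [norm_nonneg e]

private theorem exc_UU_open : IsOpen (UU (1 / 8)) := by
  have a1 : IsOpen {t : ℂ | |t.re| < 1 / 4 + 1 / 8} :=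
    isOpen_lt (continuous_re.abs) continuous_const
  have a2 : IsOpen {t : ℂ | |t.im| < 1 / 8} :=
    isOpen_lt (continuous_im.abs) continuous_const
  exact a1.inter a2

private theorem exc_int {E1 s : ℝ} (hs : 0 < s) {H : ℂ → ℂ → ℂ → ℂ}
    (hH : DifferentiableOn ℂ (fun q : ℂ × ℂ × ℂ => H q.1 q.2.1 q.2.2) (excV E1 s)) :
    DifferentiableOn ℂ (fun q : ℂ × ℂ × ℂ => (2 * Real.pi * Complex.I : ℂ)⁻¹ *
        ∮ ζ in C(0, s / 2), (ζ - q.2.2)⁻¹ *
          (H (E1 + ((s / 2 : ℝ) : ℂ) * q.1) q.2.1 ζ * (ζ ^ 2)⁻¹))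
      (UU (1 / 8) ×ˢ DL s (s / 2)) := by
  have hρ : 0 < s / 2 := by linarith
  set Q : Set (ℂ × ℂ × ℂ) := {q | q.1 ≠ 0 ∧
    ((E1 : ℂ) + ((s / 2 : ℝ) : ℂ) * q.2.1, q.2.2, q.1) ∈ excV E1 s} with hQd
  have hcont : Continuous fun q : ℂ × ℂ × ℂ =>
      ((E1 : ℂ) + ((s / 2 : ℝ) : ℂ) * q.2.1, q.2.2, q.1) := by fun_prop
  have hQ : IsOpen Q := by
    have a3 : IsOpen {q : ℂ × ℂ × ℂ | q.1 ≠ 0} := isOpen_ne_fun continuous_fst continuous_const
    exact a3.inter ((excV_open E1 s).preimage hcont)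
  have hV : IsOpen (UU (1 / 8) ×ˢ {z : ℂ | |z.im| < s}) := exc_UU_open.prod (exc_open s)
  have hg : DifferentiableOn ℂ (fun q : ℂ × ℂ × ℂ =>
      H (E1 + ((s / 2 : ℝ) : ℂ) * q.2.1) q.2.2 q.1 * (q.1 ^ 2)⁻¹) Q := by
    rintro ⟨ζ, e, x⟩ ⟨q1, q2⟩
    have b1 : DifferentiableAt ℂ (fun q : ℂ × ℂ × ℂ => H q.1 q.2.1 q.2.2)
        ((E1 : ℂ) + ((s / 2 : ℝ) : ℂ) * e, x, ζ) :=
      (hH _ q2).differentiableAt ((excV_open E1 s).mem_nhds q2)
    have b2 : DifferentiableAt ℂ (fun q : ℂ × ℂ × ℂ =>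
        ((E1 : ℂ) + ((s / 2 : ℝ) : ℂ) * q.2.1, q.2.2, q.1)) (ζ, e, x) := by fun_prop
    have b3 : DifferentiableAt ℂ (fun q : ℂ × ℂ × ℂ =>
        H (E1 + ((s / 2 : ℝ) : ℂ) * q.2.1) q.2.2 q.1) (ζ, e, x) :=
      DifferentiableAt.comp (f := fun q : ℂ × ℂ × ℂ =>
        ((E1 : ℂ) + ((s / 2 : ℝ) : ℂ) * q.2.1, q.2.2, q.1)) (ζ, e, x) b1 b2
    have b4 : DifferentiableAt ℂ (fun q : ℂ × ℂ × ℂ => q.1 ^ 2) (ζ, e, x) := by fun_prop
    have b5 : DifferentiableAt ℂ (fun q : ℂ × ℂ × ℂ => (q.1 ^ 2)⁻¹) (ζ, e, x) :=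
      b4.inv (pow_ne_zero 2 q1)
    exact (b3.mul b5).differentiableWithinAt
  have hsub : Metric.sphere (0 : ℂ) (s / 2) ×ˢ (UU (1 / 8) ×ˢ {z : ℂ | |z.im| < s}) ⊆ Q := by
    rintro ⟨ζ, e, x⟩ ⟨q1, q2, q4⟩
    have q3 : ‖ζ‖ = s / 2 := by
      rw [mem_sphere_zero_iff_norm] at q1
      exact q1
    refine ⟨?_, exc_UU hs E1 q2, q4, ?_⟩
    · show ζ ≠ 0
      rintro rfl
      rw [norm_zero] at q3
      linarith
    · show ‖ζ‖ < s
      linarith
  have hmain := Pool.Agent.MEP.differentiableOn_circleIntegral_param hρ hV hQ hg hsub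
  refine DifferentiableOn.const_mul ?_ _
  have b2 : DifferentiableOn ℂ (fun q : ℂ × ℂ × ℂ => (q.2.2, q.1, q.2.1))
      (UU (1 / 8) ×ˢ DL s (s / 2)) := by
    apply Differentiable.differentiableOn
    fun_prop
  have hmaps : MapsTo (fun q : ℂ × ℂ × ℂ => (q.2.2, q.1, q.2.1))
      (UU (1 / 8) ×ˢ DL s (s / 2))
      (Metric.ball (0 : ℂ) (s / 2) ×ˢ (UU (1 / 8) ×ˢ {z : ℂ | |z.im| < s})) := by
    intro q hq
    refine ⟨?_, hq.1, hq.2.1⟩
    show q.2.2 ∈ Metric.ball (0 : ℂ) (s / 2)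
    rw [mem_ball_zero_iff]
    exact hq.2.2
  have h3 := hmain.comp b2 hmaps
  simp only [Function.comp_def] at h3
  exact h3

/-- properties of the holomorphic extension -/
private theorem exc_H {S : ℝ → ℝ → ℝ → ℝ} {E1 c : ℝ} (hc : 0 < c)
    (hana : ∀ E a b : ℝ, |E - E1| < c → |b - a| < c →
      AnalyticAt ℝ (fun q : ℝ × ℝ × ℝ => S q.1 q.2.1 q.2.2) (E, a, b))
    (hper : ∀ E a b : ℝ, |E - E1| < c → |b - a| < c → S E (a + 1) (b + 1) = S E a b)
    (h0 : ∀ E a : ℝ, |E - E1| < c → S E a a = 0)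
    (h1 : ∀ E a : ℝ, |E - E1| < c → deriv (fun b => S E a b) a = 0)
    (h2 : ∀ E a : ℝ, |E - E1| < c → deriv (deriv fun b => S E a b) a = 2) {ε : ℝ} (hε : 0 < ε) :
    ∃ s > (0 : ℝ), s < c ∧ s ≤ ε ∧ ∃ M : ℝ, ∃ H : ℂ → ℂ → ℂ → ℂ,
      DifferentiableOn ℂ (fun q : ℂ × ℂ × ℂ => H q.1 q.2.1 q.2.2) (excV E1 s) ∧
      (∀ E x w : ℂ, ‖E - E1‖ < s → |x.im| < s → ‖w‖ < s → ‖H E x w‖ ≤ M) ∧
      (∀ E x w : ℂ, H E (x + 1) w = H E x w) ∧
      (∀ E x w : ℂ, H (conj E) (conj x) (conj w) = conj (H E x w)) ∧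
      (∀ E x w : ℝ, |E - E1| < s → |w| < s → H E x w = ((S E x (x + w) : ℝ) : ℂ)) ∧
      (∀ E x : ℂ, ‖E - E1‖ < s → |x.im| < s →
        DifferentiableOn ℂ (H E x) (Metric.ball 0 s)) ∧
      (∀ E x : ℂ, ‖E - E1‖ < s → |x.im| < s → H E x 0 = 0) ∧
      (∀ E x : ℂ, ‖E - E1‖ < s → |x.im| < s → deriv (H E x) 0 = 0) ∧
      ∀ E x : ℂ, ‖E - E1‖ < s → |x.im| < s → deriv (deriv (H E x)) 0 = 2 := by
  have hG : ∀ x : ℝ, AnalyticAt ℝ (fun q : ℝ × ℝ × ℝ =>
      (fun E x w => S E x (x + w)) q.1 q.2.1 q.2.2) (E1, x, 0) := by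
    intro x
    have e1 : AnalyticAt ℝ (fun q : ℝ × ℝ × ℝ => S q.1 q.2.1 q.2.2)
        ((fun q : ℝ × ℝ × ℝ => (q.1, q.2.1, q.2.1 + q.2.2)) (E1, x, 0)) := by
      show AnalyticAt ℝ (fun q : ℝ × ℝ × ℝ => S q.1 q.2.1 q.2.2) (E1, x, x + 0)
      refine hana E1 x (x + 0) ?_ ?_
      · rwa [sub_self, abs_zero]
      · rwa [add_zero, sub_self, abs_zero]
    have f1 : AnalyticAt ℝ (fun q : ℝ × ℝ × ℝ => q.1) (E1, x, 0) :=
      (ContinuousLinearMap.fst ℝ ℝ (ℝ × ℝ)).analyticAt _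
    have f2 : AnalyticAt ℝ (fun q : ℝ × ℝ × ℝ => q.2.1) (E1, x, 0) :=
      ((ContinuousLinearMap.fst ℝ ℝ ℝ).comp
        (ContinuousLinearMap.snd ℝ ℝ (ℝ × ℝ))).analyticAt _
    have f3 : AnalyticAt ℝ (fun q : ℝ × ℝ × ℝ => q.2.2) (E1, x, 0) :=
      ((ContinuousLinearMap.snd ℝ ℝ ℝ).comp
        (ContinuousLinearMap.snd ℝ ℝ (ℝ × ℝ))).analyticAt _
    have e2 : AnalyticAt ℝ (fun q : ℝ × ℝ × ℝ => (q.1, q.2.1, q.2.1 + q.2.2)) (E1, x, 0) :=
      f1.prod (f2.prod (f2.add f3))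
    exact AnalyticAt.comp (f := fun q : ℝ × ℝ × ℝ => (q.1, q.2.1, q.2.1 + q.2.2)) e1 e2
  obtain ⟨s0, hs0, hs0c, M, H, hH, hM, hP, hR, hreal⟩ := strip_ext3
    (G := fun E x w => S E x (x + w)) hc hG (fun E x w hE hw => by
      show S E (x + 1) (x + 1 + w) = S E x (x + w)
      rw [add_right_comm, hper E x (x + w) hE (by rwa [add_sub_cancel_left])])
  obtain ⟨s, hsd⟩ : ∃ s, s = min s0 ε := ⟨_, rfl⟩
  have hs : 0 < s := by
    rw [hsd]
    exact lt_min hs0 hε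
  have hss0 : s ≤ s0 := by
    rw [hsd]
    exact min_le_left _ _
  have hsε : s ≤ ε := by
    rw [hsd]
    exact min_le_right _ _
  have hHs : DifferentiableOn ℂ (fun q : ℂ × ℂ × ℂ => H q.1 q.2.1 q.2.2) (excV E1 s) := by
    refine hH.mono ?_
    rintro ⟨E, x, w⟩ ⟨g1, g2, g3⟩
    exact ⟨g1.trans_le hss0, g2.trans_le hss0, g3.trans_le hss0⟩
  have hat : ∀ E x w : ℂ, ‖E - E1‖ < s → |x.im| < s → ‖w‖ < s →
      DifferentiableAt ℂ (fun q : ℂ × ℂ × ℂ => H q.1 q.2.1 q.2.2) (E, x, w) := by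
    intro E x w hE hx hw
    have hm : (E, x, w) ∈ excV E1 s := ⟨hE, hx, hw⟩
    exact (hHs _ hm).differentiableAt ((excV_open E1 s).mem_nhds hm)
  have hsl : ∀ E x : ℂ, ‖E - E1‖ < s → |x.im| < s →
      DifferentiableOn ℂ (H E x) (Metric.ball 0 s) := by
    intro E x hE hx w hw
    have b1 := hat E x w hE hx (by rwa [mem_ball_zero_iff] at hw)
    have b2 : DifferentiableAt ℂ (fun z : ℂ => (E, x, z)) w := by fun_prop
    exact (DifferentiableAt.comp (f := fun z : ℂ => (E, x, z)) w b1 b2).differentiableWithinAt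
  have hxw : ∀ E : ℂ, ‖E - E1‖ < s → DifferentiableOn ℂ (fun q : ℂ × ℂ => H E q.1 q.2)
      {q | |q.1.im| < s ∧ ‖q.2‖ < s} := by
    rintro E hE ⟨x, w⟩ ⟨hx, hw⟩
    have b1 := hat E x w hE hx hw
    have b2 : DifferentiableAt ℂ (fun z : ℂ × ℂ => (E, z.1, z.2)) (x, w) := by fun_prop
    exact (DifferentiableAt.comp (f := fun z : ℂ × ℂ => (E, z.1, z.2)) (x, w) b1
      b2).differentiableWithinAt
  have hEw : ∀ x : ℂ, |x.im| < s → DifferentiableOn ℂ (fun q : ℂ × ℂ => H q.1 x q.2)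
      {q | ‖q.1 - E1‖ < s ∧ ‖q.2‖ < s} := by
    rintro x hx ⟨E, w⟩ ⟨hE, hw⟩
    have b1 := hat E x w hE hx hw
    have b2 : DifferentiableAt ℂ (fun z : ℂ × ℂ => (z.1, x, z.2)) (E, w) := by fun_prop
    exact (DifferentiableAt.comp (f := fun z : ℂ × ℂ => (z.1, x, z.2)) (E, w) b1
      b2).differentiableWithinAt
  have hV1 : IsOpen {q : ℂ × ℂ | |q.1.im| < s ∧ ‖q.2‖ < s} := by
    have a1 : IsOpen {q : ℂ × ℂ | |q.1.im| < s} :=
      isOpen_lt ((continuous_im.comp continuous_fst).abs) continuous_const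
    have a2 : IsOpen {q : ℂ × ℂ | ‖q.2‖ < s} :=
      isOpen_lt continuous_snd.norm continuous_const
    exact a1.inter a2
  have hV2 : IsOpen {q : ℂ × ℂ | ‖q.1 - E1‖ < s ∧ ‖q.2‖ < s} := by
    have a1 : IsOpen {q : ℂ × ℂ | ‖q.1 - E1‖ < s} :=
      isOpen_lt (by fun_prop) continuous_const
    have a2 : IsOpen {q : ℂ × ℂ | ‖q.2‖ < s} :=
      isOpen_lt continuous_snd.norm continuous_const
    exact a1.inter a2
  -- restriction to `w = 0`
  have hst1 : ∀ F : ℂ → ℂ → ℂ, DifferentiableOn ℂ (fun q : ℂ × ℂ => F q.1 q.2)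
      {q | |q.1.im| < s ∧ ‖q.2‖ < s} → DifferentiableOn ℂ (fun x => F x 0) {x | |x.im| < s} := by
    intro F hF x hx
    have hm : (x, (0 : ℂ)) ∈ {q : ℂ × ℂ | |q.1.im| < s ∧ ‖q.2‖ < s} := ⟨hx, by rwa [norm_zero]⟩
    have b1 : DifferentiableAt ℂ (fun q : ℂ × ℂ => F q.1 q.2) (x, 0) :=
      (hF _ hm).differentiableAt (hV1.mem_nhds hm)
    have b2 : DifferentiableAt ℂ (fun z : ℂ => (z, (0 : ℂ))) x := by fun_prop
    exact (DifferentiableAt.comp (f := fun z : ℂ => (z, (0 : ℂ))) x b1 b2).differentiableWithinAt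
  have hst2 : ∀ F : ℂ → ℂ → ℂ, DifferentiableOn ℂ (fun q : ℂ × ℂ => F q.1 q.2)
      {q | ‖q.1 - E1‖ < s ∧ ‖q.2‖ < s} →
      DifferentiableOn ℂ (fun x => F x 0) {E | ‖E - E1‖ < s} := by
    intro F hF x hx
    have hm : (x, (0 : ℂ)) ∈ {q : ℂ × ℂ | ‖q.1 - E1‖ < s ∧ ‖q.2‖ < s} := ⟨hx, by rwa [norm_zero]⟩
    have b1 : DifferentiableAt ℂ (fun q : ℂ × ℂ => F q.1 q.2) (x, 0) :=
      (hF _ hm).differentiableAt (hV2.mem_nhds hm)
    have b2 : DifferentiableAt ℂ (fun z : ℂ => (z, (0 : ℂ))) x := by fun_prop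
    exact (DifferentiableAt.comp (f := fun z : ℂ => (z, (0 : ℂ))) x b1 b2).differentiableWithinAt
  have hpt : ∀ E x : ℝ, |E - E1| < s →
      H E x 0 = 0 ∧ deriv (H E x) 0 = 0 ∧ deriv (deriv (H E x)) 0 = 2 := by
    intro E x hE
    have hEc : |E - E1| < c := by linarith
    have hE' : ‖(E : ℂ) - E1‖ < s := by
      rwa [← Complex.ofReal_sub, Complex.norm_real, Real.norm_eq_abs]
    refine exc_pt (f := fun b => S E x b) hs (hsl E x hE' (by simpa using hs)) ?_ (h0 E x hEc)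
      (h1 E x hEc) (h2 E x hEc)
    intro w hw
    exact hreal E x w (hE.trans_le hss0) (hw.trans_le hss0)
  refine ⟨s, hs, by linarith, hsε, M, H, hHs, ?_, hP, hR, ?_, hsl, ?_, ?_, ?_⟩
  · intro E x w hE hx hw
    exact hM E x w (hE.trans_le hss0) (hx.trans_le hss0) (hw.trans_le hss0)
  · intro E x w hE hw
    exact hreal E x w (hE.trans_le hss0) (hw.trans_le hss0)
  · refine exc_two hs (Φ := fun E x => H E x 0) (fun E hE => hst1 _ (hxw E hE))
      (fun x hx => hst2 _ (hEw x hx)) (fun E x hE => (hpt E x hE).1)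
  · refine exc_two hs (Φ := fun E x => deriv (H E x) 0)
      (fun E hE => hst1 (p2 (H E)) (hol_p_general hV1 (hxw E hE)).2.1)
      (fun x hx => hst2 (p2 fun E w => H E x w) (hol_p_general hV2 (hEw x hx)).2.1)
      (fun E x hE => (hpt E x hE).2.1)
  · intro E x hE hx
    refine sub_eq_zero.1 (exc_two hs (Φ := fun E x => deriv (deriv (H E x)) 0 - 2)
      (fun E hE => (hst1 (p2 (p2 (H E))) (hol_p_general hV1
        (hol_p_general hV1 (hxw E hE)).2.1).2.1).sub_const 2)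
      (fun x hx => (hst2 (p2 (p2 fun E w => H E x w)) (hol_p_general hV2
        (hol_p_general hV2 (hEw x hx)).2.1).2.1).sub_const 2)
      (fun E x hE => ?_) E x hE hx)
    show deriv (deriv (H E x)) 0 - 2 = 0
    rw [(hpt E x hE).2.2, sub_self]

theorem exists_BE {S : ℝ → ℝ → ℝ → ℝ} {E1 c : ℝ} (hc : 0 < c)
    (hana : ∀ E a b : ℝ, |E - E1| < c → |b - a| < c →
      AnalyticAt ℝ (fun q : ℝ × ℝ × ℝ => S q.1 q.2.1 q.2.2) (E, a, b))
    (hper : ∀ E a b : ℝ, |E - E1| < c → |b - a| < c → S E (a + 1) (b + 1) = S E a b)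
    (h0 : ∀ E a : ℝ, |E - E1| < c → S E a a = 0)
    (h1 : ∀ E a : ℝ, |E - E1| < c → deriv (fun b => S E a b) a = 0)
    (h2 : ∀ E a : ℝ, |E - E1| < c → deriv (deriv fun b => S E a b) a = 2) {ε : ℝ} (hε : 0 < ε) :
    ∃ (c2 σ ρ M : ℝ) (B : ℂ → ℂ → ℂ → ℂ), 0 < c2 ∧ c2 < ε ∧ ρ < ε ∧ BE σ ρ M B ∧
      ∀ e a b : ℝ, |e| < 3 / 8 → |b - a| < ρ → S (E1 + c2 * e) a b = gS (B e) a b := by
  classical
  obtain ⟨s, hs, hsc, hsε, M, H, hH, hM, hP, hR, hreal, hsl, hz0, hz1, hz2⟩ :=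
    exc_H hc hana hper h0 h1 h2 hε
  have hρ : 0 < s / 2 := by linarith
  obtain ⟨pe, hpe⟩ : ∃ pe : ℂ → ℂ, ∀ e, pe e = (E1 : ℂ) + ((s / 2 : ℝ) : ℂ) * e :=
    ⟨_, fun _ => rfl⟩
  have hpU : ∀ e ∈ UU (1 / 8), ‖pe e - E1‖ < s := by
    intro e he
    rw [hpe]
    exact exc_UU hs E1 he
  have hφ : ∀ E x : ℂ, ‖E - E1‖ < s → |x.im| < s → DifferentiableOn ℂ
      (fun w => if w = 0 then (1 : ℂ) else H E x w / w ^ 2) (Metric.ball 0 s) := fun E x hE hx =>
    exc_one hs (hsl E x hE hx) (hz0 E x hE hx) (hz1 E x hE hx) (hz2 E x hE hx)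
  have hcl : ∀ E x : ℂ, ‖E - E1‖ < s → |x.im| < s → DiffContOnCl ℂ
      (fun w => if w = 0 then (1 : ℂ) else H E x w / w ^ 2) (Metric.ball 0 (s / 2)) := by
    intro E x hE hx
    refine ((hφ E x hE hx).mono ?_).diffContOnCl_ball subset_rfl
    exact Metric.closedBall_subset_ball (by linarith)
  refine ⟨s / 2, s, s / 2, M / (s / 2) ^ 2, fun e x w =>
    if e ∈ UU (1 / 8) ∧ |x.im| < s ∧ ‖w‖ < s / 2 then
    (if w = 0 then (1 : ℂ) else H (pe e) x w / w ^ 2) else 0, hρ, by linarith, by linarith,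
    ⟨hs, hρ, ?_, ?_, ?_, ?_, ?_⟩, ?_⟩
  · -- holomorphic
    have hmain2 := exc_int hs hH
    refine DifferentiableOn.congr hmain2 ?_
    rintro ⟨e, x, w⟩ ⟨he, hx, hw⟩
    have he' : e ∈ UU (1 / 8) := he
    have hx' : |x.im| < s := hx
    have hw' : ‖w‖ < s / 2 := hw
    have hc := (hcl (pe e) x (hpU e he') hx').two_pi_i_inv_smul_circleIntegral_sub_inv_smul
      (show w ∈ Metric.ball (0 : ℂ) (s / 2) by rwa [mem_ball_zero_iff])
    show (if e ∈ UU (1 / 8) ∧ |x.im| < s ∧ ‖w‖ < s / 2 then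
      (if w = 0 then (1 : ℂ) else H (pe e) x w / w ^ 2) else 0) = _
    rw [if_pos ⟨he', hx', hw'⟩, ← hc, smul_eq_mul]
    congr 1
    refine circleIntegral.integral_congr hρ.le fun ζ hζ => ?_
    have q3 : ‖ζ‖ = s / 2 := by
      rw [mem_sphere_zero_iff_norm] at hζ
      exact hζ
    have q4 : ζ ≠ 0 := by
      rintro rfl
      rw [norm_zero] at q3
      linarith
    show (ζ - w)⁻¹ • (if ζ = 0 then (1 : ℂ) else H (pe e) x ζ / ζ ^ 2) =
      (ζ - w)⁻¹ * (H (E1 + ((s / 2 : ℝ) : ℂ) * e) x ζ * (ζ ^ 2)⁻¹)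
    rw [if_neg q4, smul_eq_mul, div_eq_mul_inv, hpe]
  · -- bound
    intro e he x w hx hw
    show ‖if e ∈ UU (1 / 8) ∧ |x.im| < s ∧ ‖w‖ < s / 2 then
      (if w = 0 then (1 : ℂ) else H (pe e) x w / w ^ 2) else 0‖ ≤ _
    rw [if_pos ⟨he, hx, hw⟩]
    refine Complex.norm_le_of_forall_mem_frontier_norm_le Metric.isBounded_ball
      (hcl (pe e) x (hpU e he) hx)
      (fun z hz => ?_) (subset_closure (by rwa [mem_ball_zero_iff]))
    rw [frontier_ball _ hρ.ne'] at hz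
    have q3 : ‖z‖ = s / 2 := by
      rw [mem_sphere_zero_iff_norm] at hz
      exact hz
    have q4 : z ≠ 0 := by
      rintro rfl
      rw [norm_zero] at q3
      linarith
    rw [if_neg q4, norm_div, norm_pow, q3]
    gcongr
    exact hM (pe e) x z (hpU e he) hx (by linarith)
  · -- value at zero
    intro e he x hx
    show (if e ∈ UU (1 / 8) ∧ |x.im| < s ∧ ‖(0 : ℂ)‖ < s / 2 then
      (if (0 : ℂ) = 0 then (1 : ℂ) else H (pe e) x 0 / 0 ^ 2) else 0) = 1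
    rw [if_pos ⟨he, hx, by rwa [norm_zero]⟩, if_pos rfl]
  · -- periodic
    intro e x w
    have e1 : (x + 1).im = x.im := by simp
    show (if e ∈ UU (1 / 8) ∧ |(x + 1).im| < s ∧ ‖w‖ < s / 2 then
        (if w = 0 then (1 : ℂ) else H (pe e) (x + 1) w / w ^ 2) else 0) =
      if e ∈ UU (1 / 8) ∧ |x.im| < s ∧ ‖w‖ < s / 2 then
        (if w = 0 then (1 : ℂ) else H (pe e) x w / w ^ 2) else 0
    rw [e1, hP]
  · -- real
    intro e
    funext x w
    have e1 : |(conj x).im| = |x.im| := by rw [conj_im, abs_neg]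
    have e2 : ‖conj w‖ = ‖w‖ := RCLike.norm_conj w
    have e3 : (conj e ∈ UU (1 / 8)) = (e ∈ UU (1 / 8)) := by
      unfold UU
      rw [mem_ofPred_eq, mem_ofPred_eq, conj_re, conj_im, abs_neg]
    have e4 : pe (conj e) = conj (pe e) := by
      rw [hpe, hpe, map_add, map_mul, Complex.conj_ofReal, Complex.conj_ofReal]
    have e5 : H (conj (pe e)) x w = conj (H (pe e) (conj x) (conj w)) := by
      rw [← hR, Complex.conj_conj, Complex.conj_conj]
    show (if conj e ∈ UU (1 / 8) ∧ |x.im| < s ∧ ‖w‖ < s / 2 then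
        (if w = 0 then (1 : ℂ) else H (pe (conj e)) x w / w ^ 2) else 0) =
      conj (if e ∈ UU (1 / 8) ∧ |(conj x).im| < s ∧ ‖conj w‖ < s / 2 then
        (if conj w = 0 then (1 : ℂ) else H (pe e) (conj x) (conj w) / (conj w) ^ 2) else 0)
    rw [e1, e2, e4, e5]
    simp only [e3]
    by_cases hc : e ∈ UU (1 / 8) ∧ |x.im| < s ∧ ‖w‖ < s / 2
    · rw [if_pos hc, if_pos hc]
      by_cases hw : w = 0
      · rw [if_pos hw, if_pos (by rw [hw, map_zero]), map_one]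
      · rw [if_neg hw, if_neg (by rwa [map_eq_zero]), map_div₀, map_pow, Complex.conj_conj]
    · rw [if_neg hc, if_neg hc, map_zero]
  · -- the generating function
    intro e a b he hab
    unfold gS
    have heU : (e : ℂ) ∈ UU (1 / 8) := by
      refine ⟨?_, ?_⟩
      · show |(e : ℂ).re| < 1 / 4 + 1 / 8
        rw [Complex.ofReal_re]
        linarith
      · show |(e : ℂ).im| < 1 / 8
        rw [Complex.ofReal_im, abs_zero]
        norm_num
    have hE : |E1 + s / 2 * e - E1| < s := by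
      rw [add_sub_cancel_left, abs_mul, abs_of_pos hρ]
      nlinarith [abs_nonneg e]
    have hEc : |E1 + s / 2 * e - E1| < c := by linarith
    by_cases hba : b = a
    · rw [hba, h0 _ _ hEc, sub_self]
      simp
    · have hne : b - a ≠ 0 := sub_ne_zero.2 hba
      have hn : ‖((b - a : ℝ) : ℂ)‖ < s / 2 := by
        rw [Complex.norm_real, Real.norm_eq_abs]
        exact hab
      have e0 : pe e = ((E1 + s / 2 * e : ℝ) : ℂ) := by
        rw [hpe]
        push_cast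
        ring
      have e1 : H (pe e) a ((b - a : ℝ) : ℂ) = ((S (E1 + s / 2 * e) a b : ℝ) : ℂ) := by
        rw [e0, hreal _ a (b - a) hE (by linarith), add_sub_cancel]
      show S (E1 + s / 2 * e) a b = (b - a) ^ 2 *
        (if (e : ℂ) ∈ UU (1 / 8) ∧ |(a : ℂ).im| < s ∧ ‖((b - a : ℝ) : ℂ)‖ < s / 2 then
        (if ((b - a : ℝ) : ℂ) = 0 then (1 : ℂ) else
          H (pe e) a ((b - a : ℝ) : ℂ) / ((b - a : ℝ) : ℂ) ^ 2) else 0).re
      rw [if_pos ⟨heU, by simpa using hs, hn⟩, if_neg (by exact_mod_cast hne), e1,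
        ← Complex.ofReal_pow, ← Complex.ofReal_div, Complex.ofReal_re]
      field_simp

end Pool.Agent.DB
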