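import Pool.Agent.DB.Arc
import Pool.Agent.DB.PIn

/-!
# MP_74f563_an, n = 2 autonomous (D2), file DB/Gen: the generating function

`Sf E x X` is the action (for `L + E`) of the arc, `Pin`, `Pfn` the initial and the final momentum along
the section, `pE E x` the momentum of the leaf of class `(1, 0)`, `S1` the normalised generating function.
Always `|E - E1| < c`, `|X - x| < c`.

PROOFS.  `Sf_ana`: `ac_ana`, `ν_ana`, `ϑ_ana`, `g_ana`.  `Sf_per`: `ν_per`, `ϑ_per`, `g_per`, `ac_per` with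
`k = (0, 1)`.
`Sf_dX`: `fv_curve` (file DB/Act) for the curve `u ↦ (g x, ν E x u)`, `τ u = ϑ E x u`, energy `E`: the end
point is `g u + (1, 0)` for `u` near `X`, with derivative `deriv g X`; the first component of `z u` is
constant.
`Sf_dx`: the curve `u ↦ (g u, ν E u X)`: the end point is constant, the first component of `z u` has the
derivative `deriv g x`.
(The derivatives of `ν`, `ϑ` in one variable exist because `ν`, `ϑ` are analytic; `en` holds near the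
point.)
`Sf_diag`: `ν_diag`, `ϑ_diag`, `act` at the point `g x`.
`Pin_diag`: `ν_diag`.  `Pfn_diag`: `Fl (T E (1,0)) (g x, V E (1,0) (g x)) = (g x + (1,0), V E (1,0) (g x))`
(`orb`, `inv`, `perV`), `pm_per` with `k = (1, 0)`.
`Pfn_eq`: the end point is `g X + (1, 0)`: `Fl .. = (g X, W) + (zz (1, 0), 0)`, `pm_per`.
`pE_ana`: `V_ana` for `E > E0`, `pm_ana`, `g_ana`.  `pE_per`: `g_per`, `perV`, `pm_per`, `dg_per`.
`S1_ana`: `∫ x..X = ∫ 0..X - ∫ 0..x`, `param_int_ana` (file DB/PIn), `m_ana`.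
`S1_per`: substitution, `pE_per`.  `S1_diag`: `Sf_diag`, `∫ x..x = 0`.
`S1_dX`, `S1_dx`: `Sf_dX`, `Sf_dx`, fundamental theorem of calculus (`pE E` is continuous).
`S1_dX_diag`: `Pfn_diag`.
(Models: NOne/BGen.lean, NOne/BGs.lean.)
-/

set_option autoImplicit false

namespace Pool.Agent.DB

open Set Filter Topology MeasureTheory

/-- the action of the arc -/
noncomputable def Sf (L : PP → ℝ) (Fl : ℝ → PP → PP) (g : ℝ → R2) (ν : ℝ → ℝ → ℝ → R2)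
    (ϑ : ℝ → ℝ → ℝ → ℝ) (E x X : ℝ) : ℝ :=
  Ac L Fl (ϑ E x X) (g x, ν E x X) + E * ϑ E x X

/-- the initial momentum along the section -/
noncomputable def Pin (L : PP → ℝ) (g : ℝ → R2) (ν : ℝ → ℝ → ℝ → R2) (E x X : ℝ) : ℝ :=
  pm L (g x, ν E x X) (deriv g x)

/-- the final momentum along the section -/
noncomputable def Pfn (L : PP → ℝ) (Fl : ℝ → PP → PP) (g : ℝ → R2) (ν : ℝ → ℝ → ℝ → R2)
    (ϑ : ℝ → ℝ → ℝ → ℝ) (E x X : ℝ) : ℝ :=
  pm L (Fl (ϑ E x X) (g x, ν E x X)) (deriv g X)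

/-- the momentum of the leaf of class `(1, 0)` along the section -/
noncomputable def pE (L : PP → ℝ) (V : ℝ → ℤ × ℤ → R2 → R2) (g : ℝ → R2) (E x : ℝ) : ℝ :=
  pm L (g x, V E (1, 0) (g x)) (deriv g x)

/-- the normalised generating function -/
noncomputable def S1 (L : PP → ℝ) (Fl : ℝ → PP → PP) (V : ℝ → ℤ × ℤ → R2 → R2)
    (m : ℝ → ℤ × ℤ → ℝ) (g : ℝ → R2) (ν : ℝ → ℝ → ℝ → R2) (ϑ : ℝ → ℝ → ℝ → ℝ) (E x X : ℝ) : ℝ :=
  Sf L Fl g ν ϑ E x X - m E (1, 0) - ∫ r in x..X, pE L V g E r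

variable {L : PP → ℝ} {Fl : ℝ → PP → PP} {E0 : ℝ} {V : ℝ → ℤ × ℤ → R2 → R2}
  {T m : ℝ → ℤ × ℤ → ℝ} {E1 : ℝ} {g : ℝ → R2} {τ s : R2 → ℝ} {c c1 : ℝ} {ν : ℝ → ℝ → ℝ → R2}
  {ϑ : ℝ → ℝ → ℝ → ℝ} {E x X : ℝ}

private theorem gn_abs (hE : |E - E1| < c) : 0 < c := (abs_nonneg _).trans_lt hE

private theorem gn_diag (hE : |E - E1| < c) (x : ℝ) : |x - x| < c := by
  rw [sub_self, abs_zero]
  exact gn_abs hE

private theorem gn_z01 : (zz (0, 1) : R2) = (0, 1) := by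
  simp [zz]

private theorem gn_z10 : (zz (1, 0) : R2) = (1, 0) := by
  simp [zz]

private theorem gn_g (hS : Sect (V E1 (1, 0)) (T E1 (1, 0)) g τ s) (x : ℝ) :
    g (x + 1) = g x + zz (0, 1) := by
  rw [hS.g_per, gn_z01]

private theorem gn_pair (a b v : R2) : ((a + b, v) : PP) = (a, v) + (b, 0) :=
  Prod.ext rfl (add_zero v).symm

private theorem gn_dg (hS : Sect (V E1 (1, 0)) (T E1 (1, 0)) g τ s) (x : ℝ) :
    HasDerivAt g (deriv g x) x :=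
  (hS.g_ana x trivial).differentiableAt.hasDerivAt

private theorem gn_z (hS : Sect (V E1 (1, 0)) (T E1 (1, 0)) g τ s)
    (hA : Arc L Fl E0 V T E1 g c c1 ν ϑ) (hE : |E - E1| < c) (hx : |X - x| < c) :
    AnalyticAt ℝ (fun q : ℝ × ℝ × ℝ => ((g q.2.1, ν q.1 q.2.1 q.2.2) : PP)) (E, x, X) := by
  refine AnalyticAt.prod ?_ (hA.ν_ana E x X hE hx)
  exact AnalyticAt.comp_of_eq (g := g) (f := fun q : ℝ × ℝ × ℝ => q.2.1) (hS.g_ana x trivial)
    (analyticAt_fst.comp analyticAt_snd) rfl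

theorem Sf_ana (hC : C0 L Fl E0 V T m) (hS : Sect (V E1 (1, 0)) (T E1 (1, 0)) g τ s)
    (hA : Arc L Fl E0 V T E1 g c c1 ν ϑ) (hE : |E - E1| < c) (hx : |X - x| < c) :
    AnalyticAt ℝ (fun q : ℝ × ℝ × ℝ => Sf L Fl g ν ϑ q.1 q.2.1 q.2.2) (E, x, X) := by
  have h1 : AnalyticAt ℝ (fun q : ℝ × ℝ × ℝ =>
      Ac L Fl (ϑ q.1 q.2.1 q.2.2) (g q.2.1, ν q.1 q.2.1 q.2.2)) (E, x, X) :=
    AnalyticAt.comp_of_eq (g := fun q : ℝ × PP => Ac L Fl q.1 q.2)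
      (f := fun q : ℝ × ℝ × ℝ => (ϑ q.1 q.2.1 q.2.2, (g q.2.1, ν q.1 q.2.1 q.2.2)))
      (hC.toDyn.ac_ana _ trivial) ((hA.ϑ_ana E x X hE hx).prod (gn_z hS hA hE hx)) rfl
  exact h1.add (analyticAt_fst.mul (hA.ϑ_ana E x X hE hx))

theorem Sf_per (hC : C0 L Fl E0 V T m) (hS : Sect (V E1 (1, 0)) (T E1 (1, 0)) g τ s)
    (hA : Arc L Fl E0 V T E1 g c c1 ν ϑ) (hE : |E - E1| < c) (hx : |X - x| < c) :
    Sf L Fl g ν ϑ E (x + 1) (X + 1) = Sf L Fl g ν ϑ E x X := by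
  unfold Sf
  rw [hA.ν_per E x X hE hx, hA.ϑ_per E x X hE hx, gn_g hS, gn_pair, hC.toDyn.ac_per]

private theorem gn_ev (hx : |X - x| < c) : ∀ᶠ u in 𝓝 X, |u - x| < c := by
  have h1 : Continuous fun u : ℝ => |u - x| := by fun_prop
  exact h1.continuousAt.eventually_lt continuousAt_const hx

private theorem gn_ev' (hx : |X - x| < c) : ∀ᶠ u in 𝓝 x, |X - u| < c := by
  have h1 : Continuous fun u : ℝ => |X - u| := by fun_prop
  exact h1.continuousAt.eventually_lt continuousAt_const hx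

theorem Sf_dX (hC : C0 L Fl E0 V T m) (hS : Sect (V E1 (1, 0)) (T E1 (1, 0)) g τ s)
    (hA : Arc L Fl E0 V T E1 g c c1 ν ϑ) (hE : |E - E1| < c) (hx : |X - x| < c) :
    HasDerivAt (fun X => Sf L Fl g ν ϑ E x X) (Pfn L Fl g ν ϑ E x X) X := by
  have hl : AnalyticAt ℝ (fun u : ℝ => ((E, x, u) : ℝ × ℝ × ℝ)) X :=
    analyticAt_const.prod (analyticAt_const.prod analyticAt_id)
  have hν : HasDerivAt (fun u => ν E x u) (deriv (fun u => ν E x u) X) X :=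
    (AnalyticAt.comp_of_eq (g := fun q : ℝ × ℝ × ℝ => ν q.1 q.2.1 q.2.2)
      (f := fun u : ℝ => ((E, x, u) : ℝ × ℝ × ℝ)) (hA.ν_ana E x X hE hx) hl
      rfl).differentiableAt.hasDerivAt
  have hϑ : HasDerivAt (fun u => ϑ E x u) (deriv (fun u => ϑ E x u) X) X :=
    (AnalyticAt.comp_of_eq (g := fun q : ℝ × ℝ × ℝ => ϑ q.1 q.2.1 q.2.2)
      (f := fun u : ℝ => ((E, x, u) : ℝ × ℝ × ℝ)) (hA.ϑ_ana E x X hE hx) hl
      rfl).differentiableAt.hasDerivAt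
  have hz : HasDerivAt (fun u => ((g x, ν E x u) : PP)) (0, deriv (fun u => ν E x u) X) X :=
    (hasDerivAt_const X (g x)).prodMk hν
  have hX : HasDerivAt (fun u => (Fl (ϑ E x u) (g x, ν E x u)).1) (deriv g X) X := by
    have h1 : HasDerivAt (fun u => g u + (1, 0)) (deriv g X) X := (gn_dg hS X).add_const _
    refine h1.congr_of_eventuallyEq ?_
    filter_upwards [gn_ev hx] with u hu
    exact hA.hit E x u hE hu
  have h := hC.toDyn.fv_curve hz hϑ (hasDerivAt_const X E) hX (hA.en E x X hE hx)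
  refine h.congr_deriv ?_
  simp [Pfn]

theorem Sf_dx (hC : C0 L Fl E0 V T m) (hS : Sect (V E1 (1, 0)) (T E1 (1, 0)) g τ s)
    (hA : Arc L Fl E0 V T E1 g c c1 ν ϑ) (hE : |E - E1| < c) (hx : |X - x| < c) :
    HasDerivAt (fun x => Sf L Fl g ν ϑ E x X) (-Pin L g ν E x X) x := by
  have hl : AnalyticAt ℝ (fun u : ℝ => ((E, u, X) : ℝ × ℝ × ℝ)) x :=
    analyticAt_const.prod (analyticAt_id.prod analyticAt_const)
  have hν : HasDerivAt (fun u => ν E u X) (deriv (fun u => ν E u X) x) x :=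
    (AnalyticAt.comp_of_eq (g := fun q : ℝ × ℝ × ℝ => ν q.1 q.2.1 q.2.2)
      (f := fun u : ℝ => ((E, u, X) : ℝ × ℝ × ℝ)) (hA.ν_ana E x X hE hx) hl
      rfl).differentiableAt.hasDerivAt
  have hϑ : HasDerivAt (fun u => ϑ E u X) (deriv (fun u => ϑ E u X) x) x :=
    (AnalyticAt.comp_of_eq (g := fun q : ℝ × ℝ × ℝ => ϑ q.1 q.2.1 q.2.2)
      (f := fun u : ℝ => ((E, u, X) : ℝ × ℝ × ℝ)) (hA.ϑ_ana E x X hE hx) hl
      rfl).differentiableAt.hasDerivAt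
  have hz : HasDerivAt (fun u => ((g u, ν E u X) : PP)) (deriv g x, deriv (fun u => ν E u X) x)
      x := (gn_dg hS x).prodMk hν
  have hX : HasDerivAt (fun u => (Fl (ϑ E u X) (g u, ν E u X)).1) 0 x := by
    have h1 : HasDerivAt (fun _ : ℝ => g X + (1, 0)) (0 : R2) x := hasDerivAt_const _ _
    refine h1.congr_of_eventuallyEq ?_
    filter_upwards [gn_ev' hx] with u hu
    exact hA.hit E u X hE hu
  have h := hC.toDyn.fv_curve hz hϑ (hasDerivAt_const x E) hX (hA.en E x X hE hx)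
  refine h.congr_deriv ?_
  simp [Pin]

theorem Sf_diag (hC : C0 L Fl E0 V T m) (hA : Arc L Fl E0 V T E1 g c c1 ν ϑ)
    (hE : |E - E1| < c) : Sf L Fl g ν ϑ E x x = m E (1, 0) := by
  unfold Sf
  rw [hA.ν_diag E x hE, hA.ϑ_diag E x hE]
  exact hC.act E (hA.gt E hE) (1, 0) prm_one (g x)

theorem Pin_diag (hA : Arc L Fl E0 V T E1 g c c1 ν ϑ) (hE : |E - E1| < c) :
    Pin L g ν E x x = pE L V g E x := by
  unfold Pin pE
  rw [hA.ν_diag E x hE]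

theorem Pfn_eq (hC : C0 L Fl E0 V T m) (hA : Arc L Fl E0 V T E1 g c c1 ν ϑ)
    (hE : |E - E1| < c) (hx : |X - x| < c) :
    Pfn L Fl g ν ϑ E x X = pm L (g X, (Fl (ϑ E x X) (g x, ν E x X)).2) (deriv g X) := by
  unfold Pfn
  have h1 : Fl (ϑ E x X) (g x, ν E x X) =
      (g X, (Fl (ϑ E x X) (g x, ν E x X)).2) + (zz (1, 0), 0) := by
    refine Prod.ext ?_ ?_
    · change _ = g X + zz (1, 0)
      rw [gn_z10]
      exact hA.hit E x X hE hx
    · change _ = (Fl (ϑ E x X) (g x, ν E x X)).2 + 0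
      rw [add_zero]
  conv_lhs => rw [h1]
  rw [hC.toDyn.pm_per]

theorem Pfn_diag (hC : C0 L Fl E0 V T m) (hA : Arc L Fl E0 V T E1 g c c1 ν ϑ)
    (hE : |E - E1| < c) : Pfn L Fl g ν ϑ E x x = pE L V g E x := by
  rw [Pfn_eq hC hA hE (gn_diag hE x), hA.ν_diag E x hE, hA.ϑ_diag E x hE]
  have hE' := hA.gt E hE
  rw [hC.inv E hE' (1, 0) prm_one, hC.orb E hE' (1, 0) prm_one,
    hC.perV E hE' (1, 0) prm_one]
  rfl

private theorem gn_V (hC : C0 L Fl E0 V T m) (hS : Sect (V E1 (1, 0)) (T E1 (1, 0)) g τ s)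
    (hE : E0 < E) : AnalyticAt ℝ (fun q : ℝ × ℝ => ((g q.2, V q.1 (1, 0) (g q.2)) : PP))
      (E, x) := by
  have h1 : AnalyticAt ℝ (fun q : ℝ × ℝ => g q.2) (E, x) :=
    AnalyticAt.comp_of_eq (g := g) (f := fun q : ℝ × ℝ => q.2) (hS.g_ana x trivial)
      analyticAt_snd rfl
  refine h1.prod ?_
  exact AnalyticAt.comp_of_eq (g := fun q : ℝ × R2 => V q.1 (1, 0) q.2)
    (f := fun q : ℝ × ℝ => (q.1, g q.2)) (V_ana hC hE prm_one (g x)) (analyticAt_fst.prod h1) rfl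

theorem pE_ana (hC : C0 L Fl E0 V T m) (hS : Sect (V E1 (1, 0)) (T E1 (1, 0)) g τ s)
    (hE : E0 < E) : AnalyticAt ℝ (fun q : ℝ × ℝ => pE L V g q.1 q.2) (E, x) := by
  have h1 : AnalyticAt ℝ (fun q : ℝ × ℝ => pm L (g q.2, V q.1 (1, 0) (g q.2))) (E, x) :=
    AnalyticAt.comp_of_eq (g := pm L)
      (f := fun q : ℝ × ℝ => ((g q.2, V q.1 (1, 0) (g q.2)) : PP)) (hC.toDyn.pm_ana _ trivial)
      (gn_V hC hS hE) rfl
  have h2 : AnalyticAt ℝ (fun q : ℝ × ℝ => deriv g q.2) (E, x) :=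
    AnalyticAt.comp_of_eq (g := deriv g) (f := fun q : ℝ × ℝ => q.2)
      (hS.g_ana.deriv x trivial) analyticAt_snd rfl
  exact AnalyticAt.comp_of_eq
    (g := fun q : (R2 →L[ℝ] ℝ) × R2 => ContinuousLinearMap.id ℝ (R2 →L[ℝ] ℝ) q.1 q.2)
    (f := fun q : ℝ × ℝ => (pm L (g q.2, V q.1 (1, 0) (g q.2)), deriv g q.2))
    ((ContinuousLinearMap.id ℝ (R2 →L[ℝ] ℝ)).analyticAt_bilinear _) (h1.prod h2) rfl

theorem pE_per (hC : C0 L Fl E0 V T m) (hS : Sect (V E1 (1, 0)) (T E1 (1, 0)) g τ s)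
    (hE : E0 < E) : pE L V g E (x + 1) = pE L V g E x := by
  unfold pE
  rw [dg_per hS, gn_g hS, hC.perV E hE (1, 0) prm_one, gn_pair, hC.toDyn.pm_per]

private theorem gn_pEc (hC : C0 L Fl E0 V T m) (hS : Sect (V E1 (1, 0)) (T E1 (1, 0)) g τ s)
    (hE : E0 < E) : Continuous (pE L V g E) := by
  refine continuous_iff_continuousAt.2 fun x => ?_
  have h1 : ContinuousAt (fun x : ℝ => ((E, x) : ℝ × ℝ)) x :=
    continuousAt_const.prodMk continuousAt_id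
  exact ContinuousAt.comp_of_eq (g := fun q : ℝ × ℝ => pE L V g q.1 q.2)
    (f := fun x : ℝ => ((E, x) : ℝ × ℝ)) (pE_ana hC hS hE (x := x)).continuousAt h1 rfl

theorem S1_ana (hC : C0 L Fl E0 V T m) (hS : Sect (V E1 (1, 0)) (T E1 (1, 0)) g τ s)
    (hA : Arc L Fl E0 V T E1 g c c1 ν ϑ) (hE : |E - E1| < c) (hx : |X - x| < c) :
    AnalyticAt ℝ (fun q : ℝ × ℝ × ℝ => S1 L Fl V m g ν ϑ q.1 q.2.1 q.2.2) (E, x, X) := by
  have hG : ∀ y : ℝ, AnalyticAt ℝ (fun q : ℝ × ℝ => ∫ r in (0 : ℝ)..q.2, pE L V g q.1 r)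
      (E, y) := fun y =>
    param_int_ana (f := pE L V g) (gn_abs hE)
      (fun E' x' hE' => pE_ana hC hS (hA.gt E' hE')) E y hE
  have h1 : AnalyticAt ℝ (fun q : ℝ × ℝ × ℝ => ∫ r in (0 : ℝ)..q.2.2, pE L V g q.1 r)
      (E, x, X) :=
    AnalyticAt.comp_of_eq (g := fun q : ℝ × ℝ => ∫ r in (0 : ℝ)..q.2, pE L V g q.1 r)
      (f := fun q : ℝ × ℝ × ℝ => (q.1, q.2.2)) (hG X)
      (analyticAt_fst.prod (analyticAt_snd.comp analyticAt_snd)) rfl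
  have h2 : AnalyticAt ℝ (fun q : ℝ × ℝ × ℝ => ∫ r in (0 : ℝ)..q.2.1, pE L V g q.1 r)
      (E, x, X) :=
    AnalyticAt.comp_of_eq (g := fun q : ℝ × ℝ => ∫ r in (0 : ℝ)..q.2, pE L V g q.1 r)
      (f := fun q : ℝ × ℝ × ℝ => (q.1, q.2.1)) (hG x)
      (analyticAt_fst.prod (analyticAt_fst.comp analyticAt_snd)) rfl
  have h3 : AnalyticAt ℝ (fun q : ℝ × ℝ × ℝ => m q.1 (1, 0)) (E, x, X) :=
    AnalyticAt.comp_of_eq (g := fun E => m E (1, 0)) (f := fun q : ℝ × ℝ × ℝ => q.1)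
      (m_ana hC (hA.gt E hE) prm_one) analyticAt_fst rfl
  have h4 := ((Sf_ana hC hS hA hE hx).sub h3).sub (h1.sub h2)
  refine h4.congr ?_
  have h5 : ∀ᶠ q : ℝ × ℝ × ℝ in 𝓝 (E, x, X), |q.1 - E1| < c := by
    have h6 : Continuous fun q : ℝ × ℝ × ℝ => |q.1 - E1| := by fun_prop
    exact h6.continuousAt.eventually_lt continuousAt_const hE
  filter_upwards [h5] with q hq
  have hc := gn_pEc hC hS (hA.gt q.1 hq)
  change Sf L Fl g ν ϑ q.1 q.2.1 q.2.2 - m q.1 (1, 0) -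
    ((∫ r in (0 : ℝ)..q.2.2, pE L V g q.1 r) - ∫ r in (0 : ℝ)..q.2.1, pE L V g q.1 r) = _
  rw [intervalIntegral.integral_interval_sub_left (hc.intervalIntegrable _ _)
    (hc.intervalIntegrable _ _)]
  rfl

theorem S1_per (hC : C0 L Fl E0 V T m) (hS : Sect (V E1 (1, 0)) (T E1 (1, 0)) g τ s)
    (hA : Arc L Fl E0 V T E1 g c c1 ν ϑ) (hE : |E - E1| < c) (hx : |X - x| < c) :
    S1 L Fl V m g ν ϑ E (x + 1) (X + 1) = S1 L Fl V m g ν ϑ E x X := by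
  unfold S1
  rw [Sf_per hC hS hA hE hx, ← intervalIntegral.integral_comp_add_right]
  simp only [pE_per hC hS (hA.gt E hE)]

theorem S1_diag (hC : C0 L Fl E0 V T m) (hA : Arc L Fl E0 V T E1 g c c1 ν ϑ)
    (hE : |E - E1| < c) : S1 L Fl V m g ν ϑ E x x = 0 := by
  unfold S1
  rw [Sf_diag hC hA hE, intervalIntegral.integral_same]
  ring

theorem S1_dX (hC : C0 L Fl E0 V T m) (hS : Sect (V E1 (1, 0)) (T E1 (1, 0)) g τ s)
    (hA : Arc L Fl E0 V T E1 g c c1 ν ϑ) (hE : |E - E1| < c) (hx : |X - x| < c) :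
    HasDerivAt (fun X => S1 L Fl V m g ν ϑ E x X) (Pfn L Fl g ν ϑ E x X - pE L V g E X) X := by
  have hc := gn_pEc hC hS (hA.gt E hE)
  exact ((Sf_dX hC hS hA hE hx).sub_const (m E (1, 0))).sub
    (hc.integral_hasStrictDerivAt x X).hasDerivAt

theorem S1_dx (hC : C0 L Fl E0 V T m) (hS : Sect (V E1 (1, 0)) (T E1 (1, 0)) g τ s)
    (hA : Arc L Fl E0 V T E1 g c c1 ν ϑ) (hE : |E - E1| < c) (hx : |X - x| < c) :
    HasDerivAt (fun x => S1 L Fl V m g ν ϑ E x X) (pE L V g E x - Pin L g ν E x X) x := by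
  have hc := gn_pEc hC hS (hA.gt E hE)
  have h1 : HasDerivAt (fun x => ∫ r in x..X, pE L V g E r) (-pE L V g E x) x := by
    have h2 := (hc.integral_hasStrictDerivAt X x).hasDerivAt.neg
    refine h2.congr_of_eventuallyEq (Filter.Eventually.of_forall fun y => ?_)
    exact intervalIntegral.integral_symm X y
  have h3 := ((Sf_dx hC hS hA hE hx).sub_const (m E (1, 0))).sub h1
  refine h3.congr_deriv ?_
  ring

theorem S1_dX_diag (hC : C0 L Fl E0 V T m) (hS : Sect (V E1 (1, 0)) (T E1 (1, 0)) g τ s)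
    (hA : Arc L Fl E0 V T E1 g c c1 ν ϑ) (hE : |E - E1| < c) :
    deriv (fun X => S1 L Fl V m g ν ϑ E x X) x = 0 := by
  rw [(S1_dX hC hS hA hE (gn_diag hE x)).deriv, Pfn_diag hC hA hE, sub_self]

end Pool.Agent.DB
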