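import Pool.Agent.DB.Orp
import Pool.Agent.DB.Coo
import Pool.Agent.NOne.KDefs

/-!
# MP_74f563_an, n = 2 autonomous (D2), file DB/HZu: the hypothesis `HZ`, uniformly in the energy

`chain_mini`.  PROOF.  `h' = (k', p')`, `k = n k'`, `p = n p'`.  `mini` (C4) with `N = k`,
`z j = (g (X j) + (j, 0), ν E (X j) (X (j+1)))`, `τ j = ϑ E (X j) (X (j+1))` for `j < k`:
`Fl (τ j) (z j) = Fl (τ j) (g (X j), ν ..) + (zz (j, 0), 0)` (`fper`), whose position is
`g (X (j+1)) + (j + 1, 0)` (`hit`).  `(z k).1 = g (X k) + (k, 0) = g (X 0 + p) + (k, 0) = (z 0).1 +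
n • zz (k', p')`
(`g_per` iterated).  `Ac` is invariant (`ac_per`), so the sum is `∑ Sf`.

`sum_S1`.  PROOF.  `∑_{j<k} S1 (X j) (X (j+1)) = ∑ Sf - k m E (1, 0) - ∫_{X 0}^{X k} pE E`
(`intervalIntegral.sum_integral_adjacent_intervals`, `pE E` continuous), and
`∫_{x}^{x + p} pE E = ∫_0^p pE E` (periodicity `pE_per`:
`Function.Periodic.intervalIntegral_add_eq`).
(Model: `sum_S1`, `per_int_eq` in NOne/BHZ.lean.)

`hz_unif`.  PROOF.  Let `δ` be from `orb_exists` (file DB/Orb).  By `V_unif` (file DB/CSv) there is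
`c' ∈ (0, c)` with `‖V E (1, 0) x - V E1 (1, 0) x‖ < δ / 2` for `|E - E1| ≤ c'`.  Let `μ`, `M` be
from `coord_lip`
(file DB/Coo) for `c'`, `ρ0 = c / M`.  Let `0 < d < ρ0` and let `δ'` be from `inc_small` for `η = μ
d`.  Let `κ`
be from `conv_unif` on `[E1 - c', E1 + c']` (`E1 - c' > E0` by `Arc.gt`) for the distance `min (δ /
2) δ'`.
Let `|E - E1| ≤ c'`, `k, p > 0`, `p / k < κ`, `a ∈ ℝ`; `n = gcd k p`, `k = n k'`, `p = n p'`, `k'`,
`p'` coprime,
`p' < κ k'`.  So `‖V E (k', p') x - V E (1, 0) x‖ < min (δ/2) δ'` and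
`‖V E (k', p') x - V E1 (1, 0) x‖ < δ` for all `x`.  `orb_exists` gives configurations of class
`(k', p')` through
every point; let `y` be the one with `y 0 = ξ E a`.  `y (i + k') = y i + p'`, so `y k = y 0 + p`. 
`y` is
increasing (`cfg_lt`), and `|y (i+1) - y i| < μ d` (`inc_small` with `ν E (y i) (y (i+1)) = V E
(k', p') (g (y i))`).
Let `a i` be the point with `ξ E (a i) = y i` (`coord_surj`, `coord_mono`): `a 0 = a`,
`a k = a + p` (`coord_nat`), `0 < a (i+1) - a i < d` (`coord_mono`, `coord_lip`).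
Minimality: let `b k = b 0 + p`, `|b (j+1) - b j| < d`; `X j = ξ E (b j)`: `X k = X 0 + p`,
`|X (j+1) - X j| ≤ M |b (j+1) - b j| < c`.  `chain_mini`: `∑ Sf (X j) (X (j+1)) ≥ n m E (k', p')`,
and
`∑_{i<k} Sf (y i) (y (i+1)) = n m E (k', p')` (`Cfg.sum`, `Cfg.per` and `Sf_per` iterated; split
the sum
over `k = n k'` into `n` blocks).  `sum_S1` for both (the same constants), and divide by `β E ^ 2 >
0`.
-/

set_option autoImplicit false

namespace Pool.Agent.DB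

open Set Filter Topology MeasureTheory

variable {L : PP → ℝ} {Fl : ℝ → PP → PP} {E0 : ℝ} {V : ℝ → ℤ × ℤ → R2 → R2}
  {T m : ℝ → ℤ × ℤ → ℝ} {E1 : ℝ} {g : ℝ → R2} {τ s : R2 → ℝ} {c c1 b : ℝ}
  {ν : ℝ → ℝ → ℝ → R2} {ϑ : ℝ → ℝ → ℝ → ℝ} {ξ : ℝ → ℝ → ℝ} {β : ℝ → ℝ}

private theorem hzu_gnat (hS : Sect (V E1 (1, 0)) (T E1 (1, 0)) g τ s) (x : ℝ) (n : ℕ) :
    g (x + n) = g x + (0, (n : ℝ)) := by
  induction n with
  | zero =>
    rw [Nat.cast_zero, add_zero]
    exact (add_zero (g x)).symm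
  | succ n ih =>
    have h1 : x + ((n + 1 : ℕ) : ℝ) = (x + n) + 1 := by
      push_cast
      ring
    rw [h1, hS.g_per, ih, add_assoc]
    congr 1
    ext
    · simp
    · simp

theorem chain_mini (hC : C0 L Fl E0 V T m) (hS : Sect (V E1 (1, 0)) (T E1 (1, 0)) g τ s)
    (hA : Arc L Fl E0 V T E1 g c c1 ν ϑ) {E : ℝ} (hE : |E - E1| < c) {n k p : ℕ} (hn : 0 < n)
    (hk : 0 < k) (hkp : Nat.Coprime k p) {X : ℕ → ℝ} (hX : X (n * k) = X 0 + (n * p : ℕ))
    (hi : ∀ j < n * k, |X (j + 1) - X j| < c) :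
    n * m E ((k : ℤ), (p : ℤ)) ≤
      ∑ j ∈ Finset.range (n * k), Sf L Fl g ν ϑ E (X j) (X (j + 1)) := by
  have hD : Dyn L Fl := hC.toDyn
  have hz : ∀ j : ℕ, zz ((j : ℤ), 0) = ((j : ℝ), 0) := fun j => by
    unfold zz
    simp
  have h1 := hC.mini E (hA.gt E hE) ((k : ℤ), (p : ℤ)) (prm_km hkp) n (n * k)
    (fun j => ((g (X j), ν E (X j) (X (j + 1))) : PP) + (zz ((j : ℤ), 0), 0))
    (fun j => ϑ E (X j) (X (j + 1))) hn (Nat.mul_pos hn hk)
    (fun i h => hA.ϑ_pos E _ _ hE (hi i h)) (fun i h => by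
      rw [hD.fper]
      change (Fl (ϑ E (X i) (X (i + 1))) (g (X i), ν E (X i) (X (i + 1)))).1 + zz ((i : ℤ), 0) =
        g (X (i + 1)) + zz (((i + 1 : ℕ) : ℤ), 0)
      rw [hA.hit E _ _ hE (hi i h), add_assoc, hz, hz]
      congr 1
      ext
      · simp [add_comm]
      · simp)
    (by
      change g (X (n * k)) + zz (((n * k : ℕ) : ℤ), 0) =
        (g (X 0) + zz (((0 : ℕ) : ℤ), 0)) + (n : ℝ) • zz ((k : ℤ), (p : ℤ))
      rw [hX, hzu_gnat hS, hz, hz, add_assoc, add_assoc]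
      congr 1
      unfold zz
      ext
      · simp
      · simp)
  refine h1.trans (le_of_eq (Finset.sum_congr rfl fun i _ => ?_))
  rw [hD.ac_per]
  rfl

theorem sum_S1 (hC : C0 L Fl E0 V T m) (hS : Sect (V E1 (1, 0)) (T E1 (1, 0)) g τ s)
    (hA : Arc L Fl E0 V T E1 g c c1 ν ϑ) {E : ℝ} (hE : |E - E1| < c) {k p : ℕ} {X : ℕ → ℝ}
    (hX : X k = X 0 + p) :
    ∑ j ∈ Finset.range k, S1 L Fl V m g ν ϑ E (X j) (X (j + 1)) =
      ∑ j ∈ Finset.range k, Sf L Fl g ν ϑ E (X j) (X (j + 1)) - k * m E (1, 0) -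
        ∫ r in (0 : ℝ)..p, pE L V g E r := by
  have hE0 : E0 < E := hA.gt E hE
  have hcont : Continuous (pE L V g E) := by
    refine continuous_iff_continuousAt.2 fun x => ?_
    have h1 : AnalyticAt ℝ (fun q : ℝ × ℝ => pE L V g q.1 q.2) (E, x) := pE_ana hC hS hE0
    have h2 : ContinuousAt (fun x : ℝ => ((E, x) : ℝ × ℝ)) x := by fun_prop
    exact ContinuousAt.comp (g := fun q : ℝ × ℝ => pE L V g q.1 q.2) h1.continuousAt h2
  have hper : Function.Periodic (pE L V g E) 1 := fun x => pE_per hC hS hE0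
  have e1 : ∑ j ∈ Finset.range k, ∫ r in X j..X (j + 1), pE L V g E r =
      ∫ r in X 0..X k, pE L V g E r :=
    intervalIntegral.sum_integral_adjacent_intervals fun _ _ => hcont.intervalIntegrable _ _
  have h2 := hper.nat_mul p
  rw [mul_one] at h2
  have e2 : ∫ r in X 0..X 0 + p, pE L V g E r = ∫ r in (0 : ℝ)..0 + p, pE L V g E r :=
    h2.intervalIntegral_add_eq (X 0) 0
  rw [zero_add] at e2
  rw [← e2, ← hX, ← e1]
  simp only [S1, Finset.sum_sub_distrib, Finset.sum_const, Finset.card_range, nsmul_eq_mul]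

/-- periodicity of a configuration, iterated -/
private theorem cfg_per {E : ℝ} {k p : ℕ} {y : ℕ → ℝ} (hy : Cfg L Fl V m g c ν ϑ E k p y)
    (n i : ℕ) : y (n * k + i) = y i + (n * p : ℕ) := by
  induction n with
  | zero => simp
  | succ n ih =>
    have h1 : (n + 1) * k + i = (n * k + i) + k := by ring
    rw [h1, hy.per, ih]
    push_cast
    ring

private theorem sf_nat (hC : C0 L Fl E0 V T m) (hS : Sect (V E1 (1, 0)) (T E1 (1, 0)) g τ s)
    (hA : Arc L Fl E0 V T E1 g c c1 ν ϑ) {E x X : ℝ} (hE : |E - E1| < c) (hx : |X - x| < c)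
    (n : ℕ) : Sf L Fl g ν ϑ E (x + n) (X + n) = Sf L Fl g ν ϑ E x X := by
  induction n with
  | zero => simp
  | succ n ih =>
    have h1 : x + ((n + 1 : ℕ) : ℝ) = (x + n) + 1 := by
      push_cast
      ring
    have h2 : X + ((n + 1 : ℕ) : ℝ) = (X + n) + 1 := by
      push_cast
      ring
    rw [h1, h2, Sf_per hC hS hA hE, ih]
    rw [add_sub_add_right_eq_sub]
    exact hx

private theorem cfg_sum (hC : C0 L Fl E0 V T m) (hS : Sect (V E1 (1, 0)) (T E1 (1, 0)) g τ s)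
    (hA : Arc L Fl E0 V T E1 g c c1 ν ϑ) {E : ℝ} (hE : |E - E1| < c) {k p : ℕ} {y : ℕ → ℝ}
    (hy : Cfg L Fl V m g c ν ϑ E k p y) (n : ℕ) :
    ∑ j ∈ Finset.range (n * k), Sf L Fl g ν ϑ E (y j) (y (j + 1)) =
      n * m E ((k : ℤ), (p : ℤ)) := by
  induction n with
  | zero => simp
  | succ n ih =>
    have h1 : (n + 1) * k = n * k + k := by ring
    rw [h1, Finset.sum_range_add, ih]
    have h2 : ∑ x ∈ Finset.range k, Sf L Fl g ν ϑ E (y (n * k + x)) (y (n * k + x + 1)) =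
        m E ((k : ℤ), (p : ℤ)) := by
      rw [← hy.sum]
      refine Finset.sum_congr rfl fun i _ => ?_
      rw [add_assoc, cfg_per hy, cfg_per hy, sf_nat hC hS hA hE (hy.inc i)]
    rw [h2]
    push_cast
    ring

theorem hz_unif (hC : C0 L Fl E0 V T m) (hE1 : E0 < E1)
    (hS : Sect (V E1 (1, 0)) (T E1 (1, 0)) g τ s) (hA : Arc L Fl E0 V T E1 g c c1 ν ϑ)
    (hb0 : 0 < b)
    (hb : ∀ E x X : ℝ, |E - E1| < c → |X - x| < c → b ≤ deriv (fun X => Pin L g ν E x X) X)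
    (hX : Coord (S1 L Fl V m g ν ϑ) E1 c ξ β) :
    ∃ c' ρ0 : ℝ, 0 < c' ∧ c' < c ∧ 0 < ρ0 ∧ ∀ d, 0 < d → d < ρ0 → ∃ κ > 0, ∀ E,
      |E - E1| ≤ c' → NOne.HZ (fun a b => S1 L Fl V m g ν ϑ E (ξ E a) (ξ E b) / β E ^ 2) d κ := by
  obtain ⟨δ, hδ, horb⟩ := orb_exists hC hS hA
  obtain ⟨κ1, hκ1, hV⟩ := V_unif hC hE1 prm_one (half_pos hδ)
  have hc : 0 < c := hA.c_pos
  obtain ⟨c', hc'0, hc'c, hc'κ⟩ : ∃ c' : ℝ, 0 < c' ∧ c' < c ∧ c' < κ1 := by
    refine ⟨min (c / 2) (κ1 / 2), lt_min (half_pos hc) (half_pos hκ1), ?_, ?_⟩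
    · exact (min_le_left _ _).trans_lt (half_lt_self hc)
    · exact (min_le_right _ _).trans_lt (half_lt_self hκ1)
  obtain ⟨μ, M, hμ, hM, hlip⟩ := coord_lip hX hc'c
  refine ⟨c', c / M, hc'0, hc'c, div_pos hc hM, fun d hd hdM => ?_⟩
  obtain ⟨δ', hδ', hinc⟩ := inc_small hC hS hA hb0 hb (mul_pos hμ hd)
  have hlow : E0 < E1 - c' := by
    refine hA.gt _ ?_
    have h1 : E1 - c' - E1 = -c' := by ring
    rw [h1, abs_neg, abs_of_pos hc'0]
    exact hc'c
  obtain ⟨κ, hκ, hconv⟩ := conv_unif hC (b := E1 + c') hlow (lt_min (half_pos hδ) hδ')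
  refine ⟨κ, hκ, fun E hE k p hk hp hkp a => ?_⟩
  have hEc : |E - E1| < c := hE.trans_lt hc'c
  have hEκ : |E - E1| < κ1 := hE.trans_lt hc'κ
  have hEI : E ∈ Icc (E1 - c') (E1 + c') := by
    have h1 := abs_le.1 hE
    exact ⟨by linarith [h1.1], by linarith [h1.2]⟩
  obtain ⟨k', p', hcop, hk', hp'⟩ := Nat.exists_coprime k p
  set n : ℕ := Nat.gcd k p with hn
  have hn0 : 0 < n := Nat.gcd_pos_of_pos_left p hk
  have hk0 : 0 < k' := by
    rcases Nat.eq_zero_or_pos k' with h | h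
    · rw [h, zero_mul] at hk'
      omega
    · exact h
  have hp0 : 0 < p' := by
    rcases Nat.eq_zero_or_pos p' with h | h
    · rw [h, zero_mul] at hp'
      omega
    · exact h
  rw [mul_comm] at hk' hp'
  have hkR : (0 : ℝ) < k := Nat.cast_pos.2 hk
  have hnR : (0 : ℝ) < n := Nat.cast_pos.2 hn0
  have hlt : (p' : ℝ) < κ * k' := by
    rw [div_lt_iff₀ hkR] at hkp
    have h1 : (k : ℝ) = n * k' := by
      conv_lhs => rw [hk']
      push_cast
      ring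
    have h2 : (p : ℝ) = n * p' := by
      conv_lhs => rw [hp']
      push_cast
      ring
    rw [h1, h2] at hkp
    have h3 : (n : ℝ) * p' < n * (κ * k') := by linarith
    exact lt_of_mul_lt_mul_left h3 hnR.le
  have hV1 : ∀ x, ‖V E ((k' : ℤ), (p' : ℤ)) x - V E (1, 0) x‖ < min (δ / 2) δ' :=
    hconv E hEI k' p' hk0 hp0 hcop hlt
  have hV2 : ∀ x, ‖V E ((k' : ℤ), (p' : ℤ)) x - V E1 (1, 0) x‖ < δ := by
    intro x
    have h1 := (hV1 x).trans_le (min_le_left _ _)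
    have h2 := (hV E hEκ).2 x
    have h3 := norm_add_le (V E ((k' : ℤ), (p' : ℤ)) x - V E (1, 0) x)
      (V E (1, 0) x - V E1 (1, 0) x)
    rw [sub_add_sub_cancel] at h3
    linarith
  have hex := horb E hEc k' p' hk0 hp0 hcop hV2
  obtain ⟨y, hy0, hy⟩ := hex (ξ E a)
  have hylt : ∀ i, y i < y (i + 1) := fun i =>
    cfg_lt hC hS hA hb0 hb hEc hk0 hp0 hcop hex hy i
  choose A hA' using fun i => coord_surj hX hEc (y i)
  have hmono := coord_mono hX hEc
  have hyk : y (n * k') = y 0 + (n * p' : ℕ) := by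
    have h1 := cfg_per hy n 0
    rwa [add_zero] at h1
  have hA0 : A 0 = a := hmono.injective (by rw [hA', hy0])
  have hAk : A k = a + p := hmono.injective (by
    rw [hA', coord_nat hX hEc, hk', hyk, hy0, ← hp'])
  have hyinc : ∀ i, |y (i + 1) - y i| < μ * d := by
    intro i
    refine hinc E (y i) (y (i + 1)) hEc (hy.inc i) ?_
    rw [hy.vel]
    exact (hV1 _).trans_le (min_le_right _ _)
  refine ⟨A, hA0, hAk, fun j _ => ?_, fun B hB hBi => ?_⟩
  · have h1 : 0 < A (j + 1) - A j := by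
      have h2 : ξ E (A j) < ξ E (A (j + 1)) := by
        rw [hA', hA']
        exact hylt j
      exact sub_pos.2 (hmono.lt_iff_lt.1 h2)
    refine ⟨h1, ?_⟩
    have h3 := (hlip E (A j) (A (j + 1)) hE).1
    rw [hA', hA', abs_of_pos h1] at h3
    exact lt_of_mul_lt_mul_left (h3.trans_lt (hyinc j)) hμ.le
  · simp only [hA']
    rw [← Finset.sum_div, ← Finset.sum_div]
    refine div_le_div_of_nonneg_right ?_ (sq_nonneg _)
    have hYk : ξ E (B k) = ξ E (B 0) + p := by rw [hB, coord_nat hX hEc]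
    have hyk2 : y k = y 0 + p := by
      rw [hk', hyk, ← hp']
    rw [sum_S1 hC hS hA hEc hyk2, sum_S1 hC hS hA hEc (X := fun j => ξ E (B j)) hYk]
    have h5 : ∑ j ∈ Finset.range k, Sf L Fl g ν ϑ E (y j) (y (j + 1)) =
        n * m E ((k' : ℤ), (p' : ℤ)) := by
      conv_lhs => rw [hk']
      exact cfg_sum hC hS hA hEc hy n
    have h6 : n * m E ((k' : ℤ), (p' : ℤ)) ≤
        ∑ j ∈ Finset.range k, Sf L Fl g ν ϑ E (ξ E (B j)) (ξ E (B (j + 1))) := by
      conv_rhs => rw [hk']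
      refine chain_mini hC hS hA hEc hn0 hk0 hcop (X := fun j => ξ E (B j)) ?_ fun j hj => ?_
      · rw [← hk', ← hp']
        exact hYk
      · rw [← hk'] at hj
        have h7 := (hlip E (B j) (B (j + 1)) hE).2
        have h8 := hBi j hj
        refine h7.trans_lt ?_
        have h9 : M * |B (j + 1) - B j| < M * (c / M) :=
          mul_lt_mul_of_pos_left (h8.trans hdM) hM
        rwa [mul_div_cancel₀ _ hM.ne'] at h9
    linarith

end Pool.Agent.DB
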