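import Pool.Agent.DB.Ban

/-!
# MP_74f563_an, n = 2 autonomous (D2), file DB/Jac: the band is a local diffeomorphism

PROOF of `zb_jac`.  Let `w = (e, θ, t) ∈ Dom`, `E = E1 + c2 e`.  The map
`(s, w) ↦ Fl s (Zb w)` is differentiable at `(0, w)` with derivative
`(ds, dw) ↦ ds • vf Fl (Zb w) + D Zb w dw` (`Fl 0 = id`, `fl_deriv`).  Domain and target have
dimension 4, so
injectivity is enough.  Let `ds • vf Fl (Zb w) + D Zb w dw = 0`, `dw = (de, dθ, dt)`.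
(1) Apply `fderiv ℝ (en L) (Zb w)`: `en_vf`, and `en L (Zb w) = E1 + c2 w.1` on the open set `Dom`
(`zb_en`):
`c2 de = 0`, `de = 0`.
(2) First components: `ds • ν + dy • deriv g (yy w) = 0` where `ν = (Zb w).2` (`vf_fst`) and
`dy = D yy w dw`.  By `Arc.ind` (`near`): `ds = 0`, `dy = 0`.  So `D Zb w dw = 0`.
(3) `p w = pm L (Zb w) (deriv g (yy w)) = Pin E (yy w) (yp w)` is differentiable on `Dom`, and
`D p w dw = (D (pm L) (Zb w) (D Zb w dw)) (deriv g) + pm L (Zb w) (dy • deriv (deriv g) (yy w)) =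
0`.
(4) `yy w = ξ E (x e θ t)` and `de = 0`: `0 = dy = ξ' dx`, `ξ' = deriv (ξ E) (x e θ t) > 0`, where
`dx = x_θ dθ + x_t dt` (partial derivatives of `x e`).  So `dx = 0`.
(5) With `e` fixed: for `(z, τ)` near `(θ, t)` let
`Q (z, τ) = deriv (fun Y => gS (B e) (x e (z - r (1 + τ)) τ) Y) (x e z τ)`, the momentum of
`LeafC.twist`.  By
`LeafC.el`: `Q (z, τ) = - deriv (fun y => gS (B e) y (x e (z + r (1 + τ)) τ)) (x e z τ)`, and (see
`el_match` in
file DB/Ban) this is `(Pin E (yy w) (yp w) - pE E (yy w)) * deriv (ξ E) (x e z τ) / β E ^ 2` with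
`w = (e, z, τ)`, so `Q = (p - pE E yy) ξ' / β²`.  Its derivative in the direction `(dθ, dt)` is
`(dp - ∂pE dy) ξ' / β² + (p - pE) ξ'' dx / β² = 0` by (3), (2), (4).
(6) So `Q_θ dθ + Q_t dt = 0`, `x_θ dθ + x_t dt = 0` and `Q_t x_θ - Q_θ x_t > 0` (`LeafC.twist`):
`dθ = dt = 0`.  (`Q` is differentiable by the formula of (5); the partial derivatives in
`LeafC.twist` are
those of `Q` and of `x e`.)
(Model: NOne/BJac.lean.)

`band_of_leaf`: the fields are the theorems of file DB/Ban and `zb_jac`.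
-/

set_option autoImplicit false

namespace Pool.Agent.DB

open Set Filter Topology MeasureTheory Pool.Agent.NOne
open scoped ContDiff

variable {L : PP → ℝ} {Fl : ℝ → PP → PP} {E0 : ℝ} {V : ℝ → ℤ × ℤ → R2 → R2}
  {T m : ℝ → ℤ × ℤ → ℝ} {E1 : ℝ} {g : ℝ → R2} {τ s : R2 → ℝ} {c c1 c2 ρ r : ℝ}
  {ν : ℝ → ℝ → ℝ → R2} {ϑ : ℝ → ℝ → ℝ → ℝ} {ξ : ℝ → ℝ → ℝ} {β : ℝ → ℝ} {B : ℂ → ℂ → ℂ → ℂ}
  {x : ℝ → ℝ → ℝ → ℝ} {w : ℝ × ℝ × ℝ}

private theorem jac_G (hD : Dyn L Fl) (z : PP) :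
    HasFDerivAt (fun q : ℝ × PP => Fl q.1 q.2)
      ((ContinuousLinearMap.fst ℝ ℝ PP).smulRight (vf Fl z) + ContinuousLinearMap.snd ℝ ℝ PP)
      (0, z) := by
  have h := ((hD.fsmooth 1).differentiable one_ne_zero ((0 : ℝ), z)).hasFDerivAt
  set D := fderiv ℝ (fun q : ℝ × PP => Fl q.1 q.2) ((0 : ℝ), z) with hDd
  have h1 : D (1, 0) = vf Fl z := by
    have h2 : HasDerivAt (fun t : ℝ => ((t, z) : ℝ × PP)) (1, 0) 0 :=
      (hasDerivAt_id (0 : ℝ)).prodMk (hasDerivAt_const (0 : ℝ) z)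
    have h3 : HasDerivAt (fun t : ℝ => Fl t z) (D (1, 0)) 0 :=
      HasFDerivAt.comp_hasDerivAt (l := fun q : ℝ × PP => Fl q.1 q.2) (0 : ℝ) h h2
    have h4 := hD.fl_deriv 0 z
    rw [hD.zero] at h4
    exact h3.unique h4
  have h5 : ∀ b : PP, D (0, b) = b := by
    intro b
    have h6 : HasFDerivAt (fun y : PP => ((0 : ℝ), y)) (ContinuousLinearMap.inr ℝ ℝ PP) z :=
      hasFDerivAt_prodMk_right (0 : ℝ) z
    have h7 : HasFDerivAt (fun y : PP => Fl 0 y) (D.comp (ContinuousLinearMap.inr ℝ ℝ PP)) z :=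
      HasFDerivAt.comp z h h6
    have h8 : (fun y : PP => Fl 0 y) = id := funext fun y => hD.zero y
    rw [h8] at h7
    have h9 := h7.unique (hasFDerivAt_id z)
    exact congrArg (fun f : PP →L[ℝ] PP => f b) h9
  have h10 : D = (ContinuousLinearMap.fst ℝ ℝ PP).smulRight (vf Fl z) +
      ContinuousLinearMap.snd ℝ ℝ PP := by
    apply ContinuousLinearMap.ext
    rintro ⟨a, b⟩
    have e : ((a, b) : ℝ × PP) = a • ((1 : ℝ), (0 : PP)) + ((0 : ℝ), b) := by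
      ext1
      · simp
      · simp
    change D (a, b) = a • vf Fl z + b
    rw [e, map_add, map_smul, h1, h5]
  rw [← h10]
  exact h

private theorem jac_slice {F : ℝ → ℝ → ℝ} {E a : ℝ}
    (hF : AnalyticAt ℝ (fun q : ℝ × ℝ => F q.1 q.2) (E, a)) : AnalyticAt ℝ (F E) a :=
  AnalyticAt.comp_of_eq (g := fun q : ℝ × ℝ => F q.1 q.2) (f := fun a : ℝ => (E, a)) hF
    (analyticAt_const.prod analyticAt_id) rfl

private theorem jac_part {F : ℝ × ℝ → ℝ} {D : ℝ × ℝ →L[ℝ] ℝ} {θ t : ℝ}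
    (hF : HasFDerivAt F D (θ, t)) :
    deriv (fun z => F (z, t)) θ = D (1, 0) ∧ deriv (fun τ => F (θ, τ)) t = D (0, 1) := by
  have h1 : HasDerivAt (fun z : ℝ => ((z, t) : ℝ × ℝ)) (1, 0) θ :=
    (hasDerivAt_id θ).prodMk (hasDerivAt_const θ t)
  have h2 : HasDerivAt (fun τ : ℝ => ((θ, τ) : ℝ × ℝ)) (0, 1) t :=
    (hasDerivAt_const t θ).prodMk (hasDerivAt_id t)
  exact ⟨(HasFDerivAt.comp_hasDerivAt θ hF h1).deriv, (HasFDerivAt.comp_hasDerivAt t hF h2).deriv⟩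

/-- the derivative along a line -/
private theorem jac_line {Y : Type*} [NormedAddCommGroup Y] [NormedSpace ℝ Y] {F : ℝ × ℝ → Y}
    {D : ℝ × ℝ →L[ℝ] Y} {p : ℝ × ℝ} (hF : HasFDerivAt F D p) (d : ℝ × ℝ) :
    HasDerivAt (fun u : ℝ => F (p + u • d)) (D d) 0 := by
  have h1 : HasDerivAt (fun u : ℝ => p + u • d) d 0 := by
    have h2 := (hasDerivAt_id (0 : ℝ)).smul_const d
    rw [one_smul] at h2
    exact h2.const_add p
  have h3 : HasFDerivAt F D (p + (0 : ℝ) • d) := by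
    rw [zero_smul, add_zero]
    exact hF
  exact HasFDerivAt.comp_hasDerivAt (0 : ℝ) h3 h1

/-- the formula for the momentum of the leaf -/
private theorem jac_Q (hC : C0 L Fl E0 V T m) (hS : Sect (V E1 (1, 0)) (T E1 (1, 0)) g τ s)
    (hA : Arc L Fl E0 V T E1 g c c1 ν ϑ) (hX : Coord (S1 L Fl V m g ν ϑ) E1 c ξ β)
    (hL : LF L Fl V m g ν ϑ ξ β E1 c c2 ρ r B x) {e z t : ℝ} (he : |e| < 1 / 4)
    (ht : |t| < 1 / 4) :
    deriv (fun Y => gS (B e) (x e (z - r * (1 + t)) t) Y) (x e z t) =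
      (pm L (Zb E1 c2 r g ν ξ x (e, z, t)) (deriv g (ξ (E1 + c2 * e) (x e z t))) -
        pE L V g (E1 + c2 * e) (ξ (E1 + c2 * e) (x e z t))) *
        deriv (ξ (E1 + c2 * e)) (x e z t) / β (E1 + c2 * e) ^ 2 := by
  have hl := hL.leaf e he
  have h1 := hl.el z t ht
  have h2 := hl.inc z t ht
  have hdom := hL.dom hA (w := (e, z, t)) ⟨he, ht⟩
  set E : ℝ := E1 + c2 * e with hE
  set a : ℝ := x e z t with ha
  set b : ℝ := x e (z + r * (1 + t)) t with hb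
  have hE1 : |E - E1| < c := hdom.1
  have hbc : |ξ E b - ξ E a| < c := hdom.2
  have hab : |b - a| < ρ := by
    rw [abs_of_pos h2.1]
    exact h2.2
  have h3 : (fun y => gS (B e) y b) =ᶠ[𝓝 a] fun y =>
      S1 L Fl V m g ν ϑ E (ξ E y) (ξ E b) / β E ^ 2 := by
    have h4 : ContinuousAt (fun y : ℝ => |b - y|) a := by fun_prop
    filter_upwards [h4.eventually (gt_mem_nhds hab)] with y hy
    exact (hL.sb e y b (by linarith) hy).symm
  have h5 : HasDerivAt (fun y => S1 L Fl V m g ν ϑ E (ξ E y) (ξ E b) / β E ^ 2)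
      ((pE L V g E (ξ E a) - Pin L g ν E (ξ E a) (ξ E b)) * deriv (ξ E) a / β E ^ 2) a := by
    have h6 := S1_dx hC hS hA hE1 hbc
    have h7 : HasDerivAt (ξ E) (deriv (ξ E) a) a :=
      (jac_slice (hX.ξ_ana E a hE1)).differentiableAt.hasDerivAt
    exact (h6.comp a h7).div_const _
  rw [h3.deriv_eq, h5.deriv] at h1
  have h8 : Pin L g ν E (ξ E a) (ξ E b) =
      pm L (Zb E1 c2 r g ν ξ x (e, z, t)) (deriv g (ξ E a)) := rfl
  rw [← h8]
  linear_combination h1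

theorem zb_jac (hC : C0 L Fl E0 V T m) (hS : Sect (V E1 (1, 0)) (T E1 (1, 0)) g τ s)
    (hA : Arc L Fl E0 V T E1 g c c1 ν ϑ) (hX : Coord (S1 L Fl V m g ν ϑ) E1 c ξ β)
    (hL : LF L Fl V m g ν ϑ ξ β E1 c c2 ρ r B x) (hw : w ∈ DF.Dom) :
    Function.Bijective
      (fderiv ℝ (fun q : ℝ × ℝ × ℝ × ℝ => Fl q.1 (Zb E1 c2 r g ν ξ x q.2)) (0, w)) := by
  have hD : Dyn L Fl := hC.toDyn
  obtain ⟨e, θ, t⟩ := w
  have he : |e| < 1 / 4 := hw.1
  have ht : |t| < 1 / 4 := hw.2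
  have hnw : DF.Dom ∈ 𝓝 ((e, θ, t) : ℝ × ℝ × ℝ) := DF.isOpen_dom.mem_nhds hw
  have hdom := hL.dom hA hw
  set E : ℝ := E1 + c2 * e with hE
  have hE1 : |E - E1| < c := hdom.1
  set Z : ℝ × ℝ × ℝ → PP := Zb E1 c2 r g ν ξ x with hZ
  have hZd : HasFDerivAt Z (fderiv ℝ Z (e, θ, t)) (e, θ, t) :=
    (((zb_smooth hS hA hX hL).contDiffAt hnw).differentiableAt (by simp)).hasFDerivAt
  set DZ := fderiv ℝ Z (e, θ, t) with hDZ
  set z0 : PP := Z (e, θ, t) with hz0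
  -- the derivative of the whole map
  have hΦ : HasFDerivAt (fun q : ℝ × ℝ × ℝ × ℝ => Fl q.1 (Z q.2))
      (((ContinuousLinearMap.fst ℝ ℝ PP).smulRight (vf Fl z0) +
        ContinuousLinearMap.snd ℝ ℝ PP).comp
        ((ContinuousLinearMap.fst ℝ ℝ (ℝ × ℝ × ℝ)).prod
          (DZ.comp (ContinuousLinearMap.snd ℝ ℝ (ℝ × ℝ × ℝ))))) (0, (e, θ, t)) := by
    have h1 : HasFDerivAt (fun q : ℝ × ℝ × ℝ × ℝ => ((q.1, Z q.2) : ℝ × PP))
        ((ContinuousLinearMap.fst ℝ ℝ (ℝ × ℝ × ℝ)).prod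
          (DZ.comp (ContinuousLinearMap.snd ℝ ℝ (ℝ × ℝ × ℝ)))) (0, (e, θ, t)) :=
      hasFDerivAt_fst.prodMk (HasFDerivAt.comp (g := Z) ((0 : ℝ), ((e, θ, t) : ℝ × ℝ × ℝ)) hZd
        hasFDerivAt_snd)
    exact HasFDerivAt.comp (g := fun q : ℝ × PP => Fl q.1 q.2)
      ((0 : ℝ), ((e, θ, t) : ℝ × ℝ × ℝ)) (jac_G hD z0) h1
  have hval : ∀ (ds : ℝ) (dw : ℝ × ℝ × ℝ),
      fderiv ℝ (fun q : ℝ × ℝ × ℝ × ℝ => Fl q.1 (Z q.2)) (0, (e, θ, t)) (ds, dw) =
        ds • vf Fl z0 + DZ dw := by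
    intro ds dw
    rw [hΦ.fderiv]
    rfl
  -- it is enough to prove the injectivity
  suffices hinj : ∀ (ds : ℝ) (dw : ℝ × ℝ × ℝ), ds • vf Fl z0 + DZ dw = 0 → ds = 0 ∧ dw = 0 by
    have h1 : Function.Injective
        (fderiv ℝ (fun q : ℝ × ℝ × ℝ × ℝ => Fl q.1 (Z q.2)) (0, (e, θ, t))) := by
      refine (injective_iff_map_eq_zero _).2 ?_
      rintro ⟨ds, dw⟩ h
      rw [hval] at h
      obtain ⟨h2, h3⟩ := hinj ds dw h
      rw [h2, h3]
      rfl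
    refine ⟨h1, ?_⟩
    have h2 : Module.finrank ℝ (ℝ × ℝ × ℝ × ℝ) = Module.finrank ℝ PP := by
      simp [PP, R2, Module.finrank_prod]
    exact (LinearMap.injective_iff_surjective_of_finrank_eq_finrank
      (f := (fderiv ℝ (fun q : ℝ × ℝ × ℝ × ℝ => Fl q.1 (Z q.2)) (0, (e, θ, t)) :
        (ℝ × ℝ × ℝ × ℝ) →ₗ[ℝ] PP)) h2).1 h1
  intro ds dw h0
  -- (1) the energy
  have hde : dw.1 = 0 := by
    have h1 : HasFDerivAt (en L) (fderiv ℝ (en L) z0) z0 :=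
      (hD.en_ana z0 (mem_univ _)).differentiableAt.hasFDerivAt
    have h2 : HasFDerivAt (fun w => en L (Z w)) ((fderiv ℝ (en L) z0).comp DZ) (e, θ, t) :=
      HasFDerivAt.comp (g := en L) (f := Z) ((e, θ, t) : ℝ × ℝ × ℝ) h1 hZd
    have h3 : HasFDerivAt (fun w : ℝ × ℝ × ℝ => E1 + c2 * w.1)
        (c2 • ContinuousLinearMap.fst ℝ ℝ (ℝ × ℝ)) (e, θ, t) :=
      (hasFDerivAt_fst.const_mul c2).const_add E1
    have h4 : (fun w => en L (Z w)) =ᶠ[𝓝 (e, θ, t)] fun w : ℝ × ℝ × ℝ => E1 + c2 * w.1 := by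
      filter_upwards [hnw] with w hw'
      exact zb_en hA hL hw'
    have h5 := h2.unique (h3.congr_of_eventuallyEq h4)
    have h6 : fderiv ℝ (en L) z0 (DZ dw) = c2 * dw.1 :=
      congrArg (fun f : (ℝ × ℝ × ℝ) →L[ℝ] ℝ => f dw) h5
    have h7 : fderiv ℝ (en L) z0 (ds • vf Fl z0 + DZ dw) = 0 := by rw [h0, map_zero]
    rw [map_add, map_smul, hD.en_vf, smul_zero, zero_add, h6] at h7
    exact (mul_eq_zero.1 h7).resolve_left hL.c2_pos.ne'
  obtain ⟨de, d⟩ := dw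
  change de = 0 at hde
  subst hde
  -- the slice
  set p0 : ℝ × ℝ := (θ, t) with hp0
  have hZs : HasFDerivAt (fun p : ℝ × ℝ => Z (e, p)) (DZ.comp (ContinuousLinearMap.inr ℝ ℝ (ℝ × ℝ)))
      p0 := HasFDerivAt.comp p0 hZd (hasFDerivAt_prodMk_right e p0)
  have hZl : HasDerivAt (fun u : ℝ => Z (e, p0 + u • d)) (DZ (0, d)) 0 := jac_line hZs d
  have hl := hL.leaf e he
  have hmem : {z : ℝ × ℝ | |z.2| < 1 / 4} ∈ 𝓝 p0 := by
    have h1 : IsOpen {z : ℝ × ℝ | |z.2| < 1 / 4} :=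
      isOpen_lt (continuous_snd.abs) continuous_const
    exact h1.mem_nhds ht
  have hXd : HasFDerivAt (fun p : ℝ × ℝ => x e p.1 p.2)
      (fderiv ℝ (fun p : ℝ × ℝ => x e p.1 p.2) p0) p0 :=
    ((hl.smooth.contDiffAt hmem).differentiableAt (by simp)).hasFDerivAt
  set DX := fderiv ℝ (fun p : ℝ × ℝ => x e p.1 p.2) p0 with hDX
  have hXl : HasDerivAt (fun u : ℝ => x e (p0 + u • d).1 (p0 + u • d).2) (DX d) 0 :=
    jac_line hXd d
  have hp00 : p0 + (0 : ℝ) • d = p0 := by rw [zero_smul, add_zero]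
  set a : ℝ := x e θ t with ha
  set y0 : ℝ := ξ E a with hy0
  have hξ : ∀ b : ℝ, AnalyticAt ℝ (ξ E) b := fun b => jac_slice (hX.ξ_ana E b hE1)
  have hξd : HasDerivAt (ξ E) (deriv (ξ E) a) a := (hξ a).differentiableAt.hasDerivAt
  have hξ0 : 0 < deriv (ξ E) a := hX.ξ_der E a hE1
  have hyl : HasDerivAt (fun u : ℝ => ξ E (x e (p0 + u • d).1 (p0 + u • d).2))
      (deriv (ξ E) a * DX d) 0 := by
    have h1 : HasDerivAt (ξ E) (deriv (ξ E) a) (x e (p0 + (0 : ℝ) • d).1 (p0 + (0 : ℝ) • d).2) := by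
      rw [hp00]
      exact hξd
    exact h1.comp (0 : ℝ) hXl
  have hg : HasDerivAt g (deriv g y0) y0 := (hS.g_ana y0 (mem_univ _)).differentiableAt.hasDerivAt
  have hgl : HasDerivAt (fun u : ℝ => g (ξ E (x e (p0 + u • d).1 (p0 + u • d).2)))
      ((deriv (ξ E) a * DX d) • deriv g y0) 0 := by
    have h1 : HasDerivAt g (deriv g y0)
        (ξ E (x e (p0 + (0 : ℝ) • d).1 (p0 + (0 : ℝ) • d).2)) := by
      rw [hp00]
      exact hg
    exact HasDerivAt.scomp (0 : ℝ) h1 hyl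
  -- (2) the first component
  have h1 : HasDerivAt (fun u : ℝ => (Z (e, p0 + u • d)).1) (DZ (0, d)).1 0 :=
    HasFDerivAt.comp_hasDerivAt (l := fun q : PP => q.1) (f := fun u : ℝ => Z (e, p0 + u • d))
      (0 : ℝ) hasFDerivAt_fst hZl
  have h2 : (DZ (0, d)).1 = (deriv (ξ E) a * DX d) • deriv g y0 := h1.unique hgl
  have h3 : ds • z0.2 + (deriv (ξ E) a * DX d) • deriv g y0 = 0 := by
    have h4 := congrArg Prod.fst h0
    rw [Prod.fst_add, Prod.smul_fst, hD.vf_fst, h2] at h4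
    exact h4
  have hind : dtm z0.2 (deriv g y0) ≠ 0 :=
    hA.ind y0 z0.2 (hA.near E y0 _ hE1 hdom.2)
  have hds : ds = 0 := by
    have h4 : dtm (ds • z0.2 + (deriv (ξ E) a * DX d) • deriv g y0) (deriv g y0) =
        ds * dtm z0.2 (deriv g y0) := by
      simp only [dtm, Prod.fst_add, Prod.snd_add, Prod.smul_fst, Prod.smul_snd, smul_eq_mul]
      ring
    rw [h3] at h4
    have h5 : dtm (0 : R2) (deriv g y0) = 0 := by simp [dtm]
    rw [h5] at h4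
    exact (mul_eq_zero.1 h4.symm).resolve_right hind
  have hdy : deriv (ξ E) a * DX d = 0 := by
    have h4 : dtm z0.2 (ds • z0.2 + (deriv (ξ E) a * DX d) • deriv g y0) =
        (deriv (ξ E) a * DX d) * dtm z0.2 (deriv g y0) := by
      simp only [dtm, Prod.fst_add, Prod.snd_add, Prod.smul_fst, Prod.smul_snd, smul_eq_mul]
      ring
    rw [h3] at h4
    have h5 : dtm z0.2 (0 : R2) = 0 := by simp [dtm]
    rw [h5] at h4
    exact (mul_eq_zero.1 h4.symm).resolve_right hind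
  have hdx : DX d = 0 := (mul_eq_zero.1 hdy).resolve_left hξ0.ne'
  have hdZ : DZ (0, d) = 0 := by
    rw [hds, zero_smul, zero_add] at h0
    exact h0
  refine ⟨hds, ?_⟩
  rw [hdx] at hXl
  rw [hdy] at hyl
  rw [hdZ] at hZl
  -- (5) the momentum
  have hE0 : E0 < E := hA.gt E hE1
  set FF : ℝ × ℝ → ℝ := fun p =>
    (pm L (Z (e, p)) (deriv g (ξ E (x e p.1 p.2))) - pE L V g E (ξ E (x e p.1 p.2))) *
      deriv (ξ E) (x e p.1 p.2) / β E ^ 2 with hFF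
  set QQ : ℝ × ℝ → ℝ := fun p =>
    deriv (fun Y => gS (B e) (x e (p.1 - r * (1 + p.2)) p.2) Y) (x e p.1 p.2) with hQQ
  have hQF : QQ =ᶠ[𝓝 p0] FF := by
    filter_upwards [hmem] with p hp
    exact jac_Q hC hS hA hX hL he hp
  have hpE : AnalyticAt ℝ (pE L V g E) y0 := jac_slice (pE_ana hC hS hE0)
  have hdg : AnalyticAt ℝ (deriv g) y0 := (hS.g_ana y0 (mem_univ _)).deriv
  have hdξ : AnalyticAt ℝ (deriv (ξ E)) a := (hξ a).deriv
  have hpm : HasFDerivAt (pm L) (fderiv ℝ (pm L) z0) z0 :=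
    (hD.pm_ana z0 (mem_univ _)).differentiableAt.hasFDerivAt
  have hFd : DifferentiableAt ℝ FF p0 := by
    have k1 : DifferentiableAt ℝ (fun p : ℝ × ℝ => ξ E (x e p.1 p.2)) p0 :=
      DifferentiableAt.comp p0 (g := ξ E) (f := fun p : ℝ × ℝ => x e p.1 p.2)
        (hξ a).differentiableAt hXd.differentiableAt
    have k2 : DifferentiableAt ℝ (fun p : ℝ × ℝ => pm L (Z (e, p))) p0 :=
      DifferentiableAt.comp p0 (g := pm L) (f := fun p : ℝ × ℝ => Z (e, p))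
        hpm.differentiableAt hZs.differentiableAt
    have k3 : DifferentiableAt ℝ (fun p : ℝ × ℝ => deriv g (ξ E (x e p.1 p.2))) p0 :=
      DifferentiableAt.comp p0 (g := deriv g) (f := fun p : ℝ × ℝ => ξ E (x e p.1 p.2))
        hdg.differentiableAt k1
    have k4 : DifferentiableAt ℝ (fun p : ℝ × ℝ => pE L V g E (ξ E (x e p.1 p.2))) p0 :=
      DifferentiableAt.comp p0 (g := pE L V g E) (f := fun p : ℝ × ℝ => ξ E (x e p.1 p.2))
        hpE.differentiableAt k1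
    have k5 : DifferentiableAt ℝ (fun p : ℝ × ℝ => deriv (ξ E) (x e p.1 p.2)) p0 :=
      DifferentiableAt.comp p0 (g := deriv (ξ E)) (f := fun p : ℝ × ℝ => x e p.1 p.2)
        hdξ.differentiableAt hXd.differentiableAt
    have k6 := (((k2.clm_apply k3).sub k4).mul k5).mul_const ((β E ^ 2)⁻¹)
    have k7 : FF = fun p => ((pm L (Z (e, p)) (deriv g (ξ E (x e p.1 p.2))) -
        pE L V g E (ξ E (x e p.1 p.2))) * deriv (ξ E) (x e p.1 p.2)) * (β E ^ 2)⁻¹ := by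
      funext p
      rw [hFF]
      exact div_eq_mul_inv _ _
    rw [k7]
    exact k6
  have hFl : HasDerivAt (fun u : ℝ => FF (p0 + u • d)) 0 0 := by
    have k2 : HasDerivAt (fun u : ℝ => pm L (Z (e, p0 + u • d))) 0 0 := by
      have k : HasFDerivAt (pm L) (fderiv ℝ (pm L) z0) (Z (e, p0 + (0 : ℝ) • d)) := by
        rw [hp00]
        exact hpm
      have k' := HasFDerivAt.comp_hasDerivAt (0 : ℝ) k hZl
      rw [map_zero] at k'
      exact k'
    have k3 : HasDerivAt (fun u : ℝ => deriv g (ξ E (x e (p0 + u • d).1 (p0 + u • d).2)))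
        0 0 := by
      have k : HasDerivAt (deriv g) (deriv (deriv g) y0)
          (ξ E (x e (p0 + (0 : ℝ) • d).1 (p0 + (0 : ℝ) • d).2)) := by
        rw [hp00]
        exact hdg.differentiableAt.hasDerivAt
      have k' := HasDerivAt.scomp (0 : ℝ) k hyl
      rw [zero_smul] at k'
      exact k'
    have k4 : HasDerivAt (fun u : ℝ => pE L V g E (ξ E (x e (p0 + u • d).1 (p0 + u • d).2)))
        0 0 := by
      have k : HasDerivAt (pE L V g E) (deriv (pE L V g E) y0)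
          (ξ E (x e (p0 + (0 : ℝ) • d).1 (p0 + (0 : ℝ) • d).2)) := by
        rw [hp00]
        exact hpE.differentiableAt.hasDerivAt
      have k' := k.comp (0 : ℝ) hyl
      rw [mul_zero] at k'
      exact k'
    have k5 : HasDerivAt (fun u : ℝ => deriv (ξ E) (x e (p0 + u • d).1 (p0 + u • d).2))
        0 0 := by
      have k : HasDerivAt (deriv (ξ E)) (deriv (deriv (ξ E)) a)
          (x e (p0 + (0 : ℝ) • d).1 (p0 + (0 : ℝ) • d).2) := by
        rw [hp00]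
        exact hdξ.differentiableAt.hasDerivAt
      have k' := k.comp (0 : ℝ) hXl
      rw [mul_zero] at k'
      exact k'
    have k6 := (((k2.clm_apply k3).sub k4).mul k5).div_const (β E ^ 2)
    refine k6.congr_deriv ?_
    simp
  have hQd : HasFDerivAt QQ (fderiv ℝ FF p0) p0 := hFd.hasFDerivAt.congr_of_eventuallyEq hQF
  have hFz : fderiv ℝ FF p0 d = 0 := (jac_line hFd.hasFDerivAt d).unique hFl
  -- (6)
  have tw := hl.twist θ t ht
  obtain ⟨x1, x2⟩ := jac_part hXd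
  obtain ⟨q1, q2⟩ := jac_part hQd
  have x1' : deriv (fun z => x e z t) θ = DX (1, 0) := x1
  have x2' : deriv (fun τ => x e θ τ) t = DX (0, 1) := x2
  have q1' : deriv (fun z => deriv (fun Y => gS (B e) (x e (z - r * (1 + t)) t) Y) (x e z t)) θ =
      fderiv ℝ FF p0 (1, 0) := q1
  have q2' : deriv (fun τ => deriv (fun Y => gS (B e) (x e (θ - r * (1 + τ)) τ) Y) (x e θ τ)) t =
      fderiv ℝ FF p0 (0, 1) := q2
  rw [x1', x2', q1', q2'] at tw
  obtain ⟨d1, d2⟩ := d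
  have hsp : ∀ D : ℝ × ℝ →L[ℝ] ℝ, D (d1, d2) = d1 * D (1, 0) + d2 * D (0, 1) := by
    intro D
    have e1 : ((d1, d2) : ℝ × ℝ) = d1 • ((1 : ℝ), (0 : ℝ)) + d2 • ((0 : ℝ), (1 : ℝ)) := by
      ext <;> simp
    rw [e1, map_add, map_smul, map_smul]
    rfl
  rw [hsp] at hdx hFz
  have hd1 : d1 * (fderiv ℝ FF p0 (0, 1) * DX (1, 0) - fderiv ℝ FF p0 (1, 0) * DX (0, 1)) = 0 := by
    linear_combination fderiv ℝ FF p0 (0, 1) * hdx - DX (0, 1) * hFz
  have hd2 : d2 * (fderiv ℝ FF p0 (0, 1) * DX (1, 0) - fderiv ℝ FF p0 (1, 0) * DX (0, 1)) = 0 := by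
    linear_combination DX (1, 0) * hFz - fderiv ℝ FF p0 (1, 0) * hdx
  have e1 : d1 = 0 := (mul_eq_zero.1 hd1).resolve_right tw.ne'
  have e2 : d2 = 0 := (mul_eq_zero.1 hd2).resolve_right tw.ne'
  rw [e1, e2]
  rfl

theorem band_of_leaf (hC : C0 L Fl E0 V T m) (hS : Sect (V E1 (1, 0)) (T E1 (1, 0)) g τ s)
    (hA : Arc L Fl E0 V T E1 g c c1 ν ϑ) (hX : Coord (S1 L Fl V m g ν ϑ) E1 c ξ β)
    (hL : LF L Fl V m g ν ϑ ξ β E1 c c2 ρ r B x) :
    DF.Bnd Fl (en L) (((1 : ℝ), (0 : ℝ)), (0 : R2)) (((0 : ℝ), (1 : ℝ)), (0 : R2)) E1 c2 r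
      (Zb E1 c2 r g ν ξ x) (Tb E1 c2 r ϑ ξ x) where
  r0 := hL.r_pos
  c0 := hL.c2_pos
  smooth := zb_smooth hS hA hX hL
  tc := tb_cont hA hX hL
  tp := fun _ hw => tb_pos hA hL hw
  en := fun _ hw => zb_en hA hL hw
  per := fun _ _ _ hw => (zb_per hS hA hX hL hw).1
  tper := fun _ _ _ hw => (zb_per hS hA hX hL hw).2
  ret := fun _ _ _ hw => zb_ret hC hS hA hX hL hw
  jac := fun _ hw => zb_jac hC hS hA hX hL hw

end Pool.Agent.DB
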