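import Pool.Agent.DB.Jac
import Pool.Agent.DB.HZu
import Pool.Agent.DB.Exc
import Pool.Agent.DB.Base
import Pool.Agent.DC.EMain
import Pool.Agent.NOne.BHZ

/-!
# MP_74f563_an, n = 2 autonomous (D2), file DB/Main: bands accumulate at every point of every leaf

PROOF of `band_one`.  `pflow_of`, `exists_sect` (file DB/Sct): `g, τ, s`.  `exists_arc`, then
`exists_pos` and
`Arc.mono`: an `Arc` on `c` with the lower bound `b` of the twist.  `exists_coord` (file DB/Coo) for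
`S = S1 ..` (`S1_ana`, `S1_per`, `S1_dX_diag`, `S1_hess` with the bound `b > 0`): `ξ`, `β`, `Coord`.
`hz_unif`: `c'`, `ρ0`.  `coord_lip` for `c'`: `μ`, `M`.
Let `a₁ = τ x₁`, `u₁ = s x₁`: `psi a₁ (g u₁) = x₁` (`sect_rec`), so
`Fl a₁ (g u₁, V E1 (1, 0) (g u₁)) = (x₁, V E1 (1, 0) x₁)` (`psi_fl`) and `O' = {z | Fl a₁ z ∈ O}`
is an open
neighbourhood of `(g u₁, V E1 (1, 0) (g u₁))`.  `X ↦ ν E1 u₁ X` is continuous at `u₁`, with the
value
`V E1 (1, 0) (g u₁)` (`ν_diag`): there is `η > 0` with `(g u₁, ν E1 u₁ X) ∈ O'` for `|X - u₁| < η`.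
Apply `exists_BE` (file DB/Exc) to `S E a b = S1 E (ξ E a) (ξ E b) / β E ^ 2`, on the domain
`|E - E1| < c₃`, `|b - a| < c₃` with `c₃ = min c' (c / M)` (so that `|ξ E b - ξ E a| < c`), and
`ε = min` of `c'`, `ρ0`, `η / M`, `c / M`, `c` (all positive).  We get `c2 < ε`, `ρ < ε`, `B`, `BE
σ ρ M' B`.
`theoremCE` (Pool/Agent/DC/EMain.lean): hypothesis: for `0 < d < ρ` the number `κ` of `hz_unif`;
for `|e| < 3/8`,
`|E1 + c2 e - E1| ≤ c'`, and `NOne.HZ_congr` (NOne/BHZ) transports `HZ` from `S1 .. / β²` to `gS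
(B e)`
(they agree for `|b - a| < d < ρ`).  So there is `r₀ > 0`; take `r = r₀ / 2` and the family `x`.
`LF`: `xc`: `|E - E1| < c2 < c'` gives `|ξ E b - ξ E a| ≤ M |b - a| < M ρ < c` and `< η`.
`band_of_leaf` (file DB/Jac).
The point: `x 0 · 0` is continuous with `x 0 (θ + 1) 0 = x 0 θ 0 + 1`, `ξ E1` is surjective
(`coord_surj`), so there is `θ` with `ξ E1 (x 0 θ 0) = u₁` (intermediate value theorem).  `w = (0,
θ, 0) ∈ Dom`,
`yy w = u₁` (`E1 + c2 * 0 = E1`), `|yp w - u₁| ≤ M ρ < η` (`LeafC.inc`, `coord_lip`), so `Zb w ∈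
O'`, i.e.
`Fl a₁ (Zb w) ∈ O`.

PROOF of `band`.  `prm_ext`: `h'` with determinant `1`.  Let `L'`, `Fl'`, `V'` be as in `base_C0`
(file
DB/Base); `bas h h' (1, 0) = h`.  `band_one` for `C0 L' ..` at the point `NI h h' x₁` and the open
set
`O'' = {z | N2 h h' z ∈ O}` (`N2` is continuous): `V' E1 (1, 0) (NI x₁) = NI (V E1 h x₁)`
(`nn_inv`), so the
point is in `O''`.  `base_Bnd` for the band, and `Fl s (N2 (Z w)) = N2 (Fl' s (Z w)) ∈ O` (`N2 (I2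
z) = z`).
-/

set_option autoImplicit false

namespace Pool.Agent.DB

open Set Filter Topology MeasureTheory Pool.Agent.NOne
open scoped ContDiff

variable {L : PP → ℝ} {Fl : ℝ → PP → PP} {E0 : ℝ} {V : ℝ → ℤ × ℤ → R2 → R2}
  {T m : ℝ → ℤ × ℤ → ℝ} {E1 : ℝ}

private theorem main_eta {O : Set PP} (hO : IsOpen O) {F : PP → PP} (hF : Continuous F)
    {ν : ℝ → R2} {g : ℝ → R2} {s : ℝ} (hν : ContinuousAt ν s) (h : F (g s, ν s) ∈ O) :
    ∃ η > 0, ∀ X : ℝ, |X - s| < η → F (g s, ν X) ∈ O := by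
  have h1 : ContinuousAt (fun X => F (g s, ν X)) s :=
    hF.continuousAt.comp (f := fun X => (g s, ν X)) (continuousAt_const.prodMk hν)
  obtain ⟨η, hη, H⟩ := Metric.mem_nhds_iff.1 (h1.preimage_mem_nhds (hO.mem_nhds h))
  refine ⟨η, hη, fun X hX => H ?_⟩
  rw [Metric.mem_ball, Real.dist_eq]
  exact hX

private theorem main_ana {S : ℝ → ℝ → ℝ → ℝ} {c : ℝ} {ξ : ℝ → ℝ → ℝ} {β : ℝ → ℝ}
    (hX : Coord S E1 c ξ β) {E a b : ℝ} (hE : |E - E1| < c)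
    (hS : AnalyticAt ℝ (fun q : ℝ × ℝ × ℝ => S q.1 q.2.1 q.2.2) (E, ξ E a, ξ E b)) :
    AnalyticAt ℝ (fun q : ℝ × ℝ × ℝ => S q.1 (ξ q.1 q.2.1) (ξ q.1 q.2.2) / β q.1 ^ 2)
      (E, a, b) := by
  have h1 : AnalyticAt ℝ (fun q : ℝ × ℝ × ℝ => ξ q.1 q.2.1) (E, a, b) :=
    AnalyticAt.comp (f := fun q : ℝ × ℝ × ℝ => (q.1, q.2.1)) (x := (E, a, b))
      (g := fun q : ℝ × ℝ => ξ q.1 q.2) (hX.ξ_ana E a hE)
      (analyticAt_fst.prod (analyticAt_fst.comp analyticAt_snd))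
  have h2 : AnalyticAt ℝ (fun q : ℝ × ℝ × ℝ => ξ q.1 q.2.2) (E, a, b) :=
    AnalyticAt.comp (f := fun q : ℝ × ℝ × ℝ => (q.1, q.2.2)) (x := (E, a, b))
      (g := fun q : ℝ × ℝ => ξ q.1 q.2) (hX.ξ_ana E b hE)
      (analyticAt_fst.prod (analyticAt_snd.comp analyticAt_snd))
  have h3 : AnalyticAt ℝ (fun q : ℝ × ℝ × ℝ => S q.1 (ξ q.1 q.2.1) (ξ q.1 q.2.2)) (E, a, b) :=
    AnalyticAt.comp (f := fun q : ℝ × ℝ × ℝ => (q.1, ξ q.1 q.2.1, ξ q.1 q.2.2))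
      (x := (E, a, b)) (g := fun q : ℝ × ℝ × ℝ => S q.1 q.2.1 q.2.2) hS
      (analyticAt_fst.prod (h1.prod h2))
  have h4 : AnalyticAt ℝ (fun q : ℝ × ℝ × ℝ => β q.1) (E, a, b) :=
    AnalyticAt.comp (f := fun q : ℝ × ℝ × ℝ => q.1) (x := (E, a, b)) (g := β)
      (hX.β_ana E hE) analyticAt_fst
  exact h3.div (h4.pow 2) (pow_ne_zero 2 (hX.β_pos E hE).ne')

private theorem main_theta {B : ℂ → ℂ → ℂ} {ρ r : ℝ} {x : ℝ → ℝ → ℝ} (h : LeafC B ρ r x)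
    (a : ℝ) : ∃ θ, x θ 0 = a := by
  have h0 : |(0 : ℝ)| < 1 / 4 := by rw [abs_zero]; norm_num
  have hcont : Continuous fun θ => x θ 0 := by
    rw [continuous_iff_continuousAt]
    intro θ
    have hO : IsOpen {z : ℝ × ℝ | |z.2| < 1 / 4} :=
      isOpen_lt (continuous_abs.comp continuous_snd) continuous_const
    have h1 : ContinuousAt (fun z : ℝ × ℝ => x z.1 z.2) (θ, 0) :=
      h.smooth.continuousOn.continuousAt (hO.mem_nhds h0)
    exact ContinuousAt.comp (f := fun θ : ℝ => (θ, (0 : ℝ))) (x := θ) h1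
      (continuousAt_id.prodMk continuousAt_const)
  have hn : ∀ (n : ℕ) (θ : ℝ), x (θ + n) 0 = x θ 0 + n := by
    intro n
    induction n with
    | zero => intro θ; simp
    | succ n ih =>
      intro θ
      have h1 := h.per (θ + n) 0 h0
      rw [ih] at h1
      push_cast
      rw [← add_assoc, h1]
      ring
  obtain ⟨n, hn1⟩ := exists_nat_ge |a - x 0 0|
  have h2 := abs_le.1 hn1
  have h3 := hn n 0
  have h4 := hn n (-n)
  rw [neg_add_cancel] at h4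
  rw [zero_add] at h3
  exact mem_range_of_exists_le_of_exists_ge hcont ⟨-n, by linarith [h2.1]⟩
    ⟨n, by linarith [h2.2]⟩

theorem band_one (hC : C0 L Fl E0 V T m) (hE1 : E0 < E1) (x₁ : R2) {O : Set PP} (hO : IsOpen O)
    (hx : (x₁, V E1 (1, 0) x₁) ∈ O) :
    ∃ (c2 r : ℝ) (Z : ℝ × ℝ × ℝ → PP) (T' : ℝ × ℝ × ℝ → ℝ),
      DF.Bnd Fl (en L) (((1 : ℝ), (0 : ℝ)), (0 : R2)) (((0 : ℝ), (1 : ℝ)), (0 : R2)) E1 c2 r Z T' ∧
      ∃ a : ℝ, ∃ w ∈ DF.Dom, Fl a (Z w) ∈ O := by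
  have hF := pflow_of hC hE1
  obtain ⟨g, τ, s, hS⟩ := exists_sect hF
  obtain ⟨c0, c1, ν, ϑ, hA0⟩ := exists_arc hC hE1 hS
  obtain ⟨c, b, hc, hcc, hb0, hb⟩ := exists_pos hC hE1 hS hA0
  have hA := hA0.mono hc hcc
  obtain ⟨ξ, β, hX⟩ := exists_coord (S := S1 L Fl V m g ν ϑ) (E1 := E1) hc
    (fun E x X hE hx => S1_ana hC hS hA hE hx) (fun E x X hE hx => S1_per hC hS hA hE hx)
    (fun E x hE => S1_dX_diag hC hS hA hE) (fun E x hE => by
      rw [S1_hess hC hS hA hE]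
      exact lt_of_lt_of_le hb0 (hb E x x hE (by rw [sub_self, abs_zero]; exact hc)))
  obtain ⟨c', ρ0, hc'0, hc'c, hρ0, hhz⟩ := hz_unif hC hE1 hS hA hb0 hb hX
  obtain ⟨μ, M, _, hM, hlip⟩ := coord_lip hX hc'c
  -- the point
  have hrec := sect_rec hF hS x₁
  have hpt : Fl (τ x₁) (g (s x₁), V E1 (1, 0) (g (s x₁))) ∈ O := by
    rw [psi_fl hC hE1 prm_one, hrec]
    exact hx
  have hcFl : Continuous (Fl (τ x₁)) := by
    have h1 : Continuous fun q : ℝ × PP => Fl q.1 q.2 := (hC.toDyn.fsmooth 0).continuous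
    exact h1.comp (Continuous.prodMk_right (τ x₁))
  have hEE : |E1 - E1| < c := by rw [sub_self, abs_zero]; exact hc
  have hss : |s x₁ - s x₁| < c := by rw [sub_self, abs_zero]; exact hc
  obtain ⟨η, hη, hηO⟩ := main_eta hO hcFl (ν := ν E1 (s x₁)) (g := g) (s := s x₁) (by
    have h1 := (hA.ν_ana E1 (s x₁) (s x₁) hEE hss).continuousAt
    have h2 : ContinuousAt (fun X : ℝ => (E1, s x₁, X)) (s x₁) := by fun_prop
    exact ContinuousAt.comp (f := fun X : ℝ => (E1, s x₁, X)) (x := s x₁) h1 h2) (by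
    rw [hA.ν_diag E1 (s x₁) hEE]
    exact hpt)
  have hcM : 0 < c / M := div_pos hc hM
  have hηM : 0 < η / M := div_pos hη hM
  -- the normalised generating function
  have hinc : ∀ E a b : ℝ, |E - E1| < c' → |b - a| < c / M → |ξ E b - ξ E a| < c := by
    intro E a b hE hab
    refine lt_of_le_of_lt (hlip E a b hE.le).2 ?_
    rw [lt_div_iff₀ hM] at hab
    linarith
  obtain ⟨c2, σ, ρ, M', B, hc2, hc2ε, hρε, hBE, hSB⟩ := exists_BE
    (S := fun E a b => S1 L Fl V m g ν ϑ E (ξ E a) (ξ E b) / β E ^ 2) (E1 := E1)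
    (c := min c' (c / M)) (lt_min hc'0 hcM)
    (by
      intro E a b hE hab
      have hE' : |E - E1| < c' := lt_of_lt_of_le hE (min_le_left _ _)
      have hEc : |E - E1| < c := hE'.trans hc'c
      have hab' := hinc E a b hE' (lt_of_lt_of_le hab (min_le_right _ _))
      exact main_ana hX hEc (S1_ana hC hS hA hEc hab'))
    (by
      intro E a b hE hab
      have hE' : |E - E1| < c' := lt_of_lt_of_le hE (min_le_left _ _)
      have hEc : |E - E1| < c := hE'.trans hc'c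
      have hab' := hinc E a b hE' (lt_of_lt_of_le hab (min_le_right _ _))
      rw [hX.ξ_per E a hEc, hX.ξ_per E b hEc, S1_per hC hS hA hEc hab'])
    (by
      intro E a hE
      have hEc : |E - E1| < c := (lt_of_lt_of_le hE (min_le_left _ _)).trans hc'c
      rw [S1_diag hC hA hEc, zero_div])
    (by
      intro E a hE
      have hEc : |E - E1| < c := (lt_of_lt_of_le hE (min_le_left _ _)).trans hc'c
      exact hX.d1 E a hEc)
    (by
      intro E a hE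
      have hEc : |E - E1| < c := (lt_of_lt_of_le hE (min_le_left _ _)).trans hc'c
      exact hX.d2 E a hEc)
    (ε := min (min c' ρ0) (min (η / M) (c / M)))
    (lt_min (lt_min hc'0 hρ0) (lt_min hηM hcM))
  have hc2c' : c2 < c' := lt_of_lt_of_le hc2ε ((min_le_left _ _).trans (min_le_left _ _))
  have hρρ0 : ρ < ρ0 := lt_of_lt_of_le hρε ((min_le_left _ _).trans (min_le_right _ _))
  have hρη : ρ < η / M := lt_of_lt_of_le hρε ((min_le_right _ _).trans (min_le_left _ _))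
  have hρc : ρ < c / M := lt_of_lt_of_le hρε ((min_le_right _ _).trans (min_le_right _ _))
  obtain ⟨r₀, hr₀, hfam⟩ := Pool.Agent.DC.theoremCE hBE (by
    intro d hd hdρ
    obtain ⟨κ, hκ, H⟩ := hhz d hd (hdρ.trans hρρ0)
    refine ⟨κ, hκ, fun e he => ?_⟩
    have h1 := H (E1 + c2 * e) (by
      rw [add_sub_cancel_left, abs_mul, abs_of_pos hc2]
      nlinarith)
    exact HZ_congr h1 fun a b hab => hSB e a b he (hab.trans hdρ))
  obtain ⟨x, hxs, hleaf⟩ := hfam (r₀ / 2) (half_pos hr₀) (half_lt_self hr₀)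
  have hL : LF L Fl V m g ν ϑ ξ β E1 c c2 ρ (r₀ / 2) B x :=
    { c2_pos := hc2
      c2_lt := hc2c'.trans hc'c
      r_pos := half_pos hr₀
      xs := hxs
      leaf := hleaf
      xc := fun E a b hE hab => hinc E a b (hE.trans hc2c') (hab.trans hρc)
      sb := hSB }
  refine ⟨c2, r₀ / 2, _, _, band_of_leaf hC hS hA hX hL, τ x₁, ?_⟩
  -- the parameter
  obtain ⟨a, ha⟩ := coord_surj hX hEE (s x₁)
  have hl0 := hleaf 0 (by rw [abs_zero]; norm_num)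
  obtain ⟨θ, hθ⟩ := main_theta hl0 a
  have hw : ((0 : ℝ), θ, (0 : ℝ)) ∈ DF.Dom := by
    show |(0 : ℝ)| < 1 / 4 ∧ |(0 : ℝ)| < 1 / 4
    rw [abs_zero]
    norm_num
  refine ⟨(0, θ, 0), hw, ?_⟩
  have hE0 : E1 + c2 * 0 = E1 := by ring
  have hyy : yy E1 c2 ξ x (0, θ, 0) = s x₁ := by
    show ξ (E1 + c2 * 0) (x 0 θ 0) = s x₁
    rw [hE0, hθ, ha]
  have hyp : |yp E1 c2 (r₀ / 2) ξ x (0, θ, 0) - s x₁| < η := by
    have h1 : yp E1 c2 (r₀ / 2) ξ x (0, θ, 0) = ξ E1 (x 0 (θ + r₀ / 2 * (1 + 0)) 0) := by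
      show ξ (E1 + c2 * 0) (x 0 (θ + r₀ / 2 * (1 + 0)) 0) = _
      rw [hE0]
    have h2 : s x₁ = ξ E1 (x 0 θ 0) := by rw [hθ, ha]
    have h3 := hl0.inc θ 0 (by rw [abs_zero]; norm_num)
    have h4 := (hlip E1 (x 0 θ 0) (x 0 (θ + r₀ / 2 * (1 + 0)) 0) (by
      rw [sub_self, abs_zero]
      exact hc'0.le)).2
    rw [abs_of_pos h3.1] at h4
    rw [h1]
    conv_lhs => rw [h2]
    refine lt_of_le_of_lt h4 ?_
    rw [lt_div_iff₀ hM] at hρη
    nlinarith [h3.2]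
  have h5 := hηO _ hyp
  show Fl (τ x₁) (g (yy E1 c2 ξ x (0, θ, 0)), ν (E1 + c2 * 0) (yy E1 c2 ξ x (0, θ, 0))
    (yp E1 c2 (r₀ / 2) ξ x (0, θ, 0))) ∈ O
  rw [hyy, hE0]
  exact h5

/-- MAIN THEOREM of the local part: bands accumulate at every point of every leaf -/
theorem band (hC : C0 L Fl E0 V T m) (hE1 : E0 < E1) {h : ℤ × ℤ} (hh : Prm h) (x₁ : R2)
    {O : Set PP} (hO : IsOpen O) (hx : (x₁, V E1 h x₁) ∈ O) :
    ∃ (h' : ℤ × ℤ) (c2 r : ℝ) (Z : ℝ × ℝ × ℝ → PP) (T' : ℝ × ℝ × ℝ → ℝ),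
      h.1 * h'.2 - h.2 * h'.1 = 1 ∧
      DF.Flw Fl (en L) ((NI h h').comp (ContinuousLinearMap.fst ℝ R2 R2)) (zz h, 0) (zz h', 0) ∧
      DF.Bnd Fl (en L) (zz h, 0) (zz h', 0) E1 c2 r Z T' ∧
      ∃ a : ℝ, ∃ w ∈ DF.Dom, Fl a (Z w) ∈ O := by
  obtain ⟨h', hd⟩ := prm_ext hh
  have hni : ∀ z : PP, N2 h h' (I2 h h' z) = z := fun z =>
    Prod.ext (nn_inv hd z.1).1 (nn_inv hd z.2).1
  have hcN : Continuous (N2 h h') :=
    ((NN h h').continuous.comp continuous_fst).prodMk ((NN h h').continuous.comp continuous_snd)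
  have e1 : bas h h' (1, 0) = h := by simp [bas]
  have hx' : (NI h h' x₁, NI h h' (V E1 (bas h h' (1, 0)) (NN h h' (NI h h' x₁)))) ∈
      N2 h h' ⁻¹' O := by
    rw [e1, (nn_inv hd x₁).1]
    have e2 : N2 h h' (NI h h' x₁, NI h h' (V E1 h x₁)) = (x₁, V E1 h x₁) :=
      Prod.ext (nn_inv hd x₁).1 (nn_inv hd _).1
    show N2 h h' (NI h h' x₁, NI h h' (V E1 h x₁)) ∈ O
    rw [e2]
    exact hx
  obtain ⟨c2, r, Z, T', hB, a, w, hw, hm⟩ :=
    band_one (base_C0 hC hd) hE1 (NI h h' x₁) (hO.preimage hcN) hx'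
  refine ⟨h', c2, r, fun w => N2 h h' (Z w), T', hd, dyn_flw hC.toDyn hd,
    base_Bnd hC.toDyn hd hB, a, w, hw, ?_⟩
  have h3 : N2 h h' (I2 h h' (Fl a (N2 h h' (Z w)))) ∈ O := hm
  rwa [hni] at h3

end Pool.Agent.DB
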