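import Pool.Agent.DB.Bas
import Pool.Agent.DB.Imp
import Pool.Agent.DB.Bra

/-!
# MP_74f563_an, n = 2 autonomous (D2), file DB/NoC: there are no conjugate points along the closed
minimal orbits (for variations with fixed energy)

Notation: `z = (x, v)`, `v = V E h x`, `W t = (Fl t z).2`.

`level_curve`.  PROOF.  `F (u, y) = en L (x, v + u • w + y • v)` (`u, y ∈ ℝ`) is analytic,
`∂_y F (0, 0) = Lvv L (x, v) v v > 0` (`en_dv`, `pos`, `hv`) and
`∂_u F (0, 0) = Lvv L (x, v) v w = 0`.  `loc_imp` (file DB/Imp) gives an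
analytic function `y u` near `0`, `y 0 = 0`, with `F (u, y u) = en L (x, v)`, and it is the only solution
with `|y| < c₁`; differentiating at `u = 0`: `y' 0 = 0`.  Put `c u = v + u • w + y u • v`: `c 0 = v`,
derivative `w` at `0`.  `w` and `v` are linearly independent: `a w + b v = 0` gives
`0 = Lvv v (a w + b v) = b Lvv v v`, so `b = 0`, `a = 0`.  So every `v'` is `v + u • w + y • v` with unique
`(u, y)` depending linearly on `v' - v`; if `v'` is near `v` and `en L (x, v') = en L (x, v)` then `u, y` are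
small, and `y = y u` by the uniqueness, so `v' = c u`.

`noconj`.  PROOF.  Suppose `(fderiv ℝ (Fl t₀) z (0, w)).1 = lam • W t₀`.  Let
`ξ t = fderiv ℝ (Fl t) z ((0, w) - lam • vf Fl z) = fderiv ℝ (Fl t) z (0, w) - lam • vf Fl (Fl t z)`
(`dfl_vf`).  Its first component vanishes at `t₀` (`vf_fst`).  `fderiv ℝ (en L) (Fl t₀ z) (ξ t₀)
= fderiv ℝ (en L) z (0, w) - lam * 0 = Lvv L z v w = 0` (`en_var`, `en_vf`, `en_dv`), and with
`ξ t₀ = (0, ξ₂)`: `Lvv L (Fl t₀ z) (W t₀) ξ₂ = 0` (`en_dv`).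
If `ξ₂ = 0` then `ξ t₀ = 0`, so `(0, w) = lam • vf Fl z` (`dinj`); first components: `lam • v = 0`, `v ≠ 0`
(`C0.vne`, `enV`), so `lam = 0` and `w = 0`: contradiction.
If `ξ₂ ≠ 0`: for `a, b` real with `a • ξ₂ - b • W t₀ = 0` one has `b Lvv W W = a Lvv W ξ₂ = 0`, so
`b = 0` (`W t₀ ≠ 0`: `en_const`, `C0.vne`), `a = 0`.  (*)
Let `c` be the curve of `level_curve` for `w` and
`K (t, σ, u) = (Fl t (x, c u)).1 - (Fl (t + u * σ) z).1`, analytic at `(t₀, lam, 0)` (and at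
`(t, σ, 0)`).  `K (t, σ, 0) = 0`.  `∂_u K (t, σ, 0) = (fderiv ℝ (Fl t) z (0, w)).1 - σ • W t`, which
vanishes at `(t₀, lam)`; for all `(t, σ)` near `(t₀, lam)` it has this form, so its derivative at
`(t₀, lam)` in the direction `(a, b)` is
`a • (d/dt) [(fderiv ℝ (Fl t) z (0, w)).1 - lam • W t] - b • W t₀ = a • (ξ t₀).2 - b • W t₀`
(`var_fst` for `fderiv ℝ (Fl t) z (0, w)`, and `W t = (vf Fl (Fl t z)).1`, whose derivative is
`(vf Fl (Fl t z)).2`, the second component of `vf Fl (Fl t z) = fderiv ℝ (Fl t) z (vf Fl z)`,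
`var_fst`); it is injective by (*).  So `branch` (file DB/Bra) applies, with `ε` so small that
`t > 0` and `t + u σ > 0` for `|t - t₀| < ε`, `|σ - lam| < ε`, `|u| < ε`: there is `δ > 0` such that for
`0 < |u| < δ` there are `t, s > 0` with `(Fl t (x, c u)).1 = (Fl s z).1`.
`c u ≠ v` for small `u ≠ 0` (derivative `w ≠ 0` at `0`, `HasDerivAt.eventually_ne`).  Let `d > 0` be such
that every `v'` with `en L (x, v') = E`, `‖v' - v‖ < d` is `c u'` for some `|u'| < δ`.  Choose `u₁ ≠ 0` with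
`‖c u₁ - v‖ < d / 2`, `c u₁ ≠ v`, `en L (x, c u₁) = E`.  By (C6) (`dens`) there is a primitive `h'` with
`‖V E h' x - c u₁‖ < min (d / 2) ‖c u₁ - v‖`.  So `V E h' x ≠ v = V E h x`, hence `h' ≠ h`, and
`V E h' x = c u` for some `|u| < δ`, `u ≠ 0`.  So `(Fl t (x, V E h' x)).1 = (Fl s (x, V E h x)).1` with
`t, s > 0`: contradiction to `once`.

`gam_inj`.  PROOF.  If `dv ≠ 0`: `noconj` with `w = dv`, `lam = -dt`.  If `dv = 0` then
`dt • W t₀ = 0`, `W t₀ ≠ 0`.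
-/

set_option autoImplicit false

namespace Pool.Agent.DB

open Set Filter Topology
open scoped ContDiff

variable {L : PP → ℝ} {Fl : ℝ → PP → PP} {E0 : ℝ} {V : ℝ → ℤ × ℤ → R2 → R2}
  {T m : ℝ → ℤ × ℤ → ℝ}

theorem level_curve (hD : Dyn L Fl) {x v w : R2} (hv : v ≠ 0) (hw : w ≠ 0)
    (hk : Lvv L (x, v) v w = 0) :
    ∃ c : ℝ → R2, c 0 = v ∧ AnalyticAt ℝ c 0 ∧ HasDerivAt c w 0 ∧
      (∀ᶠ u in 𝓝 (0 : ℝ), en L (x, c u) = en L (x, v)) ∧
      ∀ δ > 0, ∃ d > 0, ∀ v', en L (x, v') = en L (x, v) → ‖v' - v‖ < d →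
        ∃ u, |u| < δ ∧ c u = v' := by
  have hvv : 0 < Lvv L (x, v) v v := hD.pos (x, v) v hv
  -- independence of `w` and `v`
  have hz0 : Lvv L (x, v) v 0 = 0 := by
    have h1 := lvv_lin' L (x, v) 0 0 v 0 0
    simpa using h1
  have hDet : w.1 * v.2 - w.2 * v.1 ≠ 0 := by
    intro h0
    have h1 : v.1 • w + (-w.1) • v = 0 := by
      ext
      · simp only [Prod.fst_add, Prod.smul_fst, smul_eq_mul, Prod.fst_zero]
        ring
      · simp only [Prod.snd_add, Prod.smul_snd, smul_eq_mul, Prod.snd_zero]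
        linarith
    have h2 : v.2 • w + (-w.2) • v = 0 := by
      ext
      · simp only [Prod.fst_add, Prod.smul_fst, smul_eq_mul, Prod.fst_zero]
        linarith
      · simp only [Prod.snd_add, Prod.smul_snd, smul_eq_mul, Prod.snd_zero]
        ring
    have h3 := lvv_lin' L (x, v) w v v v.1 (-w.1)
    have h4 := lvv_lin' L (x, v) w v v v.2 (-w.2)
    rw [h1, hz0, hk] at h3
    rw [h2, hz0, hk] at h4
    have h5 : w.1 = 0 := by
      have h6 : w.1 * Lvv L (x, v) v v = 0 := by linarith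
      exact (mul_eq_zero.1 h6).resolve_right hvv.ne'
    have h7 : w.2 = 0 := by
      have h6 : w.2 * Lvv L (x, v) v v = 0 := by linarith
      exact (mul_eq_zero.1 h6).resolve_right hvv.ne'
    exact hw (Prod.ext h5 h7)
  -- the function `F`
  obtain ⟨F, hF⟩ : ∃ F : ℝ × ℝ → ℝ, F = fun q => en L (x, v + q.1 • w + q.2 • v) := ⟨_, rfl⟩
  have hA : ∀ q : ℝ × ℝ, HasFDerivAt (fun q : ℝ × ℝ => ((x, v + q.1 • w + q.2 • v) : PP))
      ((0 : ℝ × ℝ →L[ℝ] R2).prod ((ContinuousLinearMap.fst ℝ ℝ ℝ).smulRight w +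
        (ContinuousLinearMap.snd ℝ ℝ ℝ).smulRight v)) q := by
    intro q
    have h1 : HasFDerivAt (fun q : ℝ × ℝ => q.1 • w)
        ((ContinuousLinearMap.fst ℝ ℝ ℝ).smulRight w) q :=
      ((ContinuousLinearMap.fst ℝ ℝ ℝ).smulRight w).hasFDerivAt
    have h2 : HasFDerivAt (fun q : ℝ × ℝ => q.2 • v)
        ((ContinuousLinearMap.snd ℝ ℝ ℝ).smulRight v) q :=
      ((ContinuousLinearMap.snd ℝ ℝ ℝ).smulRight v).hasFDerivAt
    exact (hasFDerivAt_const x q).prodMk ((h1.const_add v).add h2)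
  have hAana : ∀ q : ℝ × ℝ, AnalyticAt ℝ
      (fun q : ℝ × ℝ => ((x, v + q.1 • w + q.2 • v) : PP)) q := by
    intro q
    have h1 : AnalyticAt ℝ (fun q : ℝ × ℝ => q.1 • w) q :=
      ((ContinuousLinearMap.fst ℝ ℝ ℝ).smulRight w).analyticAt q
    have h2 : AnalyticAt ℝ (fun q : ℝ × ℝ => q.2 • v) q :=
      ((ContinuousLinearMap.snd ℝ ℝ ℝ).smulRight v).analyticAt q
    exact analyticAt_const.prod ((analyticAt_const.add h1).add h2)
  have hFana : ∀ q : ℝ × ℝ, AnalyticAt ℝ F q := by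
    intro q
    rw [hF]
    exact AnalyticAt.fun_comp (g := en L) (hD.en_ana _ (mem_univ _)) (hAana q)
  have hF00 : F (0, 0) = en L (x, v) := by
    rw [hF]
    simp
  have hFd : HasFDerivAt F ((fderiv ℝ (en L) (x, v)).comp
      ((0 : ℝ × ℝ →L[ℝ] R2).prod ((ContinuousLinearMap.fst ℝ ℝ ℝ).smulRight w +
        (ContinuousLinearMap.snd ℝ ℝ ℝ).smulRight v))) ((0, 0) : ℝ × ℝ) := by
    have h1 : HasFDerivAt (en L) (fderiv ℝ (en L) (x, v))
        ((fun q : ℝ × ℝ => ((x, v + q.1 • w + q.2 • v) : PP)) (0, 0)) := by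
      have h2 : (fun q : ℝ × ℝ => ((x, v + q.1 • w + q.2 • v) : PP)) (0, 0) = (x, v) := by
        simp
      rw [h2]
      exact (hD.en_ana _ (mem_univ _)).differentiableAt.hasFDerivAt
    rw [hF]
    exact h1.comp ((0, 0) : ℝ × ℝ) (hA (0, 0))
  have hFd2 : ∀ a b : ℝ, fderiv ℝ F (0, 0) (a, b) = b * Lvv L (x, v) v v := by
    intro a b
    rw [hFd.fderiv]
    change fderiv ℝ (en L) (x, v) (0, a • w + b • v) = _
    rw [hD.en_dv, lvv_lin', hk]
    ring
  obtain ⟨c₁, hc₁, hloc⟩ := loc_imp (F := F) (q₀ := (0 : ℝ)) (y₀ := (0 : ℝ)) (hFana (0, 0)) (by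
    intro y hy
    rw [hFd2] at hy
    exact (mul_eq_zero.1 hy).resolve_right hvv.ne')
  obtain ⟨c₂, hc₂, y, hy⟩ := hloc c₁ hc₁
  have hy0 : y 0 = 0 := by
    have h1 := (hy 0 (by simpa using hc₂)).2.2.2.1 0 (by simpa using hc₁) rfl
    exact h1.symm
  have hyan : AnalyticAt ℝ y 0 := (hy 0 (by simpa using hc₂)).2.2.1
  have hyd : HasDerivAt y (deriv y 0) 0 := hyan.differentiableAt.hasDerivAt
  have hev : ∀ᶠ u in 𝓝 (0 : ℝ), ‖u - 0‖ < c₂ := by
    have h1 : Tendsto (fun u : ℝ => ‖u - 0‖) (𝓝 0) (𝓝 ‖(0 : ℝ) - 0‖) :=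
      (continuous_id.sub continuous_const).norm.tendsto 0
    rw [sub_zero, norm_zero] at h1
    exact h1.eventually (gt_mem_nhds hc₂)
  have hyd0 : deriv y 0 = 0 := by
    have h1 : HasDerivAt (fun u : ℝ => ((u, y u) : ℝ × ℝ)) (1, deriv y 0) 0 :=
      (hasDerivAt_id (0 : ℝ)).prodMk hyd
    have h2 : HasFDerivAt F (fderiv ℝ F (0, 0)) ((fun u : ℝ => ((u, y u) : ℝ × ℝ)) 0) := by
      have h3 : (fun u : ℝ => ((u, y u) : ℝ × ℝ)) 0 = (0, 0) := by simp [hy0]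
      rw [h3]
      exact (hFana (0, 0)).differentiableAt.hasFDerivAt
    have h4 : HasDerivAt (fun u : ℝ => F (u, y u)) (fderiv ℝ F (0, 0) (1, deriv y 0)) 0 :=
      h2.comp_hasDerivAt 0 h1
    have h5 : (fun u : ℝ => F (u, y u)) =ᶠ[𝓝 0] fun _ => F (0, 0) := by
      filter_upwards [hev] with u hu
      exact (hy u hu).1
    have h6 := h4.unique ((hasDerivAt_const (0 : ℝ) (F (0, 0))).congr_of_eventuallyEq h5)
    rw [hFd2] at h6
    exact (mul_eq_zero.1 h6).resolve_right hvv.ne'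
  have hFc : ∀ u s : ℝ, F (u, s) = en L (x, v + u • w + s • v) := by
    intro u s
    rw [hF]
  refine ⟨fun u => v + u • w + y u • v, ?_, ?_, ?_, ?_, ?_⟩
  · simp [hy0]
  · have h1 : AnalyticAt ℝ (fun u : ℝ => u • w) 0 :=
      ((ContinuousLinearMap.id ℝ ℝ).smulRight w).analyticAt 0
    have h2 : AnalyticAt ℝ (fun u : ℝ => y u • v) 0 := hyan.smul analyticAt_const
    exact (analyticAt_const.add h1).add h2
  · have h1 : HasDerivAt (fun u : ℝ => u • w) ((1 : ℝ) • w) 0 :=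
      (hasDerivAt_id (0 : ℝ)).smul_const w
    have h2 : HasDerivAt (fun u : ℝ => y u • v) (deriv y 0 • v) 0 := hyd.smul_const v
    have h3 := (h1.const_add v).add h2
    rw [hyd0, one_smul, zero_smul, add_zero] at h3
    exact h3
  · filter_upwards [hev] with u hu
    have h1 := (hy u hu).1
    rw [hF00, hFc] at h1
    exact h1
  · intro δ hδ
    obtain ⟨U, hU⟩ : ∃ U : R2 → ℝ, U = fun v' => ((v'.1 - v.1) * v.2 - (v'.2 - v.2) * v.1) /
      (w.1 * v.2 - w.2 * v.1) := ⟨_, rfl⟩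
    obtain ⟨Y, hY⟩ : ∃ Y : R2 → ℝ, Y = fun v' => (w.1 * (v'.2 - v.2) - w.2 * (v'.1 - v.1)) /
      (w.1 * v.2 - w.2 * v.1) := ⟨_, rfl⟩
    have hUc : Continuous U := by
      rw [hU]
      fun_prop
    have hYc : Continuous Y := by
      rw [hY]
      fun_prop
    have hU0 : U v = 0 := by
      rw [hU]
      simp
    have hY0 : Y v = 0 := by
      rw [hY]
      simp
    have e1 : ∀ᶠ v' in 𝓝 v, |U v'| < min δ c₂ := by
      have h1 : Tendsto (fun v' => |U v'|) (𝓝 v) (𝓝 |U v|) := hUc.abs.tendsto v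
      rw [hU0, abs_zero] at h1
      exact h1.eventually (gt_mem_nhds (lt_min hδ hc₂))
    have e2 : ∀ᶠ v' in 𝓝 v, |Y v'| < c₁ := by
      have h1 : Tendsto (fun v' => |Y v'|) (𝓝 v) (𝓝 |Y v|) := hYc.abs.tendsto v
      rw [hY0, abs_zero] at h1
      exact h1.eventually (gt_mem_nhds hc₁)
    obtain ⟨d, hd, hd'⟩ := Metric.eventually_nhds_iff.1 (e1.and e2)
    refine ⟨d, hd, fun v' hv' hn => ?_⟩
    obtain ⟨h1, h2⟩ := hd' (by rw [dist_eq_norm]; exact hn)
    have h3 : v + U v' • w + Y v' • v = v' := by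
      have k1 : U v' * w.1 + Y v' * v.1 = v'.1 - v.1 := by
        rw [hU, hY, div_mul_eq_mul_div, div_mul_eq_mul_div, ← add_div, div_eq_iff hDet]
        ring
      have k2 : U v' * w.2 + Y v' * v.2 = v'.2 - v.2 := by
        rw [hU, hY, div_mul_eq_mul_div, div_mul_eq_mul_div, ← add_div, div_eq_iff hDet]
        ring
      ext
      · simp only [Prod.fst_add, Prod.smul_fst, smul_eq_mul]
        linarith
      · simp only [Prod.snd_add, Prod.smul_snd, smul_eq_mul]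
        linarith
    have h4 : Y v' = y (U v') := by
      refine (hy (U v') ?_).2.2.2.1 (Y v') ?_ ?_
      · rw [sub_zero]
        exact lt_of_lt_of_le h1 (min_le_right _ _)
      · rw [sub_zero]
        exact h2
      · rw [hFc, h3, hv', hF00]
    refine ⟨U v', lt_of_lt_of_le h1 (min_le_left _ _), ?_⟩
    change v + U v' • w + y (U v') • v = v'
    rw [← h4]
    exact h3

theorem noconj (hC : C0 L Fl E0 V T m) {E : ℝ} (hE : E0 < E) {h : ℤ × ℤ} (hh : Prm h) (x w : R2)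
    (hw : w ≠ 0) (hk : Lvv L (x, V E h x) (V E h x) w = 0) {t₀ : ℝ} (ht : 0 < t₀) (lam : ℝ) :
    (fderiv ℝ (Fl t₀) (x, V E h x) (0, w)).1 ≠ lam • (Fl t₀ (x, V E h x)).2 := by
  intro heq
  have hD : Dyn L Fl := hC.toDyn
  set v : R2 := V E h x with hvdef
  set z : PP := (x, v) with hz
  have hen : en L z = E := hC.enV E hE h hh x
  have hv : v ≠ 0 := hC.vne (z := z) (by rw [hen]; exact hE)
  have hWne : ∀ t, (Fl t z).2 ≠ 0 := by
    intro t
    refine hC.vne ?_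
    rw [hD.en_const, hen]
    exact hE
  obtain ⟨ξ, hξ⟩ : ∃ ξ : PP, ξ = fderiv ℝ (Fl t₀) z (0, w) - lam • vf Fl (Fl t₀ z) := ⟨_, rfl⟩
  have hξ1 : ξ.1 = 0 := by
    rw [hξ, Prod.fst_sub, Prod.smul_fst, hD.vf_fst, heq, sub_self]
  have hξe : Lvv L (Fl t₀ z) (Fl t₀ z).2 ξ.2 = 0 := by
    have h1 : ((0, ξ.2) : PP) = ξ := Prod.ext hξ1.symm rfl
    rw [← hD.en_dv, h1, hξ, map_sub, map_smul, hD.en_var, hD.en_vf, hD.en_dv]
    rw [smul_zero, sub_zero]
    exact hk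
  have hξ2 : ξ.2 ≠ 0 := by
    intro h0
    have h1 : ξ = 0 := Prod.ext hξ1 h0
    rw [hξ, ← hD.dfl_vf, ← map_smul, sub_eq_zero] at h1
    have h2 := hD.dinj t₀ z h1
    have h3 : (0 : R2) = lam • v := by
      have h4 := congrArg Prod.fst h2
      rw [Prod.smul_fst, hD.vf_fst] at h4
      exact h4
    have h5 : lam = 0 := (smul_eq_zero.1 h3.symm).resolve_right hv
    have h6 := congrArg Prod.snd h2
    rw [h5, zero_smul] at h6
    exact hw h6
  have hinj : ∀ a b : ℝ, a • ξ.2 - b • (Fl t₀ z).2 = 0 → a = 0 ∧ b = 0 := by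
    intro a b hab
    have h1 := lvv_lin' L (Fl t₀ z) ξ.2 (Fl t₀ z).2 (Fl t₀ z).2 a (-b)
    have h2 : a • ξ.2 + (-b) • (Fl t₀ z).2 = 0 := by
      rw [neg_smul, ← sub_eq_add_neg]
      exact hab
    have hz0 : Lvv L (Fl t₀ z) (Fl t₀ z).2 0 = 0 := by
      have h1 := lvv_lin' L (Fl t₀ z) 0 0 (Fl t₀ z).2 0 0
      simpa using h1
    rw [h2, hz0, hξe] at h1
    have h3 := hD.pos (Fl t₀ z) (Fl t₀ z).2 (hWne t₀)
    have h4 : b = 0 := by
      have h5 : b * Lvv L (Fl t₀ z) (Fl t₀ z).2 (Fl t₀ z).2 = 0 := by linarith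
      exact (mul_eq_zero.1 h5).resolve_right h3.ne'
    rw [h4, zero_smul, sub_zero] at hab
    exact ⟨(smul_eq_zero.1 hab).resolve_right hξ2, h4⟩
  obtain ⟨c, c0, cana, cder, cen, csurj⟩ := level_curve hD hv hw hk
  obtain ⟨K, hK⟩ : ∃ K : ℝ × ℝ × ℝ → ℝ × ℝ, K = fun q =>
      (Fl q.1 (x, c q.2.2)).1 - (Fl (q.1 + q.2.2 * q.2.1) z).1 := ⟨_, rfl⟩
  have hKc : ∀ t σ u : ℝ, K (t, σ, u) = (Fl t (x, c u)).1 - (Fl (t + u * σ) z).1 := by
    intro t σ u
    rw [hK]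
  have hKana : ∀ t σ : ℝ, AnalyticAt ℝ K (t, σ, 0) := by
    intro t σ
    have a1 : AnalyticAt ℝ (fun q : ℝ × ℝ × ℝ => q.1) (t, σ, 0) := analyticAt_fst
    have a2 : AnalyticAt ℝ (fun q : ℝ × ℝ × ℝ => q.2.1) (t, σ, 0) :=
      AnalyticAt.fun_comp (g := Prod.fst) analyticAt_fst analyticAt_snd
    have a3 : AnalyticAt ℝ (fun q : ℝ × ℝ × ℝ => q.2.2) (t, σ, 0) :=
      AnalyticAt.fun_comp (g := Prod.snd) analyticAt_snd analyticAt_snd
    have a4 : AnalyticAt ℝ (fun q : ℝ × ℝ × ℝ => c q.2.2) (t, σ, 0) :=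
      AnalyticAt.fun_comp (g := c) cana a3
    have a5 : AnalyticAt ℝ (fun q : ℝ × ℝ × ℝ => ((q.1, (x, c q.2.2)) : ℝ × PP)) (t, σ, 0) :=
      a1.prod (analyticAt_const.prod a4)
    have a6 : AnalyticAt ℝ (fun q : ℝ × ℝ × ℝ => Fl q.1 (x, c q.2.2)) (t, σ, 0) :=
      AnalyticAt.fun_comp (g := fun q : ℝ × PP => Fl q.1 q.2) (hD.fana _ (mem_univ _)) a5
    have a7 : AnalyticAt ℝ (fun q : ℝ × ℝ × ℝ => ((q.1 + q.2.2 * q.2.1, z) : ℝ × PP))
        (t, σ, 0) := (a1.add (a3.mul a2)).prod analyticAt_const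
    have a8 : AnalyticAt ℝ (fun q : ℝ × ℝ × ℝ => Fl (q.1 + q.2.2 * q.2.1) z) (t, σ, 0) :=
      AnalyticAt.fun_comp (g := fun q : ℝ × PP => Fl q.1 q.2) (hD.fana _ (mem_univ _)) a7
    rw [hK]
    exact (AnalyticAt.fun_comp (g := Prod.fst) analyticAt_fst a6).sub
      (AnalyticAt.fun_comp (g := Prod.fst) analyticAt_fst a8)
  -- the derivative in `u`
  have hKu : ∀ t σ : ℝ, fderiv ℝ K (t, σ, 0) (0, 0, 1) =
      (fderiv ℝ (Fl t) z (0, w)).1 - σ • (Fl t z).2 := by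
    intro t σ
    have b1 : HasDerivAt (fun u : ℝ => ((t, σ, u) : ℝ × ℝ × ℝ)) (0, 0, 1) 0 :=
      (hasDerivAt_const (0 : ℝ) t).prodMk ((hasDerivAt_const (0 : ℝ) σ).prodMk
        (hasDerivAt_id (0 : ℝ)))
    have b2 : HasDerivAt (fun u : ℝ => K (t, σ, u)) (fderiv ℝ K (t, σ, 0) (0, 0, 1)) 0 :=
      ((hKana t σ).differentiableAt.hasFDerivAt).comp_hasDerivAt 0 b1
    have b3 : HasDerivAt (fun u : ℝ => ((x, c u) : PP)) (0, w) 0 :=
      (hasDerivAt_const (0 : ℝ) x).prodMk cder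
    have b4 : HasFDerivAt (Fl t) (fderiv ℝ (Fl t) z) ((fun u : ℝ => ((x, c u) : PP)) 0) := by
      have b5 : (fun u : ℝ => ((x, c u) : PP)) 0 = z := by
        simp only [c0]
        rfl
      rw [b5]
      exact (hD.fl_diff t z).hasFDerivAt
    have b6 : HasDerivAt (fun u : ℝ => Fl t (x, c u)) (fderiv ℝ (Fl t) z (0, w)) 0 :=
      b4.comp_hasDerivAt 0 b3
    have b7 : HasDerivAt (fun u : ℝ => t + u * σ) σ 0 := by
      have b8 := ((hasDerivAt_id (0 : ℝ)).mul_const σ).const_add t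
      simpa using b8
    have b9 : HasDerivAt (fun t => (Fl t z).1) (Fl t z).2 (t + (0 : ℝ) * σ) := by
      rw [zero_mul, add_zero]
      exact hD.vel t z
    have b10 : HasDerivAt (fun u : ℝ => (Fl (t + u * σ) z).1) (σ • (Fl t z).2) 0 :=
      HasDerivAt.scomp (h := fun u : ℝ => t + u * σ) (0 : ℝ) b9 b7
    have b11 : HasDerivAt (fun u : ℝ => K (t, σ, u))
        ((fderiv ℝ (Fl t) z (0, w)).1 - σ • (Fl t z).2) 0 := by
      have b12 : (fun u : ℝ => K (t, σ, u)) =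
          fun u => (Fl t (x, c u)).1 - (Fl (t + u * σ) z).1 := funext fun u => hKc t σ u
      rw [b12]
      have b13 : HasDerivAt (fun u : ℝ => (Fl t (x, c u)).1)
        (fderiv ℝ (Fl t) z (0, w)).1 0 := b6.fst
      exact b13.sub b10
    exact b2.unique b11
  obtain ⟨ε, hε⟩ : ∃ ε : ℝ, ε = min 1 (t₀ / (|lam| + 3)) := ⟨_, rfl⟩
  have hl3 : 0 < |lam| + 3 := by positivity
  have hε0 : 0 < ε := by
    rw [hε]
    exact lt_min one_pos (div_pos ht hl3)
  have hε1 : ε ≤ 1 := by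
    rw [hε]
    exact min_le_left _ _
  have hε2 : ε * (|lam| + 3) ≤ t₀ := by
    have h1 : ε ≤ t₀ / (|lam| + 3) := by
      rw [hε]
      exact min_le_right _ _
    rwa [le_div_iff₀ hl3] at h1
  obtain ⟨δ, hδ, hbr⟩ := branch (K := K) (t₀ := t₀) (l₀ := lam) (hKana t₀ lam) (by
      refine Eventually.of_forall fun q => ?_
      rw [hKc, c0, zero_mul, add_zero]
      exact sub_self _) (by
      rw [hKu, heq, sub_self]) (by
      intro a b hab
      apply hinj a b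
      rw [← hab]
      have d1 : HasDerivAt (fun r : ℝ => t₀ + r * a) a 0 := by
        have d2 := ((hasDerivAt_id (0 : ℝ)).mul_const a).const_add t₀
        simpa using d2
      have d3 : HasDerivAt (fun r : ℝ => lam + r * b) b 0 := by
        have d2 := ((hasDerivAt_id (0 : ℝ)).mul_const b).const_add lam
        simpa using d2
      have d4 : HasDerivAt (fun r : ℝ => ((t₀ + r * a, lam + r * b, 0) : ℝ × ℝ × ℝ))
          (a, b, 0) 0 := d1.prodMk (d3.prodMk (hasDerivAt_const (0 : ℝ) (0 : ℝ)))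
      have d5 : HasFDerivAt (fun q => fderiv ℝ K q (0, 0, 1))
          (fderiv ℝ (fun q => fderiv ℝ K q (0, 0, 1)) (t₀, lam, 0))
          ((fun r : ℝ => ((t₀ + r * a, lam + r * b, 0) : ℝ × ℝ × ℝ)) 0) := by
        have d6 : (fun r : ℝ => ((t₀ + r * a, lam + r * b, 0) : ℝ × ℝ × ℝ)) 0 =
            (t₀, lam, 0) := by simp
        rw [d6]
        have d7 : AnalyticAt ℝ (fderiv ℝ K) (t₀, lam, 0) := (hKana t₀ lam).fderiv
        exact (d7.differentiableAt.clm_apply (differentiableAt_const _)).hasFDerivAt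
      have d8 := d5.comp_hasDerivAt 0 d4
      have d9 : ((fun q => fderiv ℝ K q (0, 0, 1)) ∘
          fun r : ℝ => ((t₀ + r * a, lam + r * b, 0) : ℝ × ℝ × ℝ)) =
          fun r => (fderiv ℝ (Fl (t₀ + r * a)) z (0, w)).1 -
            (lam + r * b) • (Fl (t₀ + r * a) z).2 :=
        funext fun r => hKu _ _
      rw [d9] at d8
      have t0e : t₀ + (0 : ℝ) * a = t₀ := by ring
      have d10 : HasDerivAt (fun r : ℝ => (fderiv ℝ (Fl (t₀ + r * a)) z (0, w)).1)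
          (a • (fderiv ℝ (Fl t₀) z (0, w)).2) 0 := by
        have d11 : HasDerivAt (fun t => (fderiv ℝ (Fl t) z (0, w)).1)
            (fderiv ℝ (Fl t₀) z (0, w)).2 (t₀ + (0 : ℝ) * a) := by
          rw [t0e]
          exact hD.var_fst t₀ z (0, w)
        exact HasDerivAt.scomp (h := fun r : ℝ => t₀ + r * a) (0 : ℝ) d11 d1
      have d12 : HasDerivAt (fun r : ℝ => (Fl (t₀ + r * a) z).2)
          (a • (vf Fl (Fl t₀ z)).2) 0 := by
        have d13 : HasDerivAt (fun t => (Fl t z).2) (vf Fl (Fl t₀ z)).2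
            (t₀ + (0 : ℝ) * a) := by
          rw [t0e]
          exact (hD.fl_deriv t₀ z).snd
        exact HasDerivAt.scomp (h := fun r : ℝ => t₀ + r * a) (0 : ℝ) d13 d1
      have d14 := d10.sub (d3.smul d12)
      have d15 := d8.unique d14
      rw [d15, hξ, Prod.snd_sub, Prod.smul_snd]
      simp only [zero_mul, add_zero, smul_sub]
      rw [smul_comm lam a]
      abel) hε0
  obtain ⟨δ', hδ'⟩ : ∃ δ' : ℝ, δ' = min δ ε := ⟨_, rfl⟩
  have hδ'0 : 0 < δ' := by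
    rw [hδ']
    exact lt_min hδ hε0
  obtain ⟨d, hd, hd'⟩ := csurj δ' hδ'0
  -- a small parameter
  have hcont : ContinuousAt c 0 := cder.continuousAt
  have e1 : ∀ᶠ u in 𝓝[≠] (0 : ℝ), ‖c u - v‖ < d / 2 := by
    have h1 : Tendsto (fun u => ‖c u - v‖) (𝓝 0) (𝓝 ‖c 0 - v‖) :=
      (hcont.sub continuousAt_const).norm
    rw [c0, sub_self, norm_zero] at h1
    exact (h1.eventually (gt_mem_nhds (half_pos hd))).filter_mono nhdsWithin_le_nhds
  have e2 : ∀ᶠ u in 𝓝[≠] (0 : ℝ), c u ≠ v := cder.eventually_ne hw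
  have e3 : ∀ᶠ u in 𝓝[≠] (0 : ℝ), en L (x, c u) = en L (x, v) :=
    cen.filter_mono nhdsWithin_le_nhds
  obtain ⟨u₁, hu1, hu2, hu3⟩ := (e1.and (e2.and e3)).exists
  have hen1 : en L (x, c u₁) = E := hu3.trans hen
  have hpos : 0 < min (d / 2) ‖c u₁ - v‖ :=
    lt_min (half_pos hd) (norm_pos_iff.2 (sub_ne_zero.2 hu2))
  obtain ⟨h', hh', hd1⟩ := hC.dens E hE x (c u₁) hen1 _ hpos
  have hd2 : ‖V E h' x - c u₁‖ < d / 2 := lt_of_lt_of_le hd1 (min_le_left _ _)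
  have hd3 : ‖V E h' x - c u₁‖ < ‖c u₁ - v‖ := lt_of_lt_of_le hd1 (min_le_right _ _)
  have hvv : V E h' x ≠ v := by
    intro h0
    rw [h0, norm_sub_rev] at hd3
    exact lt_irrefl _ hd3
  have hhne : h' ≠ h := by
    intro h0
    apply hvv
    rw [h0]
  have hlt : ‖V E h' x - v‖ < d := by
    have h1 : V E h' x - v = (V E h' x - c u₁) + (c u₁ - v) := by abel
    rw [h1]
    have h2 := norm_add_le (V E h' x - c u₁) (c u₁ - v)
    linarith
  obtain ⟨u, hu, hcu⟩ := hd' (V E h' x) ((hC.enV E hE h' hh' x).trans hen.symm) hlt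
  have huδ : |u| < δ := lt_of_lt_of_le hu (by rw [hδ']; exact min_le_left _ _)
  have huε : |u| < ε := lt_of_lt_of_le hu (by rw [hδ']; exact min_le_right _ _)
  obtain ⟨t, σ, h1, h2, h3⟩ := hbr u huδ
  rw [hKc, hcu, sub_eq_zero] at h3
  have ht1 : t₀ - ε < t := by
    have := (abs_lt.1 h1).1
    linarith
  have hσ : |σ| < |lam| + ε := by
    have h4 : |σ| ≤ |σ - lam| + |lam| := by
      have h5 := abs_add_le (σ - lam) lam
      rwa [sub_add_cancel] at h5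
    linarith
  have hprod : |u * σ| ≤ ε * (|lam| + 1) := by
    rw [abs_mul]
    exact mul_le_mul huε.le (by linarith) (abs_nonneg _) hε0.le
  have hp2 := neg_abs_le (u * σ)
  have htp : 0 < t := by nlinarith [abs_nonneg lam]
  have hsp : 0 < t + u * σ := by nlinarith [abs_nonneg lam]
  exact hC.once E hE h' h hh' hh hhne x t (t + u * σ) htp hsp h3

theorem gam_inj (hC : C0 L Fl E0 V T m) {E : ℝ} (hE : E0 < E) {h : ℤ × ℤ} (hh : Prm h) (x : R2)
    {t₀ : ℝ} (ht : 0 < t₀) {dv : R2} {dt : ℝ} (h1 : Lvv L (x, V E h x) (V E h x) dv = 0)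
    (h2 : (fderiv ℝ (Fl t₀) (x, V E h x) (0, dv)).1 + dt • (Fl t₀ (x, V E h x)).2 = 0) :
    dv = 0 ∧ dt = 0 := by
  by_cases hdv : dv = 0
  · refine ⟨hdv, ?_⟩
    have h3 : ((0, dv) : PP) = 0 := by
      rw [hdv]
      rfl
    rw [h3, map_zero, Prod.fst_zero, zero_add] at h2
    have h4 : (Fl t₀ (x, V E h x)).2 ≠ 0 := by
      refine hC.vne ?_
      rw [hC.toDyn.en_const, hC.enV E hE h hh x]
      exact hE
    exact (smul_eq_zero.1 h2).resolve_right h4
  · exfalso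
    refine noconj hC hE hh x dv hdv h1 ht (-dt) ?_
    rw [neg_smul]
    exact eq_neg_of_add_eq_zero_left h2

end Pool.Agent.DB
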