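import Pool.Agent.DB.Gen

/-!
# MP_74f563_an, n = 2 autonomous (D2), file DB/Orb: the orbits of class `(k, p)` as configurations

`Cfg`: the configuration `y` on the section of a closed minimal orbit of class `(k, p)` and energy
`E`.

PROOF of `orb_exists`.  Notation `V1 = V E1 (1, 0)`, `T1 = T E1 (1, 0)`, `V' = V E (k, p)`,
`T' = T E (k, p)`.
Constants: `fderiv ℝ τ`, `fderiv ℝ s` are continuous and periodic (`τ_per`, `s_per`), hence bounded:
`‖fderiv ℝ τ x‖ ≤ C`, `‖fderiv ℝ s x‖ ≤ C` for all `x` (`C ≥ 1`).  Choose `δ > 0` with `C δ ≤ 1/2`,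
`2 C δ T1 < c1`, `2 C δ T1 < c`, `δ < c1`.
Let `‖V' x - V1 x‖ < δ` for all `x`, `a ∈ ℝ`, `X t = (Fl t (g a, V' (g a))).1`.  `X' t = V' (X t)`
(`vel`, `inv`),
`f t = τ (X t)` has the derivative `fderiv ℝ τ (X t) (V' (X t)) = 1 + fderiv ℝ τ (X t) (V' - V1)`
(`dτ`), in
`[1 - C δ, 1 + C δ] ⊂ [1/2, 3/2]`, so `f` is a strictly increasing continuous bijection of `ℝ`, `f
0 = 0`
(`τ_g`).  Let `t i` be the time with `f (t i) = i * T1` (`i : ℕ`), `t 0 = 0`, and `y i = s (X (t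
i))`, `y 0 = a`
(`s_g`).  Then `X (t i) = g (y i) + (i, 0)` by `Sect.inj` (`τ (g y + (i, 0)) = i * T1`, `s (g y +
(i, 0)) = y` by
`τ_per`, `s_per`, `τ_g`, `s_g` with `k = (i, 0)`).
`T1 = f (t (i+1)) - f (t i)` is between `(1 - C δ)` and `(1 + C δ)` times `t (i+1) - t i`, so
`0 < t (i+1) - t i ≤ 2 T1` and `|t (i+1) - t i - T1| ≤ C δ (t (i+1) - t i) ≤ 2 C δ T1 < c1`.
`(s (X t))' = fderiv ℝ s (X t) (V' - V1)` (`ds`), so `|y (i+1) - y i| ≤ C δ 2 T1 < c` (`inc`).
`Fl (t i) (g a, V' (g a)) = (g (y i), V' (g (y i))) + (zz (i, 0), 0)` (`inv`, `perV`), so by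
`add`, `fper`:
`(Fl (t (i+1) - t i) (g (y i), V' (g (y i)))).1 = X (t (i+1)) - (i, 0) = g (y (i+1)) + (1, 0)`. 
`Arc.uniq` with
`v = V' (g (y i))` (`‖v - V1 (g (y i))‖ < δ < c1`, `enV`), `θ = t (i+1) - t i`:
`ν E (y i) (y (i+1)) = V' (g (y i))` (`vel`) and `ϑ E (y i) (y (i+1)) = t (i+1) - t i`.
`per`: `X (t + T') = X t + (k, p)` for all `t` (`add`, `inv` and `orb` at the point `X t`), so
`f (t + T') = f t + k T1` (`τ_per`), hence `t (i + k) = t i + T'`, and `y (i + k) = s (X (t i) +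
(k, p)) = y i + p`.
`sum`: `Sf E (y i) (y (i+1)) = Ac (t (i+1) - t i) (Fl (t i) (g a, V' (g a))) + E (t (i+1) - t i)`
(`ac_per`); by
`ac_add` and induction the sum over `i < k` is `Ac (t k) (g a, V' (g a)) + E t k`, `t k = T'`, and
this is
`m E (k, p)` (`act`).
-/

set_option autoImplicit false

namespace Pool.Agent.DB

open Set Filter Topology MeasureTheory

/-- the configuration of a closed orbit of class `(k, p)` -/
structure Cfg (L : PP → ℝ) (Fl : ℝ → PP → PP) (V : ℝ → ℤ × ℤ → R2 → R2) (m : ℝ → ℤ × ℤ → ℝ)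
    (g : ℝ → R2) (c : ℝ) (ν : ℝ → ℝ → ℝ → R2) (ϑ : ℝ → ℝ → ℝ → ℝ) (E : ℝ) (k p : ℕ)
    (y : ℕ → ℝ) : Prop where
  inc : ∀ i, |y (i + 1) - y i| < c
  vel : ∀ i, ν E (y i) (y (i + 1)) = V E ((k : ℤ), (p : ℤ)) (g (y i))
  per : ∀ i, y (i + k) = y i + p
  sum : ∑ i ∈ Finset.range k, Sf L Fl g ν ϑ E (y i) (y (i + 1)) = m E ((k : ℤ), (p : ℤ))

variable {L : PP → ℝ} {Fl : ℝ → PP → PP} {E0 : ℝ} {V : ℝ → ℤ × ℤ → R2 → R2}
  {T m : ℝ → ℤ × ℤ → ℝ} {E1 : ℝ} {g : ℝ → R2} {τ s : R2 → ℝ} {c c1 : ℝ} {ν : ℝ → ℝ → ℝ → R2}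
  {ϑ : ℝ → ℝ → ℝ → ℝ}

private theorem fd_bound {f : R2 → ℝ} {r : ℤ × ℤ → ℝ} (hf : AnalyticOnNhd ℝ f univ)
    (hp : ∀ x (k : ℤ × ℤ), f (x + zz k) = f x + r k) : ∃ C, ∀ x, ‖fderiv ℝ f x‖ ≤ C := by
  have hc : Continuous (fderiv ℝ f) := (hf.contDiff (n := 1)).continuous_fderiv (by simp)
  obtain ⟨C, hC⟩ := (isCompact_Icc (a := ((0, 0) : R2)) (b := (1, 1))).exists_bound_of_continuousOn
    hc.continuousOn
  refine ⟨C, fun x => ?_⟩
  have h1 : x = (Int.fract x.1, Int.fract x.2) + zz (⌊x.1⌋, ⌊x.2⌋) := by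
    unfold zz
    exact Prod.ext (Int.fract_add_floor x.1).symm (Int.fract_add_floor x.2).symm
  have h2 : ∀ (x : R2) (k : ℤ × ℤ), fderiv ℝ f (x + zz k) = fderiv ℝ f x := by
    intro x k
    rw [← fderiv_comp_add_right]
    have h3 : (fun x => f (x + zz k)) = fun x => f x + r k := funext fun x => hp x k
    rw [h3, fderiv_add_const]
  rw [h1, h2]
  apply hC
  exact ⟨⟨Int.fract_nonneg _, Int.fract_nonneg _⟩,
    ⟨(Int.fract_lt_one _).le, (Int.fract_lt_one _).le⟩⟩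

/-- a function whose derivative is within `e` of `b` -/
private theorem mv {f f' : ℝ → ℝ} {b e : ℝ} (hf : ∀ t, HasDerivAt f (f' t) t)
    (hb : ∀ t, |f' t - b| ≤ e) {s t : ℝ} (hst : s ≤ t) :
    |f t - f s - b * (t - s)| ≤ e * (t - s) := by
  have h1 : Monotone fun t => f t - (b - e) * t := by
    apply monotone_of_hasDerivAt_nonneg (f' := fun t => f' t - (b - e) * 1)
    · intro t
      exact (hf t).sub ((hasDerivAt_id t).const_mul (b - e))
    · intro t
      have := (abs_le.1 (hb t)).1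
      show 0 ≤ f' t - (b - e) * 1
      linarith
  have h2 : Monotone fun t => (b + e) * t - f t := by
    apply monotone_of_hasDerivAt_nonneg (f' := fun t => (b + e) * 1 - f' t)
    · intro t
      exact ((hasDerivAt_id t).const_mul (b + e)).sub (hf t)
    · intro t
      have := (abs_le.1 (hb t)).2
      show 0 ≤ (b + e) * 1 - f' t
      linarith
  have h3 := h1 hst
  have h4 := h2 hst
  simp only at h3 h4
  rw [abs_le]
  constructor <;> linarith

/-- the times and the configuration of one orbit -/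
private theorem orb_aux (hC : C0 L Fl E0 V T m) (hS : Sect (V E1 (1, 0)) (T E1 (1, 0)) g τ s)
    (hA : Arc L Fl E0 V T E1 g c c1 ν ϑ) {C δ : ℝ} (hCτ : ∀ x, ‖fderiv ℝ τ x‖ ≤ C)
    (hCs : ∀ x, ‖fderiv ℝ s x‖ ≤ C) (hC1 : 1 ≤ C) (hδ0 : 0 < δ) (hδ1 : C * δ ≤ 1 / 2)
    (hδ2 : 2 * C * δ * T E1 (1, 0) < c1) (hδ3 : 2 * C * δ * T E1 (1, 0) < c) (hδ4 : δ < c1)
    {E : ℝ} (hE : |E - E1| < c) {k p : ℕ} (hkp : Prm ((k : ℤ), (p : ℤ)))
    (hV : ∀ x, ‖V E ((k : ℤ), (p : ℤ)) x - V E1 (1, 0) x‖ < δ) (a : ℝ) :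
    ∃ y : ℕ → ℝ, y 0 = a ∧ Cfg L Fl V m g c ν ϑ E k p y := by
  have hE0 : E0 < E := hA.gt E hE
  set T1 := T E1 (1, 0) with hT1
  have hT1pos : 0 < T1 := hS.T0
  set h' : ℤ × ℤ := ((k : ℤ), (p : ℤ)) with hh'
  set V' : R2 → R2 := V E h' with hV'
  set z0 : PP := (g a, V' (g a)) with hz0
  set X : ℝ → R2 := fun t => (Fl t z0).1 with hX
  have hFl : ∀ t, Fl t z0 = (X t, V' (X t)) := fun t =>
    Prod.ext rfl (hC.inv E hE0 h' hkp (g a) t)
  have hXd : ∀ t, HasDerivAt X (V' (X t)) t := by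
    intro t
    have h1 := hC.vel t z0
    rw [hFl t] at h1
    exact h1
  -- derivatives of the coordinates along the orbit
  have key : ∀ (f : R2 → ℝ) (b : ℝ), AnalyticOnNhd ℝ f univ → (∀ x, ‖fderiv ℝ f x‖ ≤ C) →
      (∀ x, fderiv ℝ f x (V E1 (1, 0) x) = b) → ∀ t t', t ≤ t' →
      |f (X t') - f (X t) - b * (t' - t)| ≤ C * δ * (t' - t) := by
    intro f b hf hfC hfb t t' htt
    refine mv (f := fun t => f (X t)) (f' := fun t => fderiv ℝ f (X t) (V' (X t))) ?_ ?_ htt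
    · intro t
      exact (hf (X t) trivial).differentiableAt.hasFDerivAt.comp_hasDerivAt t (hXd t)
    · intro t
      have h1 : fderiv ℝ f (X t) (V' (X t)) - b =
          fderiv ℝ f (X t) (V' (X t) - V E1 (1, 0) (X t)) := by
        rw [map_sub, hfb]
      rw [h1, ← Real.norm_eq_abs]
      refine (ContinuousLinearMap.le_opNorm _ _).trans ?_
      exact mul_le_mul (hfC _) (hV _).le (norm_nonneg _) (by linarith)
  have keyτ := key τ 1 hS.τ_ana hCτ hS.dτ
  have keys := key s 0 hS.s_ana hCs hS.ds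
  set f : ℝ → ℝ := fun t => τ (X t) with hf
  have hX0 : X 0 = g a := by
    show (Fl 0 z0).1 = g a
    rw [hC.zero]
  have hf0 : f 0 = 0 := by
    show τ (X 0) = 0
    rw [hX0, hS.τ_g]
  have hfc : Continuous f := by
    have h1 : Continuous X := continuous_iff_continuousAt.2 fun t => (hXd t).continuousAt
    have h2 : Continuous τ := continuous_iff_continuousAt.2 fun x =>
      (hS.τ_ana x trivial).continuousAt
    exact h2.comp h1
  have hflow : ∀ t t', t ≤ t' → (1 / 2) * (t' - t) ≤ f t' - f t := by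
    intro t t' htt
    have h1 := (abs_le.1 (keyτ t t' htt)).1
    have h2 : C * δ * (t' - t) ≤ 1 / 2 * (t' - t) :=
      mul_le_mul_of_nonneg_right hδ1 (by linarith)
    have h3 : f t' - f t = τ (X t') - τ (X t) := rfl
    rw [h3]
    linarith
  have hmono : ∀ t t', t < t' → f t < f t' := by
    intro t t' htt
    have := hflow t t' htt.le
    linarith
  have hinj : ∀ t t', f t = f t' → t = t' := by
    intro t t' h
    rcases lt_trichotomy t t' with h1 | h1 | h1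
    · exact absurd h (hmono _ _ h1).ne
    · exact h1
    · exact absurd h (hmono _ _ h1).ne'
  have hex : ∀ i : ℕ, ∃ t, f t = i * T1 := by
    intro i
    have hi : (0 : ℝ) ≤ i * T1 := by positivity
    have h1 : f (2 * (i * T1)) ≥ i * T1 := by
      have := hflow 0 (2 * (i * T1)) (by linarith)
      rw [hf0] at this
      linarith
    obtain ⟨t, -, ht⟩ := intermediate_value_Icc (a := 0) (b := 2 * (i * T1)) (by linarith)
      hfc.continuousOn ⟨by rw [hf0]; exact hi, h1⟩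
    exact ⟨t, ht⟩
  choose t ht using hex
  have ht0 : t 0 = 0 := hinj _ _ (by rw [ht, hf0]; simp)
  set y : ℕ → ℝ := fun i => s (X (t i)) with hy
  have hXt : ∀ i : ℕ, X (t i) = g (y i) + zz ((i : ℤ), 0) := by
    intro i
    apply hS.inj
    · rw [hS.τ_per, hS.τ_g, zero_add]
      have h1 := ht i
      simpa using h1
    · rw [hS.s_per, hS.s_g]
      simp [hy]
  have hth : ∀ i, t i < t (i + 1) := by
    intro i
    by_contra hcon
    rw [not_lt] at hcon
    have h1 := hflow _ _ hcon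
    rw [ht, ht] at h1
    push_cast at h1
    nlinarith
  have hθ : ∀ i, t (i + 1) - t i ≤ 2 * T1 ∧ |t (i + 1) - t i - T1| ≤ 2 * C * δ * T1 := by
    intro i
    have h1 := hflow _ _ (hth i).le
    have h2 := keyτ _ _ (hth i).le
    have h3 : τ (X (t (i + 1))) - τ (X (t i)) = T1 := by
      show f (t (i + 1)) - f (t i) = T1
      rw [ht, ht]
      push_cast
      ring
    have h4 : f (t (i + 1)) - f (t i) = T1 := h3
    rw [h4] at h1
    rw [h3] at h2
    have h5 : t (i + 1) - t i ≤ 2 * T1 := by linarith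
    have h6 : C * δ * (t (i + 1) - t i) ≤ C * δ * (2 * T1) :=
      mul_le_mul_of_nonneg_left h5 (by positivity)
    refine ⟨h5, ?_⟩
    rw [abs_le] at h2 ⊢
    constructor <;> linarith [h2.1, h2.2]
  have hinc : ∀ i, |y (i + 1) - y i| < c := by
    intro i
    have h1 := keys _ _ (hth i).le
    rw [zero_mul, sub_zero] at h1
    have h6 : C * δ * (t (i + 1) - t i) ≤ C * δ * (2 * T1) :=
      mul_le_mul_of_nonneg_left (hθ i).1 (by positivity)
    have h7 : |y (i + 1) - y i| = |s (X (t (i + 1))) - s (X (t i))| := rfl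
    rw [h7]
    linarith
  have hFt : ∀ i : ℕ, Fl (t i) z0 = (g (y i), V' (g (y i))) + (zz ((i : ℤ), 0), 0) := by
    intro i
    have h1 : V' (g (y i) + zz ((i : ℤ), 0)) = V' (g (y i)) := hC.perV E hE0 h' hkp _ _
    rw [hFl, hXt i, h1]
    simp
  have hFθ : ∀ i : ℕ,
      (Fl (t (i + 1) - t i) (g (y i), V' (g (y i)))).1 = g (y (i + 1)) + (1, 0) := by
    intro i
    have h1 : X (t (i + 1)) = (Fl (t (i + 1) - t i) (g (y i), V' (g (y i)))).1 +
        zz ((i : ℤ), 0) := by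
      have h2 : Fl (t (i + 1)) z0 = Fl (t (i + 1) - t i) (g (y i), V' (g (y i))) +
          (zz ((i : ℤ), 0), 0) := by
        rw [← hC.fper, ← hFt, ← hC.add, sub_add_cancel]
      show (Fl (t (i + 1)) z0).1 = _
      rw [h2]
      rfl
    rw [hXt (i + 1)] at h1
    have h3 : zz (((i + 1 : ℕ) : ℤ), 0) = zz ((i : ℤ), 0) + (1, 0) := by
      simp [zz]
    rw [h3, ← add_assoc, add_right_comm] at h1
    exact (add_right_cancel h1).symm
  have huniq : ∀ i, V' (g (y i)) = ν E (y i) (y (i + 1)) ∧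
      t (i + 1) - t i = ϑ E (y i) (y (i + 1)) := by
    intro i
    refine hA.uniq E (y i) (y (i + 1)) _ _ hE (hinc i) ((hV _).trans hδ4)
      ((hθ i).2.trans_lt hδ2) (hC.enV E hE0 h' hkp _) (hFθ i)
  -- periodicity
  have hXT : ∀ r, X (T E h' + r) = X r + zz h' := by
    intro r
    show (Fl (T E h' + r) z0).1 = _
    rw [hC.add, hFl r]
    exact hC.orb E hE0 h' hkp (X r)
  have htk : ∀ i, t (i + k) = T E h' + t i := by
    intro i
    apply hinj
    have h1 : f (T E h' + t i) = f (t i) + k * T1 := by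
      show τ (X (T E h' + t i)) = _
      rw [hXT, hS.τ_per]
      simp [hh', hf]
    rw [h1, ht, ht]
    push_cast
    ring
  have hsum : ∀ n : ℕ, ∑ i ∈ Finset.range n, Sf L Fl g ν ϑ E (y i) (y (i + 1)) =
      Ac L Fl (t n) z0 + E * t n := by
    intro n
    induction n with
    | zero =>
      rw [ht0]
      simp [Ac]
    | succ n ih =>
      rw [Finset.sum_range_succ, ih, Sf, ← (huniq n).1, ← (huniq n).2]
      have h1 : Ac L Fl (t (n + 1)) z0 = Ac L Fl (t n) z0 +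
          Ac L Fl (t (n + 1) - t n) (g (y n), V' (g (y n))) := by
        have h2 := hC.ac_add (t (n + 1) - t n) (t n) z0
        rw [sub_add_cancel, hFt, hC.ac_per] at h2
        exact h2
      rw [h1]
      ring
  refine ⟨y, ?_, hinc, fun i => (huniq i).1.symm, fun i => ?_, ?_⟩
  · show s (X (t 0)) = a
    rw [ht0, hX0, hS.s_g]
  · show s (X (t (i + k))) = s (X (t i)) + p
    rw [htk, hXT, hS.s_per]
    simp [hh']
  · have h1 : t k = T E h' := by
      have := htk 0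
      rwa [zero_add, ht0, add_zero] at this
    rw [hsum, h1]
    exact hC.act E hE0 h' hkp (g a)

theorem orb_exists (hC : C0 L Fl E0 V T m) (hS : Sect (V E1 (1, 0)) (T E1 (1, 0)) g τ s)
    (hA : Arc L Fl E0 V T E1 g c c1 ν ϑ) :
    ∃ δ > 0, ∀ E, |E - E1| < c → ∀ k p : ℕ, 0 < k → 0 < p → Nat.Coprime k p →
      (∀ x, ‖V E ((k : ℤ), (p : ℤ)) x - V E1 (1, 0) x‖ < δ) →
      ∀ a, ∃ y : ℕ → ℝ, y 0 = a ∧ Cfg L Fl V m g c ν ϑ E k p y := by
  obtain ⟨C1, hC1⟩ := fd_bound hS.τ_ana (r := fun k => k.1 * T E1 (1, 0)) hS.τ_per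
  obtain ⟨C2, hC2⟩ := fd_bound hS.s_ana (r := fun k => k.2) hS.s_per
  obtain ⟨C, hCC, hCτ, hCs⟩ : ∃ C : ℝ, 1 ≤ C ∧ (∀ x, ‖fderiv ℝ τ x‖ ≤ C) ∧
      ∀ x, ‖fderiv ℝ s x‖ ≤ C :=
    ⟨max 1 (max C1 C2), le_max_left _ _,
      fun x => (hC1 x).trans ((le_max_left _ _).trans (le_max_right _ _)),
      fun x => (hC2 x).trans ((le_max_right _ _).trans (le_max_right _ _))⟩
  have hT := hS.T0
  set T1 := T E1 (1, 0) with hT1
  have hM : 0 < min c c1 := lt_min hA.c_pos hA.c1_pos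
  have hD : 0 < 4 * C * T1 + 2 := by positivity
  refine ⟨min (1 / (2 * C)) (min c c1 / (4 * C * T1 + 2)), lt_min (by positivity)
    (by positivity), ?_⟩
  set δ := min (1 / (2 * C)) (min c c1 / (4 * C * T1 + 2)) with hδ
  have hδ0 : 0 < δ := lt_min (by positivity) (by positivity)
  have h1 : C * δ ≤ 1 / 2 := by
    have h2 : δ ≤ 1 / (2 * C) := min_le_left _ _
    calc C * δ ≤ C * (1 / (2 * C)) := mul_le_mul_of_nonneg_left h2 (by linarith)
      _ = 1 / 2 := by field_simp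
  have h2 : δ * (4 * C * T1 + 2) ≤ min c c1 := by
    have h3 : δ ≤ min c c1 / (4 * C * T1 + 2) := min_le_right _ _
    rwa [le_div_iff₀ hD] at h3
  have h3 : 0 < C * δ * T1 := by positivity
  have hc : min c c1 ≤ c := min_le_left _ _
  have hc1 : min c c1 ≤ c1 := min_le_right _ _
  intro E hE k p _ _ hkp hV a
  refine orb_aux hC hS hA hCτ hCs hCC hδ0 h1 ?_ ?_ ?_ hE ?_ hV a
  · show 2 * C * δ * T1 < c1
    nlinarith
  · show 2 * C * δ * T1 < c
    nlinarith
  · nlinarith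
  · exact Nat.isCoprime_iff_coprime.2 hkp

end Pool.Agent.DB
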