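import Pool.Agent.DB.Gen

/-!
# MP_74f563_an, n = 2 autonomous (D2), file DB/Pos: the twist condition

Notation: `F E x X = S1 .. E x X`; `|E - E1| < c`, `|X - x| < c`.  Partial derivatives `F_X`,
`F_x`, `F_xX`, ...

PROOFS.  `two_arcs`: `mini` with `h = (1, 0)`, `n = 2`, `N = 2`, `z 0 = (g x, ν E x X)`, `τ 0 = ϑ
E x X`,
`z 1 = (g X + (1, 0), ν E X x)`, `τ 1 = ϑ E X x`, `z 2 = (g x + (2, 0), 0)` (`hit`, `fper` and
`ac_per` with
`k = (1, 0)`).
`S1_hess`: `F = F_X = 0` on the diagonal (`S1_diag`, `S1_dX_diag`), so `F_x = 0` on the diagonal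
(derivative of
`x ↦ F E x x`), and differentiating `F_X E x x = 0`, `F_x E x x = 0` along the diagonal:
`F_xX + F_XX = 0`, `F_xx + F_xX = 0` (symmetry of second derivatives).  By `S1_dx`
`F_xX = ∂_X (pE E x - Pin E x X) = -∂_X Pin`.  So `F_XX = ∂_X Pin = F_xx` on the diagonal.
`pin_nonneg`: `φ X = F E x X + F E X x = Sf E x X + Sf E X x - 2 m ≥ 0` (`two_arcs`; the
integrals cancel) for
`|X - x| < c` and `φ x = 0`: local minimum; `φ'' x = F_XX + F_xx = 2 ∂_X Pin E x x` (`S1_hess`)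
and a local
minimum has `φ'' ≥ 0` (if `φ'' x < 0` and `φ' x = 0` then `φ < φ x` near `x`, `x` excluded).
`pin_ne`: `E = E1`, `X = x`, `z = (g x, ν E1 x x) = (g x, V1 (g x))`, `T1 = ϑ E1 x x`.  Let `n =
∂_X ν E1 x X`,
`t = ∂_X ϑ E1 x X` at `X = x`.  `∂_X Pin = Lvv L z n (deriv g x)` (`pm_dv`).  Suppose it is `0`.
Differentiate `en L (g x, ν E1 x X) = E1`: `Lvv L z (V1 (g x)) n = 0` (`en_dv`).  `V1 (g x)`,
`deriv g x` span
the plane (`Sect.ind`), so `Lvv L z n n = 0` and `n = 0` (`pos`).  Differentiate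
`(Fl (ϑ E1 x X) (g x, ν E1 x X)).1 = g X + (1, 0)`: `(fderiv ℝ (Fl T1) z (0, n)).1 + t • (Fl T1
z).2 = deriv g x`, so
`t • (Fl T1 z).2 = deriv g x` with `(Fl T1 z).2 = V1 (g x)` (`inv`, `orb`, `perV`): contradiction
to
`Sect.ind`.
`exists_pos`: by `pin_nonneg`, `pin_ne`: `∂_X Pin E1 x x > 0` for all `x`.  The function
`(E, x, X) ↦ deriv (fun X => Pin E x X) X` is continuous (analytic) on the domain and 1-periodic
in
`(x, X)` (`ν_per`, `g_per`, `dg_per`, `pm_per`); on the compact set `{(E1, x, x) : x ∈ [0, 1]}`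
it is `≥ 2 b > 0`,
and by compactness (tube lemma, or uniform continuity) it is `≥ b` for `|E - E1| < c'`,
`|X - x| < c'`, `x ∈ [0, 1]`, hence for all `x`.
`S1_d2_pos`: `S1_hess`, `exists_pos`.
-/

set_option autoImplicit false

namespace Pool.Agent.DB

open Set Filter Topology MeasureTheory

variable {L : PP → ℝ} {Fl : ℝ → PP → PP} {E0 : ℝ} {V : ℝ → ℤ × ℤ → R2 → R2}
  {T m : ℝ → ℤ × ℤ → ℝ} {E1 : ℝ} {g : ℝ → R2} {τ s : R2 → ℝ} {c c1 : ℝ} {ν : ℝ → ℝ → ℝ → R2}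
  {ϑ : ℝ → ℝ → ℝ → ℝ} {E x X : ℝ}

/-- second derivatives along the diagonal of a function which vanishes on the diagonal together
with its partial derivatives -/
private theorem pos_hess {Φ : ℝ × ℝ → ℝ} {x : ℝ} (hΦ : AnalyticAt ℝ Φ (x, x))
    (h0 : ∀ᶠ t in 𝓝 x, Φ (t, t) = 0) (h1 : ∀ᶠ t in 𝓝 x, deriv (fun X => Φ (t, X)) t = 0) :
    deriv (deriv fun X => Φ (x, X)) x = fderiv ℝ (fderiv ℝ Φ) (x, x) (0, 1) (0, 1) ∧
    deriv (fun X => fderiv ℝ Φ (x, X) (1, 0)) x = fderiv ℝ (fderiv ℝ Φ) (x, x) (0, 1) (1, 0) ∧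
    fderiv ℝ (fderiv ℝ Φ) (x, x) (0, 1) (1, 0) = -fderiv ℝ (fderiv ℝ Φ) (x, x) (0, 1) (0, 1) ∧
    fderiv ℝ (fderiv ℝ Φ) (x, x) (1, 0) (1, 0) = fderiv ℝ (fderiv ℝ Φ) (x, x) (0, 1) (0, 1) := by
  have hev : ∀ᶠ q in 𝓝 ((x, x) : ℝ × ℝ), AnalyticAt ℝ Φ q := hΦ.eventually_analyticAt
  have hD : HasFDerivAt (fderiv ℝ Φ) (fderiv ℝ (fderiv ℝ Φ) (x, x)) (x, x) :=
    hΦ.fderiv.differentiableAt.hasFDerivAt
  set D2 := fderiv ℝ (fderiv ℝ Φ) (x, x) with hD2
  have hsym : ∀ u v, D2 u v = D2 v u := fun u v =>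
    ((hΦ.contDiffAt (n := 2)).isSymmSndFDerivAt (by simp)).eq u v
  have hc1 : HasDerivAt (fun X : ℝ => ((x, X) : ℝ × ℝ)) (0, 1) x :=
    (hasDerivAt_const x x).prodMk (hasDerivAt_id x)
  have hcd : HasDerivAt (fun X : ℝ => ((X, X) : ℝ × ℝ)) (1, 1) x :=
    (hasDerivAt_id x).prodMk (hasDerivAt_id x)
  have hcont1 : Tendsto (fun X : ℝ => ((x, X) : ℝ × ℝ)) (𝓝 x) (𝓝 (x, x)) :=
    hc1.continuousAt
  have hcontd : Tendsto (fun X : ℝ => ((X, X) : ℝ × ℝ)) (𝓝 x) (𝓝 (x, x)) :=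
    hcd.continuousAt
  have hpart : ∀ a b : ℝ, AnalyticAt ℝ Φ (a, b) → HasDerivAt (fun X => Φ (a, X))
      (fderiv ℝ Φ (a, b) (0, 1)) b := fun a b h =>
    HasFDerivAt.comp_hasDerivAt (l := Φ) (f := fun X : ℝ => ((a, X) : ℝ × ℝ)) b
      h.differentiableAt.hasFDerivAt ((hasDerivAt_const b a).prodMk (hasDerivAt_id b))
  have hdiag : ∀ a : ℝ, AnalyticAt ℝ Φ (a, a) → HasDerivAt (fun X => Φ (X, X))
      (fderiv ℝ Φ (a, a) (1, 1)) a := fun a h =>
    HasFDerivAt.comp_hasDerivAt (l := Φ) (f := fun X : ℝ => ((X, X) : ℝ × ℝ)) a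
      h.differentiableAt.hasFDerivAt ((hasDerivAt_id a).prodMk (hasDerivAt_id a))
  have hcomp : ∀ (γ : ℝ → ℝ × ℝ) (γ' v : ℝ × ℝ), γ x = (x, x) → HasDerivAt γ γ' x →
      HasDerivAt (fun X => fderiv ℝ Φ (γ X) v) (D2 γ' v) x := by
    intro γ γ' v hγ0 hγ
    have h2 : HasDerivAt (fun X => fderiv ℝ Φ (γ X)) (D2 γ') x := by
      have h3 : HasFDerivAt (fderiv ℝ Φ) D2 (γ x) := by
        rw [hγ0]
        exact hD
      exact HasFDerivAt.comp_hasDerivAt (l := fderiv ℝ Φ) (f := γ) x h3 hγ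
    have h4 := h2.clm_apply (hasDerivAt_const x v)
    simpa using h4
  -- the partial derivatives vanish on the diagonal
  have e01 : ∀ᶠ t in 𝓝 x, fderiv ℝ Φ (t, t) (0, 1) = 0 := by
    filter_upwards [h1, hcontd.eventually hev] with t h2 h3
    rw [← (hpart t t h3).deriv]
    exact h2
  have e10 : ∀ᶠ t in 𝓝 x, fderiv ℝ Φ (t, t) (1, 0) = 0 := by
    filter_upwards [h0.eventually_nhds, e01, hcontd.eventually hev] with t h2 h3 h4
    have h5 : HasDerivAt (fun X => Φ (X, X)) 0 t :=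
      (hasDerivAt_const t (0 : ℝ)).congr_of_eventuallyEq h2
    have h6 := (hdiag t h4).unique h5
    have h7 : ((1, 1) : ℝ × ℝ) = (1, 0) + (0, 1) := by simp
    rw [h7, map_add, h3, add_zero] at h6
    exact h6
  have s11 : ((1, 1) : ℝ × ℝ) = (1, 0) + (0, 1) := by simp
  have k01 : D2 (1, 0) (0, 1) + D2 (0, 1) (0, 1) = 0 := by
    have h2 := hcomp (fun X => (X, X)) (1, 1) (0, 1) rfl hcd
    have h3 : HasDerivAt (fun X => fderiv ℝ Φ (X, X) (0, 1)) 0 x :=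
      (hasDerivAt_const x (0 : ℝ)).congr_of_eventuallyEq e01
    have h4 := h2.unique h3
    rw [s11, map_add] at h4
    exact h4
  have k10 : D2 (1, 0) (1, 0) + D2 (0, 1) (1, 0) = 0 := by
    have h2 := hcomp (fun X => (X, X)) (1, 1) (1, 0) rfl hcd
    have h3 : HasDerivAt (fun X => fderiv ℝ Φ (X, X) (1, 0)) 0 x :=
      (hasDerivAt_const x (0 : ℝ)).congr_of_eventuallyEq e10
    have h4 := h2.unique h3
    rw [s11, map_add] at h4
    exact h4
  have hs := hsym (0, 1) (1, 0)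
  refine ⟨?_, ?_, by linarith, by linarith⟩
  · have h2 : (deriv fun X => Φ (x, X)) =ᶠ[𝓝 x] fun X => fderiv ℝ Φ (x, X) (0, 1) := by
      filter_upwards [hcont1.eventually hev] with t h3
      exact (hpart x t h3).deriv
    rw [h2.deriv_eq]
    exact (hcomp (fun X => (x, X)) (0, 1) (0, 1) rfl hc1).deriv
  · exact (hcomp (fun X => (x, X)) (0, 1) (1, 0) rfl hc1).deriv

/-- second derivative test -/
private theorem pos_min {φ : ℝ → ℝ} {x a : ℝ} {ψ : ℝ → ℝ} (hφ : ∀ᶠ X in 𝓝 x, HasDerivAt φ (ψ X) X)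
    (hψ : HasDerivAt ψ a x) (hm : IsLocalMin φ x) : 0 ≤ a := by
  by_contra hneg
  rw [not_le] at hneg
  have h0 : ψ x = 0 := hm.hasDerivAt_eq_zero hφ.self_of_nhds
  have h1 : deriv φ =ᶠ[𝓝 x] ψ := by
    filter_upwards [hφ] with t h
    exact h.deriv
  have h2 : deriv (deriv φ) x = a := by
    rw [h1.deriv_eq]
    exact hψ.deriv
  have h3 : IsLocalMax φ x := isLocalMax_of_deriv_deriv_neg (by rw [h2]; exact hneg)
    (by rw [h1.self_of_nhds]; exact h0) hφ.self_of_nhds.continuousAt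
  have h4 : φ =ᶠ[𝓝 x] fun _ => φ x := by
    filter_upwards [hm, h3] with t h5 h6
    exact le_antisymm h6 h5
  have h5 : deriv φ =ᶠ[𝓝 x] deriv (fun _ => φ x) := h4.deriv
  have h6 : deriv (deriv φ) x = 0 := by
    rw [h5.deriv_eq]
    simp
  rw [h2] at h6
  exact absurd h6 hneg.ne

/-- `S1` for a fixed energy is analytic -/
private theorem pos_S1 (hC : C0 L Fl E0 V T m) (hS : Sect (V E1 (1, 0)) (T E1 (1, 0)) g τ s)
    (hA : Arc L Fl E0 V T E1 g c c1 ν ϑ) (hE : |E - E1| < c) (hx : |X - x| < c) :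
    AnalyticAt ℝ (fun q : ℝ × ℝ => S1 L Fl V m g ν ϑ E q.1 q.2) (x, X) :=
  AnalyticAt.fun_comp (g := fun q : ℝ × ℝ × ℝ => S1 L Fl V m g ν ϑ q.1 q.2.1 q.2.2)
    (f := fun q : ℝ × ℝ => (E, q.1, q.2)) (S1_ana hC hS hA hE hx)
    (analyticAt_const.prod (analyticAt_fst.prod analyticAt_snd))

private theorem pos_near (hA : Arc L Fl E0 V T E1 g c c1 ν ϑ) (x : ℝ) :
    ∀ᶠ X in 𝓝 x, |X - x| < c := by
  have h1 := Metric.ball_mem_nhds x hA.c_pos
  filter_upwards [h1] with X hX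
  rw [Metric.mem_ball, Real.dist_eq] at hX
  exact hX

private theorem pos_self (hA : Arc L Fl E0 V T E1 g c c1 ν ϑ) (x : ℝ) : |x - x| < c := by
  rw [sub_self, abs_zero]
  exact hA.c_pos

private theorem pos_all (hC : C0 L Fl E0 V T m) (hS : Sect (V E1 (1, 0)) (T E1 (1, 0)) g τ s)
    (hA : Arc L Fl E0 V T E1 g c c1 ν ϑ) (hE : |E - E1| < c) (x : ℝ) :
    deriv (deriv fun X => S1 L Fl V m g ν ϑ E x X) x = deriv (fun X => Pin L g ν E x X) x ∧
    fderiv ℝ (fderiv ℝ fun q : ℝ × ℝ => S1 L Fl V m g ν ϑ E q.1 q.2) (x, x) (0, 1) (0, 1) =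
      deriv (fun X => Pin L g ν E x X) x ∧
    fderiv ℝ (fderiv ℝ fun q : ℝ × ℝ => S1 L Fl V m g ν ϑ E q.1 q.2) (x, x) (1, 0) (1, 0) =
      deriv (fun X => Pin L g ν E x X) x := by
  set Φ : ℝ × ℝ → ℝ := fun q => S1 L Fl V m g ν ϑ E q.1 q.2 with hΦ
  have hana := pos_S1 hC hS hA hE (pos_self hA x)
  obtain ⟨h1, h2, h3, h4⟩ := pos_hess (Φ := Φ) (x := x) hana
    (Eventually.of_forall fun t => S1_diag hC hA hE)
    (Eventually.of_forall fun t => S1_dX_diag hC hS hA hE)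
  have h5 : (fun X => fderiv ℝ Φ (x, X) (1, 0)) =ᶠ[𝓝 x] fun X =>
      pE L V g E x - Pin L g ν E x X := by
    filter_upwards [pos_near hA x] with X hX
    have h6 : HasDerivAt (fun t => Φ (t, X)) (fderiv ℝ Φ (x, X) (1, 0)) x :=
      HasFDerivAt.comp_hasDerivAt (l := Φ) (f := fun t : ℝ => ((t, X) : ℝ × ℝ)) x
        (pos_S1 hC hS hA hE hX).differentiableAt.hasFDerivAt
        ((hasDerivAt_id x).prodMk (hasDerivAt_const x X))
    exact h6.unique (S1_dx hC hS hA hE hX)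
  have h6 : deriv (fun X => fderiv ℝ Φ (x, X) (1, 0)) x =
      -deriv (fun X => Pin L g ν E x X) x := by
    rw [h5.deriv_eq, deriv_const_sub]
  rw [h6, h3] at h2
  have h7 := neg_injective h2
  exact ⟨h1.trans h7.symm, h7.symm, h4.trans h7.symm⟩

theorem two_arcs (hC : C0 L Fl E0 V T m) (hS : Sect (V E1 (1, 0)) (T E1 (1, 0)) g τ s)
    (hA : Arc L Fl E0 V T E1 g c c1 ν ϑ) (hE : |E - E1| < c) (hx : |X - x| < c) :
    2 * m E (1, 0) ≤ Sf L Fl g ν ϑ E x X + Sf L Fl g ν ϑ E X x := by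
  have h10 : zz (1, 0) = ((1, 0) : R2) := by simp [zz]
  have hx' : |x - X| < c := by rwa [abs_sub_comm]
  have hsplit : ∀ v : R2, ((g X + (1, 0), v) : PP) = (g X, v) + (zz (1, 0), 0) := by
    intro v
    rw [h10]
    exact Prod.ext rfl (add_zero _).symm
  have h1 := hC.mini E (hA.gt E hE) (1, 0) isCoprime_one_left 2 2
    (fun i => if i = 0 then (g x, ν E x X) else if i = 1 then (g X + (1, 0), ν E X x)
      else (g x + (2, 0), 0))
    (fun i => if i = 0 then ϑ E x X else ϑ E X x) two_pos two_pos ?_ ?_ ?_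
  · rw [Finset.sum_range_succ, Finset.sum_range_one] at h1
    simp only [if_true, one_ne_zero, if_false, Nat.cast_ofNat] at h1
    rw [hsplit, hC.toDyn.ac_per] at h1
    exact h1
  · intro i hi
    rcases i with _ | _ | i
    · exact hA.ϑ_pos E x X hE hx
    · exact hA.ϑ_pos E X x hE hx'
    · omega
  · intro i hi
    rcases i with _ | _ | i
    · exact hA.hit E x X hE hx
    · have h2 : (Fl (ϑ E X x) (g X + (1, 0), ν E X x)).1 = g x + (2, 0) := by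
        rw [hsplit, hC.toDyn.fper, Prod.fst_add, hA.hit E X x hE hx', h10, add_assoc]
        congr 1
        ext <;> norm_num
      exact h2
    · omega
  · rw [h10]
    change g x + (2, 0) = g x + ((2 : ℕ) : ℝ) • ((1, 0) : R2)
    congr 1
    ext <;> simp

theorem S1_hess (hC : C0 L Fl E0 V T m) (hS : Sect (V E1 (1, 0)) (T E1 (1, 0)) g τ s)
    (hA : Arc L Fl E0 V T E1 g c c1 ν ϑ) (hE : |E - E1| < c) :
    deriv (deriv fun X => S1 L Fl V m g ν ϑ E x X) x = deriv (fun X => Pin L g ν E x X) x := by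
  exact (pos_all hC hS hA hE x).1

theorem pin_nonneg (hC : C0 L Fl E0 V T m) (hS : Sect (V E1 (1, 0)) (T E1 (1, 0)) g τ s)
    (hA : Arc L Fl E0 V T E1 g c c1 ν ϑ) (hE : |E - E1| < c) :
    0 ≤ deriv (fun X => Pin L g ν E x X) x := by
  obtain ⟨-, h1, h2⟩ := pos_all hC hS hA hE x
  set Φ : ℝ × ℝ → ℝ := fun q => S1 L Fl V m g ν ϑ E q.1 q.2 with hΦ
  have hana : AnalyticAt ℝ Φ (x, x) := pos_S1 hC hS hA hE (pos_self hA x)
  have hcx : HasDerivAt (fun X : ℝ => ((x, X) : ℝ × ℝ)) (0, 1) x :=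
    (hasDerivAt_const x x).prodMk (hasDerivAt_id x)
  have hcy : HasDerivAt (fun X : ℝ => ((X, x) : ℝ × ℝ)) (1, 0) x :=
    (hasDerivAt_id x).prodMk (hasDerivAt_const x x)
  have hD : HasFDerivAt (fderiv ℝ Φ) (fderiv ℝ (fderiv ℝ Φ) (x, x)) (x, x) :=
    hana.fderiv.differentiableAt.hasFDerivAt
  have h3 : ∀ᶠ X in 𝓝 x, HasDerivAt (fun X => Φ (x, X) + Φ (X, x))
      (fderiv ℝ Φ (x, X) (0, 1) + fderiv ℝ Φ (X, x) (1, 0)) X := by
    filter_upwards [pos_near hA x] with X hX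
    have hX' : |x - X| < c := by rwa [abs_sub_comm]
    have h4 : HasDerivAt (fun t => Φ (x, t)) (fderiv ℝ Φ (x, X) (0, 1)) X :=
      HasFDerivAt.comp_hasDerivAt (l := Φ) (f := fun t : ℝ => ((x, t) : ℝ × ℝ)) X
        (pos_S1 hC hS hA hE hX).differentiableAt.hasFDerivAt
        ((hasDerivAt_const X x).prodMk (hasDerivAt_id X))
    have h5 : HasDerivAt (fun t => Φ (t, x)) (fderiv ℝ Φ (X, x) (1, 0)) X :=
      HasFDerivAt.comp_hasDerivAt (l := Φ) (f := fun t : ℝ => ((t, x) : ℝ × ℝ)) X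
        (pos_S1 hC hS hA hE hX').differentiableAt.hasFDerivAt
        ((hasDerivAt_id X).prodMk (hasDerivAt_const X x))
    exact h4.add h5
  have h4 : HasDerivAt (fun X => fderiv ℝ Φ (x, X) (0, 1) + fderiv ℝ Φ (X, x) (1, 0))
      (fderiv ℝ (fderiv ℝ Φ) (x, x) (0, 1) (0, 1) +
        fderiv ℝ (fderiv ℝ Φ) (x, x) (1, 0) (1, 0)) x := by
    have h5 : HasDerivAt (fun X => fderiv ℝ Φ (x, X)) (fderiv ℝ (fderiv ℝ Φ) (x, x) (0, 1)) x :=
      HasFDerivAt.comp_hasDerivAt (l := fderiv ℝ Φ) (f := fun X : ℝ => ((x, X) : ℝ × ℝ)) x hD hcx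
    have h6 : HasDerivAt (fun X => fderiv ℝ Φ (X, x)) (fderiv ℝ (fderiv ℝ Φ) (x, x) (1, 0)) x :=
      HasFDerivAt.comp_hasDerivAt (l := fderiv ℝ Φ) (f := fun X : ℝ => ((X, x) : ℝ × ℝ)) x hD hcy
    have h7 : HasDerivAt (fun X => fderiv ℝ Φ (x, X) (0, 1))
        (fderiv ℝ (fderiv ℝ Φ) (x, x) (0, 1) (0, 1)) x := by
      simpa using h5.clm_apply (hasDerivAt_const x ((0, 1) : ℝ × ℝ))
    have h8 : HasDerivAt (fun X => fderiv ℝ Φ (X, x) (1, 0))
        (fderiv ℝ (fderiv ℝ Φ) (x, x) (1, 0) (1, 0)) x := by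
      simpa using h6.clm_apply (hasDerivAt_const x ((1, 0) : ℝ × ℝ))
    exact h7.add h8
  have h5 : IsLocalMin (fun X => Φ (x, X) + Φ (X, x)) x := by
    filter_upwards [pos_near hA x] with X hX
    have h6 := two_arcs hC hS hA hE hX
    have h7 : Φ (x, x) = 0 := S1_diag hC hA hE
    change Φ (x, x) + Φ (x, x) ≤ Φ (x, X) + Φ (X, x)
    rw [h7]
    change (0 : ℝ) + 0 ≤ S1 L Fl V m g ν ϑ E x X + S1 L Fl V m g ν ϑ E X x
    unfold S1
    rw [intervalIntegral.integral_symm x X]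
    linarith
  have h6 := pos_min h3 h4 h5
  rw [h1, h2] at h6
  linarith

theorem pin_ne (hC : C0 L Fl E0 V T m) (hE1 : E0 < E1)
    (hS : Sect (V E1 (1, 0)) (T E1 (1, 0)) g τ s) (hA : Arc L Fl E0 V T E1 g c c1 ν ϑ) :
    deriv (fun X => Pin L g ν E1 x X) x ≠ 0 := by
  have hE : |E1 - E1| < c := pos_self hA E1
  have hx : |x - x| < c := pos_self hA x
  have hD : Dyn L Fl := hC.toDyn
  have hnear := pos_near hA x
  have hp : Prm (1, 0) := isCoprime_one_left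
  have h10 : zz (1, 0) = ((1, 0) : R2) := by simp [zz]
  have hcq : AnalyticAt ℝ (fun X : ℝ => ((E1, x, X) : ℝ × ℝ × ℝ)) x :=
    analyticAt_const.prod (analyticAt_const.prod analyticAt_id)
  have hνa : AnalyticAt ℝ (fun X => ν E1 x X) x :=
    AnalyticAt.fun_comp (g := fun q : ℝ × ℝ × ℝ => ν q.1 q.2.1 q.2.2)
      (f := fun X : ℝ => ((E1, x, X) : ℝ × ℝ × ℝ)) (hA.ν_ana E1 x x hE hx) hcq
  have hϑa : AnalyticAt ℝ (fun X => ϑ E1 x X) x :=
    AnalyticAt.fun_comp (g := fun q : ℝ × ℝ × ℝ => ϑ q.1 q.2.1 q.2.2)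
      (f := fun X : ℝ => ((E1, x, X) : ℝ × ℝ × ℝ)) (hA.ϑ_ana E1 x x hE hx) hcq
  have hν : HasDerivAt (fun X => ν E1 x X) (deriv (fun X => ν E1 x X) x) x :=
    hνa.differentiableAt.hasDerivAt
  have hϑ : HasDerivAt (fun X => ϑ E1 x X) (deriv (fun X => ϑ E1 x X) x) x :=
    hϑa.differentiableAt.hasDerivAt
  set n : R2 := deriv (fun X => ν E1 x X) x with hn
  set t : ℝ := deriv (fun X => ϑ E1 x X) x with ht
  have hz0 : ν E1 x x = V E1 (1, 0) (g x) := hA.ν_diag E1 x hE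
  have ht0 : ϑ E1 x x = T E1 (1, 0) := hA.ϑ_diag E1 x hE
  set z : PP := (g x, ν E1 x x) with hz
  have hcz : HasDerivAt (fun X => ((g x, ν E1 x X) : PP)) ((0, n) : PP) x :=
    (hasDerivAt_const x (g x)).prodMk hν
  have e1 : deriv (fun X => Pin L g ν E1 x X) x = Lvv L z n (deriv g x) := by
    have h1 : HasFDerivAt (pm L) (fderiv ℝ (pm L) z) z :=
      (hD.pm_ana z (mem_univ _)).differentiableAt.hasFDerivAt
    have h2 : HasDerivAt (fun X => pm L (g x, ν E1 x X)) (fderiv ℝ (pm L) z (0, n)) x :=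
      HasFDerivAt.comp_hasDerivAt (l := pm L) (f := fun X => ((g x, ν E1 x X) : PP)) x h1 hcz
    have h3 := h2.clm_apply (hasDerivAt_const x (deriv g x))
    rw [map_zero, add_zero, hD.pm_dv] at h3
    exact h3.deriv
  have e2 : Lvv L z (V E1 (1, 0) (g x)) n = 0 := by
    have h1 : HasFDerivAt (en L) (fderiv ℝ (en L) z) z :=
      (hD.en_ana z (mem_univ _)).differentiableAt.hasFDerivAt
    have h2 : HasDerivAt (fun X => en L (g x, ν E1 x X)) (fderiv ℝ (en L) z (0, n)) x :=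
      HasFDerivAt.comp_hasDerivAt (l := en L) (f := fun X => ((g x, ν E1 x X) : PP)) x h1 hcz
    have h3 : HasDerivAt (fun X => en L (g x, ν E1 x X)) 0 x := by
      refine (hasDerivAt_const x E1).congr_of_eventuallyEq ?_
      filter_upwards [hnear] with X hX
      exact hA.en E1 x X hE hX
    have h4 := h2.unique h3
    rw [hD.en_dv] at h4
    rw [← hz0]
    exact h4
  have hind := hS.ind x
  intro h0
  rw [e1] at h0
  -- `n` is a combination
  have hdec : ∀ w : R2, ∃ a b : ℝ, w = a • V E1 (1, 0) (g x) + b • deriv g x := by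
    intro w
    set u := V E1 (1, 0) (g x) with hu
    set v := deriv g x with hv
    refine ⟨dtm w v / dtm u v, dtm u w / dtm u v, Prod.ext ?_ ?_⟩
    · simp only [Prod.fst_add, Prod.smul_fst, smul_eq_mul]
      field_simp
      simp only [dtm]
      ring
    · simp only [Prod.snd_add, Prod.smul_snd, smul_eq_mul]
      field_simp
      simp only [dtm]
      ring
  have hn0 : n = 0 := by
    by_contra hne
    have h1 := hD.pos z n hne
    obtain ⟨a, b, hab⟩ := hdec n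
    have h2 : Lvv L z n n = a * Lvv L z (V E1 (1, 0) (g x)) n + b * Lvv L z (deriv g x) n := by
      rw [← lvv_lin, ← hab]
    rw [e2, hD.lvv_symm z (deriv g x) n, h0] at h2
    rw [h2] at h1
    simp at h1
  -- the end point
  have hG : HasFDerivAt (fun q : ℝ × PP => Fl q.1 q.2)
      (fderiv ℝ (fun q : ℝ × PP => Fl q.1 q.2) (ϑ E1 x x, z)) (ϑ E1 x x, z) :=
    (hD.fana _ (mem_univ _)).differentiableAt.hasFDerivAt
  set D := fderiv ℝ (fun q : ℝ × PP => Fl q.1 q.2) (ϑ E1 x x, z) with hDd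
  have h1 : HasDerivAt (fun X => Fl (ϑ E1 x X) (g x, ν E1 x X)) (D (t, (0, n))) x :=
    HasFDerivAt.comp_hasDerivAt (l := fun q : ℝ × PP => Fl q.1 q.2)
      (f := fun X => ((ϑ E1 x X, (g x, ν E1 x X)) : ℝ × PP)) x hG (hϑ.prodMk hcz)
  have h2 : HasDerivAt (fun r => Fl r z) (D (1, 0)) (ϑ E1 x x) :=
    HasFDerivAt.comp_hasDerivAt (l := fun q : ℝ × PP => Fl q.1 q.2)
      (f := fun r : ℝ => ((r, z) : ℝ × PP)) (ϑ E1 x x) hG
      ((hasDerivAt_id _).prodMk (hasDerivAt_const _ z))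
  have h2' : HasDerivAt (fun r => (Fl r z).1) (D (1, 0)).1 (ϑ E1 x x) := h2.fst
  have h3 : (D (1, 0)).1 = (Fl (ϑ E1 x x) z).2 := h2'.unique (hD.vel (ϑ E1 x x) z)
  have h4 : ((t, ((0 : R2), n)) : ℝ × PP) = t • ((1, 0) : ℝ × PP) := by
    rw [hn0]
    simp
  have h5 : HasDerivAt (fun X => (Fl (ϑ E1 x X) (g x, ν E1 x X)).1)
      (t • (Fl (ϑ E1 x x) z).2) x := by
    have h6 : HasDerivAt (fun X => (Fl (ϑ E1 x X) (g x, ν E1 x X)).1) (D (t, (0, n))).1 x :=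
      h1.fst
    rw [h4, map_smul, Prod.smul_fst, h3] at h6
    exact h6
  have h6 : HasDerivAt (fun X => (Fl (ϑ E1 x X) (g x, ν E1 x X)).1) (deriv g x) x := by
    have h7 : HasDerivAt (fun X => g X + ((1, 0) : R2)) (deriv g x) x :=
      (hS.g_ana x (mem_univ _)).differentiableAt.hasDerivAt.add_const _
    refine h7.congr_of_eventuallyEq ?_
    filter_upwards [hnear] with X hX
    exact hA.hit E1 x X hE hX
  have h7 := h5.unique h6
  have h8 : (Fl (ϑ E1 x x) z).2 = V E1 (1, 0) (g x) := by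
    rw [hz, hz0, ht0, hC.inv E1 hE1 _ hp, hC.orb E1 hE1 _ hp, hC.perV E1 hE1 _ hp]
  rw [h8] at h7
  apply hind
  rw [← h7]
  simp only [dtm, Prod.smul_fst, Prod.smul_snd, smul_eq_mul]
  ring

theorem exists_pos (hC : C0 L Fl E0 V T m) (hE1 : E0 < E1)
    (hS : Sect (V E1 (1, 0)) (T E1 (1, 0)) g τ s) (hA : Arc L Fl E0 V T E1 g c c1 ν ϑ) :
    ∃ c' b : ℝ, 0 < c' ∧ c' ≤ c ∧ 0 < b ∧ ∀ E x X : ℝ, |E - E1| < c' → |X - x| < c' →
      b ≤ deriv (fun X => Pin L g ν E x X) X := by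
  have hD : Dyn L Fl := hC.toDyn
  have hcp := hA.c_pos
  have hEE : |E1 - E1| < c := pos_self hA E1
  -- `Pin` as a function of three variables
  set P : ℝ × ℝ × ℝ → ℝ := fun q => Pin L g ν q.1 q.2.1 q.2.2 with hP
  have hPa : ∀ E x X : ℝ, |E - E1| < c → |X - x| < c → AnalyticAt ℝ P (E, x, X) := by
    intro E x X hE hx
    have h1 : AnalyticAt ℝ (fun q : ℝ × ℝ × ℝ => q.2.1) (E, x, X) :=
      AnalyticAt.fun_comp (g := fun p : ℝ × ℝ => p.1) (f := fun q : ℝ × ℝ × ℝ => q.2)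
        analyticAt_fst analyticAt_snd
    have h2 : AnalyticAt ℝ (fun q : ℝ × ℝ × ℝ => g q.2.1) (E, x, X) :=
      AnalyticAt.fun_comp (g := g) (f := fun q : ℝ × ℝ × ℝ => q.2.1) (hS.g_ana _ (mem_univ _)) h1
    have h3 : AnalyticAt ℝ (fun q : ℝ × ℝ × ℝ => deriv g q.2.1) (E, x, X) :=
      AnalyticAt.fun_comp (g := deriv g) (f := fun q : ℝ × ℝ × ℝ => q.2.1)
        (hS.g_ana _ (mem_univ _)).deriv h1
    have h4 : AnalyticAt ℝ (fun q : ℝ × ℝ × ℝ => ((g q.2.1, ν q.1 q.2.1 q.2.2) : PP)) (E, x, X) :=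
      h2.prod (hA.ν_ana E x X hE hx)
    have h5 : AnalyticAt ℝ (fun q : ℝ × ℝ × ℝ => pm L (g q.2.1, ν q.1 q.2.1 q.2.2)) (E, x, X) :=
      AnalyticAt.fun_comp (g := pm L)
        (f := fun q : ℝ × ℝ × ℝ => ((g q.2.1, ν q.1 q.2.1 q.2.2) : PP))
        (hD.pm_ana _ (mem_univ _)) h4
    have h6 : AnalyticAt ℝ (fun p : (R2 →L[ℝ] ℝ) × R2 => p.1 p.2)
        (pm L (g x, ν E x X), deriv g x) :=
      (ContinuousLinearMap.id ℝ (R2 →L[ℝ] ℝ)).analyticAt_bilinear _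
    exact AnalyticAt.fun_comp (g := fun p : (R2 →L[ℝ] ℝ) × R2 => p.1 p.2)
      (f := fun q : ℝ × ℝ × ℝ => (pm L (g q.2.1, ν q.1 q.2.1 q.2.2), deriv g q.2.1)) h6
      (h5.prod h3)
  have hPd : ∀ E x X : ℝ, |E - E1| < c → |X - x| < c →
      deriv (fun X => Pin L g ν E x X) X = fderiv ℝ P (E, x, X) (0, 0, 1) := by
    intro E x X hE hx
    have h1 : HasDerivAt (fun X : ℝ => ((E, x, X) : ℝ × ℝ × ℝ)) (0, 0, 1) X :=
      (hasDerivAt_const X E).prodMk ((hasDerivAt_const X x).prodMk (hasDerivAt_id X))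
    exact (HasFDerivAt.comp_hasDerivAt (l := P) (f := fun X : ℝ => ((E, x, X) : ℝ × ℝ × ℝ)) X
      (hPa E x X hE hx).differentiableAt.hasFDerivAt h1).deriv
  have hpos : ∀ x : ℝ, 0 < fderiv ℝ P (E1, x, x) (0, 0, 1) := by
    intro x
    rw [← hPd E1 x x hEE (pos_self hA x)]
    exact lt_of_le_of_ne (pin_nonneg hC hS hA hEE) (Ne.symm (pin_ne hC hE1 hS hA))
  have key : ∃ c' > 0, ∃ b > 0, c' ≤ c ∧ ∀ x ∈ Icc (0 : ℝ) 1, ∀ E X : ℝ, |E - E1| < c' →
      |X - x| < c' → b ≤ fderiv ℝ P (E, x, X) (0, 0, 1) := by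
    refine isCompact_Icc.induction_on (p := fun S => ∃ c' > 0, ∃ b > 0, c' ≤ c ∧ ∀ x ∈ S,
      ∀ E X : ℝ, |E - E1| < c' → |X - x| < c' → b ≤ fderiv ℝ P (E, x, X) (0, 0, 1)) ?_ ?_ ?_ ?_
    · exact ⟨c, hcp, 1, one_pos, le_rfl, fun x hx => absurd hx (notMem_empty x)⟩
    · rintro S S' hS ⟨c', hc', b, hb, hle, h⟩
      exact ⟨c', hc', b, hb, hle, fun x hx => h x (hS hx)⟩
    · rintro S S' ⟨c', hc', b, hb, hle, h⟩ ⟨c'', hc'', b', hb', hle', h'⟩
      refine ⟨min c' c'', lt_min hc' hc'', min b b', lt_min hb hb',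
        (min_le_left _ _).trans hle, ?_⟩
      rintro x (hx | hx) E X hE hX
      · exact (min_le_left _ _).trans (h x hx E X (hE.trans_le (min_le_left _ _))
          (hX.trans_le (min_le_left _ _)))
      · exact (min_le_right _ _).trans (h' x hx E X (hE.trans_le (min_le_right _ _))
          (hX.trans_le (min_le_right _ _)))
    · intro x0 _
      have h1 : ContinuousAt (fun q => fderiv ℝ P q (0, 0, 1)) (E1, x0, x0) :=
        (hPa E1 x0 x0 hEE (pos_self hA x0)).fderiv.continuousAt.clm_apply continuousAt_const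
      have h2 : ∀ᶠ q in 𝓝 ((E1, x0, x0) : ℝ × ℝ × ℝ),
          fderiv ℝ P (E1, x0, x0) (0, 0, 1) / 2 < fderiv ℝ P q (0, 0, 1) :=
        h1.eventually (lt_mem_nhds (half_lt_self (hpos x0)))
      obtain ⟨δ, hδ, h3⟩ := Metric.eventually_nhds_iff.1 h2
      refine ⟨Metric.ball x0 (δ / 2),
        mem_nhdsWithin_of_mem_nhds (Metric.ball_mem_nhds x0 (half_pos hδ)), min c (δ / 2),
        lt_min hcp (half_pos hδ), _, half_pos (hpos x0), min_le_left _ _, ?_⟩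
      intro x hx E X hE hX
      refine (h3 ?_).le
      rw [Metric.mem_ball, Real.dist_eq] at hx
      have h4 : |E - E1| < δ / 2 := hE.trans_le (min_le_right _ _)
      have h5 : |X - x| < δ / 2 := hX.trans_le (min_le_right _ _)
      have h6 : |X - x0| ≤ |X - x| + |x - x0| := abs_sub_le _ _ _
      rw [Prod.dist_eq, Prod.dist_eq, Real.dist_eq, Real.dist_eq, Real.dist_eq]
      refine max_lt ?_ (max_lt ?_ ?_)
      · change |E - E1| < δ
        linarith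
      · change |x - x0| < δ
        linarith
      · change |X - x0| < δ
        linarith
  obtain ⟨c', hc', b, hb, hle, h⟩ := key
  refine ⟨c', b, hc', hle, hb, ?_⟩
  intro E x X hE hX
  -- periodicity
  have hEc : |E - E1| < c := hE.trans_le hle
  have hXc : |X - x| < c := hX.trans_le hle
  have h01 : zz (0, 1) = ((0, 1) : R2) := by simp [zz]
  have hPp : ∀ y Y : ℝ, |Y - y| < c → Pin L g ν E (y + 1) (Y + 1) = Pin L g ν E y Y := by
    intro y Y hY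
    unfold Pin
    rw [hA.ν_per E y Y hEc hY, hS.g_per, dg_per hS]
    have h1 : ((g y + (0, 1), ν E y Y) : PP) = (g y, ν E y Y) + (zz (0, 1), 0) := by
      rw [h01]
      exact Prod.ext rfl (add_zero _).symm
    rw [h1, hD.pm_per]
  have hstep : ∀ y Y : ℝ, |Y - y| < c →
      fderiv ℝ P (E, y + 1, Y + 1) (0, 0, 1) = fderiv ℝ P (E, y, Y) (0, 0, 1) := by
    intro y Y hY
    have hY' : |Y + 1 - (y + 1)| < c := by
      rw [add_sub_add_right_eq_sub]
      exact hY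
    rw [← hPd E y Y hEc hY, ← hPd E (y + 1) (Y + 1) hEc hY', ← deriv_comp_add_const]
    apply Filter.EventuallyEq.deriv_eq
    have h1 : ∀ᶠ Z in 𝓝 Y, |Z - y| < c :=
      (continuous_id.sub continuous_const).abs.continuousAt.eventually (gt_mem_nhds hY)
    filter_upwards [h1] with Z hZ
    exact hPp y Z hZ
  have hper : Function.Periodic
      (fun y => fderiv ℝ P (E, y, y + (X - x)) (0, 0, 1)) 1 := by
    intro y
    have h1 := hstep y (y + (X - x)) (by rw [add_sub_cancel_left]; exact hXc)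
    change fderiv ℝ P (E, y + 1, y + 1 + (X - x)) (0, 0, 1) =
      fderiv ℝ P (E, y, y + (X - x)) (0, 0, 1)
    rw [← h1]
    congr 4
    ring
  obtain ⟨y, hy, hy2⟩ := hper.exists_mem_Ico₀ one_pos x
  rw [hPd E x X hEc hXc]
  have h1 : fderiv ℝ P (E, x, x + (X - x)) (0, 0, 1) =
      fderiv ℝ P (E, y, y + (X - x)) (0, 0, 1) := hy2
  rw [add_sub_cancel] at h1
  rw [h1]
  exact h y ⟨hy.1, hy.2.le⟩ E (y + (X - x)) hE (by rw [add_sub_cancel_left]; exact hX)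

end Pool.Agent.DB
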