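import Pool.Agent.DB.Orb
import Pool.Agent.DB.Pos

/-!
# MP_74f563_an, n = 2 autonomous (D2), file DB/Orp: the configurations are increasing

Let `b > 0` be a lower bound of the twist `deriv (fun X => Pin E x X) X` on `|E - E1| < c`, `|X -
x| < c`
(`hb`).

`pin_diff`.  PROOF.  `X ↦ Pin E x X` is differentiable on the interval `|X - x| < c` (analytic),
with
derivative `≥ b`; mean value theorem.

`cfg_lt`.  PROOF.  Fix `E, k, p`, `V' = V E (k, p)`.  For `a ∈ ℝ` let `f a = y 1` for a
configuration with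
`y 0 = a` (`hex`, choice); `|f a - a| < c` (`inc`) and `Pin E a (f a) = q a := pm L (g a, V' (g a))
(deriv g a)`
(`vel`).  By `pin_diff` `f a` is the only `X` with `|X - a| < c`, `Pin E a X = q a`; in particular
`y (i + 1) = f (y i)` for every configuration `y`.
`f` is continuous: at `a`, for `a'` near `a` one has `|f a - a'| < c` and by `pin_diff`
`b |f a' - f a| ≤ |Pin E a' (f a') - Pin E a' (f a)| = |q a' - Pin E a' (f a)|`, which tends to
`|q a - Pin E a (f a)| = 0` (`q` and `a' ↦ Pin E a' (f a)` are continuous).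
`f a ≠ a`: otherwise `ν E a a = V' (g a)` (`vel`), and `ν E a a = V E (1, 0) (g a)` (`ν_diag`), so
the solutions
with initial data `(g a, V E (1, 0) (g a))` and `(g a, V' (g a))` are equal, contradiction to
`once` with
`h = (1, 0)`, `h' = (k, p)`, `t = t' = 1` (`p ≠ 0`; `prm_one`, `prm_km`).
So `f a - a` has a constant sign (intermediate value theorem).  For a configuration `y`:
`∑_{i<k} (y (i+1) - y i) = y k - y 0 = p > 0` (`per` at `i = 0`), so `f (y i) - y i > 0` for some
`i`, and the sign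
is positive: `y i < f (y i) = y (i + 1)` for all `i`.

`inc_small`.  PROOF.  The vectors `ν E x X`, `V E (1, 0) (g x)` (`= ν E x x`) are in the ball of
radius `c1`
around `V1 (g x)` (`near`).  On the set of all `(x, v)` with `‖v - V1 (g x)‖ ≤ c1` the function
`v ↦ pm L (g x, v) (deriv g x)` is Lipschitz with a constant `K > 0` independent of `x` (the
derivative
`w ↦ Lvv L (g x, v) w (deriv g x)` is continuous and periodic in `x`; compactness of
`{(x, v) : x ∈ [0, 1], ‖v - V1 (g x)‖ ≤ c1}`, convexity of the ball, mean value inequality).  By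
`pin_diff`:
`b |X - x| ≤ |Pin E x X - Pin E x x| ≤ K ‖ν E x X - V E (1, 0) (g x)‖`.  So `δ = b η / K`.
-/

set_option autoImplicit false

namespace Pool.Agent.DB

open Set Filter Topology MeasureTheory

variable {L : PP → ℝ} {Fl : ℝ → PP → PP} {E0 : ℝ} {V : ℝ → ℤ × ℤ → R2 → R2}
  {T m : ℝ → ℤ × ℤ → ℝ} {E1 : ℝ} {g : ℝ → R2} {τ s : R2 → ℝ} {c c1 b : ℝ}
  {ν : ℝ → ℝ → ℝ → R2} {ϑ : ℝ → ℝ → ℝ → ℝ}

private theorem Orp.pin_ana (hC : C0 L Fl E0 V T m)
    (hS : Sect (V E1 (1, 0)) (T E1 (1, 0)) g τ s) (hA : Arc L Fl E0 V T E1 g c c1 ν ϑ)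
    {E x X : ℝ} (hE : |E - E1| < c) (hX : |X - x| < c) :
    DifferentiableAt ℝ (fun q : ℝ × ℝ => Pin L g ν E q.1 q.2) (x, X) := by
  have h1 : AnalyticAt ℝ (fun q : ℝ × ℝ => ν E q.1 q.2) (x, X) :=
    AnalyticAt.fun_comp (g := fun q : ℝ × ℝ × ℝ => ν q.1 q.2.1 q.2.2)
      (f := fun q : ℝ × ℝ => (E, q.1, q.2)) (hA.ν_ana E x X hE hX)
      (analyticAt_const.prod (analyticAt_fst.prod analyticAt_snd))
  have h2 : AnalyticAt ℝ (fun q : ℝ × ℝ => g q.1) (x, X) :=
    AnalyticAt.fun_comp (g := g) (f := fun q : ℝ × ℝ => q.1) (hS.g_ana x trivial) analyticAt_fst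
  have h3 : AnalyticAt ℝ (fun q : ℝ × ℝ => deriv g q.1) (x, X) :=
    AnalyticAt.fun_comp (g := deriv g) (f := fun q : ℝ × ℝ => q.1) (hS.g_ana.deriv x trivial)
      analyticAt_fst
  have h4 : AnalyticAt ℝ (fun q : ℝ × ℝ => pm L (g q.1, ν E q.1 q.2)) (x, X) :=
    AnalyticAt.fun_comp (g := pm L) (f := fun q : ℝ × ℝ => (g q.1, ν E q.1 q.2))
      (hC.toDyn.pm_ana _ trivial) (h2.prod h1)
  exact h4.differentiableAt.clm_apply h3.differentiableAt

/-- a periodic function is determined by its values on the unit interval -/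
private theorem Orp.fract {β : Type} {f : ℝ → β} (h : Function.Periodic f 1) (x : ℝ) :
    f x = f (Int.fract x) := by
  have h1 := h.sub_int_mul_eq (x := x) ⌊x⌋
  rw [mul_one] at h1
  rw [← h1]
  rfl

theorem pin_diff (hC : C0 L Fl E0 V T m) (hS : Sect (V E1 (1, 0)) (T E1 (1, 0)) g τ s)
    (hA : Arc L Fl E0 V T E1 g c c1 ν ϑ) (hb : ∀ E x X : ℝ, |E - E1| < c → |X - x| < c →
      b ≤ deriv (fun X => Pin L g ν E x X) X) {E x X X' : ℝ} (hE : |E - E1| < c)
    (hX : |X - x| < c) (hX' : |X' - x| < c) :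
    b * |X - X'| ≤ |Pin L g ν E x X - Pin L g ν E x X'| := by
  have hd : ∀ Y, |Y - x| < c → DifferentiableAt ℝ (fun X => Pin L g ν E x X) Y := fun Y hY =>
    DifferentiableAt.comp (g := fun q : ℝ × ℝ => Pin L g ν E q.1 q.2)
      (f := fun Y : ℝ => (x, Y)) Y (Orp.pin_ana hC hS hA hE hY)
      ((differentiableAt_const x).prodMk differentiableAt_id)
  have hm : ∀ Y, Y ∈ Metric.ball x c → |Y - x| < c := fun Y hY => by
    rw [← Real.dist_eq]
    exact Metric.mem_ball.1 hY
  have hm' : ∀ Y, |Y - x| < c → Y ∈ Metric.ball x c := fun Y hY => by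
    rw [Metric.mem_ball, Real.dist_eq]
    exact hY
  have key := (convex_ball x c).mul_sub_le_image_sub_of_le_deriv
    (f := fun X => Pin L g ν E x X) (C := b)
    (fun Y hY => (hd Y (hm Y hY)).continuousAt.continuousWithinAt)
    (fun Y hY => (hd Y (hm Y (interior_subset hY))).differentiableWithinAt)
    (fun Y hY => hb E x Y hE (hm Y (interior_subset hY)))
  rcases le_total X X' with h | h
  · rw [abs_sub_comm X X', abs_of_nonneg (sub_nonneg.2 h), abs_sub_comm (Pin L g ν E x X)]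
    exact (key X (hm' X hX) X' (hm' X' hX') h).trans (le_abs_self _)
  · rw [abs_of_nonneg (sub_nonneg.2 h)]
    exact (key X' (hm' X' hX') X (hm' X hX) h).trans (le_abs_self _)

theorem cfg_lt (hC : C0 L Fl E0 V T m) (hS : Sect (V E1 (1, 0)) (T E1 (1, 0)) g τ s)
    (hA : Arc L Fl E0 V T E1 g c c1 ν ϑ) (hb0 : 0 < b)
    (hb : ∀ E x X : ℝ, |E - E1| < c → |X - x| < c → b ≤ deriv (fun X => Pin L g ν E x X) X)
    {E : ℝ} (hE : |E - E1| < c) {k p : ℕ} (hk : 0 < k) (hp : 0 < p) (hkp : Nat.Coprime k p)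
    (hex : ∀ a, ∃ y : ℕ → ℝ, y 0 = a ∧ Cfg L Fl V m g c ν ϑ E k p y) {y : ℕ → ℝ}
    (hy : Cfg L Fl V m g c ν ϑ E k p y) (i : ℕ) : y i < y (i + 1) := by
  have hEE : E0 < E := hA.gt E hE
  have hc0 : 0 < c := hA.c_pos
  have hprm : Prm ((k : ℤ), (p : ℤ)) := Nat.isCoprime_iff_coprime.2 hkp
  choose Y hY0 hYc using hex
  set f : ℝ → ℝ := fun a => Y a 1 with hf
  set q : ℝ → ℝ := fun a => pm L (g a, V E ((k : ℤ), (p : ℤ)) (g a)) (deriv g a) with hq
  have hfc : ∀ a, |f a - a| < c := fun a => by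
    have h1 := (hYc a).inc 0
    rw [hY0, zero_add] at h1
    exact h1
  have hfv : ∀ a, ν E a (f a) = V E ((k : ℤ), (p : ℤ)) (g a) := fun a => by
    have h1 := (hYc a).vel 0
    rw [hY0, zero_add] at h1
    exact h1
  have hfp : ∀ a, Pin L g ν E a (f a) = q a := fun a => by
    rw [Pin, hfv]
  have huniq : ∀ a X, |X - a| < c → Pin L g ν E a X = q a → X = f a := by
    intro a X hX hXq
    have h1 := pin_diff hC hS hA hb hE hX (hfc a)
    rw [hXq, hfp, sub_self, abs_zero] at h1
    have h2 : |X - f a| ≤ 0 := by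
      by_contra hcon
      exact absurd h1 (not_le.2 (mul_pos hb0 (not_le.1 hcon)))
    exact sub_eq_zero.1 (abs_eq_zero.1 (le_antisymm h2 (abs_nonneg _)))
  have hiter : ∀ (z : ℕ → ℝ), Cfg L Fl V m g c ν ϑ E k p z → ∀ j, z (j + 1) = f (z j) := by
    intro z hz j
    refine huniq _ _ (hz.inc j) ?_
    rw [Pin, hz.vel j]
  have hgc : Continuous g := continuous_iff_continuousAt.2
    fun a => (hS.g_ana a trivial).continuousAt
  have hdgc : Continuous (deriv g) := continuous_iff_continuousAt.2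
    fun a => (hS.g_ana.deriv a trivial).continuousAt
  have hVc : Continuous fun x => V E ((k : ℤ), (p : ℤ)) x := continuous_iff_continuousAt.2
    fun x => by
      have h1 : AnalyticAt ℝ (fun x : R2 => V E ((k : ℤ), (p : ℤ)) x) x :=
        AnalyticAt.fun_comp (g := fun q : ℝ × R2 => V q.1 ((k : ℤ), (p : ℤ)) q.2)
          (f := fun x : R2 => (E, x)) (V_ana hC hEE hprm x)
          (analyticAt_const.prod analyticAt_id)
      exact h1.continuousAt
  have hpmc : Continuous (pm L) := continuous_iff_continuousAt.2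
    fun z => (hC.toDyn.pm_ana z trivial).continuousAt
  have hqc : Continuous q :=
    (hpmc.comp (hgc.prodMk (hVc.comp hgc))).clm_apply hdgc
  have hfcont : Continuous f := by
    rw [continuous_iff_continuousAt]
    intro a
    have hR : ContinuousAt (fun a' => |q a' - Pin L g ν E a' (f a)| / b) a := by
      have h1 : ContinuousAt (fun a' => Pin L g ν E a' (f a)) a :=
        ContinuousAt.comp (g := fun q : ℝ × ℝ => Pin L g ν E q.1 q.2)
          (f := fun a' : ℝ => (a', f a)) (Orp.pin_ana hC hS hA hE (hfc a)).continuousAt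
          (continuousAt_id.prodMk continuousAt_const)
      exact (hqc.continuousAt.sub h1).abs.div_const b
    have hR0 : Tendsto (fun a' => |q a' - Pin L g ν E a' (f a)| / b) (𝓝 a) (𝓝 0) := by
      have h1 := hR.tendsto
      rw [hfp, sub_self, abs_zero, zero_div] at h1
      exact h1
    have hev : ∀ᶠ a' in 𝓝 a, |f a - a'| < c := by
      have h1 : ContinuousAt (fun a' => |f a - a'|) a :=
        (continuousAt_const.sub continuousAt_id).abs
      exact h1.eventually_lt continuousAt_const (hfc a)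
    refine tendsto_iff_dist_tendsto_zero.2 (squeeze_zero' (Eventually.of_forall fun _ =>
      dist_nonneg) ?_ hR0)
    filter_upwards [hev] with a' ha'
    have h1 := pin_diff hC hS hA hb hE (hfc a') ha'
    rw [hfp] at h1
    rw [Real.dist_eq, le_div_iff₀ hb0, mul_comm]
    exact h1
  have hne : ∀ a, f a ≠ a := by
    intro a ha
    have h1 := hfv a
    rw [ha, hA.ν_diag E a hE] at h1
    refine hC.once E hEE (1, 0) ((k : ℤ), (p : ℤ)) isCoprime_one_left hprm ?_ (g a) 1 1 one_pos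
      one_pos ?_
    · intro h
      have h2 : (0 : ℤ) = (p : ℤ) := congrArg Prod.snd h
      omega
    · rw [h1]
  have hsum : ∑ j ∈ Finset.range k, (y (j + 1) - y j) = p := by
    rw [Finset.sum_range_sub]
    have h1 := hy.per 0
    rw [zero_add] at h1
    rw [h1]
    ring
  obtain ⟨j, -, hj⟩ : ∃ j ∈ Finset.range k, 0 < y (j + 1) - y j := by
    by_contra hcon
    push Not at hcon
    have h1 := Finset.sum_nonpos hcon
    rw [hsum] at h1
    have h2 : (0 : ℝ) < p := by exact_mod_cast hp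
    linarith
  have hpos : ∀ a, a < f a := by
    intro a
    by_contra hcon
    push Not at hcon
    have h1 : (0 : ℝ) ∈ range fun a => f a - a := by
      refine mem_range_of_exists_le_of_exists_ge (hfcont.sub continuous_id) ⟨a, by linarith⟩
        ⟨y j, ?_⟩
      rw [← hiter y hy j]
      exact hj.le
    obtain ⟨a', ha'⟩ := h1
    exact hne a' (sub_eq_zero.1 ha')
  rw [hiter y hy i]
  exact hpos _

theorem inc_small (hC : C0 L Fl E0 V T m) (hS : Sect (V E1 (1, 0)) (T E1 (1, 0)) g τ s)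
    (hA : Arc L Fl E0 V T E1 g c c1 ν ϑ) (hb0 : 0 < b)
    (hb : ∀ E x X : ℝ, |E - E1| < c → |X - x| < c → b ≤ deriv (fun X => Pin L g ν E x X) X)
    {η : ℝ} (hη : 0 < η) :
    ∃ δ > 0, ∀ E x X : ℝ, |E - E1| < c → |X - x| < c →
      ‖ν E x X - V E (1, 0) (g x)‖ < δ → |X - x| < η := by
  have hE11 : |E1 - E1| < c := by
    rw [sub_self, abs_zero]
    exact hA.c_pos
  have hE1 : E0 < E1 := hA.gt E1 hE11
  have hprm : Prm ((1 : ℤ), (0 : ℤ)) := isCoprime_one_left
  have hz : zz ((0 : ℤ), (1 : ℤ)) = ((0 : ℝ), (1 : ℝ)) := by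
    unfold zz
    simp
  have hgc : Continuous g := continuous_iff_continuousAt.2
    fun a => (hS.g_ana a trivial).continuousAt
  have hdgc : Continuous (deriv g) := continuous_iff_continuousAt.2
    fun a => (hS.g_ana.deriv a trivial).continuousAt
  have hVc : Continuous fun x => V E1 (1, 0) x := continuous_iff_continuousAt.2
    fun x => by
      have h1 : AnalyticAt ℝ (fun x : R2 => V E1 (1, 0) x) x :=
        AnalyticAt.fun_comp (g := fun q : ℝ × R2 => V q.1 (1, 0) q.2)
          (f := fun x : R2 => (E1, x)) (V_ana hC hE1 hprm x)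
          (analyticAt_const.prod analyticAt_id)
      exact h1.continuousAt
  have hdpmc : Continuous (fderiv ℝ (pm L)) := continuous_iff_continuousAt.2
    fun z => (hC.toDyn.pm_ana.fderiv z trivial).continuousAt
  obtain ⟨M, hM⟩ : ∃ M : ℝ, ∀ x, ‖V E1 (1, 0) (g x)‖ ≤ M := by
    obtain ⟨M, hM⟩ := (isCompact_Icc (a := (0 : ℝ)) (b := 1)).exists_bound_of_continuousOn
      (hVc.comp hgc).continuousOn
    refine ⟨M, fun x => ?_⟩
    have h1 : Function.Periodic (fun x => V E1 (1, 0) (g x)) 1 := fun x => by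
      change V E1 (1, 0) (g (x + 1)) = V E1 (1, 0) (g x)
      rw [hS.g_per, ← hz, hC.perV E1 hE1 _ hprm]
    rw [Orp.fract h1 x]
    exact hM _ ⟨Int.fract_nonneg _, (Int.fract_lt_one _).le⟩
  set R : ℝ := M + c1 with hR
  -- the Lipschitz constant
  obtain ⟨K, hK⟩ : ∃ K : ℝ, ∀ x ∈ Icc (0 : ℝ) 1, ∀ v ∈ Metric.closedBall (0 : R2) R,
      ‖fderiv ℝ (pm L) (g x, v)‖ * ‖deriv g x‖ ≤ K := by
    have hcp : IsCompact (Icc (0 : ℝ) 1 ×ˢ Metric.closedBall (0 : R2) R) :=
      isCompact_Icc.prod (isCompact_closedBall _ _)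
    have hc0 : Continuous fun q : ℝ × R2 => fderiv ℝ (pm L) (g q.1, q.2) :=
      hdpmc.comp ((hgc.comp continuous_fst).prodMk continuous_snd)
    obtain ⟨K1, hK1⟩ := hcp.exists_bound_of_continuousOn (E := PP →L[ℝ] R2 →L[ℝ] ℝ)
      hc0.continuousOn
    obtain ⟨K2, hK2⟩ := (isCompact_Icc (a := (0 : ℝ)) (b := 1)).exists_bound_of_continuousOn
      hdgc.continuousOn
    refine ⟨K1 * K2, fun x hx v hv => ?_⟩
    have h1 := hK1 (x, v) ⟨hx, hv⟩
    have h2 := hK2 x hx
    have h3 : 0 ≤ K1 := le_trans (by positivity) h1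
    exact mul_le_mul h1 h2 (norm_nonneg _) h3
  have hlip0 : ∀ x ∈ Icc (0 : ℝ) 1, ∀ v ∈ Metric.closedBall (0 : R2) R,
      ∀ v' ∈ Metric.closedBall (0 : R2) R,
      |pm L (g x, v) (deriv g x) - pm L (g x, v') (deriv g x)| ≤ K * ‖v - v'‖ := by
    intro x hx v hv v' hv'
    have hd : ∀ w : R2, HasFDerivAt (fun w : R2 => pm L (g x, w) (deriv g x))
        (((fderiv ℝ (pm L) (g x, w)).comp (ContinuousLinearMap.inr ℝ R2 R2)).flip
          (deriv g x)) w := by
      intro w
      have h1 : HasFDerivAt (pm L) (fderiv ℝ (pm L) (g x, w)) (g x, w) :=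
        (hC.toDyn.pm_ana _ trivial).differentiableAt.hasFDerivAt
      have h2 : HasFDerivAt (fun w : R2 => ((g x, w) : PP)) (ContinuousLinearMap.inr ℝ R2 R2) w :=
        hasFDerivAt_prodMk_right (g x) w
      have h3 : HasFDerivAt (fun w : R2 => pm L (g x, w))
          ((fderiv ℝ (pm L) (g x, w)).comp (ContinuousLinearMap.inr ℝ R2 R2)) w :=
        HasFDerivAt.comp (g := pm L) (f := fun w : R2 => ((g x, w) : PP)) w h1 h2
      have h4 := h3.clm_apply (hasFDerivAt_const (deriv g x) w)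
      refine h4.congr_fderiv ?_
      ext <;> simp
    have hb1 : ∀ w ∈ Metric.closedBall (0 : R2) R,
        ‖((fderiv ℝ (pm L) (g x, w)).comp (ContinuousLinearMap.inr ℝ R2 R2)).flip
          (deriv g x)‖ ≤ K := by
      intro w hw
      refine le_trans ?_ (hK x hx w hw)
      refine (ContinuousLinearMap.le_opNorm _ _).trans ?_
      refine mul_le_mul_of_nonneg_right ?_ (norm_nonneg _)
      rw [ContinuousLinearMap.opNorm_flip]
      refine (ContinuousLinearMap.opNorm_comp_le _ _).trans ?_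
      refine mul_le_of_le_one_right ?_ (ContinuousLinearMap.norm_inr_le_one ℝ R2 R2)
      positivity
    have h5 := (convex_closedBall (0 : R2) R).norm_image_sub_le_of_norm_hasFDerivWithin_le
      (f := fun w : R2 => pm L (g x, w) (deriv g x)) (C := K)
      (fun w _ => (hd w).hasFDerivWithinAt) hb1 hv' hv
    exact h5
  have hlip : ∀ x : ℝ, ∀ v ∈ Metric.closedBall (0 : R2) R,
      ∀ v' ∈ Metric.closedBall (0 : R2) R,
      |pm L (g x, v) (deriv g x) - pm L (g x, v') (deriv g x)| ≤ K * ‖v - v'‖ := by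
    intro x v hv v' hv'
    have h1 : Function.Periodic
        (fun x => |pm L (g x, v) (deriv g x) - pm L (g x, v') (deriv g x)|) 1 := fun x => by
      have h2 : ∀ w : R2, pm L (g (x + 1), w) (deriv g (x + 1)) = pm L (g x, w) (deriv g x) := by
        intro w
        have h3 : ((g (x + 1), w) : PP) = (g x, w) + (zz ((0 : ℤ), (1 : ℤ)), 0) := by
          rw [hS.g_per, hz]
          exact Prod.ext rfl (add_zero _).symm
        rw [h3, hC.toDyn.pm_per, dg_per hS]
      change |pm L (g (x + 1), v) (deriv g (x + 1)) - pm L (g (x + 1), v') (deriv g (x + 1))| =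
        |pm L (g x, v) (deriv g x) - pm L (g x, v') (deriv g x)|
      rw [h2, h2]
    rw [Orp.fract h1 x]
    exact hlip0 _ ⟨Int.fract_nonneg _, (Int.fract_lt_one _).le⟩ v hv v' hv'
  have hK1 : 0 < |K| + 1 := by positivity
  refine ⟨b * η / (|K| + 1), by positivity, fun E x X hE hX hlt => ?_⟩
  have hxx : |x - x| < c := by
    rw [sub_self, abs_zero]
    exact hA.c_pos
  have hball : ∀ Y, |Y - x| < c → ν E x Y ∈ Metric.closedBall (0 : R2) R := by
    intro Y hY
    rw [mem_closedBall_zero_iff]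
    have h1 := hA.near E x Y hE hY
    have h2 := hM x
    calc ‖ν E x Y‖ = ‖V E1 (1, 0) (g x) + (ν E x Y - V E1 (1, 0) (g x))‖ := by
          rw [add_sub_cancel]
      _ ≤ ‖V E1 (1, 0) (g x)‖ + ‖ν E x Y - V E1 (1, 0) (g x)‖ := norm_add_le _ _
      _ ≤ R := by rw [hR]; linarith
  have h1 := pin_diff hC hS hA hb hE hX hxx
  have h2 := hlip x _ (hball X hX) _ (hball x hxx)
  have h3 : K * ‖ν E x X - ν E x x‖ ≤ (|K| + 1) * ‖ν E x X - ν E x x‖ :=
    mul_le_mul_of_nonneg_right (by linarith [le_abs_self K]) (norm_nonneg _)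
  rw [hA.ν_diag E x hE] at h3 h2
  have h4 : (|K| + 1) * ‖ν E x X - V E (1, 0) (g x)‖ < b * η := by
    rw [lt_div_iff₀ hK1, mul_comm] at hlt
    exact hlt
  have h5 : b * |X - x| < b * η := by
    refine lt_of_le_of_lt (h1.trans ?_) (lt_of_le_of_lt h3 h4)
    rw [Pin, Pin, hA.ν_diag E x hE]
    exact h2
  exact lt_of_mul_lt_mul_left h5 hb0.le

end Pool.Agent.DB
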