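import Mathlib

/-!
# MP_74f563_an, n = 2 autonomous (D2), file DB/Top: a global inverse function theorem in the plane

`bij_of_bounded`.  PROOF.  `Θ` is a local homeomorphism (`ContDiffAt.toOpenPartialHomeomorph` at
every
point; injective linear maps of `ℝ²` are isomorphisms; `IsLocalHomeomorph.mk`).  It is proper: the
preimage of a bounded set is bounded (`‖(a x.1, x.2)‖ ≥ min a 1 * ‖x‖`), so the preimage of a
compact
set is compact and `Θ` is a closed map (`isProperMap_iff_isCompact_preimage`,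
`IsProperMap.isClosedMap`, or `Filter.Tendsto` on `cocompact`).  The fibres are finite: compact and
discrete (local injectivity; `IsCompact.finite`).  So `Θ` is a covering map on `univ`
(`IsClosedMap.isCoveringMapOn_of_isLocalHomeomorphOn` in Mathlib/Topology/Covering/Basic.lean).
`ℝ × ℝ` is simply connected (contractible) and locally path connected, so the identity of `ℝ × ℝ`
has a
continuous lift `σ` with `Θ ∘ σ = id`, `σ (Θ 0) = 0`
(`IsCoveringMapOn.existsUnique_continuousMap_lifts` in Mathlib/Topology/Homotopy/Lifting.lean, with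
`A = X = E = ℝ × ℝ`, `f = id`).  Hence `Θ` is surjective.  `σ ∘ Θ` and `id` are lifts of `Θ`
(`Θ ∘ (σ ∘ Θ) = Θ = Θ ∘ id`) which agree at `0`; by the uniqueness of the lifts of `f = Θ` they
are equal,
so `Θ` is injective.

`inv_ana`.  PROOF.  As `inv_smooth` in Pool/Agent/DF/Leg.lean, with `n = ω`
(`AnalyticAt.contDiffAt`, `ContDiffAt.analyticAt`).
-/

set_option autoImplicit false

namespace Pool.Agent.DB

open Set Filter Topology
open scoped ContDiff

theorem bij_of_bounded {Θ : ℝ × ℝ → ℝ × ℝ} (hs : ContDiff ℝ 1 Θ)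
    (hi : ∀ x, Function.Injective (fderiv ℝ Θ x)) {a C : ℝ} (ha : 0 < a)
    (hb : ∀ x : ℝ × ℝ, ‖Θ x - (a * x.1, x.2)‖ ≤ C) : Function.Bijective Θ := by
  have hc : Continuous Θ := hs.continuous
  have hloc : ∀ x : ℝ × ℝ, ∃ e : OpenPartialHomeomorph (ℝ × ℝ) (ℝ × ℝ), x ∈ e.source ∧ e = Θ := by
    intro x
    obtain ⟨L, hL⟩ : ∃ L : (ℝ × ℝ) ≃L[ℝ] (ℝ × ℝ),
        (L : (ℝ × ℝ) →L[ℝ] (ℝ × ℝ)) = fderiv ℝ Θ x := by
      have hsj : Function.Surjective (fderiv ℝ Θ x) :=
        LinearMap.surjective_of_injective (f := (fderiv ℝ Θ x : (ℝ × ℝ) →ₗ[ℝ] (ℝ × ℝ))) (hi x)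
      refine ⟨ContinuousLinearEquiv.ofBijective _ (LinearMap.ker_eq_bot.2 (hi x))
        (LinearMap.range_eq_top.2 hsj), ?_⟩
      exact ContinuousLinearEquiv.coe_ofBijective _ _ _
    have hz : ContDiffAt ℝ 1 Θ x := hs.contDiffAt
    have hD : HasFDerivAt Θ (L : (ℝ × ℝ) →L[ℝ] (ℝ × ℝ)) x := by
      rw [hL]
      exact (hz.differentiableAt one_ne_zero).hasFDerivAt
    have hst := hz.hasStrictFDerivAt' hD one_ne_zero
    exact ⟨hst.toOpenPartialHomeomorph Θ, hst.mem_toOpenPartialHomeomorph_source,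
      hst.toOpenPartialHomeomorph_coe⟩
  have hlh : IsLocalHomeomorph Θ := fun x => by
    obtain ⟨e, he, h⟩ := hloc x
    exact ⟨e, he, h.symm⟩
  have hpre : ∀ K : Set (ℝ × ℝ), IsCompact K → IsCompact (Θ ⁻¹' K) := by
    intro K hK
    obtain ⟨R, hR⟩ := hK.isBounded.exists_norm_le
    refine Metric.isCompact_of_isClosed_isBounded (hK.isClosed.preimage hc) ?_
    refine isBounded_iff_forall_norm_le.2 ⟨max ((R + C) / a) (R + C), ?_⟩
    intro x hx
    have h1 : ‖(a * x.1, x.2)‖ ≤ R + C := by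
      have h2 : ((a * x.1, x.2) : ℝ × ℝ) = Θ x - (Θ x - (a * x.1, x.2)) := by abel
      rw [h2]
      exact (norm_sub_le _ _).trans (add_le_add (hR _ hx) (hb x))
    have h3 : ‖a * x.1‖ ≤ R + C := (norm_fst_le (a * x.1, x.2)).trans h1
    have h4 : ‖x.2‖ ≤ R + C := (norm_snd_le (a * x.1, x.2)).trans h1
    rw [Prod.norm_def]
    refine max_le_max ?_ h4
    rw [norm_mul, Real.norm_of_nonneg ha.le] at h3
    rw [le_div_iff₀ ha]
    linarith
  have hprop : IsProperMap Θ := isProperMap_iff_isCompact_preimage.2 ⟨hc, fun K hK => hpre K hK⟩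
  have hfin : ∀ y : ℝ × ℝ, (Θ ⁻¹' {y}).Finite := fun y =>
    (hpre {y} isCompact_singleton).finite
      (IsDiscrete.of_openPartialHomeomorph Θ subset_rfl fun e _ => hloc e)
  have hcov : IsCoveringMap Θ := by
    rw [isCoveringMap_iff_isCoveringMapOn_univ]
    exact hprop.isClosedMap.isCoveringMapOn_of_isLocalHomeomorphOn (fun y _ => hfin y)
      (hlh.isLocalHomeomorphOn.mono (subset_univ _))
  obtain ⟨σ, ⟨h0, h1⟩, _⟩ := hcov.existsUnique_continuousMap_lifts
    (ContinuousMap.id (ℝ × ℝ)) (Θ 0) 0 rfl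
  have h2 : ∀ y, Θ (σ y) = y := fun y => congrFun h1 y
  obtain ⟨τ, _, huniq⟩ := hcov.existsUnique_continuousMap_lifts
    (⟨Θ, hc⟩ : C(ℝ × ℝ, ℝ × ℝ)) 0 0 rfl
  have h3 := huniq (σ.comp ⟨Θ, hc⟩) ⟨h0, funext fun x => h2 (Θ x)⟩
  have h4 := huniq (ContinuousMap.id (ℝ × ℝ)) ⟨rfl, rfl⟩
  have h5 : ∀ x, σ (Θ x) = x := by
    intro x
    have h6 : (σ.comp ⟨Θ, hc⟩ : C(ℝ × ℝ, ℝ × ℝ)) x = (ContinuousMap.id (ℝ × ℝ)) x := by
      rw [h3, h4]
    exact h6
  exact ⟨fun x y hxy => by rw [← h5 x, ← h5 y, hxy], fun y => ⟨σ y, h2 y⟩⟩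

theorem inv_ana {E : Type} [NormedAddCommGroup E] [NormedSpace ℝ E] [FiniteDimensional ℝ E]
    {Θ : E → E} (h : AnalyticOnNhd ℝ Θ univ) (hb : Function.Bijective Θ)
    (hd : ∀ z, Function.Injective (fderiv ℝ Θ z)) :
    AnalyticOnNhd ℝ (Function.invFun Θ) univ := by
  have : CompleteSpace E := FiniteDimensional.complete ℝ E
  have hn : (ω : WithTop ℕ∞) ≠ 0 := by simp
  intro y _
  obtain ⟨z, rfl⟩ := hb.2 y
  obtain ⟨L, hL⟩ : ∃ L : E ≃L[ℝ] E, (L : E →L[ℝ] E) = fderiv ℝ Θ z := by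
    have hs : Function.Surjective (fderiv ℝ Θ z) :=
      LinearMap.surjective_of_injective (f := (fderiv ℝ Θ z : E →ₗ[ℝ] E)) (hd z)
    refine ⟨ContinuousLinearEquiv.ofBijective _ (LinearMap.ker_eq_bot.2 (hd z))
      (LinearMap.range_eq_top.2 hs), ?_⟩
    exact ContinuousLinearEquiv.coe_ofBijective _ _ _
  have hz : ContDiffAt ℝ ω Θ z := (h z (mem_univ z)).contDiffAt
  have hD : HasFDerivAt Θ (L : E →L[ℝ] E) z := by
    rw [hL]
    exact (hz.differentiableAt hn).hasFDerivAt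
  have hst := hz.hasStrictFDerivAt' hD hn
  have h1 : ContDiffAt ℝ ω (hz.localInverse hD hn) (Θ z) := hz.to_localInverse hD hn
  have h3 : ∀ᶠ y in 𝓝 (Θ z), Θ (hz.localInverse hD hn y) = y := hst.eventually_right_inverse
  have h2 : ContDiffAt ℝ ω (Function.invFun Θ) (Θ z) := by
    refine h1.congr_of_eventuallyEq ?_
    filter_upwards [h3] with y hy
    have h4 := Function.leftInverse_invFun hb.1 (hz.localInverse hD hn y)
    rw [hy] at h4
    exact h4
  exact h2.analyticAt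

end Pool.Agent.DB
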