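import Pool.Agent.DB.NoC
import Pool.Agent.DB.Act

/-!
# MP_74f563_an, n = 2 autonomous (D2), file DB/VAna: `V`, `T`, `m` are analytic

PROOFS.  Fix a primitive `h`.  Let `Q = ℝ × R2 ∋ (E, x)`, `Y = R2 × ℝ ∋ (v, t)`,
`F ((E, x), (v, t)) = ((Fl t (x, v)).1 - x - zz h, en L (x, v) - E)`, with values in `R2 × ℝ =
  Y`, analytic
(`fana`, `en_ana`), and `g (E, x) = (V E h x, T E h)`, continuous on `{E > E0}` (`contV`,
  `contT`), with
`F (q, g q) = 0` (`orb`, `enV`).  The partial derivative in `(v, t)` at `(q, g q)` in the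
  direction
`(dv, dt)` is `((fderiv ℝ (Fl t) (x, v) (0, dv)).1 + dt • (Fl t (x, v)).2, Lvv L (x, v) v dv)`
  (chain rule,
`vel`, `en_dv`), injective by `gam_inj` with `t₀ = T E h > 0`.  `ana_imp` (file DB/Imp) gives the
analyticity of `g` at `(E, x)`: this is `VT_ana`, and `V_ana`, `T_ana` follow (`T E h` = second
  component
at `(E, 0)`, composition with `E ↦ (E, 0)`).
`m_ana`: `m E h = Ac L Fl (T E h) (0, V E h 0) + E * T E h` for `E > E0` (`act`), `ac_ana`; the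
  two sides
agree near `E` (`AnalyticAt.congr`).
`psi_ana`: composition of `fana` and `V_ana` (for `E1 > E0`).
`psi_add`: `ψ (s + t) x = (Fl s (Fl t (x, V x))).1` (`add`) and `Fl t (x, V x) = (ψ t x, V (ψ t
  x))` by `inv`.
`psi_per`: `perV`, `fper`.  `psi_zero`, `psi_T`: `zero`, `orb`.  `psi_deriv`: `vel` and `inv`.
`V_ne`: `C0.vne`, `enV`.
-/

set_option autoImplicit false

namespace Pool.Agent.DB

open Set Filter Topology
open scoped ContDiff

variable {L : PP → ℝ} {Fl : ℝ → PP → PP} {E0 : ℝ} {V : ℝ → ℤ × ℤ → R2 → R2}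
  {T m : ℝ → ℤ × ℤ → ℝ} {E : ℝ} {h : ℤ × ℤ}

private theorem vana_fu (hD : Dyn L Fl) (t : ℝ) (z u : PP) (s : ℝ) :
    (fderiv ℝ (fun q : ℝ × PP => Fl q.1 q.2) (t, z) (s, u)).1 =
      s • (Fl t z).2 + (fderiv ℝ (Fl t) z u).1 := by
  set Fu : ℝ × PP → PP := fun q => Fl q.1 q.2 with hFu
  have hF : HasFDerivAt Fu (fderiv ℝ Fu (t, z)) (t, z) :=
    (hD.fana _ (mem_univ _)).differentiableAt.hasFDerivAt
  have hF1 : (fderiv ℝ Fu (t, z) (1, 0)).1 = (Fl t z).2 := by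
    have h2 : HasDerivAt (fun s : ℝ => (s, z)) ((1 : ℝ), (0 : PP)) t :=
      (hasDerivAt_id t).prodMk (hasDerivAt_const t z)
    have h3 : HasDerivAt (fun s : ℝ => Fl s z) (fderiv ℝ Fu (t, z) (1, 0)) t :=
      HasFDerivAt.comp_hasDerivAt (l := Fu) (f := fun s : ℝ => (s, z)) t hF h2
    have h4 : HasDerivAt (fun s : ℝ => (Fl s z).1) (fderiv ℝ Fu (t, z) (1, 0)).1 t :=
      HasFDerivAt.comp_hasDerivAt (l := fun p : PP => p.1) (f := fun s : ℝ => Fl s z) t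
        (hasFDerivAt_fst (𝕜 := ℝ) (E := R2) (F := R2) (p := Fl t z)) h3
    exact h4.unique (hD.vel t z)
  have hF2 : fderiv ℝ Fu (t, z) (0, u) = fderiv ℝ (Fl t) z u := by
    have h1 : HasFDerivAt (fun y : PP => (t, y)) (ContinuousLinearMap.inr ℝ ℝ PP) z :=
      hasFDerivAt_prodMk_right t z
    have h2 : HasFDerivAt (Fl t)
        ((fderiv ℝ Fu (t, z)).comp (ContinuousLinearMap.inr ℝ ℝ PP)) z :=
      HasFDerivAt.comp (g := Fu) (f := fun y : PP => (t, y)) z hF h1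
    rw [h2.fderiv]
    rfl
  have hsplit : ((s, u) : ℝ × PP) = s • ((1 : ℝ), (0 : PP)) + ((0 : ℝ), u) := by
    rw [Prod.smul_mk, Prod.mk_add_mk, smul_eq_mul, mul_one, add_zero, smul_zero, zero_add]
  rw [hsplit, map_add, map_smul, hF2, Prod.fst_add, Prod.smul_fst, hF1]

theorem VT_ana (hC : C0 L Fl E0 V T m) (hE : E0 < E) (hh : Prm h) (x : R2) :
    AnalyticAt ℝ (fun q : ℝ × R2 => (V q.1 h q.2, T q.1 h)) (E, x) := by
  have hD : Dyn L Fl := hC.toDyn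
  set F : (ℝ × R2) × (R2 × ℝ) → R2 × ℝ := fun p =>
    ((Fl p.2.2 (p.1.2, p.2.1)).1 - p.1.2 - zz h, en L (p.1.2, p.2.1) - p.1.1) with hFdef
  set g : ℝ × R2 → R2 × ℝ := fun q => (V q.1 h q.2, T q.1 h) with hgdef
  have hFa : ∀ p, AnalyticAt ℝ F p := by
    intro p
    have a1 : AnalyticAt ℝ (fun p : (ℝ × R2) × (R2 × ℝ) => p.1.2) p :=
      AnalyticAt.fun_comp (g := fun q : ℝ × R2 => q.2) (f := fun p : (ℝ × R2) × (R2 × ℝ) => p.1)
        analyticAt_snd analyticAt_fst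
    have a2 : AnalyticAt ℝ (fun p : (ℝ × R2) × (R2 × ℝ) => p.1.1) p :=
      AnalyticAt.fun_comp (g := fun q : ℝ × R2 => q.1) (f := fun p : (ℝ × R2) × (R2 × ℝ) => p.1)
        analyticAt_fst analyticAt_fst
    have a3 : AnalyticAt ℝ (fun p : (ℝ × R2) × (R2 × ℝ) => p.2.1) p :=
      AnalyticAt.fun_comp (g := fun q : R2 × ℝ => q.1) (f := fun p : (ℝ × R2) × (R2 × ℝ) => p.2)
        analyticAt_fst analyticAt_snd
    have a4 : AnalyticAt ℝ (fun p : (ℝ × R2) × (R2 × ℝ) => p.2.2) p :=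
      AnalyticAt.fun_comp (g := fun q : R2 × ℝ => q.2) (f := fun p : (ℝ × R2) × (R2 × ℝ) => p.2)
        analyticAt_snd analyticAt_snd
    have a5 : AnalyticAt ℝ (fun p : (ℝ × R2) × (R2 × ℝ) => (p.1.2, p.2.1)) p := a1.prod a3
    have a6 : AnalyticAt ℝ (fun p : (ℝ × R2) × (R2 × ℝ) => (p.2.2, (p.1.2, p.2.1))) p :=
      a4.prod a5
    have a7 : AnalyticAt ℝ (fun p : (ℝ × R2) × (R2 × ℝ) => Fl p.2.2 (p.1.2, p.2.1)) p :=
      AnalyticAt.fun_comp (g := fun q : ℝ × PP => Fl q.1 q.2)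
        (f := fun p : (ℝ × R2) × (R2 × ℝ) => (p.2.2, (p.1.2, p.2.1)))
        (hD.fana _ (mem_univ _)) a6
    have a8 : AnalyticAt ℝ (fun p : (ℝ × R2) × (R2 × ℝ) => (Fl p.2.2 (p.1.2, p.2.1)).1) p :=
      AnalyticAt.fun_comp (g := fun q : PP => q.1)
        (f := fun p : (ℝ × R2) × (R2 × ℝ) => Fl p.2.2 (p.1.2, p.2.1)) analyticAt_fst a7
    have a9 : AnalyticAt ℝ (fun p : (ℝ × R2) × (R2 × ℝ) => en L (p.1.2, p.2.1)) p :=
      AnalyticAt.fun_comp (g := en L)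
        (f := fun p : (ℝ × R2) × (R2 × ℝ) => (p.1.2, p.2.1)) (hD.en_ana _ (mem_univ _)) a5
    exact ((a8.sub a1).sub analyticAt_const).prod (a9.sub a2)
  have hmem : (Ioi E0 : Set ℝ) ∈ 𝓝 E := Ioi_mem_nhds hE
  have hmem2 : (Ioi E0 ×ˢ (univ : Set R2)) ∈ 𝓝 (E, x) := prod_mem_nhds hmem univ_mem
  have hg : ContinuousAt g (E, x) := by
    have c1 : ContinuousAt (fun q : ℝ × R2 => V q.1 h q.2) (E, x) :=
      (hC.contV h hh).continuousAt hmem2
    have c2 : ContinuousAt (fun q : ℝ × R2 => T q.1 h) (E, x) :=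
      ContinuousAt.comp' (g := fun E => T E h) (f := fun q : ℝ × R2 => q.1)
        ((hC.contT h hh).continuousAt hmem) continuousAt_fst
    exact c1.prodMk c2
  have hsol : ∀ᶠ q in 𝓝 (E, x), F (q, g q) = 0 := by
    filter_upwards [hmem2] with q hq
    have hq1 : E0 < q.1 := hq.1
    refine Prod.ext ?_ ?_
    · change (Fl (T q.1 h) (q.2, V q.1 h q.2)).1 - q.2 - zz h = 0
      rw [hC.orb q.1 hq1 h hh q.2]
      abel
    · change en L (q.2, V q.1 h q.2) - q.1 = 0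
      rw [hC.enV q.1 hq1 h hh q.2, sub_self]
  refine ana_imp (F := F) (c := 0) (hFa _) hg hsol ?_
  rintro ⟨dv, dt⟩ hy
  have hFd : HasFDerivAt F (fderiv ℝ F ((E, x), g (E, x))) ((E, x), g (E, x)) :=
    (hFa _).differentiableAt.hasFDerivAt
  set v : R2 := V E h x with hv
  set t₀ : ℝ := T E h with ht₀
  have hvd : HasDerivAt (fun s : ℝ => v + s • dv) dv 0 := by
    have := ((hasDerivAt_id (0 : ℝ)).smul_const dv).const_add v
    simpa using this
  have htd : HasDerivAt (fun s : ℝ => t₀ + s * dt) dt 0 := by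
    have := ((hasDerivAt_id (0 : ℝ)).mul_const dt).const_add t₀
    simpa using this
  set c : ℝ → (ℝ × R2) × (R2 × ℝ) := fun s => ((E, x), (v + s • dv, t₀ + s * dt)) with hc
  have hcd : HasDerivAt c (((0 : ℝ), (0 : R2)), (dv, dt)) 0 :=
    (hasDerivAt_const (0 : ℝ) ((E, x) : ℝ × R2)).prodMk (hvd.prodMk htd)
  have hc0 : c 0 = ((E, x), g (E, x)) := by
    simp [hc, hgdef, hv, ht₀]
  have hFc : HasDerivAt (fun s => F (c s)) 0 0 := by
    have h1 : HasFDerivAt F (fderiv ℝ F ((E, x), g (E, x))) (c 0) := by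
      rw [hc0]
      exact hFd
    have h2 := HasFDerivAt.comp_hasDerivAt (l := F) (f := c) 0 h1 hcd
    have h3 : fderiv ℝ F ((E, x), g (E, x)) (((0 : ℝ), (0 : R2)), (dv, dt)) = 0 := hy
    rw [h3] at h2
    exact h2
  -- the velocity component
  set Fu : ℝ × PP → PP := fun q => Fl q.1 q.2 with hFu
  have hzd : HasDerivAt (fun s : ℝ => ((x, v + s • dv) : PP)) ((0 : R2), dv) 0 :=
    (hasDerivAt_const (0 : ℝ) x).prodMk hvd
  have hz0 : ((x, v + (0 : ℝ) • dv) : PP) = (x, v) := by simp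
  have hA : HasDerivAt (fun s : ℝ => (Fl (t₀ + s * dt) (x, v + s • dv)).1)
      ((fderiv ℝ Fu (t₀, (x, v)) (dt, (0, dv))).1) 0 := by
    have h1 : HasDerivAt (fun s : ℝ => (t₀ + s * dt, ((x, v + s • dv) : PP)))
        (dt, ((0 : R2), dv)) 0 := htd.prodMk hzd
    have h2 : HasFDerivAt Fu (fderiv ℝ Fu (t₀, (x, v)))
        (t₀ + 0 * dt, ((x, v + (0 : ℝ) • dv) : PP)) := by
      have e : (t₀ + 0 * dt, ((x, v + (0 : ℝ) • dv) : PP)) = (t₀, (x, v)) := by simp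
      rw [e]
      exact (hD.fana _ (mem_univ _)).differentiableAt.hasFDerivAt
    have h3 : HasDerivAt (fun s : ℝ => Fl (t₀ + s * dt) (x, v + s • dv))
        (fderiv ℝ Fu (t₀, (x, v)) (dt, (0, dv))) 0 :=
      HasFDerivAt.comp_hasDerivAt (l := Fu)
        (f := fun s : ℝ => (t₀ + s * dt, ((x, v + s • dv) : PP))) 0 h2 h1
    exact HasFDerivAt.comp_hasDerivAt (l := fun p : PP => p.1)
      (f := fun s : ℝ => Fl (t₀ + s * dt) (x, v + s • dv)) 0
      (hasFDerivAt_fst (𝕜 := ℝ) (E := R2) (F := R2)) h3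
  have hB : HasDerivAt (fun s : ℝ => en L (x, v + s • dv)) (fderiv ℝ (en L) (x, v) (0, dv)) 0 := by
    have h2 : HasFDerivAt (en L) (fderiv ℝ (en L) (x, v)) ((x, v + (0 : ℝ) • dv) : PP) := by
      rw [hz0]
      exact (hD.en_ana _ (mem_univ _)).differentiableAt.hasFDerivAt
    exact HasFDerivAt.comp_hasDerivAt (l := en L) (f := fun s : ℝ => ((x, v + s • dv) : PP)) 0 h2
      hzd
  have k1 : HasDerivAt (fun s => (F (c s)).1) (0 : R2) 0 :=
    HasFDerivAt.comp_hasDerivAt (l := fun p : R2 × ℝ => p.1)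
      (f := fun s : ℝ => F (c s)) 0 (hasFDerivAt_fst (𝕜 := ℝ) (E := R2) (F := ℝ)) hFc
  have k2 : HasDerivAt (fun s => (F (c s)).2) (0 : ℝ) 0 :=
    HasFDerivAt.comp_hasDerivAt (l := fun p : R2 × ℝ => p.2)
      (f := fun s : ℝ => F (c s)) 0 (hasFDerivAt_snd (𝕜 := ℝ) (E := R2) (F := ℝ)) hFc
  have k3 : HasDerivAt (fun s => (F (c s)).1)
      ((fderiv ℝ Fu (t₀, (x, v)) (dt, (0, dv))).1) 0 := (hA.sub_const x).sub_const (zz h)
  have k4 : HasDerivAt (fun s => (F (c s)).2) (fderiv ℝ (en L) (x, v) (0, dv)) 0 :=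
    hB.sub_const E
  have e1 : (fderiv ℝ Fu (t₀, (x, v)) (dt, (0, dv))).1 = 0 := k3.unique k1
  have e2 : fderiv ℝ (en L) (x, v) (0, dv) = 0 := k4.unique k2
  rw [vana_fu hD] at e1
  rw [hD.en_dv] at e2
  have := gam_inj hC hE hh x (hC.Tpos E hE h hh) (dv := dv) (dt := dt) e2
    (by rw [add_comm]; exact e1)
  exact Prod.ext this.1 this.2

theorem V_ana (hC : C0 L Fl E0 V T m) (hE : E0 < E) (hh : Prm h) (x : R2) :
    AnalyticAt ℝ (fun q : ℝ × R2 => V q.1 h q.2) (E, x) :=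
  AnalyticAt.fun_comp (g := fun p : R2 × ℝ => p.1)
    (f := fun q : ℝ × R2 => (V q.1 h q.2, T q.1 h)) analyticAt_fst (VT_ana hC hE hh x)

theorem T_ana (hC : C0 L Fl E0 V T m) (hE : E0 < E) (hh : Prm h) :
    AnalyticAt ℝ (fun E => T E h) E := by
  have h1 : AnalyticAt ℝ (fun q : ℝ × R2 => T q.1 h) (E, (0 : R2)) :=
    AnalyticAt.fun_comp (g := fun p : R2 × ℝ => p.2)
      (f := fun q : ℝ × R2 => (V q.1 h q.2, T q.1 h)) analyticAt_snd (VT_ana hC hE hh 0)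
  exact AnalyticAt.fun_comp (g := fun q : ℝ × R2 => T q.1 h) (f := fun E : ℝ => (E, (0 : R2))) h1
    (analyticAt_id.prod analyticAt_const)

theorem m_ana (hC : C0 L Fl E0 V T m) (hE : E0 < E) (hh : Prm h) :
    AnalyticAt ℝ (fun E => m E h) E := by
  have hD : Dyn L Fl := hC.toDyn
  have h1 : AnalyticAt ℝ (fun E : ℝ => V E h 0) E :=
    AnalyticAt.fun_comp (g := fun q : ℝ × R2 => V q.1 h q.2) (f := fun E : ℝ => (E, (0 : R2)))
      (V_ana hC hE hh 0) (analyticAt_id.prod analyticAt_const)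
  have h2 : AnalyticAt ℝ (fun E : ℝ => (T E h, (((0 : R2), V E h 0) : PP))) E :=
    (T_ana hC hE hh).prod (analyticAt_const.prod h1)
  have h3 : AnalyticAt ℝ (fun E : ℝ => Ac L Fl (T E h) (0, V E h 0)) E :=
    AnalyticAt.fun_comp (g := fun q : ℝ × PP => Ac L Fl q.1 q.2)
      (f := fun E : ℝ => (T E h, (((0 : R2), V E h 0) : PP))) (hD.ac_ana _ (mem_univ _)) h2
  have h4 : AnalyticAt ℝ (fun E : ℝ => Ac L Fl (T E h) (0, V E h 0) + E * T E h) E :=
    h3.add (analyticAt_id.mul (T_ana hC hE hh))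
  refine h4.congr ?_
  filter_upwards [Ioi_mem_nhds hE] with E' hE'
  exact hC.act E' hE' h hh 0

/-- the flow of the vector field `V E h` on the positions -/
noncomputable def psi (Fl : ℝ → PP → PP) (V : ℝ → ℤ × ℤ → R2 → R2) (E : ℝ) (h : ℤ × ℤ) (t : ℝ)
    (x : R2) : R2 := (Fl t (x, V E h x)).1

theorem psi_ana (hC : C0 L Fl E0 V T m) (hE : E0 < E) (hh : Prm h) :
    AnalyticOnNhd ℝ (fun q : ℝ × R2 => psi Fl V E h q.1 q.2) univ := by
  rintro q -
  have hD : Dyn L Fl := hC.toDyn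
  have h1 : AnalyticAt ℝ (fun q : ℝ × R2 => V E h q.2) q :=
    AnalyticAt.fun_comp (g := fun q : ℝ × R2 => V q.1 h q.2) (f := fun q : ℝ × R2 => (E, q.2))
      (V_ana hC hE hh q.2) (analyticAt_const.prod analyticAt_snd)
  have h2 : AnalyticAt ℝ (fun q : ℝ × R2 => (q.1, ((q.2, V E h q.2) : PP))) q :=
    analyticAt_fst.prod (analyticAt_snd.prod h1)
  have h3 : AnalyticAt ℝ (fun q : ℝ × R2 => Fl q.1 (q.2, V E h q.2)) q :=
    AnalyticAt.fun_comp (g := fun q : ℝ × PP => Fl q.1 q.2)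
      (f := fun q : ℝ × R2 => (q.1, ((q.2, V E h q.2) : PP))) (hD.fana _ (mem_univ _)) h2
  exact AnalyticAt.fun_comp (g := fun q : PP => q.1)
    (f := fun q : ℝ × R2 => Fl q.1 (q.2, V E h q.2)) analyticAt_fst h3

theorem psi_fl (hC : C0 L Fl E0 V T m) (hE : E0 < E) (hh : Prm h) (t : ℝ) (x : R2) :
    Fl t (x, V E h x) = (psi Fl V E h t x, V E h (psi Fl V E h t x)) :=
  Prod.ext rfl (hC.inv E hE h hh x t)

theorem psi_zero (hC : C0 L Fl E0 V T m) (x : R2) : psi Fl V E h 0 x = x := by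
  unfold psi
  rw [hC.toDyn.zero]

theorem psi_add (hC : C0 L Fl E0 V T m) (hE : E0 < E) (hh : Prm h) (s t : ℝ) (x : R2) :
    psi Fl V E h (s + t) x = psi Fl V E h s (psi Fl V E h t x) := by
  change (Fl (s + t) (x, V E h x)).1 = (Fl s (psi Fl V E h t x, V E h (psi Fl V E h t x))).1
  rw [hC.toDyn.add, psi_fl hC hE hh]

theorem psi_per (hC : C0 L Fl E0 V T m) (hE : E0 < E) (hh : Prm h) (t : ℝ) (k : ℤ × ℤ) (x : R2) :
    psi Fl V E h t (x + zz k) = psi Fl V E h t x + zz k := by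
  change (Fl t (x + zz k, V E h (x + zz k))).1 = (Fl t (x, V E h x)).1 + zz k
  rw [hC.perV E hE h hh]
  have h1 : ((x + zz k, V E h x) : PP) = (x, V E h x) + (zz k, 0) :=
    Prod.ext rfl (add_zero _).symm
  rw [h1, hC.toDyn.fper, Prod.fst_add]

theorem psi_T (hC : C0 L Fl E0 V T m) (hE : E0 < E) (hh : Prm h) (x : R2) :
    psi Fl V E h (T E h) x = x + zz h :=
  hC.orb E hE h hh x

theorem psi_deriv (hC : C0 L Fl E0 V T m) (hE : E0 < E) (hh : Prm h) (t : ℝ) (x : R2) :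
    HasDerivAt (fun t => psi Fl V E h t x) (V E h (psi Fl V E h t x)) t := by
  have h1 := hC.toDyn.vel t (x, V E h x)
  rw [hC.inv E hE h hh x t] at h1
  exact h1

theorem V_ne (hC : C0 L Fl E0 V T m) (hE : E0 < E) (hh : Prm h) (x : R2) : V E h x ≠ 0 := by
  have h1 : E0 < en L (x, V E h x) := by
    rw [hC.enV E hE h hh x]
    exact hE
  exact hC.vne h1

end Pool.Agent.DB
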