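import Pool.Agent.DB.Str
import Pool.Agent.DB.Top
import Pool.Agent.DB.VAna

/-!
# MP_74f563_an, n = 2 autonomous (D2), file DB/Sct: the section

`Sect U T1 g τ s`: `τ` (time) and `s` are first integrals type coordinates of the plane in which
`U` is
`(1, 0)`; `g` parametrises `{τ = 0}`.

PROOFS.  `exists_sect`.  `τ = tau ψ T1`, `s = sig ψ U T1` (file DB/Str), `Θ x = (τ x, s x)`.
`Θ` is analytic; `fderiv ℝ Θ x` is injective: if `fderiv ℝ Θ x w = 0` then `dtm (U x) w = 0`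
(`dsig_det`), so
`w = c • U x` (`U x ≠ 0`), and `0 = fderiv ℝ τ x w = c` (`dtau`).  `Θ x - (T1 * x.1, x.2)` is
periodic
(`tau_per`, `sig_per`) and continuous, hence bounded (its values are those on the compact square
`[0, 1]²`; `Int.fract`).  So `Θ` is bijective (`bij_of_bounded` with `a = T1`) and `Ξ = invFun Θ`
is analytic
(`inv_ana`).  `g u = Ξ (0, u)`.  `τ_g`, `s_g`: `Θ (Ξ y) = y`.  `inj`: injectivity of `Θ`.
`g_per`: `Θ (g u + (0, 1)) = (0, u + 1)` (`tau_per`, `sig_per` with `k = (0, 1)`).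
`ind`: if `dtm (U (g u)) (deriv g u) = 0` then `deriv g u = c • U (g u)`, and differentiating `s
(g u) = u`:
`1 = fderiv ℝ s (g u) (deriv g u) = c * 0`.
`pflow_of`: `psi_ana`, `V_ana` (composition with `x ↦ (E, x)`), `psi_zero`, `psi_add`, `psi_per`,
`psi_T`,
`psi_deriv`, `V_ne` of file DB/VAna; `zz (1, 0) = (1, 0)`.
`sect_flow`: `t ↦ τ (ψ t x)` has the derivative `1` (chain rule, `dτ`), so `τ (ψ t x) = τ x + t`;
in the same
way `s (ψ t x) = s x`.
`sect_rec`: `τ (ψ (-τ x) x) = 0 = τ (g (s x))` and `s (ψ (-τ x) x) = s x = s (g (s x))`, so by `inj`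
`ψ (-τ x) x = g (s x)`; apply `ψ (τ x)`.
-/

set_option autoImplicit false

namespace Pool.Agent.DB

open Set Filter Topology
open scoped ContDiff

/-- the section and the straightening coordinates of a periodic flow -/
structure Sect (U : R2 → R2) (T1 : ℝ) (g : ℝ → R2) (τ s : R2 → ℝ) : Prop where
  T0 : 0 < T1
  g_ana : AnalyticOnNhd ℝ g univ
  τ_ana : AnalyticOnNhd ℝ τ univ
  s_ana : AnalyticOnNhd ℝ s univ
  g_per : ∀ u, g (u + 1) = g u + (0, 1)
  τ_per : ∀ x (k : ℤ × ℤ), τ (x + zz k) = τ x + k.1 * T1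
  s_per : ∀ x (k : ℤ × ℤ), s (x + zz k) = s x + k.2
  τ_g : ∀ u, τ (g u) = 0
  s_g : ∀ u, s (g u) = u
  inj : ∀ x y, τ x = τ y → s x = s y → x = y
  dτ : ∀ x, fderiv ℝ τ x (U x) = 1
  ds : ∀ x, fderiv ℝ s x (U x) = 0
  ind : ∀ u, dtm (U (g u)) (deriv g u) ≠ 0

private theorem smul_of_dtm {u w : R2} (hu : u ≠ 0) (h : dtm u w = 0) : ∃ c : ℝ, w = c • u := by
  unfold dtm at h
  by_cases h1 : u.1 = 0
  · have h2 : u.2 ≠ 0 := fun h2 => hu (Prod.ext h1 h2)
    have h3 : w.1 = 0 := by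
      rw [h1] at h
      have : u.2 * w.1 = 0 := by linarith
      exact (mul_eq_zero.1 this).resolve_left h2
    refine ⟨w.2 / u.2, Prod.ext ?_ ?_⟩
    · simp [h1, h3]
    · simp only [Prod.smul_snd, smul_eq_mul]
      field_simp
  · refine ⟨w.1 / u.1, Prod.ext ?_ ?_⟩
    · simp only [Prod.smul_fst, smul_eq_mul]
      field_simp
    · simp only [Prod.smul_snd, smul_eq_mul]
      field_simp
      linarith

private theorem bound_of_per {f : R2 → R2} (hc : Continuous f)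
    (hp : ∀ x (k : ℤ × ℤ), f (x + zz k) = f x) : ∃ C, ∀ x, ‖f x‖ ≤ C := by
  obtain ⟨C, hC⟩ := (isCompact_Icc (a := ((0, 0) : R2)) (b := (1, 1))).exists_bound_of_continuousOn
    hc.continuousOn
  refine ⟨C, fun x => ?_⟩
  have h1 : x = (Int.fract x.1, Int.fract x.2) + zz (⌊x.1⌋, ⌊x.2⌋) := by
    unfold zz
    exact Prod.ext (Int.fract_add_floor x.1).symm (Int.fract_add_floor x.2).symm
  rw [h1, hp]
  apply hC
  exact ⟨⟨Int.fract_nonneg _, Int.fract_nonneg _⟩,
    ⟨(Int.fract_lt_one _).le, (Int.fract_lt_one _).le⟩⟩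

theorem exists_sect {ψ : ℝ → R2 → R2} {U : R2 → R2} {T1 : ℝ} (h : PFlow ψ U T1) :
    ∃ (g : ℝ → R2) (τ s : R2 → ℝ), Sect U T1 g τ s := by
  set τ : R2 → ℝ := tau ψ T1 with hτ
  set s : R2 → ℝ := sig ψ U T1 with hs
  have hτa : AnalyticOnNhd ℝ τ univ := h.tau_ana
  have hsa : AnalyticOnNhd ℝ s univ := h.sig_ana
  set Θ : R2 → R2 := fun x => (τ x, s x) with hΘ
  have hΘa : AnalyticOnNhd ℝ Θ univ := hτa.prod hsa
  have hτd : ∀ x, DifferentiableAt ℝ τ x := fun x => (hτa x trivial).differentiableAt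
  have hsd : ∀ x, DifferentiableAt ℝ s x := fun x => (hsa x trivial).differentiableAt
  have hΘd : ∀ x w, fderiv ℝ Θ x w = (fderiv ℝ τ x w, fderiv ℝ s x w) := by
    intro x w
    rw [((hτd x).hasFDerivAt.prodMk (hsd x).hasFDerivAt).fderiv]
    rfl
  have hτU : ∀ x, fderiv ℝ τ x (U x) = 1 := h.dtau
  have hsU : ∀ x, fderiv ℝ s x (U x) = 0 := h.dsig
  have hτp : ∀ x (k : ℤ × ℤ), τ (x + zz k) = τ x + k.1 * T1 := h.tau_per
  have hsp : ∀ x (k : ℤ × ℤ), s (x + zz k) = s x + k.2 := h.sig_per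
  have hinj : ∀ x, Function.Injective (fderiv ℝ Θ x) := by
    intro x
    rw [injective_iff_map_eq_zero]
    intro w hw
    rw [hΘd] at hw
    have h1 : fderiv ℝ τ x w = 0 := congrArg Prod.fst hw
    have h2 : fderiv ℝ s x w = 0 := congrArg Prod.snd hw
    obtain ⟨c, hc, hcd⟩ := h.dsig_det x
    have h3 : dtm (U x) w = 0 := by
      have h4 : c * dtm (U x) w = 0 := by rw [← hcd w]; exact h2
      exact (mul_eq_zero.1 h4).resolve_left hc.ne'
    obtain ⟨k, rfl⟩ := smul_of_dtm (h.ne x) h3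
    rw [map_smul, hτU, smul_eq_mul, mul_one] at h1
    rw [h1, zero_smul]
  have hcont : Continuous fun x : R2 => Θ x - ((T1 * x.1, x.2) : R2) := by
    have h1 : Continuous Θ := continuous_iff_continuousAt.2 fun x => (hΘa x trivial).continuousAt
    fun_prop
  obtain ⟨C, hC⟩ := bound_of_per hcont (by
    intro x k
    have hk1 : (x + zz k).1 = x.1 + k.1 := rfl
    have hk2 : (x + zz k).2 = x.2 + k.2 := rfl
    refine Prod.ext ?_ ?_
    · simp only [hΘ, Prod.fst_sub, hτp, hk1]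
      ring
    · simp only [hΘ, Prod.snd_sub, hsp, hk2]
      ring)
  have hbij : Function.Bijective Θ :=
    bij_of_bounded (hΘa.contDiff.of_le le_top) hinj h.T0 hC
  have hΞa : AnalyticOnNhd ℝ (Function.invFun Θ) univ := inv_ana hΘa hbij hinj
  have hΘΞ : ∀ y, Θ (Function.invFun Θ y) = y := Function.rightInverse_invFun hbij.2
  set g : ℝ → R2 := fun u => Function.invFun Θ (0, u) with hg
  have hga : AnalyticOnNhd ℝ g univ := fun u _ =>
    (hΞa (0, u) trivial).fun_comp (analyticAt_const.prod analyticAt_id)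
  have hτg : ∀ u, τ (g u) = 0 := fun u => congrArg Prod.fst (hΘΞ (0, u))
  have hsg : ∀ u, s (g u) = u := fun u => congrArg Prod.snd (hΘΞ (0, u))
  have hij : ∀ x y, τ x = τ y → s x = s y → x = y := fun x y h1 h2 =>
    hbij.1 (Prod.ext h1 h2)
  refine ⟨g, τ, s, ⟨h.T0, hga, hτa, hsa, ?_, hτp, hsp, hτg, hsg, hij, hτU, hsU, ?_⟩⟩
  · intro u
    have h1 : ((0, 1) : R2) = zz (0, 1) := by simp [zz]
    apply hij
    · rw [h1, hτp, hτg, hτg]
      simp
    · rw [h1, hsp, hsg, hsg]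
      simp
  · intro u h0
    have hne := h.ne (g u)
    obtain ⟨c, hc⟩ := smul_of_dtm hne h0
    have h1 : HasDerivAt (fun u => s (g u)) (fderiv ℝ s (g u) (deriv g u)) u :=
      (hsd (g u)).hasFDerivAt.comp_hasDerivAt u (hga u trivial).differentiableAt.hasDerivAt
    have h2 : (fun u => s (g u)) = id := funext hsg
    rw [h2, hc, map_smul, hsU, smul_zero] at h1
    exact zero_ne_one (h1.unique (hasDerivAt_id u))

variable {L : PP → ℝ} {Fl : ℝ → PP → PP} {E0 : ℝ} {V : ℝ → ℤ × ℤ → R2 → R2}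
  {T m : ℝ → ℤ × ℤ → ℝ} {E : ℝ}

theorem pflow_of (hC : C0 L Fl E0 V T m) (hE : E0 < E) :
    PFlow (psi Fl V E (1, 0)) (V E (1, 0)) (T E (1, 0)) := by
  have hp : Prm (1, 0) := isCoprime_one_left
  refine ⟨hC.Tpos E hE _ hp, psi_ana hC hE hp, ?_, fun x => psi_zero hC x,
    fun s t x => psi_add hC hE hp s t x, fun t x k => psi_per hC hE hp t k x, ?_,
    fun t x => psi_deriv hC hE hp t x, fun x => V_ne hC hE hp x⟩
  · intro x _
    exact (V_ana hC hE hp x).fun_comp (analyticAt_const.prod analyticAt_id)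
  · intro x
    rw [psi_T hC hE hp x]
    simp [zz]

theorem sect_flow {ψ : ℝ → R2 → R2} {U : R2 → R2} {T1 : ℝ} (h : PFlow ψ U T1) {g : ℝ → R2}
    {τ s : R2 → ℝ} (hS : Sect U T1 g τ s) (t : ℝ) (x : R2) :
    τ (ψ t x) = τ x + t ∧ s (ψ t x) = s x := by
  have key : ∀ (f : R2 → ℝ) (c : ℝ), AnalyticOnNhd ℝ f univ → (∀ x, fderiv ℝ f x (U x) = c) →
      f (ψ t x) = f x + c * t := by
    intro f c hf hc
    have h1 : ∀ r, HasDerivAt (fun r => f (ψ r x) - c * r) (c - c * 1) r := by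
      intro r
      have h2 : HasDerivAt (fun r => f (ψ r x)) (fderiv ℝ f (ψ r x) (U (ψ r x))) r :=
        (hf (ψ r x) trivial).differentiableAt.hasFDerivAt.comp_hasDerivAt r (h.der r x)
      rw [hc] at h2
      exact h2.sub ((hasDerivAt_id r).const_mul c)
    have h3 : f (ψ t x) - c * t = f (ψ 0 x) - c * 0 :=
      is_const_of_deriv_eq_zero (fun r => (h1 r).differentiableAt)
        (fun r => by rw [(h1 r).deriv]; ring) t 0
    rw [h.zero] at h3
    linarith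
  constructor
  · rw [key τ 1 hS.τ_ana hS.dτ, one_mul]
  · rw [key s 0 hS.s_ana hS.ds, zero_mul, add_zero]

theorem sect_rec {ψ : ℝ → R2 → R2} {U : R2 → R2} {T1 : ℝ} (h : PFlow ψ U T1) {g : ℝ → R2}
    {τ s : R2 → ℝ} (hS : Sect U T1 g τ s) (x : R2) : ψ (τ x) (g (s x)) = x := by
  have h1 : ψ (-τ x) x = g (s x) := by
    obtain ⟨h2, h3⟩ := sect_flow h hS (-τ x) x
    apply hS.inj
    · rw [h2, hS.τ_g, add_neg_cancel]
    · rw [h3, hS.s_g]
  rw [← h1, ← h.add, add_neg_cancel, h.zero]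

end Pool.Agent.DB
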