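import Pool.Agent.DB.Act

/-!
# MP_74f563_an, n = 2 autonomous (D2), file DB/Str: two first integrals of a periodic flow on the torus

`PFlow ψ U T1`: `ψ` is the flow of an analytic periodic vector field `U` without zeros on the plane and
`ψ T1 x = x + (1, 0)` for all `x`.
`tau x = ∫_0^T1 ((ψ t x).1 - t / T1) dt`, `sig x = ∫_0^T1 (ψ t x).2 (U (ψ t x)).1 dt`.

PROOFS.  `tau_ana`, `sig_ana`: `flow_int_ana` (file DB/Act) with `G x = x.1`, resp.
`G x = x.2 * (U x).1` (restrict the analytic function of `(t, x)` to `t = T1`).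
`tau_per`: `(ψ t (x + zz k)).1 = (ψ t x).1 + k.1`.  `sig_per`: `(ψ t (x + zz k)).2 = (ψ t x).2 + k.2`,
`U (y + zz k) = U y` (differentiate `per` at `t = 0`), and `∫_0^T1 (U (ψ t x)).1 dt =
(ψ T1 x).1 - (ψ 0 x).1 = 1`.
`tau_flow`: `ψ t (ψ u x) = ψ (t + u) x`; the function `r ↦ (ψ r x).1 - r / T1` is `T1`-periodic (`add`, `ret`,
`per`: `ψ (r + T1) x = ψ r (x + (1, 0)) = ψ r x + (1, 0)`), so
`∫_0^T1 ((ψ (t + u) x).1 - t / T1) dt = ∫_u^(u + T1) ((ψ r x).1 - r / T1) dr + u = tau x + u`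
(`Function.Periodic.intervalIntegral_add_eq`).  `sig_flow`: the integrand is `T1`-periodic.
`dtau`, `dsig`: derivative of `tau_flow`, `sig_flow` in `u` at `0`.
`dsig_det`: fix `x`, `w`; let `δ t = fderiv ℝ (ψ t) x w`, `G x = x.2 * (U x).1`,
`S t = fderiv ℝ (fun x => ∫ r in 0..t, G (ψ r x)) x w`.  By the symmetry of second derivatives
(`flow_int_ana`) `S' t = fderiv ℝ G (ψ t x) (δ t)` and `δ' t = fderiv ℝ U (ψ t x) (δ t)`.  So for
`Φ t = S t - (ψ t x).2 * (δ t).1`: `Φ' = (δ.2 U.1 + ψ.2 (DU δ).1) - U.2 δ.1 - ψ.2 (DU δ).1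
= dtm (U (ψ t x)) (δ t)`.  Since `U (ψ t x) = fderiv ℝ (ψ t) x (U x)` (derivative of
`ψ (t + s) x = ψ t (ψ s x)` in `s` at `0`), `dtm (U (ψ t x)) (δ t) = J t * dtm (U x) w` with
`J t = dtm (fderiv ℝ (ψ t) x (1, 0)) (fderiv ℝ (ψ t) x (0, 1))` (determinant), `J 0 = 1`, `J` continuous and
`J t ≠ 0` (`ψ (-t) ∘ ψ t = id`), so `J > 0` (intermediate value theorem).  `Φ 0 = - x.2 * w.1` (`S 0 = 0`,
`δ 0 = w`), `Φ T1 = fderiv ℝ sig x w - x.2 * w.1` (`ψ T1 x = x + (1, 0)`, `δ T1 = w`).  Hence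
`fderiv ℝ sig x w = (∫_0^T1 J) * dtm (U x) w`.
`pflow_of` : `psi_ana`, ... of file DB/VAna (this theorem is in DB/Sct).
-/

set_option autoImplicit false

namespace Pool.Agent.DB

open Set Filter Topology MeasureTheory
open scoped ContDiff

/-- a periodic flow without zeros -/
structure PFlow (ψ : ℝ → R2 → R2) (U : R2 → R2) (T1 : ℝ) : Prop where
  T0 : 0 < T1
  ana : AnalyticOnNhd ℝ (fun q : ℝ × R2 => ψ q.1 q.2) univ
  uana : AnalyticOnNhd ℝ U univ
  zero : ∀ x, ψ 0 x = x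
  add : ∀ s t x, ψ (s + t) x = ψ s (ψ t x)
  per : ∀ t x (k : ℤ × ℤ), ψ t (x + zz k) = ψ t x + zz k
  ret : ∀ x, ψ T1 x = x + (1, 0)
  der : ∀ t x, HasDerivAt (fun t => ψ t x) (U (ψ t x)) t
  ne : ∀ x, U x ≠ 0

noncomputable def tau (ψ : ℝ → R2 → R2) (T1 : ℝ) (x : R2) : ℝ :=
  ∫ t in (0 : ℝ)..T1, ((ψ t x).1 - t / T1)

noncomputable def sig (ψ : ℝ → R2 → R2) (U : R2 → R2) (T1 : ℝ) (x : R2) : ℝ :=
  ∫ t in (0 : ℝ)..T1, (ψ t x).2 * (U (ψ t x)).1

variable {ψ : ℝ → R2 → R2} {U : R2 → R2} {T1 : ℝ}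

private theorem PFlow.psi_cont (h : PFlow ψ U T1) : Continuous (fun q : ℝ × R2 => ψ q.1 q.2) :=
  continuous_iff_continuousAt.2 fun z => (h.ana z (mem_univ _)).continuousAt

private theorem PFlow.u_cont (h : PFlow ψ U T1) : Continuous U :=
  continuous_iff_continuousAt.2 fun z => (h.uana z (mem_univ _)).continuousAt

private theorem PFlow.orb_cont (h : PFlow ψ U T1) (x : R2) : Continuous (fun t : ℝ => ψ t x) :=
  h.psi_cont.comp (Continuous.prodMk_left x)

private theorem PFlow.der0 (h : PFlow ψ U T1) (x : R2) :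
    HasDerivAt (fun t => ψ t x) (U x) 0 := by
  have h1 := h.der 0 x
  rwa [h.zero] at h1

theorem PFlow.uper (h : PFlow ψ U T1) (x : R2) (k : ℤ × ℤ) : U (x + zz k) = U x := by
  have h1 := h.der0 (x + zz k)
  have h2 : HasDerivAt (fun t => ψ t x + zz k) (U x) 0 := (h.der0 x).add_const (zz k)
  have h3 : (fun t => ψ t (x + zz k)) = fun t => ψ t x + zz k := funext fun t => h.per t x k
  rw [h3] at h1
  exact h1.unique h2

private theorem PFlow.int_ana (h : PFlow ψ U T1) {G : R2 → ℝ} (hG : AnalyticOnNhd ℝ G univ)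
    (T : ℝ) : AnalyticOnNhd ℝ (fun x : R2 => ∫ t in (0 : ℝ)..T, G (ψ t x)) univ := by
  intro x _
  have h1 : AnalyticAt ℝ (fun x : R2 => (T, x)) x := analyticAt_const.prod analyticAt_id
  exact AnalyticAt.comp (g := fun q : ℝ × R2 => ∫ t in (0 : ℝ)..q.1, G (ψ t q.2))
    (f := fun x : R2 => (T, x)) (flow_int_ana h.ana h.zero h.add hG _ (mem_univ _)) h1

private theorem PFlow.gs_ana (h : PFlow ψ U T1) :
    AnalyticOnNhd ℝ (fun x : R2 => x.2 * (U x).1) univ := by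
  intro x _
  have h1 : AnalyticAt ℝ (fun x : R2 => (U x).1) x :=
    AnalyticAt.comp (g := fun p : R2 => p.1) (f := U) analyticAt_fst (h.uana x (mem_univ _))
  exact analyticAt_snd.mul h1

private theorem PFlow.fst_int (h : PFlow ψ U T1) (x : R2) (a b : ℝ) :
    IntervalIntegrable (fun t => (ψ t x).1) volume a b :=
  ((continuous_fst.comp (h.orb_cont x))).intervalIntegrable _ _

private theorem div_int (T a b : ℝ) : IntervalIntegrable (fun t : ℝ => t / T) volume a b :=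
  (continuous_id.div_const T).intervalIntegrable _ _

theorem PFlow.tau_ana (h : PFlow ψ U T1) : AnalyticOnNhd ℝ (tau ψ T1) univ := by
  have h1 : tau ψ T1 = fun x => (∫ t in (0 : ℝ)..T1, (ψ t x).1) - ∫ t in (0 : ℝ)..T1, t / T1 := by
    funext x
    exact intervalIntegral.integral_sub (h.fst_int x _ _) (div_int _ _ _)
  rw [h1]
  intro x hx
  exact (h.int_ana (G := fun x : R2 => x.1) (fun x _ => analyticAt_fst) T1 x hx).sub
    analyticAt_const

theorem PFlow.sig_ana (h : PFlow ψ U T1) : AnalyticOnNhd ℝ (sig ψ U T1) univ :=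
  h.int_ana h.gs_ana T1

theorem PFlow.tau_per (h : PFlow ψ U T1) (x : R2) (k : ℤ × ℤ) :
    tau ψ T1 (x + zz k) = tau ψ T1 x + k.1 * T1 := by
  unfold tau
  have h1 : ∀ t : ℝ, (ψ t (x + zz k)).1 - t / T1 = ((ψ t x).1 - t / T1) + (k.1 : ℝ) := by
    intro t
    rw [h.per]
    simp only [Prod.fst_add, zz]
    ring
  simp only [h1]
  rw [intervalIntegral.integral_add ((h.fst_int x _ _).sub (div_int _ _ _))
    intervalIntegrable_const, intervalIntegral.integral_const, smul_eq_mul]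
  ring

private theorem PFlow.u_int (h : PFlow ψ U T1) (x : R2) (a b : ℝ) :
    IntervalIntegrable (fun t => (U (ψ t x)).1) volume a b :=
  (continuous_fst.comp (h.u_cont.comp (h.orb_cont x))).intervalIntegrable _ _

private theorem PFlow.g_int (h : PFlow ψ U T1) (x : R2) (a b : ℝ) :
    IntervalIntegrable (fun t => (ψ t x).2 * (U (ψ t x)).1) volume a b :=
  ((continuous_snd.comp (h.orb_cont x)).mul
    (continuous_fst.comp (h.u_cont.comp (h.orb_cont x)))).intervalIntegrable _ _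

theorem PFlow.sig_per (h : PFlow ψ U T1) (x : R2) (k : ℤ × ℤ) :
    sig ψ U T1 (x + zz k) = sig ψ U T1 x + k.2 := by
  unfold sig
  have h1 : ∀ t : ℝ, (ψ t (x + zz k)).2 * (U (ψ t (x + zz k))).1 =
      (ψ t x).2 * (U (ψ t x)).1 + (k.2 : ℝ) * (U (ψ t x)).1 := by
    intro t
    rw [h.per, h.uper]
    simp only [Prod.snd_add, zz]
    ring
  simp only [h1]
  have h2 : ∫ t in (0 : ℝ)..T1, (U (ψ t x)).1 = 1 := by
    have h3 : ∀ t ∈ uIcc 0 T1, HasDerivAt (fun t => (ψ t x).1) (U (ψ t x)).1 t := fun t _ =>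
      HasFDerivAt.comp_hasDerivAt (l := fun p : R2 => p.1) (f := fun t => ψ t x) t
        (hasFDerivAt_fst (𝕜 := ℝ) (E := ℝ) (F := ℝ) (p := ψ t x)) (h.der t x)
    rw [intervalIntegral.integral_eq_sub_of_hasDerivAt h3 (h.u_int x _ _), h.ret, h.zero]
    simp
  rw [intervalIntegral.integral_add (h.g_int x _ _) ((h.u_int x _ _).const_mul _),
    intervalIntegral.integral_const_mul, h2, mul_one]

private theorem PFlow.shift (h : PFlow ψ U T1) (x : R2) (r : ℝ) :
    ψ (r + T1) x = ψ r x + zz (1, 0) := by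
  have h1 : ((1 : ℝ), (0 : ℝ)) = zz (1, 0) := by simp [zz]
  rw [h.add, h.ret, h1, h.per]

theorem PFlow.tau_flow (h : PFlow ψ U T1) (x : R2) (u : ℝ) :
    tau ψ T1 (ψ u x) = tau ψ T1 x + u := by
  have hT : T1 ≠ 0 := h.T0.ne'
  set F : ℝ → ℝ := fun r => (ψ r x).1 - r / T1 with hF
  have hper : Function.Periodic F T1 := by
    intro r
    simp only [hF, h.shift, Prod.fst_add, zz, Int.cast_one]
    field_simp
    ring
  have hFi : ∀ a b, IntervalIntegrable F volume a b := fun a b =>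
    (h.fst_int x _ _).sub (div_int _ _ _)
  have h1 : tau ψ T1 (ψ u x) = ∫ t in (0 : ℝ)..T1, (F (t + u) + u / T1) := by
    unfold tau
    refine intervalIntegral.integral_congr fun t _ => ?_
    simp only [hF, h.add]
    ring
  have hFc : Continuous F := (continuous_fst.comp (h.orb_cont x)).sub (continuous_id.div_const T1)
  have h2 : ∫ t in (0 : ℝ)..T1, F (t + u) = ∫ t in (0 : ℝ)..T1, F t := by
    rw [intervalIntegral.integral_comp_add_right (f := F) u, zero_add, add_comm T1 u,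
      hper.intervalIntegral_add_eq u 0, zero_add]
  have h3 : IntervalIntegrable (fun t => F (t + u)) volume 0 T1 :=
    (hFc.comp (continuous_add_const u)).intervalIntegrable _ _
  rw [h1, intervalIntegral.integral_add h3
    intervalIntegrable_const, h2, intervalIntegral.integral_const, smul_eq_mul]
  show tau ψ T1 x + _ = _
  rw [sub_zero, mul_div_cancel₀ _ hT]

theorem PFlow.sig_flow (h : PFlow ψ U T1) (x : R2) (u : ℝ) :
    sig ψ U T1 (ψ u x) = sig ψ U T1 x := by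
  set F : ℝ → ℝ := fun r => (ψ r x).2 * (U (ψ r x)).1 with hF
  have hper : Function.Periodic F T1 := by
    intro r
    simp only [hF, h.shift, h.uper, Prod.snd_add]
    simp [zz]
  have h1 : sig ψ U T1 (ψ u x) = ∫ t in (0 : ℝ)..T1, F (t + u) := by
    unfold sig
    refine intervalIntegral.integral_congr fun t _ => ?_
    simp only [hF, h.add]
  rw [h1, intervalIntegral.integral_comp_add_right (f := F) u, zero_add, add_comm T1 u,
    hper.intervalIntegral_add_eq u 0, zero_add]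
  rfl

private theorem PFlow.chain0 (h : PFlow ψ U T1) {f : R2 → ℝ} (hf : AnalyticOnNhd ℝ f univ)
    (x : R2) : HasDerivAt (fun u => f (ψ u x)) (fderiv ℝ f x (U x)) 0 := by
  have h1 : HasFDerivAt f (fderiv ℝ f (ψ 0 x)) (ψ 0 x) :=
    (hf _ (mem_univ _)).differentiableAt.hasFDerivAt
  have h2 := HasFDerivAt.comp_hasDerivAt (l := f) (f := fun u => ψ u x) 0 h1 (h.der0 x)
  rwa [h.zero] at h2

theorem PFlow.dtau (h : PFlow ψ U T1) (x : R2) : fderiv ℝ (tau ψ T1) x (U x) = 1 := by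
  have h1 := h.chain0 h.tau_ana x
  have h2 : HasDerivAt (fun u : ℝ => tau ψ T1 x + u) 1 0 := (hasDerivAt_id _).const_add _
  have h3 : (fun u => tau ψ T1 (ψ u x)) = fun u => tau ψ T1 x + u := funext fun u => h.tau_flow x u
  rw [h3] at h1
  exact h1.unique h2

theorem PFlow.dsig (h : PFlow ψ U T1) (x : R2) : fderiv ℝ (sig ψ U T1) x (U x) = 0 := by
  have h1 := h.chain0 h.sig_ana x
  have h3 : (fun u => sig ψ U T1 (ψ u x)) = fun _ => sig ψ U T1 x := funext fun u => h.sig_flow x u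
  rw [h3] at h1
  exact h1.unique (hasDerivAt_const _ _)

/-- Derivative in the time of the derivative in the space variable. -/
private theorem str_mixed {F : Type} [NormedAddCommGroup F] [NormedSpace ℝ F] [CompleteSpace F]
    {G : ℝ → R2 → F} {H : ℝ → R2 → F}
    (hG : AnalyticOnNhd ℝ (fun q : ℝ × R2 => G q.1 q.2) univ)
    (hH : ∀ t y, HasDerivAt (fun t => G t y) (H t y) t) (t : ℝ) (z u : R2) :
    HasDerivAt (fun t => fderiv ℝ (G t) z u) (fderiv ℝ (H t) z u) t := by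
  set Gu : ℝ × R2 → F := fun q => G q.1 q.2 with hGu
  have hdG : AnalyticOnNhd ℝ (fderiv ℝ Gu) univ := hG.fderiv
  have hd : ∀ q, HasFDerivAt Gu (fderiv ℝ Gu q) q := fun q =>
    (hG q (mem_univ _)).differentiableAt.hasFDerivAt
  have hdd : ∀ q, HasFDerivAt (fderiv ℝ Gu) (fderiv ℝ (fderiv ℝ Gu) q) q := fun q =>
    (hdG q (mem_univ _)).differentiableAt.hasFDerivAt
  have e1 : ∀ t, fderiv ℝ (G t) z u = fderiv ℝ Gu (t, z) (0, u) := by
    intro t
    have h1 : HasFDerivAt (fun y : R2 => (t, y)) (ContinuousLinearMap.inr ℝ ℝ R2) z :=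
      hasFDerivAt_prodMk_right t z
    have h2 : HasFDerivAt (G t) ((fderiv ℝ Gu (t, z)).comp (ContinuousLinearMap.inr ℝ ℝ R2)) z :=
      HasFDerivAt.comp (g := Gu) (f := fun y : R2 => (t, y)) z (hd (t, z)) h1
    rw [h2.fderiv]
    rfl
  have e2 : ∀ y, H t y = fderiv ℝ Gu (t, y) (1, 0) := by
    intro y
    have h2 : HasDerivAt (fun s : ℝ => (s, y)) ((1 : ℝ), (0 : R2)) t :=
      (hasDerivAt_id t).prodMk (hasDerivAt_const t y)
    have h3 : HasDerivAt (fun s : ℝ => G s y) (fderiv ℝ Gu (t, y) (1, 0)) t :=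
      HasFDerivAt.comp_hasDerivAt (l := Gu) (f := fun s : ℝ => (s, y)) t (hd (t, y)) h2
    exact (hH t y).unique h3
  have e3 : fderiv ℝ (H t) z u = fderiv ℝ (fderiv ℝ Gu) (t, z) (0, u) (1, 0) := by
    have h0 : H t = fun y => fderiv ℝ Gu (t, y) (1, 0) := funext e2
    have h1 : HasFDerivAt (fun y : R2 => (t, y)) (ContinuousLinearMap.inr ℝ ℝ R2) z :=
      hasFDerivAt_prodMk_right t z
    have h2 : HasFDerivAt (fun y : R2 => fderiv ℝ Gu (t, y))
        ((fderiv ℝ (fderiv ℝ Gu) (t, z)).comp (ContinuousLinearMap.inr ℝ ℝ R2)) z :=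
      HasFDerivAt.comp (g := fderiv ℝ Gu) (f := fun y : R2 => (t, y)) z (hdd (t, z)) h1
    have h3 : HasFDerivAt (fun y : R2 => fderiv ℝ Gu (t, y) (1, 0))
        ((ContinuousLinearMap.apply ℝ F ((1 : ℝ), (0 : R2))).comp
          ((fderiv ℝ (fderiv ℝ Gu) (t, z)).comp (ContinuousLinearMap.inr ℝ ℝ R2))) z :=
      ((ContinuousLinearMap.apply ℝ F ((1 : ℝ), (0 : R2))).hasFDerivAt).comp z h2
    rw [h0, h3.fderiv]
    rfl
  have hs : IsSymmSndFDerivAt ℝ Gu (t, z) := by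
    have hc : ContDiffAt ℝ 2 Gu (t, z) := (hG (t, z) (mem_univ _)).contDiffAt
    exact hc.isSymmSndFDerivAt (by simp)
  have e4 : fderiv ℝ (H t) z u = fderiv ℝ (fderiv ℝ Gu) (t, z) (1, 0) (0, u) := by
    rw [e3]; exact hs _ _
  have e5 : (fun t => fderiv ℝ (G t) z u) = fun t => fderiv ℝ Gu (t, z) (0, u) := funext e1
  rw [e4, e5]
  have h2 : HasDerivAt (fun s : ℝ => (s, z)) ((1 : ℝ), (0 : R2)) t :=
    (hasDerivAt_id t).prodMk (hasDerivAt_const t z)
  have h3 : HasDerivAt (fun s : ℝ => fderiv ℝ Gu (s, z))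
      (fderiv ℝ (fderiv ℝ Gu) (t, z) (1, 0)) t :=
    HasFDerivAt.comp_hasDerivAt (l := fderiv ℝ Gu) (f := fun s : ℝ => (s, z)) t (hdd (t, z)) h2
  have h4 := h3.clm_apply (hasDerivAt_const t ((0 : ℝ), u))
  simpa using h4

/-- A linear map multiplies the determinant by a constant. -/
private theorem dtm_map (M : R2 →L[ℝ] R2) (a b : R2) :
    dtm (M a) (M b) = dtm (M (1, 0)) (M (0, 1)) * dtm a b := by
  have h1 : ∀ v : R2, M v = v.1 • M (1, 0) + v.2 • M (0, 1) := by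
    intro v
    rw [← map_smul, ← map_smul, ← map_add]
    congr 1
    ext <;> simp
  rw [h1 a, h1 b]
  simp only [dtm, Prod.fst_add, Prod.snd_add, Prod.smul_fst, Prod.smul_snd, smul_eq_mul]
  ring

private theorem PFlow.psi_diff (h : PFlow ψ U T1) (t : ℝ) (x : R2) :
    DifferentiableAt ℝ (ψ t) x := by
  have h1 : AnalyticAt ℝ (fun x : R2 => (t, x)) x := analyticAt_const.prod analyticAt_id
  exact (AnalyticAt.comp (g := fun q : ℝ × R2 => ψ q.1 q.2)
    (f := fun x : R2 => (t, x)) (h.ana _ (mem_univ _)) h1).differentiableAt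

private theorem PFlow.d_cont (h : PFlow ψ U T1) (x e : R2) :
    Continuous (fun t => fderiv ℝ (ψ t) x e) := by
  have hH : ∀ t y, HasDerivAt (fun t => ψ t y) (U (ψ t y)) t := h.der
  exact continuous_iff_continuousAt.2 fun t =>
    (str_mixed (G := ψ) (H := fun t y => U (ψ t y)) h.ana hH t x e).continuousAt

private theorem PFlow.du (h : PFlow ψ U T1) (t : ℝ) (x : R2) :
    U (ψ t x) = fderiv ℝ (ψ t) x (U x) := by
  have h1 : HasDerivAt (fun s => ψ (t + s) x) (U (ψ t x)) 0 := by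
    have h2 : HasDerivAt (fun s => ψ s x) (U (ψ (t + 0) x)) (t + 0) := h.der (t + 0) x
    have h3 := h2.comp_const_add t 0
    rwa [add_zero] at h3
  have h2 : HasDerivAt (fun s => ψ t (ψ s x)) (fderiv ℝ (ψ t) x (U x)) 0 := by
    have h3 : HasFDerivAt (ψ t) (fderiv ℝ (ψ t) (ψ 0 x)) (ψ 0 x) :=
      (h.psi_diff t _).hasFDerivAt
    have h4 := HasFDerivAt.comp_hasDerivAt (l := ψ t) (f := fun u => ψ u x) 0 h3 (h.der0 x)
    rwa [h.zero] at h4
  have h3 : (fun s => ψ (t + s) x) = fun s => ψ t (ψ s x) := funext fun s => h.add t s x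
  rw [h3] at h1
  exact h1.unique h2

private noncomputable def jac (ψ : ℝ → R2 → R2) (x : R2) (t : ℝ) : ℝ :=
  dtm (fderiv ℝ (ψ t) x (1, 0)) (fderiv ℝ (ψ t) x (0, 1))

private theorem PFlow.jac_cont (h : PFlow ψ U T1) (x : R2) : Continuous (jac ψ x) := by
  unfold jac dtm
  exact ((continuous_fst.comp (h.d_cont x _)).mul (continuous_snd.comp (h.d_cont x _))).sub
    ((continuous_snd.comp (h.d_cont x _)).mul (continuous_fst.comp (h.d_cont x _)))

private theorem PFlow.jac_zero (h : PFlow ψ U T1) (x : R2) : jac ψ x 0 = 1 := by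
  have h4 : ψ 0 = id := funext h.zero
  unfold jac
  rw [h4, fderiv_id]
  simp [dtm]

private theorem PFlow.jac_ne (h : PFlow ψ U T1) (x : R2) (t : ℝ) : jac ψ x t ≠ 0 := by
  intro h0
  have h1 : HasFDerivAt (fun y => ψ (-t) (ψ t y))
      ((fderiv ℝ (ψ (-t)) (ψ t x)).comp (fderiv ℝ (ψ t) x)) x :=
    HasFDerivAt.comp (g := ψ (-t)) (f := ψ t) x (h.psi_diff _ _).hasFDerivAt
      (h.psi_diff _ _).hasFDerivAt
  have h2 : (fun y => ψ (-t) (ψ t y)) = id := by
    funext y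
    rw [← h.add, neg_add_cancel, h.zero]
    rfl
  rw [h2] at h1
  have h3 : (fderiv ℝ (ψ (-t)) (ψ t x)).comp (fderiv ℝ (ψ t) x) =
      ContinuousLinearMap.id ℝ R2 := h1.unique (hasFDerivAt_id x)
  have h4 : dtm ((fderiv ℝ (ψ (-t)) (ψ t x)) (fderiv ℝ (ψ t) x (1, 0)))
      ((fderiv ℝ (ψ (-t)) (ψ t x)) (fderiv ℝ (ψ t) x (0, 1))) = 1 := by
    have h5 := DFunLike.congr_fun h3 ((1 : ℝ), (0 : ℝ))
    have h6 := DFunLike.congr_fun h3 ((0 : ℝ), (1 : ℝ))
    simp only [ContinuousLinearMap.comp_apply, ContinuousLinearMap.id_apply] at h5 h6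
    rw [h5, h6]
    simp [dtm]
  rw [dtm_map] at h4
  unfold jac at h0
  rw [h0, mul_zero] at h4
  exact zero_ne_one h4

private theorem PFlow.jac_pos (h : PFlow ψ U T1) (x : R2) (t : ℝ) : 0 < jac ψ x t := by
  by_contra hn
  have h1 : (0 : ℝ) ∈ range (jac ψ x) :=
    mem_range_of_exists_le_of_exists_ge (h.jac_cont x) ⟨t, not_lt.1 hn⟩
      ⟨0, by rw [h.jac_zero]; exact zero_le_one⟩
  obtain ⟨s, hs⟩ := h1
  exact h.jac_ne x s hs

theorem PFlow.dsig_det (h : PFlow ψ U T1) (x : R2) :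
    ∃ c > 0, ∀ w, fderiv ℝ (sig ψ U T1) x w = c * dtm (U x) w := by
  refine ⟨∫ t in (0 : ℝ)..T1, jac ψ x t, ?_, fun w => ?_⟩
  · exact intervalIntegral.intervalIntegral_pos_of_pos_on
      ((h.jac_cont x).intervalIntegrable _ _) (fun t _ => h.jac_pos x t) h.T0
  set A : ℝ → R2 → ℝ := fun t y => ∫ r in (0 : ℝ)..t, (ψ r y).2 * (U (ψ r y)).1 with hA
  have hAa : AnalyticOnNhd ℝ (fun q : ℝ × R2 => A q.1 q.2) univ :=
    flow_int_ana h.ana h.zero h.add h.gs_ana
  have hAd : ∀ t y, HasDerivAt (fun t => A t y) ((ψ t y).2 * (U (ψ t y)).1) t := fun t y =>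
    (((continuous_snd.comp (h.orb_cont y)).mul
      (continuous_fst.comp (h.u_cont.comp (h.orb_cont y)))).integral_hasStrictDerivAt 0
        t).hasDerivAt
  have hS := fun t => str_mixed (G := A) (H := fun t y => (ψ t y).2 * (U (ψ t y)).1) hAa hAd t x w
  have hD := fun t => str_mixed (G := ψ) (H := fun t y => U (ψ t y)) h.ana h.der t x w
  have hUd : ∀ t, HasFDerivAt (fun y => U (ψ t y))
      ((fderiv ℝ U (ψ t x)).comp (fderiv ℝ (ψ t) x)) x := fun t =>
    HasFDerivAt.comp (g := U) (f := ψ t) x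
      (h.uana _ (mem_univ _)).differentiableAt.hasFDerivAt (h.psi_diff t x).hasFDerivAt
  have hUd1 : ∀ t, HasFDerivAt (fun y => (U (ψ t y)).1)
      ((ContinuousLinearMap.fst ℝ ℝ ℝ).comp
        ((fderiv ℝ U (ψ t x)).comp (fderiv ℝ (ψ t) x))) x := fun t => (hUd t).fst
  have hpd2 : ∀ t, HasFDerivAt (fun y => (ψ t y).2)
      ((ContinuousLinearMap.snd ℝ ℝ ℝ).comp (fderiv ℝ (ψ t) x)) x := fun t =>
    (h.psi_diff t x).hasFDerivAt.snd
  have e1 : ∀ t, fderiv ℝ (fun y => (ψ t y).2 * (U (ψ t y)).1) x w =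
      (ψ t x).2 * (fderiv ℝ U (ψ t x) (fderiv ℝ (ψ t) x w)).1 +
        (U (ψ t x)).1 * (fderiv ℝ (ψ t) x w).2 := by
    intro t
    have h1 := (hpd2 t).mul (hUd1 t)
    have h2 : (fun y => (ψ t y).2 * (U (ψ t y)).1) =
        (fun y => (ψ t y).2) * fun y => (U (ψ t y)).1 := rfl
    rw [h2, h1.fderiv]
    rfl
  have e2 : ∀ t, fderiv ℝ (fun y => U (ψ t y)) x w =
      fderiv ℝ U (ψ t x) (fderiv ℝ (ψ t) x w) := by
    intro t
    rw [(hUd t).fderiv]
    rfl
  have hP : ∀ t, HasDerivAt (fun t => fderiv ℝ (A t) x w -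
      (ψ t x).2 * (fderiv ℝ (ψ t) x w).1) (jac ψ x t * dtm (U x) w) t := by
    intro t
    have h1 := hS t
    have h2 := hD t
    rw [e1] at h1
    rw [e2] at h2
    have h3 : HasDerivAt (fun t => (fderiv ℝ (ψ t) x w).1)
        (fderiv ℝ U (ψ t x) (fderiv ℝ (ψ t) x w)).1 t :=
      HasFDerivAt.comp_hasDerivAt (l := fun p : R2 => p.1) (f := fun t => fderiv ℝ (ψ t) x w) t
        (hasFDerivAt_fst (𝕜 := ℝ) (E := ℝ) (F := ℝ) (p := fderiv ℝ (ψ t) x w)) h2
    have h4 : HasDerivAt (fun t => (ψ t x).2) (U (ψ t x)).2 t :=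
      HasFDerivAt.comp_hasDerivAt (l := fun p : R2 => p.2) (f := fun t => ψ t x) t
        (hasFDerivAt_snd (𝕜 := ℝ) (E := ℝ) (F := ℝ) (p := ψ t x)) (h.der t x)
    have h5 := h1.sub (h4.mul h3)
    have h6 : jac ψ x t * dtm (U x) w = (ψ t x).2 *
        (fderiv ℝ U (ψ t x) (fderiv ℝ (ψ t) x w)).1 + (U (ψ t x)).1 * (fderiv ℝ (ψ t) x w).2 -
        ((U (ψ t x)).2 * (fderiv ℝ (ψ t) x w).1 +
          (ψ t x).2 * (fderiv ℝ U (ψ t x) (fderiv ℝ (ψ t) x w)).1) := by
      have h7 : dtm (U (ψ t x)) (fderiv ℝ (ψ t) x w) = jac ψ x t * dtm (U x) w := by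
        rw [h.du t x, dtm_map]
        rfl
      rw [← h7]
      simp only [dtm]
      ring
    rw [h6]
    exact h5
  have hI := intervalIntegral.integral_eq_sub_of_hasDerivAt (a := 0) (b := T1)
    (fun t _ => hP t) (((h.jac_cont x).mul continuous_const).intervalIntegrable _ _)
  have f1 : fderiv ℝ (A 0) x w = 0 := by
    have h4 : A 0 = fun _ => 0 := by
      funext y
      simp [hA]
    rw [h4]
    simp
  have f2 : fderiv ℝ (ψ 0) x w = w := by
    have h4 : ψ 0 = id := funext h.zero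
    rw [h4, fderiv_id]
    rfl
  have f3 : fderiv ℝ (ψ T1) x w = w := by
    have h4 : ψ T1 = fun y => y + ((1 : ℝ), (0 : ℝ)) := funext h.ret
    rw [h4, fderiv_add_const]
    simp
  have f4 : A T1 = sig ψ U T1 := rfl
  simp only [f1, f2, f3, f4, h.zero, h.ret, Prod.snd_add, add_zero, zero_sub, sub_neg_eq_add,
    sub_add_cancel, intervalIntegral.integral_mul_const] at hI
  exact hI.symm

end Pool.Agent.DB
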